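import Pool.Agent.GT3.St

/-! Module CMB3 (project GT3): partners in a list of functions with sum zero. -/

namespace Pool.Agent.GT3

namespace CMB3

variable {Γ : Type} [Fintype Γ]

/-- the inner product -/
noncomputable def ip (f g : Γ → ℝ) : ℝ := ∑ σ, f σ * g σ

/-- `1` for `u`, `-1` for `-u` -/
noncomputable def dl (u w : Γ → ℝ) : ℝ := (if w = u then 1 else 0) - (if w = -u then 1 else 0)

theorem ip_comm (f g : Γ → ℝ) : ip f g = ip g f := by
  unfold ip
  exact Finset.sum_congr rfl fun σ _ => mul_comm _ _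

theorem ip_neg (f g : Γ → ℝ) : ip (-f) g = - ip f g := by
  unfold ip
  rw [← Finset.sum_neg_distrib]
  exact Finset.sum_congr rfl fun σ _ => by rw [Pi.neg_apply]; ring

theorem ip_add (f g u : Γ → ℝ) : ip (f + g) u = ip f u + ip g u := by
  unfold ip
  rw [← Finset.sum_add_distrib]
  exact Finset.sum_congr rfl fun σ _ => by rw [Pi.add_apply]; ring

theorem ip_zero (u : Γ → ℝ) : ip 0 u = 0 := by
  unfold ip
  simp

theorem ip_self_pos {u : Γ → ℝ} (h : u ≠ 0) : 0 < ip u u := by
  have h0 : 0 ≤ ip u u := Finset.sum_nonneg fun σ _ => mul_self_nonneg _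
  rcases h0.lt_or_eq with h1 | h1
  · exact h1
  · exfalso
    apply h
    have h2 := (Finset.sum_eq_zero_iff_of_nonneg
      (fun σ (_ : σ ∈ Finset.univ) => mul_self_nonneg (u σ))).1 h1.symm
    funext σ
    exact mul_self_eq_zero.1 (h2 σ (Finset.mem_univ σ))

theorem sum_ip (m : List (Γ → ℝ)) (u : Γ → ℝ) : (m.map fun w => ip w u).sum = ip m.sum u := by
  induction m with
  | nil => simp [ip_zero]
  | cons w m ih => rw [List.map_cons, List.sum_cons, List.sum_cons, ip_add, ih]

theorem sum_dl (m : List (Γ → ℝ)) (u : Γ → ℝ) :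
    (m.map (dl u)).sum = (m.count u : ℝ) - (m.count (-u) : ℝ) := by
  induction m with
  | nil => simp
  | cons w m ih =>
    rw [List.map_cons, List.sum_cons, ih, List.count_cons, List.count_cons]
    unfold dl
    by_cases h1 : w = u <;> by_cases h2 : w = -u <;> simp [h1, h2] <;> ring

theorem dl_neg (u w : Γ → ℝ) : dl u (-w) = - dl u w := by
  unfold dl
  have h1 : (-w = u) ↔ (w = -u) := by
    constructor
    · rintro rfl; simp
    · rintro rfl; simp
  have h2 : (-w = -u) ↔ (w = u) := neg_inj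
  rw [if_congr h1 rfl rfl, if_congr h2 rfl rfl]
  ring

theorem dl_self {u : Γ → ℝ} (h : 0 < ip u u) : dl u u = 1 := by
  have h1 : u ≠ -u := by
    intro h2
    have h3 : ip u u = - ip u u := by
      conv_lhs => rw [h2]
      rw [ip_neg]
      rw [← h2]
    linarith
  unfold dl
  rw [if_pos rfl, if_neg h1]
  ring

theorem dl_zero {u w : Γ → ℝ} (h : |ip w u| < ip u u) : dl u w = 0 := by
  have h1 : w ≠ u := by
    rintro rfl
    exact absurd (le_abs_self (ip w w)) (not_le.2 h)
  have h2 : w ≠ -u := by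
    rintro rfl
    rw [ip_neg, abs_neg] at h
    exact absurd (le_abs_self (ip u u)) (not_le.2 h)
  unfold dl
  rw [if_neg h1, if_neg h2]
  ring

/-- the identity for one element -/
def Id4 (y y' z z' w u : Γ → ℝ) : Prop :=
  ip w u = dl y w * ip y u + dl y' w * ip y' u + dl z w * ip z u + dl z' w * ip z' u

theorem Id4.neg {y y' z z' w u : Γ → ℝ} (h : Id4 y y' z z' w u) : Id4 y y' z z' (-w) u := by
  unfold Id4 at *
  rw [ip_neg, dl_neg, dl_neg, dl_neg, dl_neg, h]
  ring

theorem id4_sum {y y' z z' u : Γ → ℝ} (m : List (Γ → ℝ)) (h : ∀ w ∈ m, Id4 y y' z z' w u) :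
    ip m.sum u = (m.map (dl y)).sum * ip y u + (m.map (dl y')).sum * ip y' u +
      (m.map (dl z)).sum * ip z u + (m.map (dl z')).sum * ip z' u := by
  induction m with
  | nil => simp [ip_zero]
  | cons w m ih =>
    have h1 := h w (List.mem_cons_self ..)
    have h2 := ih fun v hv => h v (List.mem_cons_of_mem _ hv)
    unfold Id4 at h1
    rw [List.sum_cons, ip_add, h1, h2]
    simp only [List.map_cons, List.sum_cons]
    ring

theorem blk_count {y y' z z' : Γ → ℝ} (m : List (Γ → ℝ)) (hm : m.sum = 0) (hB : Blk y y' z z')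
    (h : ∀ w ∈ m,
      (w = y ∨ w = - y ∨ w = y' ∨ w = - y' ∨ w = z ∨ w = - z ∨ w = z' ∨ w = - z') ∨
      (∑ σ, w σ * y σ = 0 ∧ ∑ σ, w σ * y' σ = 0 ∧ ∑ σ, w σ * z σ = 0 ∧ ∑ σ, w σ * z' σ = 0)) :
    (m.map (dl y)).sum = 0 := by
  obtain ⟨pos, nr1, nr2, nr3, or1, or2, in1, in2, in3, le⟩ := hB
  change 0 < ip y y at pos
  change ip y' y' = ip y y at nr1
  change ip z z = ip y y at nr2
  change ip z' z' = ip y y at nr3
  change ip y y' = 0 at or1
  change ip z z' = 0 at or2
  change ip y z' = ip y z at in1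
  change ip y' z = ip y z at in2
  change ip y' z' = - ip y z at in3
  change |2 * ip y z| ≤ ip y y at le
  have or1' : ip y' y = 0 := by rw [ip_comm, or1]
  have or2' : ip z' z = 0 := by rw [ip_comm, or2]
  have in0' : ip z y = ip y z := ip_comm _ _
  have in1' : ip z' y = ip y z := by rw [ip_comm, in1]
  have in2' : ip z y' = ip y z := by rw [ip_comm, in2]
  have in3' : ip z' y' = - ip y z := by rw [ip_comm, in3]
  obtain ⟨g, hg⟩ : ∃ g : ℝ, g = ip y z := ⟨_, rfl⟩
  obtain ⟨N, hN⟩ : ∃ N : ℝ, N = ip y y := ⟨_, rfl⟩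
  rw [← hg] at in1 in2 in3 in0' in1' in2' in3' le
  rw [← hN] at nr1 nr2 nr3 pos le
  have hgN : |g| < N := by
    rw [abs_mul, abs_of_pos (by norm_num : (0 : ℝ) < 2)] at le
    have := abs_nonneg g
    linarith
  have hgN' : |(-g)| < N := by rw [abs_neg]; exact hgN
  have h0N : |(0 : ℝ)| < N := by rw [abs_zero]; exact pos
  -- the values of `dl`
  have dyy : dl y y = 1 := dl_self (by rw [← hN]; exact pos)
  have dyy' : dl y y' = 0 := dl_zero (by rw [or1', ← hN]; exact h0N)
  have dyz : dl y z = 0 := dl_zero (by rw [in0', ← hN]; exact hgN)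
  have dyz' : dl y z' = 0 := dl_zero (by rw [in1', ← hN]; exact hgN)
  have dy'y : dl y' y = 0 := dl_zero (by rw [or1, nr1]; exact h0N)
  have dy'y' : dl y' y' = 1 := dl_self (by rw [nr1]; exact pos)
  have dy'z : dl y' z = 0 := dl_zero (by rw [in2', nr1]; exact hgN)
  have dy'z' : dl y' z' = 0 := dl_zero (by rw [in3', nr1]; exact hgN')
  have dzy : dl z y = 0 := dl_zero (by rw [← hg, nr2]; exact hgN)
  have dzy' : dl z y' = 0 := dl_zero (by rw [in2, nr2]; exact hgN)
  have dzz : dl z z = 1 := dl_self (by rw [nr2]; exact pos)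
  have dzz' : dl z z' = 0 := dl_zero (by rw [or2', nr2]; exact h0N)
  have dz'y : dl z' y = 0 := dl_zero (by rw [in1, nr3]; exact hgN)
  have dz'y' : dl z' y' = 0 := dl_zero (by rw [in3, nr3]; exact hgN')
  have dz'z : dl z' z = 0 := dl_zero (by rw [or2, nr3]; exact h0N)
  have dz'z' : dl z' z' = 1 := dl_self (by rw [nr3]; exact pos)
  have iy : ∀ u, Id4 y y' z z' y u := by
    intro u; unfold Id4; rw [dyy, dy'y, dzy, dz'y]; ring
  have iy' : ∀ u, Id4 y y' z z' y' u := by
    intro u; unfold Id4; rw [dyy', dy'y', dzy', dz'y']; ring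
  have iz : ∀ u, Id4 y y' z z' z u := by
    intro u; unfold Id4; rw [dyz, dy'z, dzz, dz'z]; ring
  have iz' : ∀ u, Id4 y y' z z' z' u := by
    intro u; unfold Id4; rw [dyz', dy'z', dzz', dz'z']; ring
  have hid : ∀ u, (u = y ∨ u = y' ∨ u = z ∨ u = z') → ∀ w ∈ m, Id4 y y' z z' w u := by
    intro u hu w hw
    rcases h w hw with h1 | ⟨o1, o2, o3, o4⟩
    · rcases h1 with rfl | rfl | rfl | rfl | rfl | rfl | rfl | rfl
      · exact iy u
      · exact (iy u).neg
      · exact iy' u
      · exact (iy' u).neg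
      · exact iz u
      · exact (iz u).neg
      · exact iz' u
      · exact (iz' u).neg
    · change ip w y = 0 at o1
      change ip w y' = 0 at o2
      change ip w z = 0 at o3
      change ip w z' = 0 at o4
      have d1 : dl y w = 0 := dl_zero (by rw [o1, ← hN]; exact h0N)
      have d2 : dl y' w = 0 := dl_zero (by rw [o2, nr1]; exact h0N)
      have d3 : dl z w = 0 := dl_zero (by rw [o3, nr2]; exact h0N)
      have d4 : dl z' w = 0 := dl_zero (by rw [o4, nr3]; exact h0N)
      have h5 : ip w u = 0 := by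
        rcases hu with rfl | rfl | rfl | rfl
        · exact o1
        · exact o2
        · exact o3
        · exact o4
      unfold Id4
      rw [h5, d1, d2, d3, d4]
      ring
  have s1 := id4_sum m (hid y (Or.inl rfl))
  have s2 := id4_sum m (hid y' (Or.inr (Or.inl rfl)))
  have s3 := id4_sum m (hid z (Or.inr (Or.inr (Or.inl rfl))))
  have s4 := id4_sum m (hid z' (Or.inr (Or.inr (Or.inr rfl))))
  rw [hm, ip_zero] at s1 s2 s3 s4
  rw [← hN, or1', in0', in1'] at s1
  rw [or1, nr1, in2', in3'] at s2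
  rw [← hg, in2, nr2, or2'] at s3
  rw [in1, in3, or2, nr3] at s4
  obtain ⟨c1, hc1⟩ : ∃ c : ℝ, c = (m.map (dl y)).sum := ⟨_, rfl⟩
  obtain ⟨c2, hc2⟩ : ∃ c : ℝ, c = (m.map (dl y')).sum := ⟨_, rfl⟩
  obtain ⟨c3, hc3⟩ : ∃ c : ℝ, c = (m.map (dl z)).sum := ⟨_, rfl⟩
  obtain ⟨c4, hc4⟩ : ∃ c : ℝ, c = (m.map (dl z')).sum := ⟨_, rfl⟩
  rw [← hc1, ← hc2, ← hc3, ← hc4] at s1 s2 s3 s4
  rw [← hc1]
  have h1 : c1 * (N ^ 2 - 2 * g ^ 2) = 0 := by
    linear_combination (-N) * s1 + g * s3 + g * s4
  have h2 : 4 * g ^ 2 ≤ N ^ 2 := by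
    have h3 : |2 * g| ^ 2 ≤ N ^ 2 := pow_le_pow_left₀ (abs_nonneg _) le 2
    rw [sq_abs] at h3
    linarith
  have h3 : 0 < N ^ 2 - 2 * g ^ 2 := by
    have h4 : 0 < N ^ 2 := by positivity
    have h5 := sq_nonneg g
    linarith
  rcases mul_eq_zero.1 h1 with h4 | h4
  · exact h4
  · exact absurd h4 h3.ne'

theorem one_count {y : Γ → ℝ} (m : List (Γ → ℝ)) (hm : m.sum = 0) (hy : y ≠ 0)
    (h : ∀ w ∈ m, w = y ∨ w = - y ∨ ∑ σ, w σ * y σ = 0) : (m.map (dl y)).sum = 0 := by
  have hp := ip_self_pos hy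
  have key : ∀ m' : List (Γ → ℝ), (∀ w ∈ m', w = y ∨ w = - y ∨ ∑ σ, w σ * y σ = 0) →
      ip m'.sum y = (m'.map (dl y)).sum * ip y y := by
    intro m'
    induction m' with
    | nil => intro _; simp [ip_zero]
    | cons w m' ih =>
      intro h'
      have h2 := ih fun v hv => h' v (List.mem_cons_of_mem _ hv)
      have h1 : ip w y = dl y w * ip y y := by
        rcases h' w (List.mem_cons_self ..) with rfl | rfl | h3
        · rw [dl_self hp]; ring
        · rw [dl_neg, dl_self hp, ip_neg]; ring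
        · change ip w y = 0 at h3
          rw [h3, dl_zero (by rw [h3, abs_zero]; exact hp)]
          ring
      rw [List.sum_cons, ip_add, h1, h2, List.map_cons, List.sum_cons]
      ring
  have h1 := key m h
  rw [hm, ip_zero] at h1
  rcases mul_eq_zero.1 h1.symm with h2 | h2
  · exact h2
  · exact absurd h2 hp.ne'

end CMB3

open CMB3 in
theorem t_CMB3 : S_CMB3 := by
  intro Γ _ l x H hsum hodd
  have claim : ∀ y ∈ x :: l, y ≠ 0 → (x :: l).count y = (x :: l).count (-y) := by
    intro y hy hy0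
    have h1 : ((x :: l).map (dl y)).sum = 0 := by
      rcases H y hy with h | ⟨y', z, z', hB, h⟩
      · exact one_count _ hsum hy0 h
      · exact blk_count _ hsum hB h
    rw [sum_dl] at h1
    have h2 : ((x :: l).count y : ℝ) = ((x :: l).count (-y) : ℝ) := by linarith
    exact_mod_cast h2
  have hneq : ∀ y : Γ → ℝ, y ≠ 0 → -y ≠ y := by
    intro y hy h
    apply hy
    funext σ
    have h1 := congrFun h σ
    rw [Pi.neg_apply] at h1
    rw [Pi.zero_apply]
    linarith
  by_cases hx : x = 0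
  · -- the number of zeros is even
    have hlen : Even (x :: l).length := by
      rw [List.length_cons]
      exact hodd.add_one
    have hs : ∑ f ∈ (x :: l).toFinset, (x :: l).count f = (x :: l).length :=
      List.sum_toFinset_count_eq_length _
    have h0mem : (0 : Γ → ℝ) ∈ (x :: l).toFinset := by
      rw [List.mem_toFinset, hx]
      exact List.mem_cons_self ..
    have hinv : ∑ f ∈ (x :: l).toFinset.erase 0, (((x :: l).count f : ℕ) : ZMod 2) = 0 := by
      refine Finset.sum_involution (fun f _ => -f) ?_ ?_ ?_ ?_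
      · intro f hf
        rw [Finset.mem_erase, List.mem_toFinset] at hf
        rw [← claim f hf.2 hf.1]
        exact CharTwo.add_self_eq_zero _
      · intro f hf _
        rw [Finset.mem_erase] at hf
        exact hneq f hf.1
      · intro f hf
        rw [Finset.mem_erase, List.mem_toFinset] at hf ⊢
        refine ⟨neg_ne_zero.2 hf.1, ?_⟩
        rw [← List.count_pos_iff, ← claim f hf.2 hf.1, List.count_pos_iff]
        exact hf.2
      · intro f _
        exact neg_neg f
    have h1 : (((x :: l).count 0 : ℕ) : ZMod 2) = 0 := by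
      have h2 : ((∑ f ∈ (x :: l).toFinset, (x :: l).count f : ℕ) : ZMod 2) = 0 := by
        rw [hs]
        exact (ZMod.natCast_eq_zero_iff_even).2 hlen
      rw [← Finset.add_sum_erase _ _ h0mem] at h2
      push_cast at h2
      rw [hinv, add_zero] at h2
      exact h2
    rw [ZMod.natCast_eq_zero_iff_even] at h1
    have h2 : (x :: l).count 0 = l.count 0 + 1 := by
      rw [hx, List.count_cons_self]
    rw [h2] at h1
    have h3 : 0 < l.count (0 : Γ → ℝ) := by
      rcases Nat.eq_zero_or_pos (l.count (0 : Γ → ℝ)) with h | h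
      · rw [h] at h1
        exact absurd h1 (by decide)
      · exact h
    exact ⟨0, List.count_pos_iff.1 h3, by rw [hx, neg_zero]⟩
  · have h1 := claim x (List.mem_cons_self ..) hx
    have h2 : 0 < (x :: l).count x := List.count_pos_iff.2 (List.mem_cons_self ..)
    rw [h1] at h2
    have h3 : -x ∈ x :: l := List.count_pos_iff.1 h2
    rw [List.mem_cons] at h3
    rcases h3 with h3 | h3
    · exact absurd h3 (hneq x hx)
    · exact ⟨-x, h3, rfl⟩

end Pool.Agent.GT3
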