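import Pool.Agent.GT3.St

/-!
# GT3: module INT3 (integers; helper89)
-/

set_option autoImplicit false

namespace Pool.Agent.GT3

open Pool.Agent.GT2

namespace INT3Aux

/-- Lifting of square roots, for all primes. -/
lemma hensel {p : ℕ} (hp : p.Prime) {M c : ℤ} (hc : ¬ (p : ℤ) ∣ c)
    (h : 4 * (p : ℤ) ∣ c ^ 2 - M) (k : ℕ) :
    ∃ x : ℤ, ¬ (p : ℤ) ∣ x ∧ 4 * (p : ℤ) ^ (k + 1) ∣ x ^ 2 - M := by
  have hpi : Prime (p : ℤ) := Nat.prime_iff_prime_int.1 hp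
  induction k with
  | zero => exact ⟨c, hc, by simpa using h⟩
  | succ k ih =>
    obtain ⟨x, hx, w, hw⟩ := ih
    have hco : IsCoprime (p : ℤ) x := (hpi.coprime_iff_not_dvd).2 hx
    obtain ⟨a, b, hab⟩ := hco
    refine ⟨x + 2 * (p : ℤ) ^ (k + 1) * (-(b * w)), ?_, ?_⟩
    · intro h1
      apply hx
      have h2 : (p : ℤ) ∣ 2 * (p : ℤ) ^ (k + 1) * (-(b * w)) :=
        (dvd_mul_of_dvd_right (dvd_pow_self _ (Nat.succ_ne_zero k)) 2).mul_right _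
      have h3 := dvd_sub h1 h2
      simpa using h3
    · refine ⟨a * w + (p : ℤ) ^ k * (b * w) ^ 2, ?_⟩
      linear_combination hw - 4 * (p : ℤ) ^ (k + 1) * w * hab

/-- A number which is a square unit modulo `4 p` is a `p`-adic square. -/
lemma ps_of {p : ℕ} (hp : p.Prime) {M c : ℤ} (hc : ¬ (p : ℤ) ∣ c)
    (h : 4 * (p : ℤ) ∣ c ^ 2 - M) : PS p M ∧ ¬ (p : ℤ) ∣ M := by
  have hpi : Prime (p : ℤ) := Nat.prime_iff_prime_int.1 hp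
  refine ⟨fun k => ?_, fun h1 => hc ?_⟩
  · obtain ⟨x, _, hx⟩ := hensel hp hc h k
    exact ⟨x, ((pow_dvd_pow (p : ℤ) (Nat.le_succ k)).mul_left 4).trans hx⟩
  · have h2 : (p : ℤ) ∣ c ^ 2 - M := (dvd_mul_left (p : ℤ) 4).trans h
    have h3 : (p : ℤ) ∣ c ^ 2 := by
      have h4 := dvd_add h2 h1
      simpa using h4
    exact hpi.dvd_of_dvd_pow h3

/-- The second factor of a square. -/
lemma ps_mul {p : ℕ} (hp : p.Prime) {M N z : ℤ} (hM : ¬ (p : ℤ) ∣ M) (h : PS p M)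
    (hz : M * N = z * z) : PS p N := by
  have hpi : Prime (p : ℤ) := Nat.prime_iff_prime_int.1 hp
  intro k
  obtain ⟨x, hx⟩ := h (k + 1)
  have hpx : ¬ (p : ℤ) ∣ x := by
    intro h1
    apply hM
    have h2 : (p : ℤ) ∣ x ^ 2 - M := (dvd_pow_self _ (Nat.succ_ne_zero k)).trans hx
    have h3 : (p : ℤ) ∣ x ^ 2 := dvd_pow h1 two_ne_zero
    have h4 := dvd_sub h3 h2
    simpa using h4
  have hco : IsCoprime ((p : ℤ) ^ (k + 1)) x :=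
    IsCoprime.pow_left ((hpi.coprime_iff_not_dvd).2 hpx)
  obtain ⟨a, y, hab⟩ := hco
  obtain ⟨w, hw⟩ := hx
  refine ⟨z * y, (p : ℤ) * (N * (-(a * (y * x + 1)) - w * y ^ 2)), ?_⟩
  linear_combination (-(y ^ 2)) * hz - N * y ^ 2 * hw + N * (y * x + 1) * hab

lemma dvd_q {p q : ℕ} (h : Pq p q) : (p : ℤ) ∣ (q : ℤ) := by
  obtain ⟨n, hn, rfl⟩ := h.pw
  rw [Nat.cast_pow]
  exact dvd_pow_self _ (by omega)

lemma q_pos {p q : ℕ} (h : Pq p q) : 0 < q := by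
  obtain ⟨n, _, rfl⟩ := h.pw
  exact pow_pos h.pr.pos n

lemma ps_DP {p q : ℕ} (h : Pq p q) {A B : ℤ} (hB : ¬ (p : ℤ) ∣ B) :
    PS p (DP q A B) ∧ ¬ (p : ℤ) ∣ DP q A B := by
  refine ps_of h.pr hB ?_
  have h1 : B ^ 2 - DP q A B = (4 * (q : ℤ)) * (A ^ 2 - 2 * B - 4 * q) := by
    unfold DP
    ring
  rw [h1]
  exact (mul_dvd_mul_left 4 (dvd_q h)).mul_right _

lemma ps_DD {p : ℕ} (hp : p.Prime) {A B : ℤ} (hA : ¬ (p : ℤ) ∣ A) (hB : (p : ℤ) ∣ B) :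
    PS p (DD A B) ∧ ¬ (p : ℤ) ∣ DD A B := by
  refine ps_of hp hA ?_
  have h1 : A ^ 2 - DD A B = 4 * B := by
    unfold DD
    ring
  rw [h1]
  exact mul_dvd_mul_left 4 hB

lemma sq_DD {q : ℕ} {A B : ℤ} (hA : A ≠ 0) (h0 : DP q A B = 0) :
    IsSquare (DD A B) := by
  unfold DP at h0
  have h1 : A ^ 2 ∣ (B + 4 * q) ^ 2 := ⟨4 * q, by linear_combination h0⟩
  have h2 : A ∣ B + 4 * q := (Int.pow_dvd_pow_iff two_ne_zero).1 h1
  obtain ⟨m, hm⟩ := h2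
  have h3 : m ^ 2 = 4 * q := by
    have h4 : A ^ 2 * (m ^ 2 - 4 * q) = 0 := by
      rw [hm] at h0
      linear_combination h0
    rcases mul_eq_zero.1 h4 with h5 | h5
    · exact absurd (pow_eq_zero_iff two_ne_zero |>.1 h5) hA
    · linarith
  refine ⟨A - 2 * m, ?_⟩
  unfold DD
  linear_combination (-4) * hm + 4 * (-h3)

end INT3Aux

open INT3Aux in
/-- Module INT3. -/
theorem t_INT3 : S_INT3 := by
  intro p q h A B A₁ B₁
  refine ⟨fun hA h0 => sq_DD hA h0, fun hN => ⟨?_, ?_, ?_⟩⟩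
  · rintro ⟨s, hs⟩
    exact hN fun k => ⟨s, by rw [hs]; simp [pow_two]⟩
  · rintro hB ⟨z, hz⟩
    obtain ⟨h1, h2⟩ := ps_DP (A := A) h hB
    exact hN (ps_mul h.pr h2 h1 hz)
  · rintro hA hB ⟨z, hz⟩
    obtain ⟨h1, h2⟩ := ps_DD h.pr hA hB
    exact hN (ps_mul h.pr h2 h1 hz)

end Pool.Agent.GT3
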