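import Pool.Agent.GT3.St
import Pool.Agent.GT2.LOC

/-!
# GT3, module LOC3: the slopes (every finite field)
-/

set_option autoImplicit false

open Pool.Agent.GT2

namespace Pool.Agent.GT3

noncomputable section

namespace LOC3Aux

variable {L : Type} [Field L] {v : AbsoluteValue L ℝ} {p q : ℕ}

lemma pq_prime (h : Pq p q) : p.Prime := h.pr

lemma pq_ne (h : Pq p q) : q ≠ 0 := by
  obtain ⟨n, -, rfl⟩ := h.pw
  exact pow_ne_zero n h.pr.ne_zero

lemma pq_lt (h : Pq p q) (h1 : v (p : L) < 1) : v (q : L) < 1 := by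
  obtain ⟨n, hn, rfl⟩ := h.pw
  rw [Nat.cast_pow, v.map_pow]
  exact pow_lt_one₀ (v.nonneg _) h1 (by omega)

end LOC3Aux

open LOC3Aux
open LOCAux in
theorem t_LOC3 : S_LOC3 := by
  intro L _ _ v p q hV A B a ha
  have hp := pq_prime hV.pq
  have hv := hV.na
  have hv1' := hV.lt
  have hq0 : (q : L) ≠ 0 := Nat.cast_ne_zero.2 (pq_ne hV.pq)
  have ha0 := ha.1
  have hP0 : 0 < v (q : L) := v.pos hq0
  have hv1 : v (q : L) < 1 := pq_lt hV.pq hv1'
  have hx0 : 0 < v a := v.pos ha0
  have hlog : Real.log (v (q : L)) ≠ 0 := (Real.log_neg hP0 hv1).ne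
  -- values of the slope
  have hF1 : v a = 1 → F q v a = 1 := by
    intro h
    unfold F
    rw [h, Real.log_one]
    simp
  have hF2 : v a = v (q : L) → F q v a = -1 := by
    intro h
    unfold F
    rw [h, div_self hlog]
    norm_num
  have hF0 : v a ^ 2 = v (q : L) → F q v a = 0 := by
    intro h
    unfold F
    rw [← h, Real.log_pow]
    have h1 : Real.log (v a) ≠ 0 := by
      intro h0
      rw [← h, Real.log_pow, h0] at hlog
      simp at hlog
    field_simp
    norm_num
  obtain ⟨t, ht⟩ : ∃ t, t = a + (q : L) / a := ⟨_, rfl⟩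
  have hb0 : (q : L) / a ≠ 0 := div_ne_zero hq0 ha0
  obtain ⟨b, hb⟩ : ∃ b, b = (q : L) / a := ⟨_, rfl⟩
  rw [← hb] at hb0
  have hy0 : 0 < v b := v.pos hb0
  have hab : a * b = q := by
    rw [hb]
    field_simp
  have hxy : v a * v b = v (q : L) := by rw [← v.map_mul, hab]
  have hrel := ha.2
  rw [← ht] at hrel
  have hbt : b + a = t := by rw [ht, hb, add_comm]
  have hqt : v t ^ 2 ≤ max (v (-(A : L)) * v t) (v (B : L)) :=
    quad hv (by linear_combination hrel)
  rw [v.map_neg] at hqt
  have hT1 : v t ≤ 1 := le_one (v.nonneg _) (int_le hv A) (int_le hv B) hqt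
  have hqa : v a ^ 2 ≤ max (v t * v a) (v (q : L)) :=
    quad hv (by linear_combination a * hbt - hab)
  have hqb : v b ^ 2 ≤ max (v t * v b) (v (q : L)) :=
    quad hv (by linear_combination b * hbt - hab)
  have hx1 : v a ≤ 1 := le_one hx0.le hT1 hv1.le hqa
  have hy1 : v b ≤ 1 := le_one hy0.le hT1 hv1.le hqb
  have hone : v t = 1 → F q v a = 1 ∨ F q v a = -1 := by
    intro h
    have h1 : 1 ≤ max (v b) (v a) := by
      rw [← h, ← hbt]
      exact hv b a
    rcases le_max_iff.1 h1 with h2 | h2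
    · right
      apply hF2
      have h3 : v b = 1 := le_antisymm hy1 h2
      rw [h3, mul_one] at hxy
      exact hxy
    · exact Or.inl (hF1 (le_antisymm hx1 h2))
  have hzero : v t ^ 2 ≤ v (q : L) → F q v a = 0 := by
    intro h
    exact hF0 (sq_eq hx0 hy0 hxy (sq_le hx0 h hqa) (sq_le hy0 h hqb))
  have hT'1 : v (-(A : L) - t) ≤ 1 := by
    refine (sub_le hv _ _).trans (max_le ?_ hT1)
    rw [v.map_neg]
    exact int_le hv A
  have hTT : v t * v (-(A : L) - t) = v (B : L) := by
    rw [← v.map_mul]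
    congr 1
    linear_combination -hrel
  refine ⟨fun hB => ?_, fun hA _ hB => ?_, fun hO => ?_, ?_⟩
  · apply hone
    have h1 := int_one hv hp hv1' hB
    rw [h1] at hTT
    refine le_antisymm hT1 ?_
    calc 1 = v t * v (-(A : L) - t) := hTT.symm
      _ ≤ v t * 1 := by gcongr
      _ = v t := mul_one _
  · rw [← ht]
    rcases hT1.lt_or_eq with h | h
    · right
      refine ⟨h, hzero ?_⟩
      have h1 := int_one hv hp hv1' hA
      have h2 : 1 ≤ v (-(A : L) - t) := by
        have h3 : v (-(A : L)) ≤ max (v (-(A : L) - t)) (v t) := by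
          have h4 := hv (-(A : L) - t) t
          rwa [sub_add_cancel] at h4
        rw [v.map_neg, h1] at h3
        rcases le_max_iff.1 h3 with h4 | h4
        · exact h4
        · exact absurd h4 (not_le.2 h)
      have h3 : v (-(A : L) - t) = 1 := le_antisymm hT'1 h2
      rw [h3, mul_one] at hTT
      rw [hTT]
      have h4 := int_dvd (p := q) hv hB
      rw [Int.cast_pow, v.map_pow] at h4
      exact h4
    · exact Or.inl ⟨h, hone h⟩
  · apply hzero
    have hA : v (A : L) ^ 2 ≤ v (q : L) := by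
      have h4 := int_dvd (p := q) hv hO.1
      rw [Int.cast_pow, v.map_pow] at h4
      exact h4
    rcases le_max_iff.1 hqt with h | h
    · have h1 : v t ≤ v (A : L) := by
        rcases (v.nonneg t).eq_or_lt with h0 | h0
        · rw [← h0]
          exact v.nonneg _
        · have h2 : v t * v t ≤ v (A : L) * v t := by rw [← sq]; exact h
          exact le_of_mul_le_mul_right h2 h0
      calc v t ^ 2 ≤ v (A : L) ^ 2 := by gcongr
        _ ≤ v (q : L) := hA
    · exact h.trans (int_dvd hv hO.2)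
  · unfold F
    rw [map_div₀, Real.log_div hP0.ne' hx0.ne']
    field_simp
    ring

end

end Pool.Agent.GT3
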