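import Pool.Agent.GT3.St

/-!
# GT3: module MIX, no mixed pairs
-/

set_option autoImplicit false

namespace Pool.Agent.GT3

open Pool.Agent.GT2

noncomputable section

namespace MIXAux

lemma one_le {p q : ℕ} (h : Pq p q) : 1 ≤ q := by
  obtain ⟨n, _, rfl⟩ := h.pw
  exact Nat.one_le_pow _ _ h.pr.pos

/-- the configuration for `q / a` -/
lemma cf_bar {L : Type} [Field L] [NumberField L] {q : ℕ} (hq : 1 ≤ q) {A B A₁ B₁ : ℤ} {a a₁ : L}
    (h : Cf q A B A₁ B₁ a a₁) : Cf q A B A₁ B₁ ((q : L) / a) a₁ := by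
  have ha := h.ra.1
  have hfix : ∀ τ : L ≃ₐ[ℚ] L, τ ((q : L) / a) = (q : L) / a ↔ τ a = a := by
    intro τ
    rw [map_bar]
    constructor
    · intro h1
      have h2 : (q : L) / ((q : L) / τ a) = (q : L) / ((q : L) / a) := by rw [h1]
      rwa [bar_bar hq ((map_ne_zero τ).2 ha), bar_bar hq ha] at h2
    · intro h1
      rw [h1]
  refine ⟨h.ra.bar hq, h.ra₁, h.d, h.dp, h.d₁, h.dp₁, h.c, ?_, ?_, ?_, ?_⟩
  · intro τ hτ
    exact h.n₁ τ ((hfix τ).1 hτ)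
  · intro τ hτ h1
    rw [map_bar, bar_bar hq ha] at h1
    apply h.n τ hτ
    have h2 : (q : L) / ((q : L) / τ a) = (q : L) / a := by rw [h1]
    rwa [bar_bar hq ((map_ne_zero τ).2 ha)] at h2
  · obtain ⟨τ, h1, h2⟩ := h.e₁
    exact ⟨τ, (hfix τ).2 h1, h2⟩
  · obtain ⟨τ, h1, h2⟩ := h.e
    exact ⟨τ, h1, fun h3 => h2 ((hfix τ).1 h3)⟩

/-- the slopes for the restriction of the absolute value -/
lemma F_comp {L M : Type} [Field L] [Field M] (i : L →+* M) (v : AbsoluteValue M ℝ) (q : ℕ)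
    (x : L) : F q (v.comp i.injective) x = F q v (i x) := by
  show 1 - 2 * (Real.log (v (i x)) / Real.log (v (i (q : L)))) = _
  rw [map_natCast]
  rfl

end MIXAux

open MIXAux in
/-- MIX -/
theorem t_MIX : M_MIX := by
  intro hLOC hREF hSWP hMXA hMXU hMXB hMXC
  intro L _ _ _ i v p q hpq hna hv hq4 A B A₁ B₁ a a₁ hT hT₁ hC hB hO
  have hq := one_le hpq
  obtain ⟨x, hx, -, hxx, -, hτ⟩ := hSWP L q hq A₁ B₁ a a₁ hC.ra₁ hC.n₁ hC.e₁
  obtain ⟨-, -, n, m, hn, -, -⟩ := hREF L q hq A B A₁ B₁ a a₁ hC.ra hC.ra₁ hC.d hC.dp hC.d₁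
    hC.dp₁ hC.c hC.n₁ hC.n hC.e₁ hC.e
  have hsq : IsSquare (DD A B * DP q A₁ B₁) := ⟨n, by rw [← hn]; ring⟩
  have hw : Vq L p q (v.comp i.injective) := by
    refine ⟨hpq, ?_, ?_⟩
    · intro y z
      show v (i (y + z)) ≤ max (v (i y)) (v (i z))
      rw [map_add]
      exact hna _ _
    · show v (i (p : L)) < 1
      rw [map_natCast]
      exact hv
  have hDD : DD A B ≠ 0 := by
    intro h0
    apply hC.d
    rw [h0]
    exact ⟨0, rfl⟩
  -- the first case, for an arbitrary root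
  have key : ∀ b : L, Cf q A B A₁ B₁ b a₁ →
      (∀ τ : L ≃ₐ[ℚ] L, τ b = b → (τ a₁ = a₁ ∧ τ x = x) ∨ (τ a₁ = x ∧ τ x = a₁)) →
      (∀ σ : L ≃ₐ[ℚ] L, F q (v.comp i.injective) (σ a₁) + F q (v.comp i.injective) (σ x) =
        F q (v.comp i.injective) (σ b)) → False := by
    intro b hCb hτb hF
    obtain ⟨N, hN, hpow⟩ := hMXU L i v p q hpq hna hv A B A₁ B₁ b a₁ x hT.w hT₁.w hCb.ra hCb.ra₁
      hx (fun σ => by
        have := hF σ
        rwa [F_comp, F_comp, F_comp] at this)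
    exact hMXC p q hpq hq4 A B A₁ B₁ hO hDD hsq
      (hMXB L q hq4 A B A₁ B₁ b a₁ x N hT.w.d hCb hx hxx hτb hN hpow)
  rcases hMXA L (v.comp i.injective) p q hw hq4 A B A₁ B₁ a a₁ x hC hB hO hsq hx hxx hτ with h | h
  · exact key a hC hτ h
  · refine key ((q : L) / a) (cf_bar hq hC) ?_ ?_
    · intro τ hτ1
      apply hτ τ
      rw [map_bar] at hτ1
      have h2 : (q : L) / ((q : L) / τ a) = (q : L) / ((q : L) / a) := by rw [hτ1]
      rwa [bar_bar hq ((map_ne_zero τ).2 hC.ra.1), bar_bar hq hC.ra.1] at h2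
    · intro σ
      rw [h σ, map_bar, (hLOC L (v.comp i.injective) p q hw A B (σ a) (hC.ra.map σ)).2.2.2]

end

end Pool.Agent.GT3
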