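import Pool.Agent.GT3.St
import Pool.Agent.GT2.LOC
import Pool.Agent.GT2.REF

/-!
# GT3, module MXA: congruences
-/

set_option autoImplicit false

namespace Pool.Agent.GT3

open Pool.Agent.GT2 Polynomial

noncomputable section

namespace MXAAux

open Pool.Agent.GT2.LOCAux Pool.Agent.GT2.REFAux

/-! ### integers -/

lemma pow_dvd {p : ℕ} (hp : p.Prime) : ∀ (k : ℕ) (B : ℤ), (p : ℤ) ^ (2 * k + 1) ∣ B ^ 2 →
    (p : ℤ) ^ (k + 1) ∣ B := by
  have hpp : Prime (p : ℤ) := Nat.prime_iff_prime_int.1 hp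
  have hp0 : (p : ℤ) ≠ 0 := hpp.ne_zero
  intro k
  induction k with
  | zero =>
    intro B h
    rw [mul_zero, zero_add, pow_one] at h
    rw [zero_add, pow_one]
    exact hpp.dvd_of_dvd_pow h
  | succ k ih =>
    intro B h
    have h1 : (p : ℤ) ∣ B := hpp.dvd_of_dvd_pow
      ((dvd_pow_self (p : ℤ) (by omega : 2 * (k + 1) + 1 ≠ 0)).trans h)
    obtain ⟨b, rfl⟩ := h1
    have h2 : (p : ℤ) ^ 2 * (p : ℤ) ^ (2 * k + 1) ∣ (p : ℤ) ^ 2 * b ^ 2 := by
      rw [← mul_pow, ← pow_add]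
      have e : 2 + (2 * k + 1) = 2 * (k + 1) + 1 := by ring
      rw [e]
      exact h
    have h3 := ih b ((mul_dvd_mul_iff_left (pow_ne_zero 2 hp0)).1 h2)
    rw [pow_succ' (p : ℤ) (k + 1)]
    exact mul_dvd_mul_left _ h3

lemma odd_sq {p : ℕ} (hp : p.Prime) : ∀ (k : ℕ) (e s : ℤ), ¬ (p : ℤ) ∣ e →
    s ^ 2 = (p : ℤ) ^ (2 * k + 1) * e → False := by
  have hpp : Prime (p : ℤ) := Nat.prime_iff_prime_int.1 hp
  have hp0 : (p : ℤ) ≠ 0 := hpp.ne_zero
  intro k
  induction k with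
  | zero =>
    intro e s he h
    rw [mul_zero, zero_add, pow_one] at h
    have h1 : (p : ℤ) ∣ s := hpp.dvd_of_dvd_pow (n := 2) (h ▸ dvd_mul_right _ _)
    obtain ⟨b, rfl⟩ := h1
    apply he
    refine ⟨b ^ 2, ?_⟩
    apply mul_left_cancel₀ hp0
    rw [← h]
    ring
  | succ k ih =>
    intro e s he h
    have h1 : (p : ℤ) ∣ s := by
      refine hpp.dvd_of_dvd_pow (n := 2) ?_
      rw [h]
      exact (dvd_pow_self (p : ℤ) (by omega : 2 * (k + 1) + 1 ≠ 0)).mul_right _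
    obtain ⟨b, rfl⟩ := h1
    refine ih e b he ?_
    apply mul_left_cancel₀ (pow_ne_zero 2 hp0)
    rw [← mul_pow, h]
    ring

lemma not_two {p q : ℕ} (h : Pq p q) (hq : q % 4 = 3) : ¬ (p : ℤ) ∣ 2 := by
  obtain ⟨n, hn, hqn⟩ := h.pw
  intro h2
  have h3 : p ∣ 2 := by exact_mod_cast h2
  have h4 : p = 2 := (Nat.prime_dvd_prime_iff_eq h.pr Nat.prime_two).1 h3
  have h5 : 2 ∣ q := by
    rw [hqn, h4]
    exact dvd_pow_self 2 (by omega)
  omega

lemma odd_exp {p q : ℕ} (h : Pq p q) (hq : q % 4 = 3) : ∃ k : ℕ, q = p ^ (2 * k + 1) := by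
  obtain ⟨n, hn, hqn⟩ := h.pw
  rcases Nat.even_or_odd' n with ⟨k, hk | hk⟩
  · exfalso
    have h1 : q = p ^ k * p ^ k := by rw [hqn, hk, two_mul, pow_add]
    have h2 : (p ^ k * p ^ k) % 4 = 3 := by rw [← h1]; exact hq
    rw [Nat.mul_mod] at h2
    have h3 : p ^ k % 4 < 4 := Nat.mod_lt _ (by norm_num)
    interval_cases (p ^ k % 4) <;> simp at h2
  · exact ⟨k, by rw [hqn, hk]⟩

/-- `DP` is an odd power of `p` times a number prime to `p` -/
lemma dp_odd {p q : ℕ} (h : Pq p q) (hq : q % 4 = 3) {A B : ℤ} (hA : ¬ (p : ℤ) ∣ A)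
    (hB : (q : ℤ) ∣ B ^ 2) : ∃ (k : ℕ) (e : ℤ), ¬ (p : ℤ) ∣ e ∧
      DP q A B = (p : ℤ) ^ (2 * k + 1) * e := by
  obtain ⟨k, hk⟩ := odd_exp h hq
  have hpp : Prime (p : ℤ) := Nat.prime_iff_prime_int.1 h.pr
  have hq' : (q : ℤ) = (p : ℤ) ^ (2 * k + 1) := by rw [hk]; push_cast; rfl
  obtain ⟨b, hb⟩ := pow_dvd h.pr k B (by rw [← hq']; exact hB)
  refine ⟨k, p * (b + 4 * (p : ℤ) ^ k) ^ 2 - 4 * A ^ 2, ?_, ?_⟩
  · intro h1
    have h2 : (p : ℤ) ∣ 4 * A ^ 2 := by
      have := (dvd_mul_right (p : ℤ) ((b + 4 * (p : ℤ) ^ k) ^ 2)).sub h1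
      rwa [sub_sub_cancel] at this
    have h3 : (4 : ℤ) * A ^ 2 = 2 * (2 * A ^ 2) := by ring
    rw [h3] at h2
    rcases hpp.dvd_or_dvd h2 with h4 | h4
    · exact not_two h hq h4
    · rcases hpp.dvd_or_dvd h4 with h5 | h5
      · exact not_two h hq h5
      · exact hA (hpp.dvd_of_dvd_pow h5)
  · unfold DP
    rw [hq', hb]
    ring

/-- the integers `D = DD` and `M` are divisible by `p` -/
lemma dvd_of {p q : ℕ} (h : Pq p q) (hq : q % 4 = 3) {A B D : ℤ} (hA : ¬ (p : ℤ) ∣ A)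
    (hB : (q : ℤ) ∣ B ^ 2) (hD : IsSquare (D * DP q A B)) : (p : ℤ) ∣ D := by
  obtain ⟨k, e, he, h1⟩ := dp_odd h hq hA hB
  have hpp : Prime (p : ℤ) := Nat.prime_iff_prime_int.1 h.pr
  obtain ⟨s, hs⟩ := hD
  by_contra hc
  refine odd_sq h.pr k (D * e) s ?_ ?_
  · intro h2
    rcases hpp.dvd_or_dvd h2 with h3 | h3
    · exact hc h3
    · exact he h3
  · rw [sq, ← hs, h1]
    ring

lemma sq_trans {M D N : ℤ} (hD : D ≠ 0) (h1 : IsSquare (M * D)) (h2 : IsSquare (D * N)) :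
    IsSquare (M * N) := by
  obtain ⟨s, hs⟩ := h1
  obtain ⟨s', hs'⟩ := h2
  have h3 : (M * N) * D ^ 2 = (s * s') ^ 2 := by
    have : (M * N) * D ^ 2 = (M * D) * (D * N) := by ring
    rw [this, hs, hs']
    ring
  have h4 : D ^ 2 ∣ (s * s') ^ 2 := ⟨M * N, by rw [← h3]; ring⟩
  obtain ⟨w, hw⟩ := (Int.pow_dvd_pow_iff two_ne_zero).1 h4
  refine ⟨w, ?_⟩
  apply mul_right_cancel₀ (pow_ne_zero 2 hD)
  rw [h3, hw]
  ring

/-! ### slopes and congruences -/

section

variable {L : Type} [Field L] [CharZero L] {v : AbsoluteValue L ℝ} {p q : ℕ}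

lemma q_pos (h : Vq L p q v) : 0 < v (q : L) := by
  obtain ⟨n, _, hq⟩ := h.pq.pw
  rw [hq]
  push_cast
  rw [v.map_pow]
  exact pow_pos (v.pos (Nat.cast_ne_zero.2 h.pq.pr.ne_zero)) n

lemma q_lt (h : Vq L p q v) : v (q : L) < 1 := by
  obtain ⟨n, hn, hq⟩ := h.pq.pw
  rw [hq]
  push_cast
  rw [v.map_pow]
  exact pow_lt_one₀ (v.nonneg _) h.lt (by omega)

lemma q_ge {p q : ℕ} (h : Pq p q) : 1 ≤ q := by
  obtain ⟨n, hn, hq⟩ := h.pw
  rw [hq]
  exact Nat.one_le_pow _ _ h.pr.pos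

lemma le_root (h : Vq L p q v) {A B : ℤ} {z : L} (hz : Rt q A B z) :
    v z ≤ 1 ∧ v ((q : L) / z) ≤ 1 ∧ v (z + (q : L) / z) ≤ 1 := by
  have hq := q_ge h.pq
  have hz0 := hz.1
  have hb0 : (q : L) / z ≠ 0 := bar_ne hq hz0
  obtain ⟨t, ht⟩ : ∃ t, t = z + (q : L) / z := ⟨_, rfl⟩
  obtain ⟨b, hb⟩ : ∃ b, b = (q : L) / z := ⟨_, rfl⟩
  have hab : z * b = q := by
    rw [hb]
    field_simp
  have hrel := hz.2
  rw [← ht] at hrel
  have hbt : b + z = t := by rw [ht, hb, add_comm]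
  have hqt : v t ^ 2 ≤ max (v (-(A : L)) * v t) (v (B : L)) :=
    quad h.na (by linear_combination hrel)
  rw [v.map_neg] at hqt
  have hT1 : v t ≤ 1 := le_one (v.nonneg _) (int_le h.na A) (int_le h.na B) hqt
  have hqa : v z ^ 2 ≤ max (v t * v z) (v (q : L)) :=
    quad h.na (by linear_combination z * hbt - hab)
  have hqb : v b ^ 2 ≤ max (v t * v b) (v (q : L)) :=
    quad h.na (by linear_combination b * hbt - hab)
  have hx1 : v z ≤ 1 := le_one (v.nonneg _) hT1 (q_lt h).le hqa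
  have hy1 : v b ≤ 1 := le_one (v.nonneg _) hT1 (q_lt h).le hqb
  rw [← ht, ← hb]
  exact ⟨hx1, hy1, hT1⟩

lemma add_lt (hv : IsNonarchimedean v) {x y : L} (hx : v x < 1) (hy : v y < 1) :
    v (x + y) < 1 := lt_of_le_of_lt (hv x y) (max_lt hx hy)

lemma sub_lt (hv : IsNonarchimedean v) {x y : L} (hx : v x < 1) (hy : v y < 1) :
    v (x - y) < 1 := lt_of_le_of_lt (sub_le hv x y) (max_lt hx hy)

lemma mul_lt {x y : L} (hx : v x ≤ 1) (hy : v y < 1) : v (x * y) < 1 := by
  rw [v.map_mul]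
  exact lt_of_le_of_lt (mul_le_of_le_one_left (v.nonneg _) hx) hy

/-- the sign of a root with `v t = 1` -/
lemma sgn (h : Vq L p q v) {A B : ℤ} {z : L} (hz : Rt q A B z) (ht : v (z + (q : L) / z) = 1) :
    ∃ ε : ℤ, (ε = 1 ∨ ε = -1) ∧ F q v z = ε ∧
      v ((z - (q : L) / z) - ε * (z + (q : L) / z)) < 1 := by
  obtain ⟨h1, h2, _⟩ := le_root h hz
  have hq := q_ge h.pq
  have hz0 := hz.1
  have hxy : v z * v ((q : L) / z) = v (q : L) := by
    rw [← v.map_mul, mul_div_cancel₀ _ hz0]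
  have hlog : Real.log (v (q : L)) ≠ 0 := (Real.log_neg (q_pos h) (q_lt h)).ne
  have h3 : 1 ≤ max (v z) (v ((q : L) / z)) := by
    rw [← ht]
    exact h.na _ _
  have h2' : v ((2 : ℤ) : L) ≤ 1 := int_le h.na 2
  rcases le_max_iff.1 h3 with h4 | h4
  · have h5 : v z = 1 := le_antisymm h1 h4
    refine ⟨1, Or.inl rfl, ?_, ?_⟩
    · unfold F
      rw [h5, Real.log_one]
      simp
    · have e : (z - (q : L) / z) - ((1 : ℤ) : L) * (z + (q : L) / z) =
          -(((2 : ℤ) : L) * ((q : L) / z)) := by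
        push_cast
        ring
      rw [e, v.map_neg]
      apply mul_lt h2'
      rw [h5, one_mul] at hxy
      rw [hxy]
      exact q_lt h
  · have h5 : v ((q : L) / z) = 1 := le_antisymm h2 h4
    rw [h5, mul_one] at hxy
    refine ⟨-1, Or.inr rfl, ?_, ?_⟩
    · unfold F
      rw [hxy, div_self hlog]
      norm_num
    · have e : (z - (q : L) / z) - ((-1 : ℤ) : L) * (z + (q : L) / z) =
          ((2 : ℤ) : L) * z := by
        push_cast
        ring
      rw [e]
      apply mul_lt h2'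
      rw [hxy]
      exact q_lt h

/-- slope zero -/
lemma zero_lt (h : Vq L p q v) {z : L} (hz : z ≠ 0) (hF : F q v z = 0) :
    v (z - (q : L) / z) < 1 := by
  have hlog : Real.log (v (q : L)) < 0 := Real.log_neg (q_pos h) (q_lt h)
  have h1 : Real.log (v z) = Real.log (v (q : L)) / 2 := by
    unfold F at hF
    have h2 : Real.log (v z) / Real.log (v (q : L)) = 1 / 2 := by linarith
    rw [div_eq_iff hlog.ne] at h2
    linarith
  have hz0 : 0 < v z := v.pos hz
  have h3 : v z < 1 := by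
    rw [← Real.log_neg_iff hz0, h1]
    linarith
  have h4 : v ((q : L) / z) < 1 := by
    rw [map_div₀, ← Real.log_neg_iff (div_pos (q_pos h) hz0),
      Real.log_div (q_pos h).ne' hz0.ne', h1]
    linarith
  exact sub_lt h.na h3 h4

/-- two roots of a surface of `p`-rank one -/
lemma two (hLOC : S_LOC3) (h : Vq L p q v) {A B : ℤ} (hA : ¬ (p : ℤ) ∣ A) (hB : (p : ℤ) ∣ B)
    (hB2 : (q : ℤ) ∣ B ^ 2) {z w : L} (hz : Rt q A B z) (hw : Rt q A B w)
    (hzw : w + (q : L) / w = - A - (z + (q : L) / z)) :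
    ∃ η : ℤ, (η = 1 ∨ η = -1) ∧ F q v z + F q v w = η ∧
      v (((z - (q : L) / z) + (w - (q : L) / w)) + η * A) < 1 := by
  have hz1 := (hLOC L v p q h A B z hz).2.1 hA hB hB2
  have hw1 := (hLOC L v p q h A B w hw).2.1 hA hB hB2
  have hvA : v (A : L) = 1 := int_one h.na h.pq.pr h.lt hA
  have hvB : v (B : L) < 1 := lt_of_le_of_lt (int_dvd h.na hB) h.lt
  rcases hz1 with ⟨g1, _⟩ | ⟨g1, g2⟩
  · rcases hw1 with ⟨g3, _⟩ | ⟨g3, g4⟩
    · exfalso
      have e : (z + (q : L) / z) * (w + (q : L) / w) = B := by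
        rw [hzw]
        linear_combination -hz.2
      have h1 := congrArg v e
      rw [v.map_mul, g1, g3] at h1
      linarith
    · obtain ⟨ε, h1, h2, h3⟩ := sgn h hz g1
      refine ⟨ε, h1, by rw [h2, g4, add_zero], ?_⟩
      have e : ((z - (q : L) / z) + (w - (q : L) / w)) + ε * A =
          (((z - (q : L) / z) - ε * (z + (q : L) / z)) + (w - (q : L) / w)) -
            ε * (w + (q : L) / w) := by
        rw [hzw]
        ring
      rw [e]
      exact sub_lt h.na (add_lt h.na h3 (zero_lt h hw.1 g4)) (mul_lt (int_le h.na ε) g3)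
  · rcases hw1 with ⟨g3, _⟩ | ⟨g3, _⟩
    · obtain ⟨ε, h1, h2, h3⟩ := sgn h hw g3
      refine ⟨ε, h1, by rw [h2, g2, zero_add], ?_⟩
      have e : ((z - (q : L) / z) + (w - (q : L) / w)) + ε * A =
          (((w - (q : L) / w) - ε * (w + (q : L) / w)) + (z - (q : L) / z)) -
            ε * (z + (q : L) / z) := by
        rw [hzw]
        ring
      rw [e]
      exact sub_lt h.na (add_lt h.na h3 (zero_lt h hz.1 g2)) (mul_lt (int_le h.na ε) g1)
    · exfalso
      have e : (z + (q : L) / z) + (w + (q : L) / w) = -(A : L) := by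
        rw [hzw]
        ring
      have h1 := add_lt h.na g1 g3
      rw [e, v.map_neg, hvA] at h1
      exact lt_irrefl _ h1

/-- roots are integral -/
lemma integral {A B : ℤ} {z : L} (hq : 1 ≤ q) (hz : Rt q A B z) : IsIntegral ℤ z := by
  refine ⟨X ^ 4 + C A * X ^ 3 + C (B + 2 * q) * X ^ 2 + C (q * A) * X + C ((q : ℤ) ^ 2), by
    monicity!, ?_⟩
  have h1 : z * ((q : L) / z) = q := mul_div_cancel₀ _ hz.1
  obtain ⟨b, hb⟩ : ∃ b, b = (q : L) / z := ⟨_, rfl⟩
  have h2 := hz.2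
  rw [← hb] at h1 h2
  simp only [eval₂_add, eval₂_mul, eval₂_pow, eval₂_X, eval₂_C]
  simp only [algebraMap_int_eq, eq_intCast]
  push_cast
  rw [← h1]
  linear_combination z ^ 2 * h2

end

section

variable {L : Type} [Field L] [NumberField L]

/-- if `σ r = -r` for one `σ`, the pair `y`, `σ y` is permuted -/
lemma diff_fixed {r y : L} (hpm : ∀ σ : L ≃ₐ[ℚ] L, σ r = r ∨ σ r = -r)
    (hf : ∀ σ : L ≃ₐ[ℚ] L, σ r = r → σ y = y) (σ : L ≃ₐ[ℚ] L) (hσ : σ r = -r)
    (g : L ≃ₐ[ℚ] L) : g ((y - σ y) * r) = (y - σ y) * r := by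
  have hs : σ.symm (-r) = r := by rw [← hσ, AlgEquiv.symm_apply_apply]
  rw [map_mul, map_sub]
  rcases hpm g with h | h
  · have h1 := hf ((σ.trans g).trans σ.symm) (by
      simp only [AlgEquiv.trans_apply]
      rw [hσ, map_neg, h, hs])
    simp only [AlgEquiv.trans_apply] at h1
    have h2 : g (σ y) = σ y := by
      have := congrArg σ h1
      rwa [AlgEquiv.apply_symm_apply] at this
    rw [hf g h, h2, h]
  · have h1 := hf (g.trans σ.symm) (by
      simp only [AlgEquiv.trans_apply]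
      rw [h, hs])
    simp only [AlgEquiv.trans_apply] at h1
    have h2 : g y = σ y := by
      have := congrArg σ h1
      rwa [AlgEquiv.apply_symm_apply] at this
    have h3 := hf (σ.trans g) (by
      simp only [AlgEquiv.trans_apply]
      rw [hσ, map_neg, h, neg_neg])
    simp only [AlgEquiv.trans_apply] at h3
    rw [h2, h3, h]
    ring

/-- a fixed algebraic integer is an integer -/
lemma int_of [IsGalois ℚ L] {x : L} (hx : ∀ σ : L ≃ₐ[ℚ] L, σ x = x) (hi : IsIntegral ℤ x) :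
    ∃ M : ℤ, x = (M : L) := by
  obtain ⟨y, hy⟩ := (IsGalois.mem_bot_iff_fixed (F := ℚ) (E := L) x).2 hx
  have hy' : algebraMap ℚ L y = x := hy
  rw [← hy'] at hi
  have h1 : IsIntegral ℤ y := (isIntegral_algebraMap_iff (algebraMap ℚ L).injective).1 hi
  obtain ⟨M, hM⟩ := IsIntegrallyClosed.isIntegral_iff.1 h1
  refine ⟨M, ?_⟩
  rw [← hy', ← hM]
  simp

end

end MXAAux

open MXAAux Pool.Agent.GT2.LOCAux Pool.Agent.GT2.REFAux in
theorem t_MXA : M_MXA := by
  intro hLOC _ L _ _ _ v p q hV hq4 A B A₁ B₁ a a₁ x hC hB hO hsq hx hxt hsw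
  have hq := q_ge hV.pq
  obtain ⟨hB1, hA1, hB2, _⟩ := hO
  obtain ⟨c, hc⟩ := hC.c
  have hna := hV.na
  -- the signs
  have hone : ∀ σ : L ≃ₐ[ℚ] L, v (σ a + (q : L) / σ a) = 1 := by
    intro σ
    have hr := hC.ra.map σ
    have hvB : v (B : L) = 1 := int_one hna hV.pq.pr hV.lt hB
    obtain ⟨b, hb⟩ : ∃ b : L, b = -(A : L) - (σ a + (q : L) / σ a) := ⟨_, rfl⟩
    have hT := (le_root hV hr).2.2
    have e : (σ a + (q : L) / σ a) * b = B := by
      rw [hb]
      linear_combination -hr.2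
    have hvb : v b ≤ 1 := by
      rw [hb]
      refine (sub_le hna _ _).trans (max_le ?_ hT)
      rw [v.map_neg]
      exact int_le hna A
    have h1 := congrArg v e
    rw [v.map_mul, hvB] at h1
    refine le_antisymm hT ?_
    calc (1 : ℝ) = v (σ a + (q : L) / σ a) * v b := h1.symm
      _ ≤ v (σ a + (q : L) / σ a) * 1 := mul_le_mul_of_nonneg_left hvb (v.nonneg _)
      _ = _ := mul_one _
  have hε := fun σ : L ≃ₐ[ℚ] L => sgn hV (hC.ra.map σ) (hone σ)
  choose ε hε1 hε2 hε3 using hε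
  have hη := fun σ : L ≃ₐ[ℚ] L => two hLOC hV hA1 hB1 hB2 (hC.ra₁.map σ) (hx.map σ) (by
    have := congrArg σ hxt
    rw [map_tr, map_sub, map_neg, map_intCast, map_tr] at this
    exact this)
  choose η hη1 hη2 hη3 using hη
  -- the element r
  obtain ⟨r, hr⟩ : ∃ r, r = 2 * (a + (q : L) / a) + A := ⟨_, rfl⟩
  have hDD : r ^ 2 = ((DD A B : ℤ) : L) := by rw [hr]; exact hC.ra.disc
  have hr0 : r ≠ 0 := ne_zero_of hDD hC.d
  have hpm := map_pm hDD
  -- the element y
  obtain ⟨y, hy⟩ : ∃ y, y = (a - (q : L) / a) * ((a₁ - (q : L) / a₁) + (x - (q : L) / x)) :=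
    ⟨_, rfl⟩
  have hyσ : ∀ σ : L ≃ₐ[ℚ] L, σ y = (σ a - (q : L) / σ a) *
      ((σ a₁ - (q : L) / σ a₁) + (σ x - (q : L) / σ x)) := by
    intro σ
    rw [hy, map_mul, map_add, map_df, map_df, map_df]
  have hdle : ∀ {A' B' : ℤ} {z : L}, Rt q A' B' z → v (z - (q : L) / z) ≤ 1 := by
    intro A' B' z hz
    exact (sub_le hna _ _).trans (max_le (le_root hV hz).1 (le_root hV hz).2.1)
  have hcong : ∀ σ : L ≃ₐ[ℚ] L,
      v (σ y + ((ε σ * η σ : ℤ) : L) * (σ a + (q : L) / σ a) * A₁) < 1 := by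
    intro σ
    have e : σ y + ((ε σ * η σ : ℤ) : L) * (σ a + (q : L) / σ a) * A₁ =
        (σ a - (q : L) / σ a) * (((σ a₁ - (q : L) / σ a₁) + (σ x - (q : L) / σ x)) + η σ * A₁) -
        ((η σ * A₁ : ℤ) : L) * ((σ a - (q : L) / σ a) - ε σ * (σ a + (q : L) / σ a)) := by
      rw [hyσ]
      push_cast
      ring
    rw [e]
    exact sub_lt hna (mul_lt (hdle (hC.ra.map σ)) (hη3 σ)) (mul_lt (int_le hna _) (hε3 σ))
  -- y is fixed by the stabiliser of r
  have hyH : ∀ τ : L ≃ₐ[ℚ] L, τ a = a → τ y = y := by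
    intro τ hτ
    rw [hyσ, hy, hτ]
    rcases hsw τ hτ with ⟨g2, g3⟩ | ⟨g2, g3⟩
    · rw [g2, g3]
    · rw [g2, g3, add_comm (x - (q : L) / x)]
  have hca := hc a (Or.inl hC.ra)
  have hca₁ := hc a₁ (Or.inr hC.ra₁)
  have hcx := hc x (Or.inr hx)
  have hyc : c y = y := by
    rw [hyσ, hca, hca₁, hcx, bar_bar hq hC.ra.1, bar_bar hq hC.ra₁.1, bar_bar hq hx.1, hy]
    ring
  have hra : ∀ σ : L ≃ₐ[ℚ] L, σ r = r → σ a = a ∨ σ a = (q : L) / a := by
    intro σ hσ
    have g1 : σ a + (q : L) / σ a = a + q / a := by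
      rw [hr, map_r] at hσ
      have g2 : (2 : L) * (σ a + (q : L) / σ a) = 2 * (a + q / a) := by
        linear_combination hσ
      exact mul_left_cancel₀ two_ne_zero g2
    exact eq_or_bar hC.ra.1 ((map_ne_zero σ).2 hC.ra.1) g1
  have hcs : c.symm ((q : L) / a) = a := by
    rw [← hca, AlgEquiv.symm_apply_apply]
  have hyr : ∀ σ : L ≃ₐ[ℚ] L, σ r = r → σ y = y := by
    intro σ hσ
    rcases hra σ hσ with g2 | g2
    · exact hyH σ g2
    · have g4 := hyH (σ.trans c.symm) (by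
        simp only [AlgEquiv.trans_apply]
        rw [g2, hcs])
      simp only [AlgEquiv.trans_apply] at g4
      have g5 := congrArg c g4
      rw [AlgEquiv.apply_symm_apply, hyc] at g5
      exact g5
  -- the sign is constant
  have hF1 : ∀ {A' B' : ℤ} {z : L}, Rt q A' B' z → F q v ((q : L) / z) = - F q v z :=
    fun {A' B' z} hz => (hLOC L v p q hV A' B' z hz).2.2.2
  have key : ∀ σ : L ≃ₐ[ℚ] L, ε σ * η σ = ε 1 * η 1 := by
    intro σ
    rcases hpm σ with hσ | hσ
    · rcases hra σ hσ with g1 | g1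
      · have h1 : ε σ = ε 1 := by
          have := hε2 σ
          rw [g1] at this
          have h2 := hε2 1
          rw [AlgEquiv.one_apply] at h2
          exact_mod_cast this.symm.trans h2
        have h2 : η σ = η 1 := by
          have h3 := hη2 σ
          have h4 := hη2 1
          rw [AlgEquiv.one_apply, AlgEquiv.one_apply] at h4
          rcases hsw σ g1 with ⟨g2, g3⟩ | ⟨g2, g3⟩
          · rw [g2, g3] at h3
            exact_mod_cast h3.symm.trans h4
          · rw [g2, g3, add_comm] at h3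
            exact_mod_cast h3.symm.trans h4
        rw [h1, h2]
      · have h1 : ε σ = - ε 1 := by
          have := hε2 σ
          rw [g1, hF1 hC.ra] at this
          have h2 := hε2 1
          rw [AlgEquiv.one_apply] at h2
          rw [h2] at this
          exact_mod_cast this.symm
        have h2 : η σ = - η 1 := by
          have h3 := hη2 σ
          have h4 := hη2 1
          rw [AlgEquiv.one_apply, AlgEquiv.one_apply] at h4
          have h5 := hsw (σ.trans c.symm) (by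
            simp only [AlgEquiv.trans_apply]
            rw [g1, hcs])
          simp only [AlgEquiv.trans_apply] at h5
          have e : ∀ {u w : L}, c.symm u = w → u = c w := by
            intro u w h
            rw [← h, AlgEquiv.apply_symm_apply]
          rcases h5 with ⟨g2, g3⟩ | ⟨g2, g3⟩
          · rw [e g2, e g3, hca₁, hcx, hF1 hC.ra₁, hF1 hx, ← neg_add, h4] at h3
            exact_mod_cast h3.symm
          · rw [e g2, e g3, hca₁, hcx, hF1 hC.ra₁, hF1 hx, ← neg_add, add_comm, h4] at h3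
            exact_mod_cast h3.symm
        rw [h1, h2, neg_mul_neg]
    · -- the integer M
      obtain ⟨z, hz⟩ : ∃ z, z = y - σ y := ⟨_, rfl⟩
      have hzr : ∀ g : L ≃ₐ[ℚ] L, g (z * r) = z * r := by
        intro g
        rw [hz]
        exact diff_fixed hpm hyr σ hσ g
      have hz2 : ∀ g : L ≃ₐ[ℚ] L, g (z ^ 2) = z ^ 2 := by
        intro g
        have h1 : g (z * r) ^ 2 = (z * r) ^ 2 := by rw [hzr g]
        rw [← map_pow, mul_pow, map_mul, hDD, map_intCast, ← hDD] at h1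
        exact mul_right_cancel₀ (pow_ne_zero 2 hr0) h1
      have hin : ∀ {A' B' : ℤ} {w : L}, Rt q A' B' w → IsIntegral ℤ (w - (q : L) / w) :=
        fun {A' B' w} hw => (integral hq hw).sub (integral hq (hw.bar hq))
      have hiny : IsIntegral ℤ y := by
        rw [hy]
        exact (hin hC.ra).mul ((hin hC.ra₁).add (hin hx))
      have hiny' : IsIntegral ℤ (σ y) := by
        rw [hyσ]
        exact (hin (hC.ra.map σ)).mul ((hin (hC.ra₁.map σ)).add (hin (hx.map σ)))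
      obtain ⟨M, hM⟩ := int_of hz2 (by rw [hz]; exact (hiny.sub hiny').pow 2)
      have hMD : IsSquare (M * DD A B) := by
        refine sq_of_fixed hzr ?_
        rw [mul_pow, hM, hDD]
        push_cast
        ring
      have hD0 : DD A B ≠ 0 := by
        intro h0
        exact hC.d (by rw [h0]; exact ⟨0, rfl⟩)
      have hpM : (p : ℤ) ∣ M := dvd_of hV.pq hq4 hA1 hB2 (sq_trans hD0 hMD hsq)
      have hpD : (p : ℤ) ∣ DD A B := dvd_of hV.pq hq4 hA1 hB2 hsq
      have hsmall : ∀ {w : L} {N : ℤ}, w ^ 2 = (N : L) → (p : ℤ) ∣ N → v w < 1 := by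
        intro w N h1 h2
        have h3 : v w ^ 2 < 1 := by
          rw [← v.map_pow, h1]
          exact lt_of_le_of_lt (int_dvd hna h2) hV.lt
        by_contra h4
        push Not at h4
        have : (1 : ℝ) ≤ v w ^ 2 := one_le_pow₀ h4
        linarith
      have hvz : v z < 1 := hsmall hM hpM
      have hvr : v r < 1 := hsmall hDD hpD
      have hσt : σ a + (q : L) / σ a = (a + (q : L) / a) - r := by
        rw [hr, map_r] at hσ
        have h2 : (2 : L) * (σ a + (q : L) / σ a) = 2 * ((a + (q : L) / a) - r) := by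
          rw [hr]
          linear_combination hσ
        exact mul_left_cancel₀ two_ne_zero h2
      have h1 := hcong σ
      have h2 := hcong 1
      rw [AlgEquiv.one_apply, AlgEquiv.one_apply] at h2
      rw [hσt] at h1
      have h3 : v (((ε σ * η σ - ε 1 * η 1 : ℤ) : L) * ((a + (q : L) / a) * A₁)) < 1 := by
        have e : ((ε σ * η σ - ε 1 * η 1 : ℤ) : L) * ((a + (q : L) / a) * A₁) =
            (((σ y + ((ε σ * η σ : ℤ) : L) * ((a + (q : L) / a) - r) * A₁) -
              (y + ((ε 1 * η 1 : ℤ) : L) * (a + (q : L) / a) * A₁)) + z) +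
              ((ε σ * η σ * A₁ : ℤ) : L) * r := by
          rw [hz]
          push_cast
          ring
        rw [e]
        exact add_lt hna (add_lt hna (sub_lt hna h1 h2) hvz) (mul_lt (int_le hna _) hvr)
      have h1a : v (a + (q : L) / a) = 1 := by
        have := hone 1
        rwa [AlgEquiv.one_apply] at this
      rw [v.map_mul, v.map_mul, h1a, int_one hna hV.pq.pr hV.lt hA1, mul_one, mul_one] at h3
      by_contra hne
      have h4 : (ε σ * η σ - ε 1 * η 1 = 2) ∨ (ε σ * η σ - ε 1 * η 1 = -2) := by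
        rcases hε1 σ with g1 | g1 <;> rcases hη1 σ with g2 | g2 <;> rcases hε1 1 with g3 | g3 <;>
          rcases hη1 1 with g4 | g4 <;> rw [g1, g2, g3, g4] at hne ⊢ <;> omega
      have h5 : v (((2 : ℤ)) : L) = 1 := int_one hna hV.pq.pr hV.lt (not_two hV.pq hq4)
      rcases h4 with h4 | h4
      · rw [h4, h5] at h3
        exact lt_irrefl _ h3
      · rw [h4, Int.cast_neg, v.map_neg, h5] at h3
        exact lt_irrefl _ h3
  -- the end
  have hfin : ∀ σ : L ≃ₐ[ℚ] L, η σ = (ε 1 * η 1) * ε σ := by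
    intro σ
    rw [← key σ]
    rcases hε1 σ with g | g <;> rw [g] <;> ring
  have h11 : ε 1 * η 1 = 1 ∨ ε 1 * η 1 = -1 := by
    rcases hε1 1 with g3 | g3 <;> rcases hη1 1 with g4 | g4 <;> rw [g3, g4] <;> omega
  rcases h11 with h | h
  · left
    intro σ
    rw [hη2 σ, hε2 σ, hfin σ, h, one_mul]
  · right
    intro σ
    rw [hη2 σ, hε2 σ, hfin σ, h]
    push_cast
    ring

end

end Pool.Agent.GT3
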