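import Pool.Agent.GT3.St

/-!
# `a₁ x / a` is a square root of `q`
-/

set_option autoImplicit false

namespace Pool.Agent.GT3

open Pool.Agent.GT2

namespace MXBAux

/-- Automorphisms commute on roots of unity. -/
theorem comm_unity {L : Type} [Field L] {u : L} {N : ℕ} (hN : 1 ≤ N) (hu : u ^ N = 1)
    (σ τ : L ≃+* L) : σ (τ u) = τ (σ u) := by
  have : NeZero N := ⟨by omega⟩
  let z : rootsOfUnity N L := rootsOfUnity.mkOfPowEq u hu
  have hz : ((z : Lˣ) : L) = u := rootsOfUnity.val_mkOfPowEq_coe u hu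
  obtain ⟨m, hm⟩ := map_rootsOfUnity_eq_pow_self σ z
  obtain ⟨n, hn⟩ := map_rootsOfUnity_eq_pow_self τ z
  rw [hz] at hm hn
  rw [hn, hm, map_pow, map_pow, hm, hn, ← pow_mul, ← pow_mul, mul_comm]

end MXBAux

open MXBAux in
theorem t_MXB : M_MXB := by
  intro hROT hCHR hSWA L _ _ _ q hq4 A B A₁ B₁ a a₁ x N hDD hC hx hxs hH hN hpow
  have hq : 1 ≤ q := by omega
  have hq0 : (q : L) ≠ 0 := qne hq
  obtain ⟨b, x', hb, -, -, -, -, -, -, -, ⟨τ, hτa, -, -, hτb⟩, ⟨τ', -, hτ'a, hτ'b, -⟩⟩ :=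
    hSWA L q hq A B A₁ B₁ a a₁ hC
  obtain ⟨c, hc⟩ := hC.c
  have ha0 : a ≠ 0 := hC.ra.1
  have ha10 : a₁ ≠ 0 := hC.ra₁.1
  have hx0 : x ≠ 0 := hx.1
  set y : L := a₁ * x / a with hy
  have hy0 : y ≠ 0 := div_ne_zero (mul_ne_zero ha10 hx0) ha0
  set u : L := y ^ 2 / q with hu
  have hu0 : u ≠ 0 := div_ne_zero (pow_ne_zero 2 hy0) hq0
  have huN : u ^ N = 1 := by
    have h1 : u = (a₁ * x) ^ 2 / (q * a ^ 2) := by
      rw [hu, hy]
      field_simp
    rw [h1, div_pow, hpow, div_self]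
    exact pow_ne_zero _ (mul_ne_zero hq0 (pow_ne_zero 2 ha0))
  have hyH : ∀ σ : L ≃ₐ[ℚ] L, σ a = a → σ y = y := by
    intro σ hσ
    rw [hy, map_div₀, map_mul, hσ]
    rcases hH σ hσ with ⟨h1, h2⟩ | ⟨h1, h2⟩
    · rw [h1, h2]
    · rw [h1, h2, mul_comm]
  have huH : ∀ σ : L ≃ₐ[ℚ] L, σ a = a → σ u = u := by
    intro σ hσ
    rw [hu, map_div₀, map_pow, hyH σ hσ, map_natCast]
  have hcomm : ∀ (σ ρ : L ≃ₐ[ℚ] L), σ (ρ u) = ρ (σ u) := fun σ ρ =>
    comm_unity hN huN σ.toRingEquiv ρ.toRingEquiv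
  -- the conjugate of `τ`
  have h1 : (τ' * τ * τ'⁻¹) a = (q : L) / a := by
    have h2 : τ'⁻¹ a = b := by
      rw [← hτ'b]
      exact τ'.symm_apply_apply b
    change τ' (τ (τ'⁻¹ a)) = _
    rw [h2, hτb, map_bar, hτ'b]
  have h3 : (τ' * τ * τ'⁻¹) u = u := by
    change τ' (τ (τ'⁻¹ u)) = u
    rw [hcomm τ τ'⁻¹, huH τ hτa]
    exact τ'.apply_symm_apply u
  have hca : c a = (q : L) / a := hc a (Or.inl hC.ra)
  have h4 : (c⁻¹ * (τ' * τ * τ'⁻¹)) a = a := by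
    change c⁻¹ ((τ' * τ * τ'⁻¹) a) = a
    rw [h1, ← hca]
    exact c.symm_apply_apply a
  have h5 : c u = u := by
    have h6 := huH _ h4
    change c⁻¹ ((τ' * τ * τ'⁻¹) u) = u at h6
    rw [h3] at h6
    conv_lhs => rw [← h6]
    exact c.apply_symm_apply u
  have hcy : c y = q / y := by
    rw [hy, map_div₀, map_mul, hca, hc a₁ (Or.inr hC.ra₁), hc x (Or.inr hx)]
    field_simp
  have h7 : u * u = 1 := by
    have h8 : c u = u⁻¹ := by
      rw [hu, map_div₀, map_pow, hcy, map_natCast]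
      field_simp
    rw [h5] at h8
    nth_rewrite 1 [h8]
    exact inv_mul_cancel₀ hu0
  have hρ := hROT L q hq A B a hC.ra hC.d hC.dp
  have hyu : y ^ 2 = u * q := by
    rw [hu]
    field_simp
  rcases mul_self_eq_one_iff.1 h7 with h9 | h9
  · have h10 : y ^ 2 = ((q : ℤ) : L) := by
      rw [hyu, h9, one_mul]
      simp
    have h11 : ¬ IsSquare (q : ℤ) := by
      rintro ⟨r, hr⟩
      have : (q : ℤ) % 4 = 3 := by omega
      rw [hr] at this
      rcases Int.even_or_odd' r with ⟨k, rfl | rfl⟩ <;> ring_nf at this <;> omega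
    obtain ⟨n, -, hn⟩ := hCHR L q hq A B a hC.ra hC.d hρ y q h10 h11 hyH
    exact ⟨n, by rw [← pow_two, hn, mul_comm]⟩
  · have h10 : y ^ 2 = ((-(q : ℤ) : ℤ) : L) := by
      rw [hyu, h9]
      push_cast
      ring
    have hq1 : (1 : ℤ) ≤ q := by exact_mod_cast hq
    have h11 : ¬ IsSquare (-(q : ℤ)) := by
      rintro ⟨r, hr⟩
      nlinarith [mul_self_nonneg r]
    obtain ⟨n, -, hn⟩ := hCHR L q hq A B a hC.ra hC.d hρ y (-(q : ℤ)) h10 h11 hyH
    have h12 : DD A B = 0 := by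
      by_contra h13
      have h14 : 0 < DD A B := lt_of_le_of_ne hDD (Ne.symm h13)
      nlinarith [sq_nonneg n, mul_pos h14 (by linarith : (0 : ℤ) < q)]
    exact absurd (by rw [h12]; exact ⟨0, rfl⟩) hC.d

end Pool.Agent.GT3
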