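import Pool.Agent.GT3.St

/-! # GT3, module MXC (helper34): integers -/

set_option autoImplicit false

namespace Pool.Agent.GT3

open Pool.Agent.GT2

namespace MXCAux

lemma arith {p q : ℕ} (h : Pq p q) (h4 : q % 4 = 3) :
    p % 4 = 3 ∧ ∃ k : ℕ, q = p ^ (2 * k + 1) := by
  obtain ⟨n, hn, hq⟩ := h.pw
  have hnodd : ¬ Even n := by
    rintro ⟨j, hj⟩
    have h1 : q = (p ^ j) ^ 2 := by rw [hq, hj, ← pow_mul, mul_two]
    have h2 : q % 4 = ((p ^ j) % 4) ^ 2 % 4 := by rw [h1, Nat.pow_mod]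
    have h3 : (p ^ j) % 4 < 4 := Nat.mod_lt _ (by norm_num)
    obtain ⟨r, hr⟩ : ∃ r, r = (p ^ j) % 4 := ⟨_, rfl⟩
    rw [← hr] at h2 h3
    interval_cases r <;> omega
  obtain ⟨k, hk⟩ := Nat.not_even_iff_odd.1 hnodd
  refine ⟨?_, k, by rw [hq, hk]⟩
  have h1 : q = (p ^ k) ^ 2 * p := by
    rw [hq, hk, pow_succ, ← pow_mul, mul_comm 2 k]
  have h2 : q % 4 = (((p ^ k) % 4) ^ 2 % 4) * (p % 4) % 4 := by
    rw [h1, Nat.mul_mod, Nat.pow_mod]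
  have h3 : (p ^ k) % 4 < 4 := Nat.mod_lt _ (by norm_num)
  have h5 : p % 4 < 4 := Nat.mod_lt _ (by norm_num)
  obtain ⟨r, hr⟩ : ∃ r, r = (p ^ k) % 4 := ⟨_, rfl⟩
  obtain ⟨s, hs⟩ : ∃ s, s = p % 4 := ⟨_, rfl⟩
  rw [← hr, ← hs] at h2
  rw [← hr] at h3
  rw [← hs] at h5 ⊢
  interval_cases r <;> interval_cases s <;> omega

end MXCAux

open MXCAux in
theorem t_MXC : S_MXC := by
  intro p q hpq h4 A B A₁ B₁ hO hD hsq hsq2
  obtain ⟨hp4, k, hk⟩ := arith hpq h4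
  have hp := hpq.pr
  have : Fact p.Prime := ⟨hp⟩
  obtain ⟨hB, hA, hqB, -⟩ := hO
  have hpI : Prime (p : ℤ) := Nat.prime_iff_prime_int.1 hp
  have hp0 : (p : ℤ) ≠ 0 := hpI.ne_zero
  have hq0 : (q : ℤ) ≠ 0 := by
    rw [hk]
    push_cast
    exact pow_ne_zero _ hp0
  -- `q * DP` is a square
  obtain ⟨s, hs⟩ : ∃ s : ℤ, (q : ℤ) * DP q A₁ B₁ = s ^ 2 := by
    obtain ⟨u, hu⟩ := hsq
    obtain ⟨w, hw⟩ := hsq2
    have h1 : (DD A B) ^ 2 * ((q : ℤ) * DP q A₁ B₁) = (u * w) ^ 2 := by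
      linear_combination (q : ℤ) * DD A B * hu + u * u * hw
    have h2 : (DD A B) ^ 2 ∣ (u * w) ^ 2 := ⟨_, h1.symm⟩
    obtain ⟨s, hs⟩ := (Int.pow_dvd_pow_iff two_ne_zero).1 h2
    refine ⟨s, mul_left_cancel₀ (pow_ne_zero 2 hD) ?_⟩
    rw [h1, hs]
    ring
  -- `p ^ (k + 1)` divides `B₁`
  obtain ⟨b, hb⟩ : (p : ℤ) ^ (k + 1) ∣ B₁ := by
    have h1 : ((p : ℤ) ^ (2 * k + 1)) ∣ B₁ ^ 2 := by
      have h2 := hqB
      rw [hk] at h2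
      exact_mod_cast h2
    have h3 : (p : ℤ) ^ k ∣ B₁ := by
      have h5 : ((p : ℤ) ^ k) ^ 2 ∣ B₁ ^ 2 := by
        refine dvd_trans ?_ h1
        rw [← pow_mul]
        exact pow_dvd_pow _ (by omega)
      exact (Int.pow_dvd_pow_iff two_ne_zero).1 h5
    obtain ⟨c, hc⟩ := h3
    have h6 : (p : ℤ) ∣ c ^ 2 := by
      rw [hc, mul_pow, ← pow_mul, pow_succ, mul_comm k 2] at h1
      exact (mul_dvd_mul_iff_left (pow_ne_zero _ hp0)).1 h1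
    obtain ⟨d, hd⟩ := hpI.dvd_of_dvd_pow h6
    exact ⟨d, by rw [hc, hd]; ring⟩
  -- `DP = q * e`
  obtain ⟨e, he, he2⟩ : ∃ e : ℤ, DP q A₁ B₁ = q * e ∧ ∃ g : ℤ, e = p * g - (2 * A₁) ^ 2 := by
    obtain ⟨B', hB'⟩ := hB
    refine ⟨p * b ^ 2 + 8 * B₁ + 16 * q - 4 * A₁ ^ 2, ?_, b ^ 2 + 8 * B' + 16 * p ^ (2 * k), ?_⟩
    · have h1 : B₁ ^ 2 = q * (p * b ^ 2) := by
        rw [hb, hk]
        push_cast
        ring
      unfold DP
      linear_combination h1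
    · have h1 : (q : ℤ) = p * p ^ (2 * k) := by
        rw [hk]
        push_cast
        ring
      rw [h1]
      linear_combination 8 * hB'
  obtain ⟨g, hg⟩ := he2
  obtain ⟨t, ht⟩ : ∃ t : ℤ, e = t ^ 2 := by
    have h1 : (q : ℤ) ^ 2 * e = s ^ 2 := by rw [← hs, he]; ring
    have h2 : (q : ℤ) ^ 2 ∣ s ^ 2 := ⟨_, h1.symm⟩
    obtain ⟨t, ht⟩ := (Int.pow_dvd_pow_iff two_ne_zero).1 h2
    refine ⟨t, mul_left_cancel₀ (pow_ne_zero 2 hq0) ?_⟩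
    rw [h1, ht]
    ring
  have hmod : ((t : ℤ) : ZMod p) ^ 2 = -((2 * A₁ : ℤ) : ZMod p) ^ 2 := by
    have h1 : t ^ 2 + (2 * A₁) ^ 2 = p * g := by rw [← ht, hg]; ring
    have h2 := congrArg (fun z : ℤ => (z : ZMod p)) h1
    simp only [Int.cast_add, Int.cast_pow, Int.cast_mul, Int.cast_natCast, CharP.cast_eq_zero,
      zero_mul] at h2
    push_cast
    linear_combination h2
  have hne : ((2 * A₁ : ℤ) : ZMod p) ≠ 0 := by
    intro h0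
    rw [ZMod.intCast_zmod_eq_zero_iff_dvd] at h0
    rcases hpI.dvd_or_dvd h0 with h1 | h1
    · have h2 : p ∣ 2 := by exact_mod_cast h1
      have h3 := Nat.le_of_dvd (by norm_num) h2
      omega
    · exact hA h1
  exact ZMod.mod_four_ne_three_of_sq_eq_neg_sq' hne hmod hp4

end Pool.Agent.GT3
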