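import Pool.Agent.GT3.St
import Pool.Agent.GT2.UNT

/-!
# GT3.MXU: a relation of the slopes of three numbers gives a multiplicative relation (helper37)
-/

set_option autoImplicit false

open Polynomial

namespace Pool.Agent.GT3

open Pool.Agent.GT2

noncomputable section

namespace MXUAux

open Pool.Agent.TJ4 (Ab t_SLP t_LOC) in
open Pool.Agent.TJ3 (Zb t_TRN t_KRO) in
/-- Kronecker: all absolute values are `1` and the denominator is a power of `q` -/
lemma uni (v : AbsoluteValue Qb ℝ) (p q : ℕ) (hpq : Pq p q) (hna : IsNonarchimedean v)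
    (hlt : v (p : Qb) < 1) (u Y : Qb) (m : ℕ) (hY : IsIntegral ℤ Y) (hYu : (q : Qb) ^ m * u = Y)
    (hvσ : ∀ σ : Qb ≃ₐ[ℚ] Qb, v (σ u) = 1) (hn : ∀ ι : Qb →+* ℂ, ‖ι u‖ = 1) :
    ∃ N : ℕ, 1 ≤ N ∧ u ^ N = 1 := by
  have hp := hpq.pr
  have hq : IsPrimePow p := hp.isPrimePow
  have hv : Ab p v := ⟨hna, by rw [hp.minFac_eq]; exact hlt⟩
  obtain ⟨hq0, hq1, -, -, P, hP, hpP, hPmem, -⟩ := t_SLP p v hq hv
  rw [hp.minFac_eq] at hpP
  obtain ⟨n, -, hqn⟩ := hpq.pw
  have huint : IsIntegral ℤ u := by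
    have h1 : Pool.Agent.TJ4.UNI4_aux.I u = ⊤ := by
      by_contra hne
      obtain ⟨M, hM, hIM⟩ := Ideal.exists_le_maximal _ hne
      have hMp := hM.isPrime
      have hpM : (p : Zb) ∈ M := by
        have h2 : (p : Zb) ^ (n * m) ∈ M := by
          refine hIM ((Pool.Agent.TJ4.UNI4_aux.mem_I u _).2 ⟨⟨Y, hY⟩, ?_⟩)
          have h2 : (((p : Zb) ^ (n * m) : Zb) : Qb) = (q : Qb) ^ m := by
            rw [hqn]
            push_cast
            rw [pow_mul]
          rw [h2]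
          exact hYu
        exact hMp.mem_of_pow_mem _ h2
      obtain ⟨τ, hτ⟩ := t_TRN p P M hp hP hMp hpP hpM
      obtain ⟨s, t, hs, hst⟩ := t_LOC v hv.na (τ⁻¹ u) (hvσ τ⁻¹).le
      have hsP : s ∉ P := by
        rw [hPmem, hs]
        exact lt_irrefl _
      have hsint : IsIntegral ℤ (τ (s : Qb)) := s.2.map τ
      have htint : IsIntegral ℤ (τ (t : Qb)) := t.2.map τ
      have hsM : (⟨τ (s : Qb), hsint⟩ : Zb) ∉ M := fun h => hsP ((hτ s _ rfl).2 h)
      apply hsM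
      apply hIM
      rw [Pool.Agent.TJ4.UNI4_aux.mem_I]
      refine ⟨⟨τ (t : Qb), htint⟩, ?_⟩
      show τ (s : Qb) * u = τ (t : Qb)
      rw [← hst, map_mul]
      congr 1
      exact (AlgEquiv.apply_symm_apply τ u).symm
    have h2 : (1 : Zb) ∈ Pool.Agent.TJ4.UNI4_aux.I u := by
      rw [h1]
      trivial
    obtain ⟨t, ht⟩ := (Pool.Agent.TJ4.UNI4_aux.mem_I u 1).1 h2
    rw [OneMemClass.coe_one, one_mul] at ht
    rw [ht]
    exact t.2
  exact t_KRO u huint hn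

/-- ring homomorphisms preserve roots -/
lemma rt_map {L : Type} [Field L] {q : ℕ} {A B : ℤ} {a : L} (h : Rt q A B a) (i : L →+* Qb) :
    Rt q A B (i a) := by
  refine ⟨(map_ne_zero i).2 h.1, ?_⟩
  have := congrArg i h.2
  rw [map_add, map_add, map_pow, map_mul, map_add, map_div₀, map_natCast, map_intCast,
    map_intCast, map_zero] at this
  exact this

/-- automorphisms of `Qb` restrict to the image of `L` -/
lemma restr {L : Type} [Field L] [NumberField L] [IsGalois ℚ L] (i : L →+* Qb)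
    (σ : Qb ≃ₐ[ℚ] Qb) : ∃ τ : L ≃ₐ[ℚ] L, ∀ y : L, σ (i y) = i (τ y) := by
  letI : Algebra L Qb := i.toAlgebra
  haveI : IsScalarTower ℚ L Qb := IsScalarTower.of_algebraMap_eq' (Subsingleton.elim _ _)
  refine ⟨AlgEquiv.restrictNormal σ L, fun y => ?_⟩
  exact (AlgEquiv.restrictNormal_commutes σ L y).symm

end MXUAux

open MXUAux in
theorem t_MXU : M_MXU := by
  intro hREA L _ _ _ i v p q hpq hna hlt A B A₁ B₁ a a₁ x hW hW₁ ha ha₁ hx hF
  have hp := hpq.pr
  obtain ⟨n, hn1, hqn⟩ := hpq.pw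
  have hq1 : 1 ≤ q := by
    rw [hqn]
    exact Nat.one_le_pow _ _ hp.pos
  have hq0 : (q : Qb) ≠ 0 := Nat.cast_ne_zero.2 (by omega)
  have hvq0 : 0 < v (q : Qb) := v.pos_iff.2 hq0
  have hvq1 : v (q : Qb) < 1 := by
    rw [hqn, Nat.cast_pow, map_pow]
    exact pow_lt_one₀ (v.nonneg _) hlt (by omega)
  have hlog : Real.log (v (q : Qb)) ≠ 0 := (Real.log_neg hvq0 hvq1).ne
  have ia := rt_map ha i
  have ia₁ := rt_map ha₁ i
  have ix := rt_map hx i
  have ib := ia.bar hq1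
  set u : Qb := (i a₁ * i x) ^ 2 / (q * i a ^ 2) with hu
  have hYu : (q : Qb) ^ 3 * u = (i a₁ * i x * ((q : Qb) / i a)) ^ 2 := by
    have := ia.1
    rw [hu]
    field_simp
  have hY : IsIntegral ℤ ((i a₁ * i x * ((q : Qb) / i a)) ^ 2) :=
    (((UNTAux.integral ia₁).mul (UNTAux.integral ix)).mul (UNTAux.integral ib)).pow 2
  obtain ⟨N, hN, huN⟩ := uni v p q hpq hna hlt u _ 3 hY hYu (by
    intro σ
    obtain ⟨τ, hτ⟩ := restr i σ
    have h1 := hF τ
    unfold F at h1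
    have v1 : 0 < v (i (τ a₁)) := v.pos_iff.2 ((map_ne_zero i).2 ((map_ne_zero τ).2 ha₁.1))
    have v2 : 0 < v (i (τ x)) := v.pos_iff.2 ((map_ne_zero i).2 ((map_ne_zero τ).2 hx.1))
    have v3 : 0 < v (i (τ a)) := v.pos_iff.2 ((map_ne_zero i).2 ((map_ne_zero τ).2 ha.1))
    have h2 : 2 * (Real.log (v (i (τ a₁))) + Real.log (v (i (τ x)))) =
        Real.log (v (q : Qb)) + 2 * Real.log (v (i (τ a))) := by
      field_simp at h1
      linarith
    have h3 : Real.log ((v (i (τ a₁)) * v (i (τ x))) ^ 2) =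
        Real.log (v (q : Qb) * v (i (τ a)) ^ 2) := by
      rw [Real.log_pow, Real.log_mul v1.ne' v2.ne', Real.log_mul hvq0.ne' (pow_pos v3 2).ne',
        Real.log_pow]
      push_cast
      exact h2
    have h4 := Real.log_injOn_pos (Set.mem_Ioi.2 (pow_pos (mul_pos v1 v2) 2))
      (Set.mem_Ioi.2 (mul_pos hvq0 (pow_pos v3 2))) h3
    rw [hu, map_div₀, map_pow, map_mul, map_mul, map_pow, hτ, hτ, hτ, map_natCast, map_div₀,
      map_pow, map_mul, map_mul, map_pow, h4]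
    exact div_self (mul_pos hvq0 (pow_pos v3 2)).ne') (by
    intro ι
    have h1 := UNTAux.normsq hREA hq1 hW ia ι
    have h2 := UNTAux.normsq hREA hq1 hW₁ ia₁ ι
    have h3 := UNTAux.normsq hREA hq1 hW₁ ix ι
    have hqR : (q : ℝ) ≠ 0 := Nat.cast_ne_zero.2 (by omega)
    rw [hu, map_div₀, map_pow, map_mul, map_mul, map_pow, norm_div, norm_mul, norm_pow, norm_mul,
      norm_pow, mul_pow, h1, h2, h3, map_natCast, Complex.norm_natCast]
    exact div_self (mul_ne_zero hqR hqR))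
  refine ⟨N, hN, ?_⟩
  apply i.injective
  have h1 : i ((a₁ * x) ^ 2) = (q : Qb) * i a ^ 2 * u := by
    have := ia.1
    rw [hu, map_pow, map_mul]
    field_simp
  rw [map_pow, h1, mul_pow, huN, mul_one, map_pow, map_mul, map_pow, map_natCast]

end

end Pool.Agent.GT3
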