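import Pool.Agent.GT3.St2

/-!
# GT3: reflex pairs over the field with 43 elements (helper37)

With `c = b + 4 q`: `d = a² + 16 q - 4 c` and `D = c² - 4 q a²`. If `D` times an integer `e` with
`0 < e ≤ 16 q` is a square, then `D = t y²` with `t ≤ 16 q`: a bit of the number `BB`. `TT` is the
list of the members for which this holds, as rows with fixed `a ≥ 0`, with `d = s x²`, `D = t y²`,
`s` and `t` squarefree. A pair with `s = t'` and `t = s'` is found with the number `HH`, which has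
the bits `1024 t + s` modulo `10007` of all members.
-/

set_option autoImplicit false

namespace Pool.Agent.GT3

open Pool.Agent.GT2

namespace NR43

/-- a member: `d = s x²`, `D = t y²` -/
structure En where
  a : ℕ
  c : ℕ
  s : ℕ
  x : ℕ
  t : ℕ
  y : ℕ

/-- a pair with `d D' = n ^ 2`, `D d' = m ^ 2`, and rounded square roots -/
structure En0 where
  a : ℕ
  c : ℕ
  a' : ℕ
  c' : ℕ
  n : ℕ
  m : ℕ
  r1 : ℕ
  r2 : ℕ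
  r3 : ℕ
  r4 : ℕ

/-- the members with the first coordinate `0` -/
def R0 : List En := [
]

/-- the members with the first coordinate `1` -/
def R1 : List En := [
  ⟨1, 14, 633, 1, 6, 2⟩, ⟨1, 15, 629, 1, 53, 1⟩, ⟨1, 17, 69, 3, 13, 3⟩, ⟨1, 18, 617, 1, 38, 2⟩,
  ⟨1, 19, 613, 1, 21, 3⟩, ⟨1, 20, 609, 1, 57, 2⟩, ⟨1, 21, 5, 11, 269, 1⟩, ⟨1, 22, 601, 1, 78, 2⟩,
  ⟨1, 23, 597, 1, 357, 1⟩, ⟨1, 24, 593, 1, 101, 2⟩, ⟨1, 25, 589, 1, 453, 1⟩,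
  ⟨1, 26, 65, 3, 14, 6⟩, ⟨1, 27, 581, 1, 557, 1⟩, ⟨1, 28, 577, 1, 17, 6⟩, ⟨1, 29, 573, 1, 669, 1⟩,
  ⟨1, 30, 569, 1, 182, 2⟩, ⟨1, 32, 561, 1, 213, 2⟩, ⟨1, 34, 553, 1, 246, 2⟩,
  ⟨1, 35, 61, 3, 13, 9⟩, ⟨1, 36, 545, 1, 281, 2⟩, ⟨1, 37, 541, 1, 133, 3⟩,
  ⟨1, 38, 537, 1, 318, 2⟩, ⟨1, 42, 521, 1, 398, 2⟩, ⟨1, 46, 505, 1, 6, 18⟩,
  ⟨1, 48, 497, 1, 533, 2⟩, ⟨1, 50, 489, 1, 582, 2⟩, ⟨1, 52, 481, 1, 633, 2⟩,
  ⟨1, 53, 53, 3, 293, 3⟩, ⟨1, 54, 473, 1, 14, 14⟩, ⟨1, 55, 469, 1, 317, 3⟩,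
  ⟨1, 61, 445, 1, 21, 13⟩, ⟨1, 64, 433, 1, 109, 6⟩, ⟨1, 71, 5, 9, 541, 3⟩,
  ⟨1, 73, 397, 1, 573, 3⟩, ⟨1, 79, 373, 1, 21, 17⟩, ⟨1, 80, 41, 3, 173, 6⟩,
  ⟨1, 93, 317, 1, 173, 7⟩, ⟨1, 94, 313, 1, 6, 38⟩, ⟨1, 98, 33, 3, 262, 6⟩,
  ⟨1, 103, 277, 1, 213, 7⟩, ⟨1, 108, 257, 1, 17, 26⟩, ⟨1, 118, 217, 1, 382, 6⟩,
  ⟨1, 127, 181, 1, 197, 9⟩, ⟨1, 134, 17, 3, 494, 6⟩, ⟨1, 136, 145, 1, 509, 6⟩,
  ⟨1, 154, 73, 1, 654, 6⟩]

/-- the members with the first coordinate `2` -/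
def R2 : List En := [
  ⟨2, 27, 146, 2, 41, 1⟩, ⟨2, 28, 145, 2, 6, 4⟩, ⟨2, 30, 143, 2, 53, 2⟩, ⟨2, 31, 142, 2, 273, 1⟩,
  ⟨2, 32, 141, 2, 21, 4⟩, ⟨2, 33, 35, 4, 401, 1⟩, ⟨2, 34, 139, 2, 13, 6⟩, ⟨2, 35, 138, 2, 537, 1⟩,
  ⟨2, 36, 137, 2, 38, 4⟩, ⟨2, 37, 34, 4, 681, 1⟩, ⟨2, 38, 15, 6, 21, 6⟩, ⟨2, 39, 134, 2, 17, 7⟩,
  ⟨2, 40, 133, 2, 57, 4⟩, ⟨2, 42, 131, 2, 269, 2⟩, ⟨2, 43, 130, 2, 129, 3⟩,
  ⟨2, 44, 129, 2, 78, 4⟩, ⟨2, 46, 127, 2, 357, 2⟩, ⟨2, 48, 5, 10, 101, 4⟩,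
  ⟨2, 50, 123, 2, 453, 2⟩, ⟨2, 54, 119, 2, 557, 2⟩, ⟨2, 56, 13, 6, 17, 12⟩,
  ⟨2, 58, 115, 2, 669, 2⟩, ⟨2, 59, 114, 2, 57, 7⟩, ⟨2, 60, 113, 2, 182, 4⟩, ⟨2, 61, 7, 8, 337, 3⟩,
  ⟨2, 64, 109, 2, 213, 4⟩, ⟨2, 65, 3, 12, 393, 3⟩, ⟨2, 68, 105, 2, 246, 4⟩,
  ⟨2, 70, 103, 2, 13, 18⟩, ⟨2, 72, 101, 2, 281, 4⟩, ⟨2, 74, 11, 6, 133, 6⟩,
  ⟨2, 76, 97, 2, 318, 4⟩, ⟨2, 79, 94, 2, 617, 3⟩, ⟨2, 80, 93, 2, 357, 4⟩, ⟨2, 84, 89, 2, 398, 4⟩,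
  ⟨2, 96, 77, 2, 533, 4⟩, ⟨2, 100, 73, 2, 582, 4⟩, ⟨2, 104, 69, 2, 633, 4⟩,
  ⟨2, 106, 67, 2, 293, 6⟩, ⟨2, 108, 65, 2, 14, 28⟩, ⟨2, 110, 7, 6, 317, 6⟩,
  ⟨2, 122, 51, 2, 21, 26⟩, ⟨2, 128, 5, 6, 109, 12⟩, ⟨2, 131, 42, 2, 57, 17⟩,
  ⟨2, 142, 31, 2, 541, 6⟩, ⟨2, 146, 3, 6, 573, 6⟩, ⟨2, 151, 22, 2, 273, 9⟩,
  ⟨2, 158, 15, 2, 21, 34⟩, ⟨2, 160, 13, 2, 173, 12⟩]

/-- the members with the first coordinate `3` -/
def R3 : List En := [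
  ⟨3, 40, 537, 1, 13, 2⟩, ⟨3, 41, 533, 1, 133, 1⟩, ⟨3, 43, 21, 5, 301, 1⟩, ⟨3, 44, 521, 1, 97, 2⟩,
  ⟨3, 45, 517, 1, 53, 3⟩, ⟨3, 46, 57, 3, 142, 2⟩, ⟨3, 47, 509, 1, 661, 1⟩, ⟨3, 48, 505, 1, 21, 6⟩,
  ⟨3, 50, 497, 1, 238, 2⟩, ⟨3, 51, 493, 1, 13, 9⟩, ⟨3, 54, 481, 1, 38, 6⟩,
  ⟨3, 56, 473, 1, 397, 2⟩, ⟨3, 57, 469, 1, 21, 9⟩, ⟨3, 58, 465, 1, 454, 2⟩,
  ⟨3, 60, 457, 1, 57, 6⟩, ⟨3, 62, 449, 1, 574, 2⟩, ⟨3, 63, 445, 1, 269, 3⟩,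
  ⟨3, 66, 433, 1, 78, 6⟩, ⟨3, 69, 421, 1, 357, 3⟩, ⟨3, 72, 409, 1, 101, 6⟩,
  ⟨3, 75, 397, 1, 453, 3⟩, ⟨3, 78, 385, 1, 14, 18⟩, ⟨3, 79, 381, 1, 13, 19⟩,
  ⟨3, 81, 373, 1, 557, 3⟩, ⟨3, 83, 365, 1, 109, 7⟩, ⟨3, 87, 349, 1, 669, 3⟩,
  ⟨3, 90, 337, 1, 182, 6⟩, ⟨3, 96, 313, 1, 213, 6⟩, ⟨3, 105, 277, 1, 13, 27⟩,
  ⟨3, 108, 265, 1, 281, 6⟩, ⟨3, 111, 253, 1, 133, 9⟩, ⟨3, 113, 5, 7, 229, 7⟩,
  ⟨3, 114, 241, 1, 318, 6⟩, ⟨3, 120, 217, 1, 357, 6⟩, ⟨3, 126, 193, 1, 398, 6⟩,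
  ⟨3, 138, 145, 1, 6, 54⟩, ⟨3, 150, 97, 1, 582, 6⟩, ⟨3, 155, 77, 1, 133, 13⟩,
  ⟨3, 156, 73, 1, 633, 6⟩, ⟨3, 159, 61, 1, 293, 9⟩, ⟨3, 165, 37, 1, 317, 9⟩]

/-- the members with the first coordinate `4` -/
def R4 : List En := [
  ⟨4, 53, 123, 2, 57, 1⟩, ⟨4, 54, 122, 2, 41, 2⟩, ⟨4, 56, 30, 4, 6, 8⟩, ⟨4, 57, 119, 2, 497, 1⟩,
  ⟨4, 58, 118, 2, 17, 6⟩, ⟨4, 60, 29, 4, 53, 4⟩, ⟨4, 62, 114, 2, 273, 2⟩, ⟨4, 64, 7, 8, 21, 8⟩,
  ⟨4, 66, 110, 2, 401, 2⟩, ⟨4, 67, 109, 2, 193, 3⟩, ⟨4, 68, 3, 12, 13, 12⟩,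
  ⟨4, 69, 107, 2, 41, 7⟩, ⟨4, 70, 106, 2, 537, 2⟩, ⟨4, 72, 26, 4, 38, 8⟩, ⟨4, 74, 102, 2, 681, 2⟩,
  ⟨4, 75, 101, 2, 17, 13⟩, ⟨4, 77, 11, 6, 353, 3⟩, ⟨4, 78, 2, 14, 17, 14⟩, ⟨4, 80, 6, 8, 57, 8⟩,
  ⟨4, 84, 23, 4, 269, 4⟩, ⟨4, 85, 91, 2, 497, 3⟩, ⟨4, 86, 10, 6, 129, 6⟩, ⟨4, 88, 22, 4, 78, 8⟩,
  ⟨4, 92, 21, 4, 357, 4⟩, ⟨4, 96, 5, 8, 101, 8⟩, ⟨4, 100, 19, 4, 453, 4⟩, ⟨4, 103, 73, 2, 97, 9⟩,
  ⟨4, 104, 2, 12, 14, 24⟩, ⟨4, 108, 17, 4, 557, 4⟩, ⟨4, 116, 15, 4, 669, 4⟩,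
  ⟨4, 118, 58, 2, 57, 14⟩, ⟨4, 120, 14, 4, 182, 8⟩, ⟨4, 122, 6, 6, 337, 6⟩,
  ⟨4, 128, 3, 8, 213, 8⟩, ⟨4, 130, 46, 2, 393, 6⟩, ⟨4, 136, 10, 4, 246, 8⟩,
  ⟨4, 144, 2, 8, 281, 8⟩, ⟨4, 148, 7, 4, 133, 12⟩, ⟨4, 152, 6, 4, 318, 8⟩, ⟨4, 158, 2, 6, 617, 6⟩,
  ⟨4, 168, 2, 4, 398, 8⟩]

/-- the members with the first coordinate `5` -/
def R5 : List En := [
  ⟨5, 66, 449, 1, 14, 2⟩, ⟨5, 67, 445, 1, 21, 3⟩, ⟨5, 69, 437, 1, 461, 1⟩, ⟨5, 70, 433, 1, 6, 10⟩,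
  ⟨5, 72, 17, 5, 221, 2⟩, ⟨5, 73, 421, 1, 21, 7⟩, ⟨5, 74, 417, 1, 6, 14⟩, ⟨5, 75, 413, 1, 53, 5⟩,
  ⟨5, 76, 409, 1, 41, 6⟩, ⟨5, 77, 5, 9, 181, 3⟩, ⟨5, 78, 401, 1, 446, 2⟩, ⟨5, 80, 393, 1, 21, 10⟩,
  ⟨5, 82, 385, 1, 606, 2⟩, ⟨5, 85, 373, 1, 13, 15⟩, ⟨5, 86, 41, 3, 86, 6⟩,
  ⟨5, 90, 353, 1, 38, 10⟩, ⟨5, 94, 337, 1, 14, 18⟩, ⟨5, 95, 37, 3, 21, 15⟩,
  ⟨5, 100, 313, 1, 57, 10⟩, ⟨5, 104, 33, 3, 181, 6⟩, ⟨5, 105, 293, 1, 269, 5⟩,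
  ⟨5, 109, 277, 1, 21, 19⟩, ⟨5, 110, 273, 1, 78, 10⟩, ⟨5, 112, 265, 1, 229, 6⟩,
  ⟨5, 115, 253, 1, 357, 5⟩, ⟨5, 120, 233, 1, 101, 10⟩, ⟨5, 125, 213, 1, 453, 5⟩,
  ⟨5, 130, 193, 1, 14, 30⟩, ⟨5, 135, 173, 1, 557, 5⟩, ⟨5, 145, 133, 1, 669, 5⟩,
  ⟨5, 149, 13, 3, 221, 9⟩, ⟨5, 150, 113, 1, 182, 10⟩, ⟨5, 160, 73, 1, 213, 10⟩,
  ⟨5, 170, 33, 1, 246, 10⟩, ⟨5, 171, 29, 1, 509, 7⟩]

/-- the members with the first coordinate `6` -/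
def R6 : List En := [
  ⟨6, 80, 101, 2, 13, 4⟩, ⟨6, 82, 11, 6, 133, 2⟩, ⟨6, 84, 97, 2, 6, 12⟩, ⟨6, 86, 95, 2, 301, 2⟩,
  ⟨6, 87, 94, 2, 17, 9⟩, ⟨6, 88, 93, 2, 97, 4⟩, ⟨6, 90, 91, 2, 53, 6⟩, ⟨6, 92, 89, 2, 142, 4⟩,
  ⟨6, 93, 22, 4, 273, 3⟩, ⟨6, 94, 87, 2, 661, 2⟩, ⟨6, 96, 85, 2, 21, 12⟩, ⟨6, 99, 82, 2, 401, 3⟩,
  ⟨6, 102, 79, 2, 13, 18⟩, ⟨6, 105, 19, 4, 537, 3⟩, ⟨6, 108, 73, 2, 38, 12⟩,
  ⟨6, 111, 70, 2, 681, 3⟩, ⟨6, 112, 69, 2, 397, 4⟩, ⟨6, 114, 67, 2, 21, 18⟩,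
  ⟨6, 116, 65, 2, 454, 4⟩, ⟨6, 120, 61, 2, 57, 12⟩, ⟨6, 124, 57, 2, 574, 4⟩,
  ⟨6, 126, 55, 2, 269, 6⟩, ⟨6, 128, 53, 2, 13, 28⟩, ⟨6, 129, 13, 4, 129, 9⟩,
  ⟨6, 138, 43, 2, 357, 6⟩, ⟨6, 144, 37, 2, 101, 12⟩, ⟨6, 150, 31, 2, 453, 6⟩,
  ⟨6, 158, 23, 2, 13, 38⟩, ⟨6, 162, 19, 2, 557, 6⟩, ⟨6, 166, 15, 2, 109, 14⟩,
  ⟨6, 168, 13, 2, 17, 36⟩, ⟨6, 174, 7, 2, 669, 6⟩]

/-- the members with the first coordinate `7` -/
def R7 : List En := [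
  ⟨7, 93, 365, 1, 221, 1⟩, ⟨7, 95, 357, 1, 597, 1⟩, ⟨7, 96, 353, 1, 197, 2⟩,
  ⟨7, 97, 349, 1, 109, 3⟩, ⟨7, 98, 345, 1, 6, 14⟩, ⟨7, 100, 337, 1, 393, 2⟩,
  ⟨7, 101, 37, 3, 197, 3⟩, ⟨7, 102, 329, 1, 494, 2⟩, ⟨7, 104, 321, 1, 597, 2⟩,
  ⟨7, 105, 317, 1, 53, 7⟩, ⟨7, 106, 313, 1, 78, 6⟩, ⟨7, 110, 33, 3, 102, 6⟩,
  ⟨7, 115, 277, 1, 533, 3⟩, ⟨7, 119, 29, 3, 13, 21⟩, ⟨7, 124, 241, 1, 193, 6⟩,
  ⟨7, 126, 233, 1, 38, 14⟩, ⟨7, 133, 205, 1, 21, 21⟩, ⟨7, 140, 177, 1, 57, 14⟩,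
  ⟨7, 146, 17, 3, 358, 6⟩, ⟨7, 147, 149, 1, 269, 7⟩, ⟨7, 160, 97, 1, 53, 18⟩,
  ⟨7, 161, 93, 1, 357, 7⟩, ⟨7, 168, 65, 1, 101, 14⟩, ⟨7, 175, 37, 1, 453, 7⟩]

/-- the members with the first coordinate `8` -/
def R8 : List En := [
  ⟨8, 105, 83, 2, 17, 1⟩, ⟨8, 106, 82, 2, 57, 2⟩, ⟨8, 108, 5, 8, 41, 4⟩, ⟨8, 109, 79, 2, 97, 3⟩,
  ⟨8, 110, 78, 2, 273, 2⟩, ⟨8, 112, 19, 4, 6, 16⟩, ⟨8, 114, 74, 2, 497, 2⟩,
  ⟨8, 116, 2, 12, 17, 12⟩, ⟨8, 120, 17, 4, 53, 8⟩, ⟨8, 125, 7, 6, 57, 9⟩, ⟨8, 127, 61, 2, 569, 3⟩,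
  ⟨8, 128, 15, 4, 21, 16⟩, ⟨8, 132, 14, 4, 401, 4⟩, ⟨8, 134, 6, 6, 193, 6⟩,
  ⟨8, 138, 2, 10, 41, 14⟩, ⟨8, 140, 3, 8, 537, 4⟩, ⟨8, 144, 11, 4, 38, 16⟩,
  ⟨8, 148, 10, 4, 681, 4⟩, ⟨8, 150, 38, 2, 17, 26⟩, ⟨8, 154, 34, 2, 353, 6⟩,
  ⟨8, 156, 2, 8, 17, 28⟩, ⟨8, 160, 7, 4, 57, 16⟩, ⟨8, 168, 5, 4, 269, 8⟩, ⟨8, 170, 2, 6, 497, 6⟩,
  ⟨8, 176, 3, 4, 78, 16⟩]

/-- the members with the first coordinate `9` -/
def R9 : List En := [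
  ⟨9, 119, 293, 1, 229, 1⟩, ⟨9, 122, 281, 1, 238, 2⟩, ⟨9, 123, 277, 1, 133, 3⟩,
  ⟨9, 126, 265, 1, 6, 18⟩, ⟨9, 127, 29, 3, 13, 13⟩, ⟨9, 128, 257, 1, 613, 2⟩,
  ⟨9, 129, 253, 1, 301, 3⟩, ⟨9, 132, 241, 1, 97, 6⟩, ⟨9, 133, 237, 1, 13, 17⟩,
  ⟨9, 135, 229, 1, 53, 9⟩, ⟨9, 138, 217, 1, 142, 6⟩, ⟨9, 141, 205, 1, 661, 3⟩,
  ⟨9, 143, 197, 1, 133, 7⟩, ⟨9, 144, 193, 1, 21, 18⟩, ⟨9, 151, 165, 1, 181, 7⟩,
  ⟨9, 153, 157, 1, 13, 27⟩, ⟨9, 168, 97, 1, 397, 6⟩, ⟨9, 171, 85, 1, 21, 27⟩,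
  ⟨9, 174, 73, 1, 454, 6⟩, ⟨9, 189, 13, 1, 269, 9⟩]

/-- the members with the first coordinate `10` -/
def R10 : List En := [
  ⟨10, 132, 65, 2, 14, 4⟩, ⟨10, 134, 7, 6, 21, 6⟩, ⟨10, 135, 62, 2, 41, 5⟩,
  ⟨10, 138, 59, 2, 461, 2⟩, ⟨10, 140, 57, 2, 6, 20⟩, ⟨10, 144, 53, 2, 221, 4⟩,
  ⟨10, 145, 13, 4, 17, 15⟩, ⟨10, 146, 51, 2, 21, 14⟩, ⟨10, 150, 47, 2, 53, 10⟩,
  ⟨10, 152, 5, 6, 41, 12⟩, ⟨10, 154, 43, 2, 181, 6⟩, ⟨10, 155, 42, 2, 273, 5⟩,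
  ⟨10, 156, 41, 2, 446, 4⟩, ⟨10, 160, 37, 2, 21, 20⟩, ⟨10, 164, 33, 2, 606, 4⟩,
  ⟨10, 165, 2, 8, 401, 5⟩, ⟨10, 170, 3, 6, 13, 30⟩, ⟨10, 175, 22, 2, 537, 5⟩,
  ⟨10, 180, 17, 2, 38, 20⟩, ⟨10, 185, 3, 4, 681, 5⟩, ⟨10, 190, 7, 2, 21, 30⟩,
  ⟨10, 195, 2, 2, 17, 35⟩]

/-- the members with the first coordinate `11` -/
def R11 : List En := [
  ⟨11, 145, 229, 1, 213, 1⟩, ⟨11, 148, 217, 1, 273, 2⟩, ⟨11, 150, 209, 1, 422, 2⟩,
  ⟨11, 151, 205, 1, 221, 3⟩, ⟨11, 152, 201, 1, 573, 2⟩, ⟨11, 153, 197, 1, 53, 7⟩,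
  ⟨11, 154, 193, 1, 6, 22⟩, ⟨11, 155, 21, 3, 357, 3⟩, ⟨11, 165, 149, 1, 53, 11⟩,
  ⟨11, 174, 113, 1, 14, 26⟩, ⟨11, 176, 105, 1, 21, 22⟩, ⟨11, 178, 97, 1, 302, 6⟩,
  ⟨11, 187, 61, 1, 13, 33⟩, ⟨11, 198, 17, 1, 38, 22⟩]

/-- the members with the first coordinate `12` -/
def R12 : List En := [
  ⟨12, 160, 3, 8, 13, 8⟩, ⟨12, 162, 46, 2, 41, 6⟩, ⟨12, 164, 11, 4, 133, 4⟩,
  ⟨12, 165, 43, 2, 273, 3⟩, ⟨12, 168, 10, 4, 6, 24⟩, ⟨12, 171, 37, 2, 497, 3⟩,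
  ⟨12, 174, 34, 2, 17, 18⟩, ⟨12, 176, 2, 8, 97, 8⟩, ⟨12, 180, 7, 4, 53, 12⟩,
  ⟨12, 184, 6, 4, 142, 8⟩, ⟨12, 185, 23, 2, 193, 7⟩, ⟨12, 186, 22, 2, 273, 6⟩,
  ⟨12, 188, 5, 4, 661, 4⟩, ⟨12, 198, 10, 2, 401, 6⟩, ⟨12, 200, 2, 4, 238, 8⟩,
  ⟨12, 201, 7, 2, 193, 9⟩]

/-- the members with the first coordinate `13` -/
def R13 : List En := [
  ⟨13, 174, 161, 1, 302, 2⟩, ⟨13, 175, 157, 1, 173, 3⟩, ⟨13, 176, 17, 3, 53, 6⟩,
  ⟨13, 178, 145, 1, 654, 2⟩, ⟨13, 180, 137, 1, 17, 14⟩, ⟨13, 182, 129, 1, 6, 26⟩,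
  ⟨13, 185, 13, 3, 573, 3⟩, ⟨13, 193, 85, 1, 101, 9⟩, ⟨13, 195, 77, 1, 53, 13⟩]

/-- the members with the first coordinate `14` -/
def R14 : List En := [
  ⟨14, 186, 35, 2, 221, 2⟩, ⟨14, 188, 33, 2, 102, 4⟩, ⟨14, 189, 2, 8, 41, 7⟩,
  ⟨14, 190, 31, 2, 597, 2⟩, ⟨14, 192, 29, 2, 197, 4⟩, ⟨14, 193, 7, 4, 393, 3⟩,
  ⟨14, 194, 3, 6, 109, 6⟩, ⟨14, 200, 21, 2, 393, 4⟩, ⟨14, 202, 19, 2, 197, 6⟩,
  ⟨14, 203, 2, 6, 17, 21⟩, ⟨14, 204, 17, 2, 494, 4⟩, ⟨14, 208, 13, 2, 597, 4⟩,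
  ⟨14, 210, 11, 2, 53, 14⟩]

/-- the members with the first coordinate `15` -/
def R15 : List En := [
  ⟨15, 197, 5, 5, 109, 1⟩, ⟨15, 200, 113, 1, 13, 10⟩, ⟨15, 201, 109, 1, 21, 9⟩,
  ⟨15, 202, 105, 1, 526, 2⟩, ⟨15, 205, 93, 1, 133, 5⟩, ⟨15, 207, 85, 1, 461, 3⟩,
  ⟨15, 210, 73, 1, 6, 30⟩, ⟨15, 215, 53, 1, 301, 5⟩, ⟨15, 219, 37, 1, 21, 21⟩,
  ⟨15, 220, 33, 1, 97, 10⟩, ⟨15, 225, 13, 1, 53, 15⟩]

/-- the members with the first coordinate `16` -/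
def R16 : List En := [
  ⟨16, 210, 26, 2, 17, 2⟩, ⟨16, 212, 6, 4, 57, 4⟩, ⟨16, 216, 5, 4, 41, 8⟩, ⟨16, 218, 2, 6, 97, 6⟩,
  ⟨16, 223, 13, 2, 633, 3⟩, ⟨16, 224, 3, 4, 6, 32⟩, ⟨16, 228, 2, 4, 497, 4⟩]

/-- the members with the first coordinate `17` -/
def R17 : List En := [
  ⟨17, 223, 85, 1, 21, 1⟩, ⟨17, 226, 73, 1, 38, 6⟩, ⟨17, 228, 65, 1, 569, 2⟩,
  ⟨17, 233, 5, 3, 509, 3⟩, ⟨17, 235, 37, 1, 613, 3⟩]

/-- the members with the first coordinate `18` -/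
def R18 : List En := [
  ⟨18, 238, 15, 2, 229, 2⟩, ⟨18, 243, 10, 2, 41, 9⟩, ⟨18, 246, 7, 2, 133, 6⟩]

/-- the members with the first coordinate `19` -/
def R19 : List En := [
  ⟨19, 251, 5, 3, 101, 3⟩, ⟨19, 252, 41, 1, 353, 2⟩, ⟨19, 253, 37, 1, 213, 3⟩,
  ⟨19, 254, 33, 1, 606, 2⟩]

/-- the members with the first coordinate `20` -/
def R20 : List En := [
  ⟨20, 264, 2, 4, 14, 8⟩, ⟨20, 265, 7, 2, 57, 5⟩, ⟨20, 266, 6, 2, 489, 2⟩, ⟨20, 270, 2, 2, 41, 10⟩]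

/-- the members with the first coordinate `21` -/
def R21 : List En := [
  ⟨21, 278, 17, 1, 358, 2⟩, ⟨21, 279, 13, 1, 221, 3⟩]

/-- the members with the first coordinate `22` -/
def R22 : List En := [
  ⟨22, 290, 3, 2, 213, 2⟩]

/-- the members with the first coordinate `23` -/
def R23 : List En := [
]

/-- the members with the first coordinate `24` -/
def R24 : List En := [
]

/-- the members with the first coordinate `25` -/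
def R25 : List En := [
]

/-- the members with the first coordinate `26` -/
def R26 : List En := [
]

/-- all members -/
def TT : List (List En) :=
  [
  R0, R1, R2, R3, R4, R5, R6, R7, R8, R9, R10, R11, R12, R13, R14, R15, R16, R17, R18, R19, R20,
  R21, R22, R23, R24, R25, R26]

/-- the others, with a square root -/
def WW : List (List (ℕ × ℕ)) := [
  [
   (0, 0), (1, 1), (2, 2), (3, 26), (4, 4), (5, 5), (6, 6), (7, 7), (8, 8), (9, 9), (10, 10),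
   (11, 11), (12, 12), (13, 13), (14, 14), (15, 15), (16, 16), (17, 17), (18, 18), (19, 19),
   (20, 20), (21, 21), (22, 22), (23, 23), (24, 24), (25, 25), (26, 26), (27, 27), (28, 24),
   (29, 29), (30, 30), (31, 31), (32, 32), (33, 33), (34, 34), (35, 35), (36, 36), (37, 37),
   (38, 38), (39, 39), (40, 40), (41, 41), (42, 42), (43, 43), (44, 44), (45, 45), (46, 46),
   (47, 47), (48, 48), (49, 49), (50, 50), (51, 22), (52, 52), (53, 53), (54, 54), (55, 55),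
   (56, 56), (57, 57), (58, 58), (59, 59), (60, 60), (61, 61), (62, 62), (63, 63), (64, 64),
   (65, 65), (66, 66), (67, 67), (68, 68), (69, 69), (70, 70), (71, 71), (72, 20), (73, 73),
   (74, 74), (75, 75), (76, 76), (77, 77), (78, 78), (79, 79), (80, 80), (81, 81), (82, 82),
   (83, 83), (84, 84), (85, 85), (86, 86), (87, 87), (88, 88), (89, 89), (90, 90), (91, 18),
   (92, 92), (93, 93), (94, 94), (95, 95), (96, 96), (97, 97), (98, 98), (99, 99), (100, 100),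
   (101, 101), (102, 102), (103, 103), (104, 104), (105, 105), (106, 106), (107, 107), (108, 16),
   (109, 109), (110, 110), (111, 111), (112, 112), (113, 113), (114, 114), (115, 115), (116, 116),
   (117, 117), (118, 118), (119, 119), (120, 120), (121, 121), (122, 122), (123, 14), (124, 124),
   (125, 125), (126, 126), (127, 127), (128, 128), (129, 129), (130, 130), (131, 131), (132, 132),
   (133, 133), (134, 134), (135, 135), (136, 12), (137, 137), (138, 138), (139, 139), (140, 140),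
   (141, 141), (142, 142), (143, 143), (144, 144), (145, 145), (146, 146), (147, 10), (148, 148),
   (149, 149), (150, 150), (151, 151), (152, 152), (153, 153), (154, 154), (155, 155), (156, 8),
   (157, 157), (158, 158), (159, 159), (160, 160), (161, 161), (162, 162), (163, 6), (164, 164),
   (165, 165), (166, 166), (167, 167), (168, 4), (169, 169), (170, 170), (171, 2), (172, 0)],
  [
   (16, 25), (40, 23), (44, 42), (62, 21), (82, 19), (100, 17), (116, 15), (130, 13), (142, 11),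
   (152, 9), (160, 7), (166, 5), (170, 3), (172, 1)],
  [
   (29, 24), (47, 39), (52, 22), (73, 20), (88, 84), (92, 18), (109, 16), (124, 14), (137, 12),
   (148, 10), (157, 8), (164, 6), (169, 4), (172, 2), (173, 0)],
  [
   (42, 23), (52, 34), (64, 21), (84, 19), (102, 17), (118, 15), (132, 13), (144, 11), (154, 9),
   (162, 7), (168, 5), (172, 3), (174, 1)],
  [
   (55, 22), (59, 27), (76, 20), (94, 78), (95, 18), (112, 16), (127, 14), (140, 12), (151, 10),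
   (160, 8), (167, 6), (172, 4), (175, 2), (176, 0)],
  [
   (68, 21), (88, 19), (106, 17), (122, 15), (123, 1547), (136, 13), (140, 1530), (148, 11),
   (158, 9), (166, 7), (172, 5), (175, 585), (176, 3), (178, 1)],
  [
   (79, 7), (81, 20), (100, 18), (104, 68), (117, 16), (132, 14), (141, 117), (145, 12),
   (156, 10), (165, 8), (172, 6), (177, 4), (180, 2), (181, 0)],
  [
   (92, 6), (94, 19), (112, 17), (128, 15), (142, 13), (154, 11), (164, 9), (172, 7), (178, 5),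
   (182, 3), (184, 1)],
  [
   (107, 18), (118, 54), (124, 16), (136, 1248), (139, 14), (152, 12), (163, 10), (172, 8),
   (179, 6), (184, 4), (187, 2), (188, 0)],
  [
   (120, 17), (124, 38), (136, 15), (150, 13), (156, 102), (162, 11), (172, 9), (180, 7),
   (186, 5), (190, 3), (192, 1)],
  [
   (133, 16), (136, 36), (143, 57), (148, 14), (161, 12), (172, 10), (181, 8), (188, 6), (193, 4),
   (196, 2), (197, 0)],
  [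
   (146, 15), (160, 13), (164, 78), (172, 11), (182, 9), (190, 7), (196, 5), (200, 3), (202, 1)],
  [
   (158, 14), (159, 14), (172, 12), (177, 81), (183, 10), (187, 101), (192, 8), (199, 6),
   (204, 4), (207, 2), (208, 0)],
  [
   (171, 173), (172, 13), (184, 11), (194, 9), (202, 7), (208, 5), (212, 3), (214, 1)],
  [
   (184, 12), (185, 12), (196, 10), (205, 8), (212, 6), (217, 4), (220, 2), (221, 0)],
  [
   (198, 11), (204, 54), (208, 9), (216, 7), (222, 5), (226, 3), (228, 1)],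
  [
   (211, 10), (214, 42), (220, 8), (227, 6), (232, 4), (235, 2), (236, 0)],
  [
   (224, 9), (232, 7), (238, 5), (242, 3), (244, 1)],
  [
   (237, 8), (240, 312), (244, 6), (248, 76), (249, 4), (252, 2), (253, 0)],
  [
   (250, 7), (256, 5), (260, 3), (262, 1)],
  [
   (263, 6), (268, 4), (271, 2), (272, 0)],
  [
   (276, 5), (280, 3), (282, 1)],
  [
   (289, 4), (292, 2), (293, 0)],
  [
   (302, 3), (304, 1)],
  [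
   (315, 2), (316, 0)],
  [
   (328, 1)],
  [
   (341, 0)]]

/-- the members which may have a partner -/
def FF : List (ℕ × ℕ × ℕ × ℕ) := [
  (1, 23, 597, 357), (2, 61, 7, 337), (4, 80, 6, 57), (5, 80, 393, 21), (5, 90, 353, 38),
  (5, 110, 273, 78), (6, 128, 53, 13), (6, 144, 37, 101), (7, 95, 357, 597), (8, 110, 78, 273),
  (8, 134, 6, 193), (8, 148, 10, 681), (8, 150, 38, 17), (10, 140, 57, 6), (10, 180, 17, 38),
  (11, 154, 193, 6), (11, 174, 113, 14), (11, 198, 17, 38), (12, 201, 7, 193), (14, 200, 21, 393),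
  (15, 225, 13, 53), (16, 212, 6, 57)]

/-- the pairs `(a, c)`, `(a', c')` with `d D' = n ^ 2`, `D d' = m ^ 2`, not reflex, with square
roots of the values, rounded -/
def L0 : List En0 := [
  ⟨1, 23, 7, 95, 597, 357, 111, 50, 100, 12⟩, ⟨5, 80, 14, 200, 1572, 420, 234, 177, 153, 7⟩,
  ⟨6, 128, 15, 225, 1590, 364, 281, 240, 203, 139⟩, ⟨7, 95, 1, 23, 357, 597, 111, 100, 50, 12⟩,
  ⟨8, 150, 10, 180, 1520, 884, 321, 260, 233, 139⟩,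
  ⟨8, 150, 11, 198, 1672, 442, 318, 286, 218, 168⟩,
  ⟨10, 140, 16, 212, 456, 480, 233, 154, 190, 75⟩,
  ⟨10, 180, 8, 150, 884, 1520, 321, 233, 260, 139⟩,
  ⟨11, 198, 8, 150, 442, 1672, 318, 218, 286, 168⟩, ⟨14, 200, 5, 80, 420, 1572, 234, 153, 177, 7⟩,
  ⟨15, 225, 6, 128, 364, 1590, 281, 203, 240, 139⟩,
  ⟨16, 212, 10, 140, 480, 456, 233, 190, 154, 75⟩]

/-- the reflex pairs -/
def L6 : List (ℕ × ℕ × ℕ × ℕ) := [
  (4, 80, 10, 140), (5, 110, 8, 110), (8, 110, 5, 110), (8, 134, 11, 154), (10, 140, 4, 80),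
  (11, 154, 8, 134)]

/-- the discriminant `d` -/
def dd (a c : ℕ) : ℕ := a * a + 688 - 4 * c

/-- the norm `D` -/
def nn (a c : ℕ) : ℕ := c * c - 172 * (a * a)

/-- the conditions -/
def valid (a c : ℕ) : Bool :=
  Nat.ble (172 * (a * a)) (c * c) && Nat.ble (4 * c) (a * a + 688)

/-- the number of `t` for one `y` -/
def num (y : ℕ) : ℕ := min 688 (29584 / (y * y)) + 1

/-- the numbers `t y²`, `1 ≤ y ≤ k`, `t ≤ 688`, up to `172²` -/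
def Bk : ℕ → ℕ
  | 0 => 0
  | k + 1 => Bk k ||| ((2 ^ ((k + 1) * (k + 1) * num (k + 1)) - 1) / (2 ^ ((k + 1) * (k + 1)) - 1))

/-- the numbers `t y²` -/
def BB : ℕ := Bk 172

/-- all the numbers `t y²` are in `BB` -/
def bitsOK : Bool := (List.range 172).all fun k =>
  (List.range (num (k + 1))).all fun t => Nat.testBit BB (t * ((k + 1) * (k + 1)))

/-- the squares of primes -/
def ps : List ℕ := [4, 9, 25, 49, 121, 169, 289, 361, 529]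

/-- no square of a prime divides `s` -/
def sqf (s : ℕ) : Bool := ps.all fun p => Nat.blt 0 (s % p)

/-- completeness for one pair -/
def rowOK (a c : ℕ) : Bool :=
  !(valid a c) || !(Nat.testBit BB (nn a c)) || (TT.getD a []).any (fun e => Nat.beq e.c c) ||
    (WW.getD a []).any (fun w => Nat.beq w.1 c && (Nat.beq (w.2 * w.2) (dd a c) ||
      Nat.beq (w.2 * w.2) (nn a c) || Nat.beq (w.2 * w.2) (dd a c * nn a c)))

/-- completeness -/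
def complete : Bool := (List.range 27).all fun a => (List.range 345).all fun c => rowOK a c

/-- the entry is correct -/
def enOK (a : ℕ) (e : En) : Bool :=
  Nat.beq e.a a && Nat.beq (e.s * (e.x * e.x)) (dd e.a e.c) &&
    Nat.beq (e.t * (e.y * e.y)) (nn e.a e.c) && Nat.ble e.s 688 && Nat.ble e.t 688 &&
    sqf e.s && sqf e.t && Nat.ble 1 e.s && Nat.ble 1 e.t && Nat.ble 1 e.x && Nat.ble 1 e.y

/-- all entries are correct -/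
def entries : Bool := (List.range 27).all fun a => (TT.getD a []).all (enOK a)

/-- the key of the partner -/
def key2 (e : En) : ℕ := (e.t * 1024 + e.s) % 10007

/-- the key -/
def key1 (e : En) : ℕ := (e.s * 1024 + e.t) % 10007

/-- the keys of the partners as bits of one number -/
def HH : ℕ := TT.foldr (fun R h => R.foldr (fun e h => h ||| (1 <<< key2 e)) h) 0

/-- the filter -/
def filt : Bool := TT.all fun R => R.all fun e => Nat.testBit HH (key2 e) &&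
  (!(Nat.testBit HH (key1 e)) ||
    FF.any fun f => Nat.beq f.1 e.a && Nat.beq f.2.1 e.c && Nat.beq f.2.2.1 e.s &&
      Nat.beq f.2.2.2 e.t)

/-- the pair is in one of the two lists, or the squarefree parts are different -/
def pairOK (u w : ℕ × ℕ × ℕ × ℕ) : Bool :=
  !(Nat.beq u.2.2.1 w.2.2.2) || !(Nat.beq u.2.2.2 w.2.2.1) ||
    L6.any (fun l => Nat.beq l.1 u.1 && Nat.beq l.2.1 u.2.1 && Nat.beq l.2.2.1 w.1 &&
      Nat.beq l.2.2.2 w.2.1) ||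
    L0.any (fun l => Nat.beq l.a u.1 && Nat.beq l.c u.2.1 && Nat.beq l.a' w.1 &&
      Nat.beq l.c' w.2.1)

/-- all pairs -/
def pairs : Bool := FF.all fun u => FF.all fun w => pairOK u w

/-- the value with signs -/
def val (l : En0) (e f : ℤ) : ℤ :=
  ((l.a : ℤ) * l.a - 2 * l.c) * ((l.a' : ℤ) * l.a' - 2 * l.c') +
    2 * l.a * l.n * e + 2 * l.a' * l.m * f

/-- the number lies strictly between two consecutive squares -/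
def btw (z : ℤ) (r : ℕ) : Bool :=
  decide ((r : ℤ) * r < z) && decide (z < ((r : ℤ) + 1) * ((r : ℤ) + 1))

/-- an entry of `L0` is not a reflex pair -/
def noneOK (l : En0) : Bool :=
  Nat.beq (l.n * l.n) (dd l.a l.c * nn l.a' l.c') &&
    Nat.beq (l.m * l.m) (nn l.a l.c * dd l.a' l.c') &&
    btw (val l 1 1) l.r1 && btw (val l 1 (-1)) l.r2 && btw (val l (-1) 1) l.r3 &&
    btw (val l (-1) (-1)) l.r4

theorem h_bits : bitsOK = true := by decide +kernel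

theorem h_complete : complete = true := by decide +kernel

theorem h_entries : entries = true := by decide +kernel

theorem h_filt : filt = true := by decide +kernel

theorem h_pairs : pairs = true := by decide +kernel

theorem h_none : L0.all noneOK = true := by decide +kernel

theorem h_len : TT.length = 27 := by decide +kernel

/-- a reflex partner is determined -/
theorem h_fun : ∀ l ∈ L6, ∀ l' ∈ L6, l.1 = l'.1 → l.2.1 = l'.2.1 → l.2.2 = l'.2.2 := by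
  decide +kernel

theorem sqf_spec (s : ℕ) (h0 : 1 ≤ s) (h1 : s ≤ 688) (h : sqf s = true) : Squarefree s := by
  rw [Nat.squarefree_iff_prime_squarefree]
  intro p hp hd
  have h2 : p * p ≤ s := Nat.le_of_dvd h0 hd
  have h3 : p ≤ 26 := by nlinarith
  have h4 : p * p ∈ ps := by
    interval_cases p <;> first | decide | (exfalso; revert hp; decide)
  have h5 := Nat.le_of_ble_eq_true (List.all_eq_true.1 h _ h4)
  rw [Nat.mod_eq_zero_of_dvd hd] at h5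
  omega

theorem bit_spec (t y : ℕ) (h1 : 1 ≤ y) (h2 : y ≤ 172) (h3 : t ≤ 688)
    (h4 : t * (y * y) ≤ 29584) : Nat.testBit BB (t * (y * y)) = true := by
  obtain ⟨k, rfl⟩ : ∃ k, y = k + 1 := ⟨y - 1, by omega⟩
  have h5 := h_bits
  unfold bitsOK at h5
  have h6 := List.all_eq_true.1 h5 k (List.mem_range.2 (by omega))
  refine List.all_eq_true.1 h6 t (List.mem_range.2 ?_)
  unfold num
  have h7 : t ≤ 29584 / ((k + 1) * (k + 1)) :=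
    (Nat.le_div_iff_mul_le (by positivity)).2 h4
  omega

theorem dvd_of_sq {s t r : ℕ} (hs : Squarefree s) (h : s * t = r * r) : s ∣ t := by
  have h1 : s ∣ r ^ 2 := ⟨t, by rw [h, pow_two]⟩
  obtain ⟨k, rfl⟩ := (hs.dvd_pow_iff_dvd two_ne_zero).1 h1
  refine ⟨k * k, ?_⟩
  have h2 : 0 < s := Nat.pos_of_ne_zero hs.ne_zero
  apply Nat.eq_of_mul_eq_mul_left h2
  rw [h]
  ring

theorem sq_eq {s t r : ℕ} (hs : Squarefree s) (ht : Squarefree t) (h : s * t = r * r) : s = t :=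
  Nat.dvd_antisymm (dvd_of_sq hs h) (dvd_of_sq ht (by rw [mul_comm, h]))

/-- the squarefree parts of two numbers whose product is a square -/
theorem parts {s t x y N : ℕ} (hs : Squarefree s) (ht : Squarefree t) (hx : 1 ≤ x) (hy : 1 ≤ y)
    (h : s * (x * x) * (t * (y * y)) = N * N) : s = t := by
  have h1 : (x * y) ^ 2 ∣ N ^ 2 := ⟨s * t, by rw [pow_two N, ← h]; ring⟩
  obtain ⟨r, rfl⟩ := (Nat.pow_dvd_pow_iff two_ne_zero).1 h1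
  refine sq_eq (r := r) hs ht ?_
  have h2 : 0 < (x * y) ^ 2 := by positivity
  apply Nat.eq_of_mul_eq_mul_left h2
  linarith [h, show (x * y) ^ 2 * (s * t) = s * (x * x) * (t * (y * y)) by ring,
    show (x * y) ^ 2 * (r * r) = x * y * r * (x * y * r) by ring]

theorem getD_mem {a : ℕ} (ha : a < 27) : TT.getD a [] ∈ TT := by
  have h : a < TT.length := by rw [h_len]; exact ha
  rw [List.getD_eq_getElem _ _ h]
  exact List.getElem_mem h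

theorem mem (a c : ℕ) (ha : a * a ≤ 688) (hv1 : 172 * (a * a) ≤ c * c)
    (hv2 : 4 * c ≤ a * a + 688) (g1 : ¬ IsSquare (dd a c)) (g2 : ¬ IsSquare (nn a c))
    (g3 : ¬ IsSquare (dd a c * nn a c)) (e N : ℕ) (he : 1 ≤ e) (he' : e ≤ 688)
    (hN : nn a c * e = N * N) : ∃ R ∈ TT, ∃ u ∈ R, u.a = a ∧ u.c = c ∧ Squarefree u.s ∧
      Squarefree u.t ∧ 1 ≤ u.x ∧ 1 ≤ u.y ∧ u.s * (u.x * u.x) = dd a c ∧
      u.t * (u.y * u.y) = nn a c := by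
  have ha27 : a < 27 := by
    by_contra h
    have h1 : 27 ≤ a := by omega
    nlinarith
  have h1 := h_complete
  unfold complete at h1
  rw [List.all_eq_true] at h1
  have h2 := h1 a (List.mem_range.2 ha27)
  rw [List.all_eq_true] at h2
  have h3 := h2 c (List.mem_range.2 (by omega))
  unfold rowOK at h3
  rw [Bool.or_eq_true, Bool.or_eq_true, Bool.or_eq_true] at h3
  rcases h3 with ((h3 | h3) | h3) | h3
  · exfalso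
    rw [Bool.not_eq_true'] at h3
    have : valid a c = true := by
      unfold valid
      rw [Bool.and_eq_true]
      exact ⟨Nat.ble_eq_true_of_le hv1, Nat.ble_eq_true_of_le hv2⟩
    rw [h3] at this
    exact Bool.noConfusion this
  · exfalso
    rw [Bool.not_eq_true'] at h3
    obtain ⟨t, y, hty, ht⟩ := Nat.sq_mul_squarefree (nn a c)
    obtain ⟨s, x, hsx, hs⟩ := Nat.sq_mul_squarefree e
    have hy : 1 ≤ y := by
      rcases Nat.eq_zero_or_pos y with h | h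
      · exfalso
        apply g2
        rw [← hty, h]
        exact ⟨0, by simp⟩
      · exact h
    have hx : 1 ≤ x := by
      rcases Nat.eq_zero_or_pos x with h | h
      · exfalso
        rw [h] at hsx
        simp at hsx
        omega
      · exact h
    have hst : t = s := by
      refine parts (N := N) ht hs hy hx ?_
      rw [← hN, ← hty, ← hsx]
      ring
    have hse : s ≤ 688 := by
      have : s ≤ x ^ 2 * s := Nat.le_mul_of_pos_left s (by positivity)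
      omega
    have hnn : nn a c ≤ 29584 := by
      unfold nn
      have : c * c ≤ 172 * (a * a) + 29584 := by nlinarith
      omega
    have hty' : t * (y * y) = nn a c := by rw [← hty]; ring
    have hy2 : y ≤ 172 := by
      by_contra h
      have h4 : 173 ≤ y := by omega
      have h5 : 1 ≤ t := Nat.pos_of_ne_zero ht.ne_zero
      nlinarith
    have := bit_spec t y hy hy2 (by omega) (by omega)
    rw [hty', h3] at this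
    exact Bool.noConfusion this
  · rw [List.any_eq_true] at h3
    obtain ⟨u, hu, huc⟩ := h3
    have huc' : u.c = c := Nat.eq_of_beq_eq_true huc
    have h4 := h_entries
    unfold entries at h4
    rw [List.all_eq_true] at h4
    have h5 := h4 a (List.mem_range.2 ha27)
    rw [List.all_eq_true] at h5
    have h6 := h5 u hu
    unfold enOK at h6
    simp only [Bool.and_eq_true] at h6
    obtain ⟨⟨⟨⟨⟨⟨⟨⟨⟨⟨k1, k2⟩, k3⟩, k4⟩, k5⟩, k6⟩, k7⟩, k8⟩, k9⟩, k10⟩, k11⟩ := h6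
    have k1' : u.a = a := Nat.eq_of_beq_eq_true k1
    refine ⟨_, getD_mem ha27, u, hu, k1', huc',
      sqf_spec _ (Nat.le_of_ble_eq_true k8) (Nat.le_of_ble_eq_true k4) k6,
      sqf_spec _ (Nat.le_of_ble_eq_true k9) (Nat.le_of_ble_eq_true k5) k7, Nat.le_of_ble_eq_true k10, Nat.le_of_ble_eq_true k11, ?_, ?_⟩
    · rw [← k1', ← huc']
      exact Nat.eq_of_beq_eq_true k2
    · rw [← k1', ← huc']
      exact Nat.eq_of_beq_eq_true k3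
  · exfalso
    rw [List.any_eq_true] at h3
    obtain ⟨w, -, hw⟩ := h3
    rw [Bool.and_eq_true, Bool.or_eq_true, Bool.or_eq_true] at hw
    rcases hw.2 with (h4 | h4) | h4
    · exact g1 ⟨w.2, (Nat.eq_of_beq_eq_true h4).symm⟩
    · exact g2 ⟨w.2, (Nat.eq_of_beq_eq_true h4).symm⟩
    · exact g3 ⟨w.2, (Nat.eq_of_beq_eq_true h4).symm⟩

/-- a member with a partner is in the short list -/
theorem filt_spec {R R' : List En} (hR : R ∈ TT) (hR' : R' ∈ TT) {u w : En} (hu : u ∈ R)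
    (hw : w ∈ R') (e1 : u.s = w.t) (e2 : u.t = w.s) : (u.a, u.c, u.s, u.t) ∈ FF := by
  have h1 := h_filt
  unfold filt at h1
  have h2 := List.all_eq_true.1 (List.all_eq_true.1 h1 R hR) u hu
  have h3 := List.all_eq_true.1 (List.all_eq_true.1 h1 R' hR') w hw
  rw [Bool.and_eq_true, Bool.or_eq_true] at h2 h3
  have h4 : key1 u = key2 w := by
    unfold key1 key2
    rw [e1, e2]
  rcases h2.2 with h5 | h5
  · rw [h4, h3.1] at h5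
    exact absurd h5 (by decide)
  · rw [List.any_eq_true] at h5
    obtain ⟨f, hf, h6⟩ := h5
    simp only [Bool.and_eq_true] at h6
    obtain ⟨⟨⟨l1, l2⟩, l3⟩, l4⟩ := h6
    have m1 := Nat.eq_of_beq_eq_true l1
    have m2 := Nat.eq_of_beq_eq_true l2
    have m3 := Nat.eq_of_beq_eq_true l3
    have m4 := Nat.eq_of_beq_eq_true l4
    obtain ⟨x1, x2, x3, x4⟩ := f
    simp only at m1 m2 m3 m4
    rw [m1, m2, m3, m4] at hf
    exact hf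

theorem btw_spec (z : ℤ) (r : ℕ) (h : btw z r = true) : ¬ IsSquare z := by
  rintro ⟨k, rfl⟩
  unfold btw at h
  rw [Bool.and_eq_true, decide_eq_true_eq, decide_eq_true_eq] at h
  obtain ⟨h1, h2⟩ := h
  rw [← abs_mul_abs_self k] at h1 h2
  have h3 := abs_nonneg k
  have h4 : (r : ℤ) < |k| := by
    by_contra h
    push Not at h
    nlinarith
  have h5 : |k| < (r : ℤ) + 1 := by
    by_contra h
    push Not at h
    have : (0 : ℤ) ≤ r := Int.natCast_nonneg r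
    nlinarith
  omega

/-- the natural numbers which belong to a real Weil polynomial -/
theorem nat_of {A B : ℤ} (h : W2 43 A B) : ∃ c : ℕ, (c : ℤ) = B + 172 ∧
    A.natAbs * A.natAbs ≤ 688 ∧ 172 * (A.natAbs * A.natAbs) ≤ c * c ∧
    4 * c ≤ A.natAbs * A.natAbs + 688 ∧ ((dd A.natAbs c : ℕ) : ℤ) = DD A B ∧
    ((nn A.natAbs c : ℕ) : ℤ) = DP 43 A B ∧ dd A.natAbs c ≤ 688 := by
  obtain ⟨d, dp, s, a⟩ := h
  unfold DD at d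
  unfold DP at dp
  push_cast at dp s a
  obtain ⟨c, hc⟩ := Int.eq_ofNat_of_zero_le (show 0 ≤ B + 172 by linarith)
  have hA : ((A.natAbs * A.natAbs : ℕ) : ℤ) = A ^ 2 := by
    push_cast
    rw [abs_mul_abs_self, pow_two]
  have e1 : A.natAbs * A.natAbs ≤ 688 := by
    have : ((A.natAbs * A.natAbs : ℕ) : ℤ) ≤ 688 := by rw [hA]; linarith
    exact_mod_cast this
  have e2 : 172 * (A.natAbs * A.natAbs) ≤ c * c := by
    have : ((172 * (A.natAbs * A.natAbs) : ℕ) : ℤ) ≤ ((c * c : ℕ) : ℤ) := by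
      rw [Nat.cast_mul 172, hA]
      push_cast
      rw [← hc]
      linarith
    exact_mod_cast this
  have e3 : 4 * c ≤ A.natAbs * A.natAbs + 688 := by
    have : ((4 * c : ℕ) : ℤ) ≤ ((A.natAbs * A.natAbs + 688 : ℕ) : ℤ) := by
      rw [Nat.cast_add, hA]
      push_cast
      rw [← hc]
      linarith
    exact_mod_cast this
  refine ⟨c, hc.symm, e1, e2, e3, ?_, ?_, ?_⟩
  · unfold dd DD
    rw [Nat.cast_sub e3, Nat.cast_add, hA]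
    push_cast
    rw [← hc]
    ring
  · unfold nn DP
    rw [Nat.cast_sub e2, Nat.cast_mul 172, hA]
    push_cast
    rw [← hc]
    ring
  · unfold dd
    have : A.natAbs * A.natAbs ≤ 4 * c := by
      by_contra h
      push Not at h
      nlinarith
    omega

theorem isSq {n : ℕ} {z : ℤ} (h : (n : ℤ) = z) (hz : ¬ IsSquare z) : ¬ IsSquare n := by
  rintro ⟨r, rfl⟩
  exact hz ⟨r, by rw [← h]; push_cast; ring⟩

/-- the reflex pairs -/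
theorem key (A B A₁ B₁ : ℤ) (h : W2 43 A B) (h₁ : W2 43 A₁ B₁) (hr : Rf 43 A B A₁ B₁) :
    ∃ c c₁ : ℕ, (c : ℤ) = B + 172 ∧ (c₁ : ℤ) = B₁ + 172 ∧
      (A.natAbs, c, A₁.natAbs, c₁) ∈ L6 := by
  obtain ⟨⟨g1, g2, g3, -⟩, ⟨k1, k2, k3, -⟩, n, m, hn, hm, hs⟩ := hr
  obtain ⟨c, hc, a1, a2, a3, a4, a5, a6⟩ := nat_of h
  obtain ⟨c₁, hc₁, b1, b2, b3, b4, b5, b6⟩ := nat_of h₁
  refine ⟨c, c₁, hc, hc₁, ?_⟩
  have hn' : dd A.natAbs c * nn A₁.natAbs c₁ = n.natAbs * n.natAbs := by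
    have : ((dd A.natAbs c * nn A₁.natAbs c₁ : ℕ) : ℤ) = ((n.natAbs * n.natAbs : ℕ) : ℤ) := by
      rw [Nat.cast_mul, a4, b5, ← hn]
      push_cast
      rw [abs_mul_abs_self, pow_two]
    exact_mod_cast this
  have hm' : nn A.natAbs c * dd A₁.natAbs c₁ = m.natAbs * m.natAbs := by
    have : ((nn A.natAbs c * dd A₁.natAbs c₁ : ℕ) : ℤ) = ((m.natAbs * m.natAbs : ℕ) : ℤ) := by
      rw [Nat.cast_mul, a5, b4, ← hm]
      push_cast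
      rw [abs_mul_abs_self, pow_two]
    exact_mod_cast this
  have g1' := isSq a4 g1
  have g2' := isSq a5 g2
  have g3' : ¬ IsSquare (dd A.natAbs c * nn A.natAbs c) := isSq (by rw [Nat.cast_mul, a4, a5]) g3
  have k1' := isSq b4 k1
  have k2' := isSq b5 k2
  have k3' : ¬ IsSquare (dd A₁.natAbs c₁ * nn A₁.natAbs c₁) :=
    isSq (by rw [Nat.cast_mul, b4, b5]) k3
  have pos : ∀ {z : ℕ}, ¬ IsSquare z → 1 ≤ z := by
    intro z hz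
    rcases Nat.eq_zero_or_pos z with h | h
    · exact absurd ⟨0, by rw [h]⟩ hz
    · exact h
  obtain ⟨R, hR, u, hu, u1, u2, u3, u4, u5, u6, u7, u8⟩ := mem A.natAbs c a1 a2 a3 g1' g2' g3'
    (dd A₁.natAbs c₁) m.natAbs (pos k1') b6 hm'
  obtain ⟨R', hR', w, hw, w1, w2, w3, w4, w5, w6, w7, w8⟩ := mem A₁.natAbs c₁ b1 b2 b3 k1' k2' k3'
    (dd A.natAbs c) n.natAbs (pos g1') a6 (by rw [mul_comm]; exact hn')
  have e1 : u.s = w.t := parts (N := n.natAbs) u3 w4 u5 w6 (by rw [u7, w8]; exact hn')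
  have e2 : u.t = w.s := parts (N := m.natAbs) u4 w3 u6 w5 (by rw [u8, w7]; exact hm')
  have f1 := filt_spec hR hR' hu hw e1 e2
  have f2 := filt_spec hR' hR hw hu e2.symm e1.symm
  rw [u1, u2] at f1
  rw [w1, w2] at f2
  have h1 := h_pairs
  unfold pairs at h1
  have h5 := List.all_eq_true.1 (List.all_eq_true.1 h1 _ f1) _ f2
  unfold pairOK at h5
  simp only at h5
  rw [e1, e2, Nat.beq_refl, Nat.beq_refl, Bool.not_true, Bool.false_or, Bool.false_or,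
    Bool.or_eq_true] at h5
  rcases h5 with h5 | h5
  · rw [List.any_eq_true] at h5
    obtain ⟨l, hl, h6⟩ := h5
    simp only [Bool.and_eq_true] at h6
    obtain ⟨⟨⟨l1, l2⟩, l3⟩, l4⟩ := h6
    have e : l = (A.natAbs, c, A₁.natAbs, c₁) := by
      have m1 := Nat.eq_of_beq_eq_true l1
      have m2 := Nat.eq_of_beq_eq_true l2
      have m3 := Nat.eq_of_beq_eq_true l3
      have m4 := Nat.eq_of_beq_eq_true l4
      obtain ⟨x1, x2, x3, x4⟩ := l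
      simp only at m1 m2 m3 m4
      rw [m1, m2, m3, m4]
    rw [← e]
    exact hl
  · exfalso
    rw [List.any_eq_true] at h5
    obtain ⟨l, hl, h6⟩ := h5
    simp only [Bool.and_eq_true] at h6
    obtain ⟨⟨⟨l1, l2⟩, l3⟩, l4⟩ := h6
    have m1 := Nat.eq_of_beq_eq_true l1
    have m2 := Nat.eq_of_beq_eq_true l2
    have m3 := Nat.eq_of_beq_eq_true l3
    have m4 := Nat.eq_of_beq_eq_true l4
    have h7 := List.all_eq_true.1 h_none l hl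
    unfold noneOK at h7
    simp only [Bool.and_eq_true] at h7
    obtain ⟨⟨⟨⟨⟨n1, n2⟩, v1⟩, v2⟩, v3⟩, v4⟩ := h7
    have n1' := Nat.eq_of_beq_eq_true n1
    have n2' := Nat.eq_of_beq_eq_true n2
    rw [m1, m2, m3, m4] at n1' n2'
    rw [hn'] at n1'
    rw [hm'] at n2'
    have p1 : l.n = n.natAbs := Nat.mul_self_inj.1 n1'
    have p2 : l.m = m.natAbs := Nat.mul_self_inj.1 n2'
    -- the signs
    have sg : ∀ x y : ℤ, ∃ e : ℤ, (e = 1 ∨ e = -1) ∧ x * y = (x.natAbs : ℤ) * (y.natAbs : ℤ) * e := by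
      intro x y
      rw [Int.natCast_natAbs, Int.natCast_natAbs, ← abs_mul]
      rcases abs_choice (x * y) with h | h
      · exact ⟨1, Or.inl rfl, by rw [h]; ring⟩
      · exact ⟨-1, Or.inr rfl, by rw [h]; ring⟩
    obtain ⟨e, he, hAn⟩ := sg A n
    obtain ⟨f, hf, hAm⟩ := sg A₁ m
    have hv : val l e f = (A ^ 2 - 2 * B - 8 * (43 : ℕ)) * (A₁ ^ 2 - 2 * B₁ - 8 * (43 : ℕ)) +
        2 * A * n + 2 * A₁ * m := by
      unfold val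
      rw [m1, m2, m3, m4, p1, p2, hc, hc₁]
      have q1 : (A.natAbs : ℤ) * A.natAbs = A ^ 2 := by
        rw [Int.natCast_natAbs, abs_mul_abs_self, pow_two]
      have q2 : (A₁.natAbs : ℤ) * A₁.natAbs = A₁ ^ 2 := by
        rw [Int.natCast_natAbs, abs_mul_abs_self, pow_two]
      rw [q1, q2]
      push_cast
      push_cast at hAn hAm
      linear_combination (-2) * hAn - 2 * hAm
    rw [← hv] at hs
    rcases he with rfl | rfl <;> rcases hf with rfl | rfl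
    · exact btw_spec _ _ v1 hs
    · exact btw_spec _ _ v2 hs
    · exact btw_spec _ _ v3 hs
    · exact btw_spec _ _ v4 hs

end NR43

theorem t_NR43 : S_NR43 := by
  intro A B A₁ B₁ A₂ B₂ h h₁ h₂ hr hr'
  obtain ⟨c, c₁, hc, hc₁, hm⟩ := NR43.key A B A₁ B₁ h h₁ hr
  obtain ⟨c', c₂, hc', hc₂, hm'⟩ := NR43.key A B A₂ B₂ h h₂ hr'
  have e : c = c' := by
    have : (c : ℤ) = c' := by rw [hc, hc']
    exact_mod_cast this
  have h1 := NR43.h_fun _ hm _ hm' rfl e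
  have h2 : A₁.natAbs = A₂.natAbs := congrArg Prod.fst h1
  have h3 : c₁ = c₂ := congrArg Prod.snd h1
  refine ⟨?_, ?_⟩
  · have h4 : (c₁ : ℤ) = c₂ := by rw [h3]
    linarith
  · rcases Int.natAbs_eq_natAbs_iff.1 h2 with h4 | h4
    · exact Or.inl h4.symm
    · right
      rw [h4, neg_neg]

end Pool.Agent.GT3
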