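import Pool.Agent.GT3.St

/-!
# GT3: NRN3 (helper17)
-/

set_option autoImplicit false

namespace Pool.Agent.GT3

open Pool.Agent.GT2

theorem t_NRN3 : M_NRN3 := by
  intro hI p q hpq A B A₁ B₁ hT hT₁ h h₁ hR
  obtain ⟨hG, hG₁, n, m, hn, -, -⟩ := hR
  have hpB : (p : ℤ) ∣ B := by
    rcases h with h | h | h
    · exact h
    · exact absurd h hG.1
    · exact absurd h hG.2.1
  have hpB₁ : (p : ℤ) ∣ B₁ := by
    rcases h₁ with h | h | h
    · exact h
    · exact absurd h hG₁.1
    · exact absurd h hG₁.2.1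
  have hO : O1 p q A B := by
    rcases hT.t with h | h | h
    · exact absurd hpB h
    · exact h
    · exact absurd h hG.2.2.2
  have hO₁ : O1 p q A₁ B₁ := by
    rcases hT₁.t with h | h | h
    · exact absurd hpB₁ h
    · exact h
    · exact absurd h hG₁.2.2.2
  have hP : ¬ PS p (DP q A₁ B₁) := by
    rcases hO₁.2.2.2 with h | h
    · exact absurd (h ▸ IsSquare.zero) hG₁.2.1
    · exact h
  exact ((hI p q hpq A B A₁ B₁).2 hP).2.2 hO.2.1 hO.1 ⟨n, by rw [← hn]; ring⟩

end Pool.Agent.GT3
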