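import Pool.Agent.GT3.St

/-!
# GT3.ODD: the prime power `q` is not a square, `p`-rank one: `DP q A B` is not a `p`-adic square (helper37)
-/

set_option autoImplicit false

namespace Pool.Agent.GT3

open Pool.Agent.GT2

namespace ODDAux

/-- an odd power of a prime that divides a square -/
lemma dvd_of_odd_pow_dvd_sq {p : ℤ} (hp : Prime p) (k : ℕ) :
    ∀ B : ℤ, p ^ (2 * k + 1) ∣ B ^ 2 → p ^ (k + 1) ∣ B := by
  induction k with
  | zero =>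
    intro B h
    have h1 : p ∣ B ^ 2 := by simpa using h
    simpa using hp.dvd_of_dvd_pow h1
  | succ k ih =>
    intro B h
    have h1 : p ∣ B ^ 2 := (dvd_pow_self p (by omega)).trans h
    obtain ⟨C, rfl⟩ := hp.dvd_of_dvd_pow h1
    have h2 : p ^ 2 * p ^ (2 * k + 1) ∣ p ^ 2 * C ^ 2 := by
      have e1 : p ^ 2 * p ^ (2 * k + 1) = p ^ (2 * (k + 1) + 1) := by ring
      have e2 : p ^ 2 * C ^ 2 = (p * C) ^ 2 := by ring
      rw [e1, e2]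
      exact h
    have h3 := ih C ((mul_dvd_mul_iff_left (pow_ne_zero 2 hp.ne_zero)).1 h2)
    rw [pow_succ' p (k + 1)]
    exact mul_dvd_mul_left p h3

/-- an odd power of a prime times a number prime to it is not a square -/
lemma not_sq {p : ℤ} (hp : Prime p) (k : ℕ) (x u : ℤ) (hu : ¬ p ∣ u)
    (h : x ^ 2 = p ^ (2 * k + 1) * u) : False := by
  obtain ⟨y, rfl⟩ := dvd_of_odd_pow_dvd_sq hp k x (Dvd.intro _ h.symm)
  apply hu
  refine ⟨y ^ 2, ?_⟩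
  have h1 : p ^ (2 * k + 1) * u = p ^ (2 * k + 1) * (p * y ^ 2) := by
    rw [← h]
    ring
  exact mul_left_cancel₀ (pow_ne_zero _ hp.ne_zero) h1

/-- `c² - 2 A² + 8 d` is not a square if `A` is odd -/
lemma two_case (y c A d : ℤ) (hA : ¬ (2 : ℤ) ∣ A) (h : y ^ 2 = c ^ 2 - 2 * A ^ 2 + 8 * d) : False := by
  have hA1 : A % 8 = 1 ∨ A % 8 = 3 ∨ A % 8 = 5 ∨ A % 8 = 7 := by omega
  have hA2 : A ^ 2 % 8 = 1 := by
    rcases hA1 with h1 | h1 | h1 | h1 <;> simp [pow_two, Int.mul_emod, h1]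
  have hc : c ^ 2 % 8 = 0 ∨ c ^ 2 % 8 = 1 ∨ c ^ 2 % 8 = 4 := by
    have : c % 8 = 0 ∨ c % 8 = 1 ∨ c % 8 = 2 ∨ c % 8 = 3 ∨ c % 8 = 4 ∨ c % 8 = 5 ∨ c % 8 = 6 ∨
      c % 8 = 7 := by omega
    rcases this with h1 | h1 | h1 | h1 | h1 | h1 | h1 | h1 <;> simp [pow_two, Int.mul_emod, h1]
  have hy : y ^ 2 % 8 = 0 ∨ y ^ 2 % 8 = 1 ∨ y ^ 2 % 8 = 4 := by
    have : y % 8 = 0 ∨ y % 8 = 1 ∨ y % 8 = 2 ∨ y % 8 = 3 ∨ y % 8 = 4 ∨ y % 8 = 5 ∨ y % 8 = 6 ∨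
      y % 8 = 7 := by omega
    rcases this with h1 | h1 | h1 | h1 | h1 | h1 | h1 | h1 <;> simp [pow_two, Int.mul_emod, h1]
  omega

end ODDAux

open ODDAux in
theorem t_ODD : S_ODD := by
  intro p q hq hs A B hA hB hqB hPS
  obtain ⟨n, hn, rfl⟩ := hq.pw
  have hpZ : Prime (p : ℤ) := Nat.prime_iff_prime_int.1 hq.pr
  obtain ⟨k, hk | hk⟩ : ∃ k, n = 2 * k ∨ n = 2 * k + 1 := ⟨n / 2, by omega⟩
  · exact hs ⟨p ^ k, by rw [hk, two_mul, pow_add]⟩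
  subst hk
  have hB1 : (p : ℤ) ^ (k + 1) ∣ B :=
    dvd_of_odd_pow_dvd_sq hpZ k B (by simpa [Nat.cast_pow] using hqB)
  by_cases h2 : p = 2
  · subst h2
    obtain ⟨b, rfl⟩ := hB1
    obtain ⟨x, d, hx⟩ := hPS (2 * k + 5)
    have hx1 : x ^ 2 = ((2 : ℤ) ^ (k + 1)) ^ 2 * ((b + 2 ^ (k + 2)) ^ 2 - 2 * A ^ 2 + 8 * d) := by
      have : x ^ 2 = DP (2 ^ (2 * k + 1)) A ((2 : ℤ) ^ (k + 1) * b) + (2 : ℤ) ^ (2 * k + 5) * d := by
        have := hx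
        push_cast at this
        linear_combination this
      rw [this]
      unfold DP
      push_cast
      ring
    have hd : (2 : ℤ) ^ (k + 1) ∣ x := (Int.pow_dvd_pow_iff (two_ne_zero)).1 (Dvd.intro _ hx1.symm)
    obtain ⟨y, rfl⟩ := hd
    refine two_case y (b + 2 ^ (k + 2)) A d (by exact_mod_cast hA) ?_
    have h0 : ((2 : ℤ) ^ (k + 1)) ^ 2 ≠ 0 := by positivity
    apply mul_left_cancel₀ h0
    rw [← hx1]
    ring
  · obtain ⟨b, rfl⟩ := hB1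
    obtain ⟨x, d, hx⟩ := hPS (2 * k + 2)
    refine not_sq hpZ k x (p * (b + 4 * p ^ k) ^ 2 - 4 * A ^ 2 + p * d) ?_ ?_
    · intro h
      have h1 : (p : ℤ) ∣ 4 * A ^ 2 := by
        have e : 4 * A ^ 2 = p * ((b + 4 * p ^ k) ^ 2 + d) -
          (p * (b + 4 * p ^ k) ^ 2 - 4 * A ^ 2 + p * d) := by ring
        rw [e]
        exact dvd_sub (dvd_mul_right _ _) h
      rcases hpZ.dvd_or_dvd h1 with h3 | h3
      · have h4 : (p : ℤ) ∣ 2 ^ 2 := by norm_num; exact h3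
        have h5 : (p : ℤ) ∣ 2 := hpZ.dvd_of_dvd_pow h4
        have h6 : p ∣ 2 := by exact_mod_cast h5
        rcases (Nat.dvd_prime Nat.prime_two).1 h6 with h7 | h7
        · exact hq.pr.one_lt.ne' h7
        · exact h2 h7
      · exact hA (hpZ.dvd_of_dvd_pow h3)
    · have : x ^ 2 = DP (p ^ (2 * k + 1)) A ((p : ℤ) ^ (k + 1) * b) + (p : ℤ) ^ (2 * k + 2) * d := by
        linear_combination hx
      rw [this]
      unfold DP
      push_cast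
      ring

end Pool.Agent.GT3
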