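import Pool.Agent.GT3.St

/-!
# GT3: orthogonality (module ORT3)

The functions `σ ↦ F (σ a)`, `σ ↦ F (σ a₁)` are equal, opposite or orthogonal, unless the pair is a
reflex pair; text of `Pool/Agent/GT2/ORT.lean` (helper1).
-/

set_option autoImplicit false

namespace Pool.Agent.GT3

open Pool.Agent.GT2

noncomputable section

namespace ORT3Aux

variable {L : Type} [Field L] [NumberField L] {p q : ℕ} {v : AbsoluteValue L ℝ}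
  {A B A₁ B₁ : ℤ} {a a₁ : L}

lemma one_le (h : Pq p q) : 1 ≤ q := by
  obtain ⟨n, -, hn⟩ := h.pw
  rw [hn]
  exact Nat.one_le_pow _ _ h.pr.pos

/-- the first three possibilities -/
def Con (q : ℕ) (v : AbsoluteValue L ℝ) (a a₁ : L) : Prop :=
  (∀ σ : L ≃ₐ[ℚ] L, F q v (σ a) = F q v (σ a₁)) ∨
    (∀ σ : L ≃ₐ[ℚ] L, F q v (σ a) = - F q v (σ a₁)) ∨
    ∑ σ : L ≃ₐ[ℚ] L, F q v (σ a) * F q v (σ a₁) = 0

lemma Con.symm (h : Con q v a a₁) : Con q v a₁ a := by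
  rcases h with h | h | h
  · exact Or.inl fun σ => (h σ).symm
  · exact Or.inr (Or.inl fun σ => by rw [h σ, neg_neg])
  · refine Or.inr (Or.inr ?_)
    rw [← h]
    exact Finset.sum_congr rfl fun σ _ => mul_comm _ _

lemma con_zero (h : ∀ σ : L ≃ₐ[ℚ] L, F q v (σ a) = 0) : Con q v a a₁ :=
  Or.inr (Or.inr (Finset.sum_eq_zero fun σ _ => by rw [h σ, zero_mul]))

lemma slope_bar (hL : S_LOC3) (hv : Vq L p q v) (h : Rt q A B a) (σ : L ≃ₐ[ℚ] L) :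
    F q v (σ ((q : L) / a)) = - F q v (σ a) := by
  rw [map_bar]
  exact (hL L v p q hv A B (σ a) (h.map σ)).2.2.2

lemma con_dvd (hL : S_LOC3) (hv : Vq L p q v) (h : Rt q A B a) (hA : O2 q A B) :
    Con q v a a₁ :=
  con_zero fun σ => (hL L v p q hv A B (σ a) (h.map σ)).2.2.1 hA

/-- some automorphism fixes `a` and maps `a₁` to `q / a₁` -/
lemma con_fix (hL : S_LOC3) (hF : S_FUN) (hv : Vq L p q v) (h₁ : Rt q A₁ B₁ a₁)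
    (τ : L ≃ₐ[ℚ] L) (ht : τ a = a) (ht₁ : τ a₁ = (q : L) / a₁) : Con q v a a₁ := by
  refine Or.inr (Or.inr ((hF (L ≃ₐ[ℚ] L) (fun σ => F q v (σ a))
    (fun σ => F q v (σ a₁))).2.2 ⟨τ, fun σ => ?_, fun σ => ?_⟩))
  · change F q v (σ (τ a)) = F q v (σ a)
    rw [ht]
  · change F q v (σ (τ a₁)) = - F q v (σ a₁)
    rw [ht₁, slope_bar hL hv h₁]

variable [IsGalois ℚ L]

/-- both elliptic -/
lemma con_ell_ell (hE : S_ELL3) (hF : S_FUN) (hv : Vq L p q v) (t : Tr p q A B)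
    (t₁ : Tr p q A₁ B₁) (h : Rt q A B a)
    (h₁ : Rt q A₁ B₁ a₁) (e : IsSquare (DD A B) ∨ IsSquare (DP q A B))
    (e₁ : IsSquare (DD A₁ B₁) ∨ IsSquare (DP q A₁ B₁)) : Con q v a a₁ := by
  obtain ⟨s, z⟩ := hE L v p q hv A B a t h e
  obtain ⟨s₁, z₁⟩ := hE L v p q hv A₁ B₁ a₁ t₁ h₁ e₁
  rcases z with z | z
  · rcases z₁ with z₁ | z₁
    · exact (hF (L ≃ₐ[ℚ] L) (fun σ => F q v (σ a)) (fun σ => F q v (σ a₁))).1 s s₁ (z 1) (z₁ 1)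
    · exact (con_zero z₁).symm
  · exact con_zero z

/-- the first one elliptic, the second one not -/
lemma con_ell_gen (hL : S_LOC3) (hR : S_ROT) (hE : S_ELL3) (hF : S_FUN) (hv : Vq L p q v)
    (t : Tr p q A B)
    (h : Rt q A B a) (h₁ : Rt q A₁ B₁ a₁) (e : IsSquare (DD A B) ∨ IsSquare (DP q A B))
    (e₁ : ¬ IsSquare (DD A₁ B₁)) (e₂ : ¬ IsSquare (DP q A₁ B₁)) : Con q v a a₁ := by
  obtain ⟨ρ, hρ⟩ := hR L q (one_le hv.pq) A₁ B₁ a₁ h₁ e₁ e₂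
  refine Or.inr (Or.inr ((hF (L ≃ₐ[ℚ] L) (fun σ => F q v (σ a))
    (fun σ => F q v (σ a₁))).2.1 (hE L v p q hv A B a t h e).1 ⟨ρ, fun σ => ?_⟩))
  change F q v (σ (ρ (ρ a₁))) = - F q v (σ a₁)
  rw [hρ, slope_bar hL hv h₁]

end ORT3Aux

open ORT3Aux in
/-- **ORT3.** -/
theorem t_ORT3 : M_ORT3 := by
  intro hL hC hR hRef hS hE hF L _ _ _ v p q hv A B A₁ B₁ a a₁ t t₁ h h₁
  suffices hmain : ORT3Aux.Con q v a a₁ ∨ (Rf q A B A₁ B₁ ∧ Cf q A B A₁ B₁ a a₁) by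
    rcases hmain with (h | h | h) | h
    · exact Or.inl h
    · exact Or.inr (Or.inl h)
    · exact Or.inr (Or.inr (Or.inl h))
    · exact Or.inr (Or.inr (Or.inr h))
  by_cases d : O2 q A B
  · exact Or.inl (con_dvd hL hv h d)
  by_cases d₁ : O2 q A₁ B₁
  · exact Or.inl (con_dvd hL hv h₁ d₁).symm
  have hq : 1 ≤ q := one_le hv.pq
  by_cases e : IsSquare (DD A B) ∨ IsSquare (DP q A B)
  · by_cases e₁ : IsSquare (DD A₁ B₁) ∨ IsSquare (DP q A₁ B₁)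
    · exact Or.inl (con_ell_ell hE hF hv t t₁ h h₁ e e₁)
    · rw [not_or] at e₁
      exact Or.inl (con_ell_gen hL hR hE hF hv t h h₁ e e₁.1 e₁.2)
  rw [not_or] at e
  by_cases e₁ : IsSquare (DD A₁ B₁) ∨ IsSquare (DP q A₁ B₁)
  · exact Or.inl (con_ell_gen hL hR hE hF hv t₁ h₁ h e₁ e.1 e.2).symm
  rw [not_or] at e₁
  obtain ⟨c, hc⟩ := hC L
  have hcc : ∀ z : L, Rt q A B z ∨ Rt q A₁ B₁ z → c z = (q : L) / z := by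
    rintro z (hz | hz)
    · exact hc q A B z hq t.w hz
    · exact hc q A₁ B₁ z hq t₁.w hz
  by_cases k : ∃ τ : L ≃ₐ[ℚ] L, τ a = a ∧ τ a₁ = (q : L) / a₁
  · obtain ⟨τ, k1, k2⟩ := k
    exact Or.inl (con_fix hL hF hv h₁ τ k1 k2)
  by_cases k₁ : ∃ τ : L ≃ₐ[ℚ] L, τ a₁ = a₁ ∧ τ a = (q : L) / a
  · obtain ⟨τ, k1, k2⟩ := k₁
    exact Or.inl (con_fix hL hF hv h τ k1 k2).symm
  by_cases m : ∀ τ : L ≃ₐ[ℚ] L, τ a = a → τ a₁ = a₁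
  · exact Or.inl (hS L v p q hv A B A₁ B₁ a a₁ t t₁ h h₁ e.1 e₁.1
      ⟨c, hcc a (Or.inl h), hcc a₁ (Or.inr h₁)⟩ m)
  by_cases m₁ : ∀ τ : L ≃ₐ[ℚ] L, τ a₁ = a₁ → τ a = a
  · exact Or.inl (ORT3Aux.Con.symm (hS L v p q hv A₁ B₁ A B a₁ a t₁ t h₁ h e₁.1 e.1
      ⟨c, hcc a₁ (Or.inr h₁), hcc a (Or.inl h)⟩ m₁))
  push Not at m m₁
  have hcf : Cf q A B A₁ B₁ a a₁ := ⟨h, h₁, e.1, e.2, e₁.1, e₁.2, ⟨c, hcc⟩,
    fun τ x y => k ⟨τ, x, y⟩, fun τ x y => k₁ ⟨τ, x, y⟩, m, m₁⟩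
  obtain ⟨u, u₁, n, n', r1, r2, r3⟩ := hRef L q hq A B A₁ B₁ a a₁ h h₁ e.1 e.2 e₁.1 e₁.2
    ⟨c, hcc⟩ (fun τ x y => k ⟨τ, x, y⟩) (fun τ x y => k₁ ⟨τ, x, y⟩) m m₁
  exact Or.inr ⟨⟨⟨e.1, e.2, u, d⟩, ⟨e₁.1, e₁.2, u₁, d₁⟩, n, n', r1, r2, r3⟩, hcf⟩

end

end Pool.Agent.GT3
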