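import Pool.Agent.GT3.St
import Pool.Agent.GT2.PRT

/-!
# GT3: partners in the field of algebraic numbers, all finite fields
-/

set_option autoImplicit false

namespace Pool.Agent.GT3

open Pool.Agent.GT2

namespace PRT3Aux

section

variable {L : Type} [Field L] [NumberField L] {p q : ℕ} {v : AbsoluteValue L ℝ} {A B A₁ B₁ : ℤ}

/-- the slope function of a number -/
noncomputable def g (q : ℕ) (v : AbsoluteValue L ℝ) (u : L) : (L ≃ₐ[ℚ] L) → ℝ :=
  fun σ => F q v (σ u)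

lemma g_neg (u : L) : g q v (-u) = g q v u := by
  funext σ
  unfold g F
  rw [map_neg, v.map_neg]

lemma g_bar (hL : S_LOC3) (hV : Vq L p q v) {u : L} (h : Rt q A B u) :
    g q v ((q : L) / u) = - g q v u := by
  funext σ
  change F q v (σ ((q : L) / u)) = - F q v (σ u)
  rw [map_bar]
  exact (hL L v p q hV A B (σ u) (h.map σ)).2.2.2

lemma four (hL : S_LOC3) (hV : Vq L p q v) {a b w : L} (ha : Rt q A B a) (hb : Rt q A B b)
    (hw : w = a ∨ w = (q : L) / a ∨ w = b ∨ w = (q : L) / b) :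
    g q v w = g q v a ∨ g q v w = - g q v a ∨ g q v w = g q v b ∨ g q v w = - g q v b := by
  rcases hw with h | h | h | h
  · exact Or.inl (by rw [h])
  · exact Or.inr (Or.inl (by rw [h, g_bar hL hV ha]))
  · exact Or.inr (Or.inr (Or.inl (by rw [h])))
  · exact Or.inr (Or.inr (Or.inr (by rw [h, g_bar hL hV hb])))

lemma rt_neg {w : L} (h : Rt q (-A) B w) : Rt q A B (-w) := by
  refine ⟨neg_ne_zero.2 h.1, ?_⟩
  have h2 := h.2
  push_cast at h2
  rw [div_neg]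
  linear_combination h2

/-- roots of twists -/
lemma twist (hL : S_LOC3) (hV : Vq L p q v) {a b w : L} {A₂ B₂ : ℤ} (ha : Rt q A B a)
    (hb : Rt q A B b)
    (hall : ∀ w : L, Rt q A B w → w = a ∨ w = (q : L) / a ∨ w = b ∨ w = (q : L) / b)
    (hw : Rt q A₂ B₂ w) (h : B₂ = B ∧ (A₂ = A ∨ A₂ = -A)) :
    g q v w = g q v a ∨ g q v w = - g q v a ∨ g q v w = g q v b ∨ g q v w = - g q v b := by
  obtain ⟨rfl, h | h⟩ := h
  · subst h
    exact four hL hV ha hb (hall w hw)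
  · subst h
    have h1 := four hL hV ha hb (hall (-w) (rt_neg hw))
    rwa [g_neg] at h1

variable [IsGalois ℚ L]

/-- the four possibilities -/
lemma ort (hO : S_ORT3) (hV : Vq L p q v) {S : ℤ → ℤ → Prop} (hS : Gd p q S) (s : S A B)
    (s₁ : S A₁ B₁) {a a₁ : L} (h : Rt q A B a) (h₁ : Rt q A₁ B₁ a₁) :
    g q v a = g q v a₁ ∨ g q v a = - g q v a₁ ∨ ∑ σ, g q v a₁ σ * g q v a σ = 0 ∨
      (Rf q A B A₁ B₁ ∧ Cf q A B A₁ B₁ a a₁) := by
  rcases hO L v p q hV A B A₁ B₁ a a₁ (hS.tr A B s) (hS.tr A₁ B₁ s₁) h h₁ with k | k | k | k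
  · exact Or.inl (funext k)
  · exact Or.inr (Or.inl (funext k))
  · refine Or.inr (Or.inr (Or.inl ?_))
    rw [← k]
    exact Finset.sum_congr rfl fun σ _ => mul_comm _ _
  · exact Or.inr (Or.inr (Or.inr k))

/-- the block of a reflex pair -/
lemma block (hL : S_LOC3) (hI : S_INT3) (hO : S_ORT3) (hR : S_RFX) (hM : S_MIX) (i : L →+* Qb)
    (v' : AbsoluteValue Qb ℝ) (hna : IsNonarchimedean v') (hlt : v' (p : Qb) < 1)
    (hV : Vq L p q v) {S : ℤ → ℤ → Prop} (hS : Gd p q S) (s : S A B)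
    (s₁ : S A₁ B₁) {a a₁ : L} (h : Rt q A B a) (h₁ : Rt q A₁ B₁ a₁)
    (n1 : ¬ g q v a₁ = g q v a) (n2 : ¬ g q v a₁ = - g q v a)
    (n3 : ¬ ∑ σ, g q v a₁ σ * g q v a σ = 0) :
    ∃ y' z z' : (L ≃ₐ[ℚ] L) → ℝ, Blk (g q v a) y' z z' ∧
      ∀ (u : L) (A₂ B₂ : ℤ), S A₂ B₂ → Rt q A₂ B₂ u →
      (g q v u = g q v a ∨ g q v u = - g q v a ∨ g q v u = y' ∨ g q v u = - y' ∨
        g q v u = z ∨ g q v u = - z ∨ g q v u = z' ∨ g q v u = - z') ∨
      (∑ σ, g q v u σ * g q v a σ = 0 ∧ ∑ σ, g q v u σ * y' σ = 0 ∧ ∑ σ, g q v u σ * z σ = 0 ∧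
        ∑ σ, g q v u σ * z' σ = 0) := by
  have hc : Rf q A B A₁ B₁ ∧ Cf q A B A₁ B₁ a a₁ := by
    rcases ort hO hV hS s s₁ h h₁ with k | k | k | k
    · exact absurd k.symm n1
    · exact absurd (by rw [k, neg_neg]) n2
    · exact absurd k n3
    · exact k
  have hc₁ : Rf q A₁ B₁ A B ∧ Cf q A₁ B₁ A B a₁ a := by
    rcases ort hO hV hS s₁ s h₁ h with k | k | k | k
    · exact absurd k n1
    · exact absurd k n2
    · exact absurd (by rw [← k]; exact Finset.sum_congr rfl fun σ _ => mul_comm _ _) n3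
    · exact k
  have t := hS.tr A B s
  have t₁ := hS.tr A₁ B₁ s₁
  have hord : ¬ (p : ℤ) ∣ B ∧ ¬ (p : ℤ) ∣ B₁ := by
    by_cases h4 : q % 4 = 3
    · rcases t.t with o | o | o
      · rcases t₁.t with o₁ | o₁ | o₁
        · exact ⟨o, o₁⟩
        · exact absurd o₁ (hM L i v' p q hV.pq hna hlt h4 A B A₁ B₁ a a₁ t t₁ hc.2 o)
        · exact absurd o₁ hc.1.2.1.2.2.2
      · rcases t₁.t with o₁ | o₁ | o₁
        · exact absurd o (hM L i v' p q hV.pq hna hlt h4 A₁ B₁ A B a₁ a t₁ t hc₁.2 o₁)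
        · have hps : ¬ PS p (DP q A₁ B₁) := by
            rcases o₁.2.2.2 with k | k
            · exact absurd (by rw [k]; exact IsSquare.zero) hc.1.2.1.2.1
            · exact k
          obtain ⟨-, -, n, m, hn, -, -⟩ := hc.1
          exact absurd (⟨n, by rw [← hn]; ring⟩ : IsSquare (DD A B * DP q A₁ B₁))
            (((hI p q hV.pq A B A₁ B₁).2 hps).2.2 o.2.1 o.1)
        · exact absurd o₁ hc.1.2.1.2.2.2
      · exact absurd o hc.1.1.2.2.2
    · exact ⟨fun k => hS.mx h4 A B A₁ B₁ s s₁ (Or.inl k) hc.1,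
        fun k => hS.mx h4 A B A₁ B₁ s s₁ (Or.inr k) hc.1⟩
  obtain ⟨b, x, hb, hx, hall, hall₁, hblk⟩ := hR L v p q hV A B A₁ B₁ a a₁ hc.2 hord.1 hord.2
  refine ⟨g q v b, g q v a₁, g q v x, hblk, fun u A₂ B₂ s₂ hu => ?_⟩
  by_cases r : Rf q A B A₂ B₂
  · left
    rcases twist hL hV h₁ hx hall₁ hu (hS.tp A B A₁ B₁ A₂ B₂ s s₁ s₂ hc.1 r) with k | k | k | k
    · exact Or.inr (Or.inr (Or.inr (Or.inr (Or.inl k))))
    · exact Or.inr (Or.inr (Or.inr (Or.inr (Or.inr (Or.inl k)))))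
    · exact Or.inr (Or.inr (Or.inr (Or.inr (Or.inr (Or.inr (Or.inl k))))))
    · exact Or.inr (Or.inr (Or.inr (Or.inr (Or.inr (Or.inr (Or.inr k))))))
  by_cases r₁ : Rf q A₁ B₁ A₂ B₂
  · left
    rcases twist hL hV h hb hall hu (hS.tp A₁ B₁ A B A₂ B₂ s₁ s s₂ hc₁.1 r₁) with k | k | k | k
    · exact Or.inl k
    · exact Or.inr (Or.inl k)
    · exact Or.inr (Or.inr (Or.inl k))
    · exact Or.inr (Or.inr (Or.inr (Or.inl k)))
  rcases ort hO hV hS s s₂ h hu with k | k | ka | k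
  · exact Or.inl (Or.inl k.symm)
  · exact Or.inl (Or.inr (Or.inl (by rw [k, neg_neg])))
  swap
  · exact absurd k.1 r
  rcases ort hO hV hS s s₂ hb hu with k | k | kb | k
  · exact Or.inl (Or.inr (Or.inr (Or.inl k.symm)))
  · exact Or.inl (Or.inr (Or.inr (Or.inr (Or.inl (by rw [k, neg_neg])))))
  swap
  · exact absurd k.1 r
  rcases ort hO hV hS s₁ s₂ h₁ hu with k | k | kz | k
  · exact Or.inl (Or.inr (Or.inr (Or.inr (Or.inr (Or.inl k.symm)))))
  · exact Or.inl (Or.inr (Or.inr (Or.inr (Or.inr (Or.inr (Or.inl (by rw [k, neg_neg])))))))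
  swap
  · exact absurd k.1 r₁
  rcases ort hO hV hS s₁ s₂ hx hu with k | k | kx | k
  · exact Or.inl (Or.inr (Or.inr (Or.inr (Or.inr (Or.inr (Or.inr (Or.inl k.symm)))))))
  · exact Or.inl (Or.inr (Or.inr (Or.inr (Or.inr (Or.inr (Or.inr (Or.inr (by rw [k, neg_neg]))))))))
  swap
  · exact absurd k.1 r₁
  exact Or.inr ⟨ka, kb, kz, kx⟩

end

end PRT3Aux

open PRT3Aux in
/-- **PRT3.** -/
theorem t_PRT3 : M_PRT3 := by
  intro hLOC hINT hORT hRFX hCMB hLFN hMIX v p q hpq hna hlt S hS x l hroots hsum hodd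
  classical
  obtain ⟨L, hfin, hgal, hmem, hext⟩ := hLFN (x :: l).toFinset
  have hnf : NumberField L := @NumberField.mk _ _ inferInstance (by convert hfin)
  have hL : ∀ y ∈ x :: l, y ∈ L := fun y hy => hmem y (List.mem_toFinset.2 hy)
  let f : L →+* Qb := algebraMap L Qb
  have hf : Function.Injective f := (algebraMap L Qb).injective
  let w : AbsoluteValue L ℝ := v.comp hf
  have hw : ∀ y : L, w y = v (y : Qb) := fun y => rfl
  have hF : ∀ y : L, F q w y = F q v (y : Qb) := fun y => PRTAux.F_comp v f q w hw y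
  have hVw : Vq L p q w := by
    refine ⟨hpq, ?_, ?_⟩
    · intro a b
      rw [hw, hw, hw]
      exact hna a b
    · rw [hw]
      exact hlt
  let G : Qb → (L ≃ₐ[ℚ] L) → ℝ := fun y => if h : y ∈ L then g q w ⟨y, h⟩ else 0
  have hG : ∀ y (h : y ∈ L), G y = g q w ⟨y, h⟩ := fun y h => dif_pos h
  have hGs : ∀ y (h : y ∈ L) (τ : L ≃ₐ[ℚ] L) (σ : Qb ≃ₐ[ℚ] Qb),
      (∀ z : L, σ (z : Qb) = (τ z : Qb)) → G y τ = F q v (σ y) := by
    intro y h τ σ hs
    rw [hG y h]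
    change F q w (τ ⟨y, h⟩) = _
    rw [hF, ← hs]
  have hrt : ∀ y (h : y ∈ L) (A B : ℤ), Rt q A B y → Rt q A B (⟨y, h⟩ : L) := by
    intro y h A B hr
    refine ⟨fun h0 => hr.1 (by simpa using congrArg (Subtype.val) h0), ?_⟩
    apply hf
    have := hr.2
    simpa [f] using this
  have hlist : ∀ u, u ∈ G x :: l.map G → ∃ (y : L) (A B : ℤ), (y : Qb) ∈ x :: l ∧ S A B ∧
      Rt q A B y ∧ g q w y = u := by
    intro u hu
    rw [← List.map_cons, List.mem_map] at hu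
    obtain ⟨y, hy, rfl⟩ := hu
    obtain ⟨A, B, hS', hr⟩ := hroots y hy
    exact ⟨⟨y, hL y hy⟩, A, B, hy, hS', hrt y _ A B hr, (hG y (hL y hy)).symm⟩
  have hlist' : ∀ y : L, (y : Qb) ∈ x :: l → g q w y ∈ G x :: l.map G := by
    intro y hy
    rw [← List.map_cons, List.mem_map]
    exact ⟨y, hy, hG y (hL y hy)⟩
  have hsum' : (G x :: l.map G).sum = 0 := by
    funext τ
    obtain ⟨σ, hs⟩ := hext τ
    have h1 := hsum σ
    rw [← List.map_cons, Pi.list_sum_apply, List.map_map, Pi.zero_apply, ← h1]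
    congr 1
    refine List.map_congr_left fun y hy => ?_
    exact hGs y (hL y hy) τ σ hs
  obtain ⟨u, hu, hux⟩ := hCMB (L ≃ₐ[ℚ] L) (l.map G) (G x) (by
    intro y hy
    obtain ⟨a, A, B, ha, s, h, rfl⟩ := hlist y hy
    by_cases hall : ∀ u ∈ G x :: l.map G, u = g q w a ∨ u = - g q w a ∨
      ∑ σ, u σ * g q w a σ = 0
    · exact Or.inl hall
    · right
      push Not at hall
      obtain ⟨u, hu, n1, n2, n3⟩ := hall
      obtain ⟨a₁, A₁, B₁, -, s₁, h₁, rfl⟩ := hlist u hu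
      obtain ⟨y', z, z', hb, hb'⟩ := block hLOC hINT hORT hRFX hMIX f v hna hlt hVw hS s s₁ h h₁
        n1 n2 n3
      refine ⟨y', z, z', hb, fun c hc => ?_⟩
      obtain ⟨a₂, A₂, B₂, -, s₂, h₂, rfl⟩ := hlist c hc
      exact hb' a₂ A₂ B₂ s₂ h₂) hsum' (by rw [List.length_map]; exact hodd)
  rw [List.mem_map] at hu
  obtain ⟨y, hy, rfl⟩ := hu
  refine ⟨y, hy, fun σ => ?_⟩
  have hnorm : Normal ℚ L := hgal.to_normal
  have hs : ∀ z : L, σ (z : Qb) = ((σ.restrictNormal L) z : Qb) := fun z =>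
    (AlgEquiv.restrictNormal_commutes σ L z).symm
  have hy' : y ∈ L := hL y (List.mem_cons_of_mem _ hy)
  have hx' : x ∈ L := hL x List.mem_cons_self
  rw [← hGs y hy' (σ.restrictNormal L) σ hs, ← hGs x hx' (σ.restrictNormal L) σ hs, hux]
  rfl

end Pool.Agent.GT3
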