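import Pool.Agent.GT3.St

/-!
# GT3, module RFX (helper55): the inner products of a reflex pair of ordinary surfaces
-/

set_option autoImplicit false

namespace Pool.Agent.GT3

open Pool.Agent.GT2

namespace RFXAux

variable {L : Type} [Field L] [NumberField L]

/-- the inner product does not change if all roots are moved by an automorphism -/
lemma shift (q : ℕ) (v : AbsoluteValue L ℝ) (τ : L ≃ₐ[ℚ] L) (y w : L) :
    ∑ σ : L ≃ₐ[ℚ] L, F q v (σ y) * F q v (σ w) =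
      ∑ σ : L ≃ₐ[ℚ] L, F q v (σ (τ y)) * F q v (σ (τ w)) :=
  (Equiv.sum_comp (Equiv.mulRight τ)
    (fun σ : L ≃ₐ[ℚ] L => F q v (σ y) * F q v (σ w))).symm

/-- the values of the slope are `1` and `-1` -/
lemma val (hLOC : S_LOC3) {v : AbsoluteValue L ℝ} {p q : ℕ} (hV : Vq L p q v) {A B : ℤ} {y : L}
    (hy : Rt q A B y) (hB : ¬ (p : ℤ) ∣ B) (σ : L ≃ₐ[ℚ] L) :
    F q v (σ y) = 1 ∨ F q v (σ y) = -1 :=
  (hLOC L v p q hV A B (σ y) (hy.map σ)).1 hB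

lemma bar (hLOC : S_LOC3) {v : AbsoluteValue L ℝ} {p q : ℕ} (hV : Vq L p q v) {A B : ℤ} {y : L}
    (hy : Rt q A B y) (σ : L ≃ₐ[ℚ] L) : F q v (σ ((q : L) / y)) = - F q v (σ y) := by
  rw [map_bar]
  exact (hLOC L v p q hV A B (σ y) (hy.map σ)).2.2.2

lemma mul_self {r : ℝ} (h : r = 1 ∨ r = -1) : r * r = 1 := by
  rcases h with h | h <;> rw [h] <;> norm_num

lemma abs_add_le_one_add {r s : ℝ} (hr : r = 1 ∨ r = -1) (hs : s = 1 ∨ s = -1) :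
    |r + s| = 1 + r * s := by
  rcases hr with h | h <;> rcases hs with h' | h' <;> rw [h, h'] <;> norm_num

lemma abs_one {r : ℝ} (hr : r = 1 ∨ r = -1) : |r| = 1 := by
  rcases hr with h | h <;> rw [h] <;> norm_num

lemma norm_sq (hLOC : S_LOC3) {v : AbsoluteValue L ℝ} {p q : ℕ} (hV : Vq L p q v) {A B : ℤ}
    {y : L} (hy : Rt q A B y) (hB : ¬ (p : ℤ) ∣ B) :
    ∑ σ : L ≃ₐ[ℚ] L, F q v (σ y) * F q v (σ y) = ∑ _σ : L ≃ₐ[ℚ] L, (1 : ℝ) :=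
  Finset.sum_congr rfl fun σ _ => mul_self (val hLOC hV hy hB σ)

end RFXAux

open RFXAux in
theorem t_RFX : M_RFX := by
  intro hLOC hSWA L _ _ _ v p q hV A B A₁ B₁ a a₁ hC hB hB₁
  have hq : 1 ≤ q := by
    obtain ⟨n, -, rfl⟩ := hV.pq.pw
    exact Nat.one_le_iff_ne_zero.2 (pow_ne_zero n hV.pq.pr.ne_zero)
  obtain ⟨b, x, hb, hx, -, -, hl, hl₁, -, -, ⟨τ, t1, t2, t3, t4⟩, ⟨τ', s1, s2, s3, s4⟩⟩ :=
    hSWA L q hq A B A₁ B₁ a a₁ hC
  have ha := hC.ra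
  have ha₁ := hC.ra₁
  have na := norm_sq hLOC hV ha hB
  have nb := norm_sq hLOC hV hb hB
  have na₁ := norm_sq hLOC hV ha₁ hB₁
  have nx := norm_sq hLOC hV hx hB₁
  have or1 : ∑ σ : L ≃ₐ[ℚ] L, F q v (σ a) * F q v (σ b) = 0 := by
    have h := shift q v τ a b
    rw [t1, t4] at h
    have e : ∑ σ : L ≃ₐ[ℚ] L, F q v (σ a) * F q v (σ ((q : L) / b)) =
        - ∑ σ : L ≃ₐ[ℚ] L, F q v (σ a) * F q v (σ b) := by
      rw [← Finset.sum_neg_distrib]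
      refine Finset.sum_congr rfl fun σ _ => ?_
      rw [bar hLOC hV hb σ, mul_neg]
    rw [e] at h
    linarith
  have or2 : ∑ σ : L ≃ₐ[ℚ] L, F q v (σ a₁) * F q v (σ x) = 0 := by
    have h := shift q v τ' a₁ x
    rw [s1, s4] at h
    have e : ∑ σ : L ≃ₐ[ℚ] L, F q v (σ a₁) * F q v (σ ((q : L) / x)) =
        - ∑ σ : L ≃ₐ[ℚ] L, F q v (σ a₁) * F q v (σ x) := by
      rw [← Finset.sum_neg_distrib]
      refine Finset.sum_congr rfl fun σ _ => ?_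
      rw [bar hLOC hV hx σ, mul_neg]
    rw [e] at h
    linarith
  have in1 : ∑ σ : L ≃ₐ[ℚ] L, F q v (σ a) * F q v (σ x) =
      ∑ σ : L ≃ₐ[ℚ] L, F q v (σ a) * F q v (σ a₁) := by
    have h := shift q v τ a x
    rwa [t1, t3] at h
  have in2 : ∑ σ : L ≃ₐ[ℚ] L, F q v (σ b) * F q v (σ a₁) =
      ∑ σ : L ≃ₐ[ℚ] L, F q v (σ a) * F q v (σ a₁) := by
    have h := shift q v τ' b a₁
    rwa [s3, s1] at h
  have in3 : ∑ σ : L ≃ₐ[ℚ] L, F q v (σ b) * F q v (σ x) =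
      - ∑ σ : L ≃ₐ[ℚ] L, F q v (σ a) * F q v (σ a₁) := by
    have h := shift q v τ b x
    rw [t4, t3] at h
    rw [h, ← in2, ← Finset.sum_neg_distrib]
    refine Finset.sum_congr rfl fun σ _ => ?_
    rw [bar hLOC hV hb σ, neg_mul]
  refine ⟨b, x, hb, hx, hl, hl₁, ?_⟩
  refine ⟨?_, nb.trans na.symm, na₁.trans na.symm, nx.trans na.symm, or1, or2, in1, in2, in3, ?_⟩
  · show 0 < ∑ σ : L ≃ₐ[ℚ] L, F q v (σ a) * F q v (σ a)
    rw [na]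
    exact Finset.sum_pos (fun _ _ => one_pos) ⟨1, Finset.mem_univ _⟩
  · show |2 * ∑ σ : L ≃ₐ[ℚ] L, F q v (σ a) * F q v (σ a₁)| ≤
      ∑ σ : L ≃ₐ[ℚ] L, F q v (σ a) * F q v (σ a)
    have e : 2 * ∑ σ : L ≃ₐ[ℚ] L, F q v (σ a) * F q v (σ a₁) =
        ∑ σ : L ≃ₐ[ℚ] L, F q v (σ a) * (F q v (σ a₁) + F q v (σ x)) := by
      simp only [mul_add, Finset.sum_add_distrib]
      rw [in1]
      ring
    rw [e, na]
    calc |∑ σ : L ≃ₐ[ℚ] L, F q v (σ a) * (F q v (σ a₁) + F q v (σ x))|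
        ≤ ∑ σ : L ≃ₐ[ℚ] L, |F q v (σ a) * (F q v (σ a₁) + F q v (σ x))| :=
          Finset.abs_sum_le_sum_abs _ _
      _ = ∑ σ : L ≃ₐ[ℚ] L, (1 + F q v (σ a₁) * F q v (σ x)) := by
          refine Finset.sum_congr rfl fun σ _ => ?_
          rw [abs_mul, abs_one (val hLOC hV ha hB σ), one_mul,
            abs_add_le_one_add (val hLOC hV ha₁ hB₁ σ) (val hLOC hV hx hB₁ σ)]
      _ = ∑ _σ : L ≃ₐ[ℚ] L, (1 : ℝ) := by
          rw [Finset.sum_add_distrib, or2, add_zero]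

end Pool.Agent.GT3
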