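import Pool.Agent.GT3.St

/-!
# GT3, module SAM3: the same field
-/

set_option autoImplicit false

namespace Pool.Agent.GT3

open Pool.Agent.GT2

noncomputable section

namespace SAM3Aux

/-- an integer is a unit at `v` or divisible by `p` -/
lemma v_int_one {L : Type} [Field L] (v : AbsoluteValue L ℝ) (p : ℕ) (hp : p.Prime)
    (na : IsNonarchimedean v) (lt : v (p : L) < 1) (n : ℤ) (hn : ¬ (p : ℤ) ∣ n) :
    v (n : L) = 1 := by
  have hle : ∀ m : ℤ, v (m : L) ≤ 1 := fun m => IsNonarchimedean.apply_intCast_le_one na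
  have hpr : Prime (p : ℤ) := Nat.prime_iff_prime_int.1 hp
  have hcop : IsCoprime (p : ℤ) n := (Prime.coprime_iff_not_dvd hpr).2 hn
  obtain ⟨u, w, huw⟩ := hcop
  have h1 : ((u : L) * (p : L) + (w : L) * (n : L)) = 1 := by
    have := congrArg (fun z : ℤ => (z : L)) huw
    simpa using this
  have h2 : v ((u : L) * (p : L) + (w : L) * (n : L)) ≤
      max (v ((u : L) * (p : L))) (v ((w : L) * (n : L))) := na _ _
  rw [h1, map_one, map_mul, map_mul] at h2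
  have h3 : v (u : L) * v (p : L) < 1 := by
    have := hle u
    have h0 : 0 ≤ v (p : L) := v.nonneg _
    calc v (u : L) * v (p : L) ≤ 1 * v (p : L) := mul_le_mul_of_nonneg_right this h0
      _ < 1 := by rw [one_mul]; exact lt
  rcases le_max_iff.1 h2 with h | h
  · exact absurd h (not_le.2 h3)
  · refine le_antisymm (hle n) ?_
    have h4 : v (w : L) * v (n : L) ≤ 1 * v (n : L) :=
      mul_le_mul_of_nonneg_right (hle w) (v.nonneg _)
    rw [one_mul] at h4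
    exact h.trans h4

/-- an integer divisible by `p` -/
lemma v_int_lt {L : Type} [Field L] (v : AbsoluteValue L ℝ) (p : ℕ)
    (na : IsNonarchimedean v) (lt : v (p : L) < 1) (n : ℤ) (hn : (p : ℤ) ∣ n) :
    v (n : L) < 1 := by
  obtain ⟨k, rfl⟩ := hn
  have hle : v (k : L) ≤ 1 := IsNonarchimedean.apply_intCast_le_one na
  push_cast
  rw [map_mul]
  calc v (p : L) * v (k : L) ≤ v (p : L) * 1 := mul_le_mul_of_nonneg_left hle (v.nonneg _)
    _ < 1 := by rw [mul_one]; exact lt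

/-- exactly one of the two slopes is zero -/
lemma one_zero (hLOC : S_LOC3) {L : Type} [Field L] [CharZero L] (v : AbsoluteValue L ℝ) (p q : ℕ)
    (hv : Vq L p q v) (A B : ℤ) (a b : L)
    (ha : Rt q A B a) (hb : Rt q A B b) (hab : b + (q : L) / b = - A - (a + q / a))
    (hB : (p : ℤ) ∣ B) (hA : ¬ (p : ℤ) ∣ A) (hqB : (q : ℤ) ∣ B ^ 2) :
    (F q v a = 0 ∧ (F q v b = 1 ∨ F q v b = -1)) ∨
      (F q v b = 0 ∧ (F q v a = 1 ∨ F q v a = -1)) := by
  have h1 := (hLOC L v p q hv A B a ha).2.1 hA hB hqB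
  have h2 := (hLOC L v p q hv A B b hb).2.1 hA hB hqB
  rcases h1 with ⟨h1, h1'⟩ | ⟨h1, h1'⟩
  · rcases h2 with ⟨h2, h2'⟩ | ⟨h2, h2'⟩
    · exfalso
      have h3 : (a + (q : L) / a) * (b + (q : L) / b) = (B : L) := by
        rw [hab]
        linear_combination -ha.2
      have h4 : v ((a + (q : L) / a) * (b + (q : L) / b)) = 1 := by
        rw [map_mul, h1, h2, one_mul]
      rw [h3] at h4
      have h5 := v_int_lt v p hv.na hv.lt B hB
      rw [h4] at h5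
      exact lt_irrefl _ h5
    · exact Or.inr ⟨h2', h1'⟩
  · rcases h2 with ⟨h2, h2'⟩ | ⟨h2, h2'⟩
    · exact Or.inl ⟨h1', h2'⟩
    · exfalso
      have h3 : (a + (q : L) / a) + (b + (q : L) / b) = ((-A : ℤ) : L) := by
        rw [hab]
        push_cast
        ring
      have h4 : v ((a + (q : L) / a) + (b + (q : L) / b)) ≤
          max (v (a + (q : L) / a)) (v (b + (q : L) / b)) := hv.na _ _
      rw [h3] at h4
      have h5 := v_int_one v p hv.pq.pr hv.na hv.lt (-A) (fun h => hA ((dvd_neg).1 h))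
      rw [h5] at h4
      rcases le_max_iff.1 h4 with h | h
      · exact absurd h (not_le.2 h1)
      · exact absurd h (not_le.2 h2)

/-- `q` is positive -/
lemma one_le {p q : ℕ} (h : Pq p q) : 1 ≤ q := by
  obtain ⟨n, -, hn⟩ := h.pw
  rw [hn]
  exact Nat.one_le_pow _ _ h.pr.pos

/-- the four cases -/
lemma cases4 (hLOC : S_LOC3) {L : Type} [Field L] [NumberField L] [IsGalois ℚ L]
    (v : AbsoluteValue L ℝ) (p q : ℕ) (hv : Vq L p q v) (A B A₁ B₁ : ℤ) (a a₁ : L)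
    (ha : Rt q A B a) (ha₁ : Rt q A₁ B₁ a₁)
    (c : L ≃ₐ[ℚ] L) (hc : c a = (q : L) / a) (hc₁ : c a₁ = (q : L) / a₁)
    (hst : ∀ τ : L ≃ₐ[ℚ] L, τ a = a → τ a₁ = a₁) (σ₀ : L ≃ₐ[ℚ] L)
    (h₀ : σ₀ a + (q : L) / σ₀ a = - A - (a + q / a)) (σ : L ≃ₐ[ℚ] L) :
    (σ a + (q : L) / σ a = a + q / a ∧
      ((F q v (σ a) = F q v a ∧ F q v (σ a₁) = F q v a₁) ∨
        (F q v (σ a) = - F q v a ∧ F q v (σ a₁) = - F q v a₁))) ∨
    (σ a + (q : L) / σ a = - A - (a + q / a) ∧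
      ((F q v (σ a) = F q v (σ₀ a) ∧ F q v (σ a₁) = F q v (σ₀ a₁)) ∨
        (F q v (σ a) = - F q v (σ₀ a) ∧ F q v (σ a₁) = - F q v (σ₀ a₁)))) := by
  have hq : 1 ≤ q := one_le hv.pq
  have hL : ∀ x : L, Rt q A B x → F q v ((q : L) / x) = - F q v x := fun x hx =>
    (hLOC L v p q hv A B x hx).2.2.2
  have hL₁ : ∀ x : L, Rt q A₁ B₁ x → F q v ((q : L) / x) = - F q v x := fun x hx =>
    (hLOC L v p q hv A₁ B₁ x hx).2.2.2
  have heq : ∀ σ τ : L ≃ₐ[ℚ] L, σ a = τ a → σ a₁ = τ a₁ := by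
    intro σ τ h
    have h1 : (τ⁻¹ * σ) a = a := by
      rw [AlgEquiv.mul_apply, h, ← AlgEquiv.mul_apply, inv_mul_cancel, AlgEquiv.one_apply]
    have h2 := hst _ h1
    rw [AlgEquiv.mul_apply] at h2
    have h3 := congrArg τ h2
    rw [← AlgEquiv.mul_apply, mul_inv_cancel, AlgEquiv.one_apply] at h3
    exact h3
  have hb : Rt q A B (σ₀ a) := ha.map σ₀
  have hb₁ : Rt q A₁ B₁ (σ₀ a₁) := ha₁.map σ₀
  rcases ha.two (ha.map σ) with h | h
  · left
    refine ⟨h, ?_⟩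
    rcases eq_or_bar ha.1 (ha.map σ).1 h with h1 | h1
    · left
      have h2 : σ a₁ = a₁ := hst σ h1
      rw [h1, h2]
      exact ⟨rfl, rfl⟩
    · right
      have h2 : σ a₁ = c a₁ := heq σ c (by rw [h1, hc])
      rw [h1, h2, hc₁, hL a ha, hL₁ a₁ ha₁]
      exact ⟨rfl, rfl⟩
  · right
    refine ⟨h, ?_⟩
    have h' : σ a + (q : L) / σ a = σ₀ a + (q : L) / σ₀ a := by rw [h, h₀]
    rcases eq_or_bar hb.1 (ha.map σ).1 h' with h1 | h1
    · left
      have h2 : σ a₁ = σ₀ a₁ := heq σ σ₀ h1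
      rw [h1, h2]
      exact ⟨rfl, rfl⟩
    · right
      have h2 : σ a₁ = (σ₀ * c) a₁ := by
        refine heq σ (σ₀ * c) ?_
        rw [h1, AlgEquiv.mul_apply, hc, map_bar]
      rw [AlgEquiv.mul_apply, hc₁, map_bar] at h2
      rw [h1, h2, hL _ hb, hL₁ _ hb₁]
      exact ⟨rfl, rfl⟩

end SAM3Aux

open SAM3Aux in
theorem t_SAM3 : M_SAM3 := by
  intro hLOC hINT hSQF L _ _ _ v p q hv A B A₁ B₁ a a₁ hT hT₁ ha ha₁ hD hD₁ hcc hst
  have hq : 1 ≤ q := one_le hv.pq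
  obtain ⟨⟨σ₀, h₀, h₀₁⟩, hsq⟩ := hSQF L q hq A B A₁ B₁ a a₁ ha ha₁ hD hD₁ hcc hst
  obtain ⟨c, hc, hc₁⟩ := hcc
  have hb : Rt q A B (σ₀ a) := ha.map σ₀
  have hb₁ : Rt q A₁ B₁ (σ₀ a₁) := ha₁.map σ₀
  have h4 := cases4 hLOC v p q hv A B A₁ B₁ a a₁ ha ha₁ c hc hc₁ hst σ₀ h₀
  -- the translation
  have hex : ∀ σ : L ≃ₐ[ℚ] L, F q v (σ a) * F q v (σ a₁) +
      F q v ((σ₀ * σ) a) * F q v ((σ₀ * σ) a₁) =
      F q v a * F q v a₁ + F q v (σ₀ a) * F q v (σ₀ a₁) := by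
    intro σ
    have hne : (2 * (a + (q : L) / a) + A) ≠ 0 := by
      intro h
      have h1 := ha.disc
      rw [h] at h1
      have h2 : ((DD A B : ℤ) : L) = 0 := by
        rw [← h1]
        ring
      have h3 : DD A B = 0 := by exact_mod_cast h2
      exact hD (h3 ▸ ⟨0, by ring⟩)
    have ht : (σ₀ * σ) a + (q : L) / (σ₀ * σ) a = σ₀ (σ a + (q : L) / σ a) := by
      rw [map_tr]
      rfl
    have htt : σ₀ (a + (q : L) / a) = - A - (a + q / a) := by
      rw [map_tr]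
      exact h₀
    rcases h4 σ with ⟨h1, h2⟩ | ⟨h1, h2⟩
    · rcases h4 (σ₀ * σ) with ⟨h5, h6⟩ | ⟨h5, h6⟩
      · exfalso
        rw [ht, h1, htt] at h5
        exact hne (by linear_combination -h5)
      · have e1 : F q v (σ a) * F q v (σ a₁) = F q v a * F q v a₁ := by
          rcases h2 with ⟨h2, h3⟩ | ⟨h2, h3⟩
          · rw [h2, h3]
          · rw [h2, h3]
            ring
        have e2 : F q v ((σ₀ * σ) a) * F q v ((σ₀ * σ) a₁) = F q v (σ₀ a) * F q v (σ₀ a₁) := by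
          rcases h6 with ⟨h2, h3⟩ | ⟨h2, h3⟩
          · rw [h2, h3]
          · rw [h2, h3]
            ring
        rw [e1, e2]
    · rcases h4 (σ₀ * σ) with ⟨h5, h6⟩ | ⟨h5, h6⟩
      · have e1 : F q v (σ a) * F q v (σ a₁) = F q v (σ₀ a) * F q v (σ₀ a₁) := by
          rcases h2 with ⟨h2, h3⟩ | ⟨h2, h3⟩
          · rw [h2, h3]
          · rw [h2, h3]
            ring
        have e2 : F q v ((σ₀ * σ) a) * F q v ((σ₀ * σ) a₁) = F q v a * F q v a₁ := by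
          rcases h6 with ⟨h2, h3⟩ | ⟨h2, h3⟩
          · rw [h2, h3]
          · rw [h2, h3]
            ring
        rw [e1, e2]
        ring
      · exfalso
        rw [ht, h1, map_sub, map_neg, map_intCast, htt] at h5
        exact hne (by linear_combination h5)
  have hzero : F q v a * F q v a₁ + F q v (σ₀ a) * F q v (σ₀ a₁) = 0 →
      ∑ σ : L ≃ₐ[ℚ] L, F q v (σ a) * F q v (σ a₁) = 0 := by
    intro h
    have h1 : ∑ σ : L ≃ₐ[ℚ] L, F q v ((σ₀ * σ) a) * F q v ((σ₀ * σ) a₁) =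
        ∑ σ : L ≃ₐ[ℚ] L, F q v (σ a) * F q v (σ a₁) :=
      Equiv.sum_comp (Equiv.mulLeft σ₀) (fun σ : L ≃ₐ[ℚ] L => F q v (σ a) * F q v (σ a₁))
    have h2 : ∑ σ : L ≃ₐ[ℚ] L, (F q v (σ a) * F q v (σ a₁) +
        F q v ((σ₀ * σ) a) * F q v ((σ₀ * σ) a₁)) = 0 := by
      refine Finset.sum_eq_zero fun σ _ => ?_
      rw [hex σ, h]
    rw [Finset.sum_add_distrib, h1] at h2
    linarith
  -- equal or opposite
  have heqo : ∀ e : ℝ, F q v a = e * F q v a₁ → F q v (σ₀ a) = e * F q v (σ₀ a₁) →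
      ∀ σ : L ≃ₐ[ℚ] L, F q v (σ a) = e * F q v (σ a₁) := by
    intro e he1 he2 σ
    rcases h4 σ with ⟨_, ⟨h2, h3⟩ | ⟨h2, h3⟩⟩ | ⟨_, ⟨h2, h3⟩ | ⟨h2, h3⟩⟩
    · rw [h2, h3, he1]
    · rw [h2, h3, he1]
      ring
    · rw [h2, h3, he2]
    · rw [h2, h3, he2]
      ring
  have hfin : (F q v a = F q v a₁ ∧ F q v (σ₀ a) = F q v (σ₀ a₁)) ∨
      (F q v a = - F q v a₁ ∧ F q v (σ₀ a) = - F q v (σ₀ a₁)) ∨
      F q v a * F q v a₁ + F q v (σ₀ a) * F q v (σ₀ a₁) = 0 := by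
    have mix : ∀ A B A₁ B₁ : ℤ, ¬ (p : ℤ) ∣ B → O1 p q A₁ B₁ → ¬ IsSquare (DD A₁ B₁) →
        ¬ IsSquare (DP q A B * DP q A₁ B₁) := by
      intro A B A₁ B₁ hB hO hD₁
      obtain ⟨-, hA₁, -, hDP⟩ := hO
      rcases hDP with h | h
      · exact absurd ((hINT p q hv.pq A₁ B₁ A B).1 (fun h0 => hA₁ (h0 ▸ dvd_zero _)) h) hD₁
      · exact ((hINT p q hv.pq A B A₁ B₁).2 h).2.1 hB
    rcases hT.t with hB | hO | hO
    · rcases hT₁.t with hB₁ | hO₁ | hO₁
      · have x1 := (hLOC L v p q hv A B a ha).1 hB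
        have x2 := (hLOC L v p q hv A B _ hb).1 hB
        have y1 := (hLOC L v p q hv A₁ B₁ a₁ ha₁).1 hB₁
        have y2 := (hLOC L v p q hv A₁ B₁ _ hb₁).1 hB₁
        rcases x1 with x1 | x1 <;> rcases x2 with x2 | x2 <;> rcases y1 with y1 | y1 <;>
          rcases y2 with y2 | y2 <;> rw [x1, x2, y1, y2] <;> norm_num
      · exact absurd hsq (mix A B A₁ B₁ hB hO₁ hD₁)
      · have e1 := (hLOC L v p q hv A₁ B₁ a₁ ha₁).2.2.1 hO₁
        have e2 := (hLOC L v p q hv A₁ B₁ _ hb₁).2.2.1 hO₁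
        right
        right
        rw [e1, e2]
        ring
    · rcases hT₁.t with hB₁ | hO₁ | hO₁
      · rw [mul_comm] at hsq
        exact absurd hsq (mix A₁ B₁ A B hB₁ hO hD)
      · obtain ⟨hB, hA, hqB, -⟩ := hO
        obtain ⟨hB₁, hA₁, hqB₁, -⟩ := hO₁
        have k1 := one_zero hLOC v p q hv A B a (σ₀ a) ha hb h₀ hB hA hqB
        have k2 := one_zero hLOC v p q hv A₁ B₁ a₁ (σ₀ a₁) ha₁ hb₁ h₀₁ hB₁ hA₁ hqB₁
        rcases k1 with ⟨x1, x2⟩ | ⟨x1, x2⟩ <;> rcases k2 with ⟨y1, y2⟩ | ⟨y1, y2⟩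
        · rcases x2 with x2 | x2 <;> rcases y2 with y2 | y2 <;> rw [x1, x2, y1, y2] <;> norm_num
        · right
          right
          rw [x1, y1]
          ring
        · right
          right
          rw [x1, y1]
          ring
        · rcases x2 with x2 | x2 <;> rcases y2 with y2 | y2 <;> rw [x1, x2, y1, y2] <;> norm_num
      · have e1 := (hLOC L v p q hv A₁ B₁ a₁ ha₁).2.2.1 hO₁
        have e2 := (hLOC L v p q hv A₁ B₁ _ hb₁).2.2.1 hO₁
        right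
        right
        rw [e1, e2]
        ring
    · have e1 := (hLOC L v p q hv A B a ha).2.2.1 hO
      have e2 := (hLOC L v p q hv A B _ hb).2.2.1 hO
      right
      right
      rw [e1, e2]
      ring
  rcases hfin with ⟨h1, h2⟩ | ⟨h1, h2⟩ | h
  · left
    intro σ
    have := heqo 1 (by rw [h1, one_mul]) (by rw [h2, one_mul]) σ
    rw [one_mul] at this
    exact this
  · right
    left
    intro σ
    have := heqo (-1) (by rw [h1]; ring) (by rw [h2]; ring) σ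
    rw [this]
    ring
  · right
    right
    exact hzero h

end

end Pool.Agent.GT3
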