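import Pool.Agent.GT3.St
import Pool.Agent.GT2.REF

/-!
# GT3: the action of the stabiliser (module SWA, MP_3af9db_ag, helper43)
-/

set_option autoImplicit false

namespace Pool.Agent.GT3

open Pool.Agent.GT2

noncomputable section

namespace SWAAux

variable {L : Type} [Field L] [NumberField L]

/-- all roots -/
lemma roots {q : ℕ} {A B : ℤ} {a b : L} (ha : Rt q A B a) (hb : Rt q A B b)
    (hb2 : b + (q : L) / b = - A - (a + q / a)) (w : L) (hw : Rt q A B w) :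
    w = a ∨ w = (q : L) / a ∨ w = b ∨ w = (q : L) / b := by
  rcases ha.two hw with h | h
  · rcases eq_or_bar ha.1 hw.1 h with h1 | h1
    · exact Or.inl h1
    · exact Or.inr (Or.inl h1)
  · rw [← hb2] at h
    rcases eq_or_bar hb.1 hw.1 h with h1 | h1
    · exact Or.inr (Or.inr (Or.inl h1))
    · exact Or.inr (Or.inr (Or.inr h1))

/-- the conjugate by the rotation -/
lemma key {q : ℕ} (hq : 1 ≤ q) {A B A₁ B₁ : ℤ} {a a₁ b x : L} (ha : Rt q A B a)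
    (ha₁ : Rt q A₁ B₁ a₁) (hx : Rt q A₁ B₁ x)
    (hall : ∀ w : L, Rt q A B w → w = a ∨ w = (q : L) / a ∨ w = b ∨ w = (q : L) / b)
    (hall₁ : ∀ w : L, Rt q A₁ B₁ w → w = a₁ ∨ w = (q : L) / a₁ ∨ w = x ∨ w = (q : L) / x)
    (hne : x + (q : L) / x ≠ a₁ + q / a₁) (d1 : a₁ ≠ (q : L) / a₁) (d2 : x ≠ (q : L) / x)
    (h7 : ∀ τ : L ≃ₐ[ℚ] L, τ a = a → (τ a₁ = a₁ ∧ τ x = x) ∨ (τ a₁ = x ∧ τ x = a₁))
    (ρ : L ≃ₐ[ℚ] L) (hρ : ρ (ρ a₁) = (q : L) / a₁) (τ : L ≃ₐ[ℚ] L) (t1 : τ a = a)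
    (t2 : τ b = b) (t3 : τ a₁ = x) (t4 : τ x = a₁) : False := by
  obtain ⟨τ', hτ'⟩ : ∃ τ' : L ≃ₐ[ℚ] L, ∀ y, τ' y = ρ (τ (ρ.symm y)) :=
    ⟨(ρ.symm.trans τ).trans ρ, fun _ => rfl⟩
  -- `τ'` fixes `a`
  have hτa : τ' a = a := by
    rw [hτ']
    have h1 : τ (ρ.symm a) = ρ.symm a := by
      rcases hall _ (ha.map ρ.symm) with h | h | h | h
      · rw [h, t1]
      · rw [h, map_bar, t1]
      · rw [h, t2]
      · rw [h, map_bar, t2]
    rw [h1, AlgEquiv.apply_symm_apply]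
  -- `τ' a₁ = x̄`
  have hτ1 : τ' a₁ = (q : L) / x := by
    rw [hτ']
    have hs : ρ (ρ.symm a₁) = a₁ := AlgEquiv.apply_symm_apply _ _
    rcases hall₁ _ (ha₁.map ρ.symm) with h | h | h | h
    · exfalso
      rw [h] at hs
      rw [hs, hs] at hρ
      exact d1 hρ
    · exfalso
      rw [h, map_bar] at hs
      -- `ρ a₁ = ā₁`
      have h2 : ρ a₁ = (q : L) / a₁ := by
        rw [← hs, bar_bar hq ((map_ne_zero ρ).2 ha₁.1)]
        congr 1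
      rw [h2, map_bar, h2, bar_bar hq ha₁.1] at hρ
      exact d1 hρ
    · rw [h] at hs
      rw [h, t4]
      apply ρ.injective
      rw [hρ, map_bar, hs]
    · rw [h, map_bar] at hs
      rw [h, map_bar, t4, map_bar]
      have h2 : ρ x = (q : L) / a₁ := by
        rw [← hs, bar_bar hq ((map_ne_zero ρ).2 hx.1)]
      have h3 : ρ a₁ = x := by
        apply ρ.injective
        rw [hρ, h2]
      rw [h3]
  rcases h7 τ' hτa with ⟨h, -⟩ | ⟨h, -⟩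
  · rw [hτ1] at h
    apply hne
    rw [← h, bar_bar hq hx.1, add_comm]
  · rw [hτ1] at h
    exact d2 h.symm

end SWAAux

open SWAAux in
theorem t_SWA : M_SWA := by
  intro hROT hSWP L _ _ _ q hq A B A₁ B₁ a a₁ hC
  obtain ⟨x, hx, hx1, hx2, ⟨τ₁, ht1, ht1'⟩, hx4⟩ :=
    hSWP L q hq A₁ B₁ a a₁ hC.ra₁ hC.n₁ hC.e₁
  obtain ⟨b, hb, hb1, hb2, ⟨τ₂, ht2, ht2'⟩, hb4⟩ :=
    hSWP L q hq A B a₁ a hC.ra hC.n hC.e
  obtain ⟨ρ, hρ⟩ := hROT L q hq A B a hC.ra hC.d hC.dp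
  obtain ⟨ρ₁, hρ₁⟩ := hROT L q hq A₁ B₁ a₁ hC.ra₁ hC.d₁ hC.dp₁
  have hall := roots hC.ra hb hb2
  have hall₁ := roots hC.ra₁ hx hx2
  -- the differences are not zero
  have hD : (a - (q : L) / a) * (b - (q : L) / b) ≠ 0 :=
    REFAux.ne_zero_of (hC.ra.dp hq hb.1 hb2) hC.dp
  have hD₁ : (a₁ - (q : L) / a₁) * (x - (q : L) / x) ≠ 0 :=
    REFAux.ne_zero_of (hC.ra₁.dp hq hx.1 hx2) hC.dp₁
  have da : a ≠ (q : L) / a := fun h => hD (by rw [sub_eq_zero.2 h, zero_mul])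
  have db : b ≠ (q : L) / b := fun h => hD (by rw [sub_eq_zero.2 h, mul_zero])
  have da₁ : a₁ ≠ (q : L) / a₁ := fun h => hD₁ (by rw [sub_eq_zero.2 h, zero_mul])
  have dx : x ≠ (q : L) / x := fun h => hD₁ (by rw [sub_eq_zero.2 h, mul_zero])
  refine ⟨b, x, hb, hx, hb2, hx2, hall, hall₁, hx4, hb4, ⟨τ₁, ht1, ht1', ?_, ?_⟩,
    ⟨τ₂, ht2, ht2', ?_, ?_⟩⟩
  · rcases hx4 τ₁ ht1 with ⟨h, -⟩ | ⟨-, h⟩
    · exfalso
      rw [ht1'] at h
      exact hx1 (by rw [h])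
    · exact h
  · have h4 : τ₁ x = a₁ := by
      rcases hx4 τ₁ ht1 with ⟨h, -⟩ | ⟨-, h⟩
      · exfalso
        rw [ht1'] at h
        exact hx1 (by rw [h])
      · exact h
    have h1 : τ₁ b + (q : L) / τ₁ b = b + q / b := by
      rw [← map_tr, hb2, map_sub, map_neg, map_intCast, map_tr, ht1]
    rcases eq_or_bar hb.1 ((map_ne_zero τ₁).2 hb.1) h1 with h | h
    · exact (key hq hC.ra hC.ra₁ hx hall hall₁ hx1 da₁ dx hx4 ρ₁ hρ₁ τ₁ ht1 h ht1' h4).elim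
    · exact h
  · rcases hb4 τ₂ ht2 with ⟨h, -⟩ | ⟨-, h⟩
    · exfalso
      rw [ht2'] at h
      exact hb1 (by rw [h])
    · exact h
  · have h4 : τ₂ b = a := by
      rcases hb4 τ₂ ht2 with ⟨h, -⟩ | ⟨-, h⟩
      · exfalso
        rw [ht2'] at h
        exact hb1 (by rw [h])
      · exact h
    have h1 : τ₂ x + (q : L) / τ₂ x = x + q / x := by
      rw [← map_tr, hx2, map_sub, map_neg, map_intCast, map_tr, ht2]
    rcases eq_or_bar hx.1 ((map_ne_zero τ₂).2 hx.1) h1 with h | h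
    · exact (key hq hC.ra₁ hC.ra hb hall₁ hall hb1 da db hb4 ρ hρ τ₂ ht2 h ht2' h4).elim
    · exact h

end

end Pool.Agent.GT3
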