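import Pool.Agent.GT3.Lnk2
import Pool.Agent.GT3.LOC3
import Pool.Agent.GT3.INT3
import Pool.Agent.GT3.ODD
import Pool.Agent.GT3.SAM3
import Pool.Agent.GT3.ELL3
import Pool.Agent.GT3.ORT3
import Pool.Agent.GT3.SWA
import Pool.Agent.GT3.RFX
import Pool.Agent.GT3.CMB3
import Pool.Agent.GT3.MXA
import Pool.Agent.GT3.MXU
import Pool.Agent.GT3.MXB
import Pool.Agent.GT3.MXC
import Pool.Agent.GT3.MIX
import Pool.Agent.GT3.PRT3
import Pool.Agent.GT3.UNT3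
import Pool.Agent.GT3.PAR3
import Pool.Agent.GT3.NRN3
import Pool.Agent.GT3.NR43
import Pool.Agent.GT3.NRH
import Pool.Agent.GT2.Fin

/-!
# GT3: the arithmetic theorem for all finite fields (helper17)
-/

set_option autoImplicit false

open Polynomial

namespace Pool.Agent.GT3

open Pool.Agent.GT2

theorem h_SAM3 : S_SAM3 := t_SAM3 t_LOC3 t_INT3 t_SQF

theorem h_ELL3 : S_ELL3 := t_ELL3 t_LOC3 t_INT3

theorem h_ORT3 : S_ORT3 := t_ORT3 t_LOC3 h_CON t_ROT h_REF h_SAM3 h_ELL3 t_FUN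

theorem h_SWA : S_SWA := t_SWA t_ROT t_SWP

theorem h_RFX : S_RFX := t_RFX t_LOC3 h_SWA

theorem h_MXA : S_MXA := t_MXA t_LOC3 t_INT3

theorem h_MXU : S_MXU := t_MXU t_REA

theorem h_MXB : S_MXB := t_MXB t_ROT t_CHR h_SWA

theorem h_MIX : S_MIX := t_MIX t_LOC3 h_REF t_SWP h_MXA h_MXU h_MXB t_MXC

theorem h_PRT3 : S_PRT3 := t_PRT3 t_LOC3 t_INT3 h_ORT3 h_RFX t_CMB3 t_LFN h_MIX

theorem h_UNT3 : S_UNT3 := t_UNT3 t_REA

theorem h_PAR3 : S_PAR3 := t_PAR3 h_PRT3 h_UNT3 t_EXV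

theorem h_NRN3 : S_NRN3 := t_NRN3 t_INT3

/-- the criterion, for every prime power `q` -/
theorem crit {q : ℕ} (hq : IsPrimePow q) {S : Set ℤ[X]} (hS : GdP q S) :
    AlmostAll.Par q (AlmostAll.Adm q S) := crit' t_CNV h_PAR3 hq hS

/-- elliptic curves and the surfaces which are not ordinary with a dihedral Galois group, over every
finite field: no reflex pairs -/
theorem nonord {q : ℕ} (hq : IsPrimePow q) :
    ∀ h ∈ AlmostAll.All 1 q ∪ NO q, ∀ h' ∈ AlmostAll.All 1 q ∪ NO q, ¬ RfP q h h' :=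
  nonord' t_CNV h_NRN3 hq

/-- the fields with 3, 7, 11, 27 elements: no reflex pairs -/
theorem small {q : ℕ} (hq : q = 3 ∨ q = 7 ∨ q = 11 ∨ q = 27) :
    ∀ h ∈ AlmostAll.All 1 q ∪ T2 q, ∀ h' ∈ AlmostAll.All 1 q ∪ T2 q, ¬ RfP q h h' :=
  small' t_CNV nr3 nr7 nr11 nr27 hq

/-- ordinary surfaces, and those which are not of dihedral type, over all fields with at most 16
elements: no reflex pairs -/
theorem ord {q : ℕ} (hq : IsPrimePow q) (h16 : q ≤ 16) :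
    ∀ h ∈ AlmostAll.All 1 q ∪ OT q, ∀ h' ∈ AlmostAll.All 1 q ∪ OT q, ¬ RfP q h h' :=
  ord16' t_CNV nr3 nr7 nr11 nr27 nro no16 hq h16

theorem gdno {q : ℕ} (hq : IsPrimePow q) : GdP q (AlmostAll.All 1 q ∪ NO q) :=
  gd_of_no (Set.union_subset_union_right _ fun _ h => h.1) (nonord hq)

theorem gd16 {q : ℕ} (hq : IsPrimePow q) (h : q ≤ 16) : GdP q (AlmostAll.All 1 q ∪ OT q) :=
  gd_of_no ot_sub (ord hq h)

theorem gd43 : GdP 43 (AlmostAll.All 1 43 ∪ T2 43) := gd43' t_CNV t_NR43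

/-- the fields with 3, 7, 11, 27, 43 elements: all surfaces -/
theorem gdall {q : ℕ} (hq : q = 3 ∨ q = 7 ∨ q = 11 ∨ q = 27 ∨ q = 43) :
    GdP q (AlmostAll.All 1 q ∪ T2 q) := by
  by_cases h : q = 43
  · subst h
    exact gd43
  · exact gd_of_no (fun _ h => h) (small (by tauto))

end Pool.Agent.GT3
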