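import Pool.Agent.GT3.UNB

/-!
# GT3: slopes determine the number up to roots of unity, all finite fields
-/

set_option autoImplicit false

namespace Pool.Agent.GT3

open Pool.Agent.GT2

noncomputable section

open UNTAux in
theorem t_UNT3 : M_UNT3 := by
  intro hREA v p q hpq hna hlt A B A₁ B₁ hW hW₁ x y hx hy h
  obtain ⟨n, hn, hqn⟩ := hpq.pw
  have hq : IsPrimePow q := by
    rw [hqn]
    exact hpq.pr.isPrimePow.pow (by omega)
  have hmin : q.minFac = p := by
    rw [hqn]
    exact hpq.pr.pow_minFac (by omega)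
  have hv : Pool.Agent.TJ4.Ab q v := ⟨hna, by rw [hmin]; exact hlt⟩
  have hq1 : 1 ≤ q := hq.pos
  exact uni2 q v hq hv x y (wn_root hREA hq1 hW hx) (wn_root hREA hq1 hW₁ hy) fun σ => h σ

end

end Pool.Agent.GT3
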