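import Pool.Agent.GT3.Lnk
import Pool.Agent.GT3.LOC3
import Pool.Agent.GT3.INT3
import Pool.Agent.GT3.ODD
import Pool.Agent.GT3.SAM3
import Pool.Agent.GT3.ELL3
import Pool.Agent.GT3.ORT3
import Pool.Agent.GT3.SWA
import Pool.Agent.GT3.RFX
import Pool.Agent.GT3.CMB3
import Pool.Agent.GT3.MXA
import Pool.Agent.GT3.MXU
import Pool.Agent.GT3.MXB
import Pool.Agent.GT3.MXC
import Pool.Agent.GT3.MIX
import Pool.Agent.GT3.PRT3
import Pool.Agent.GT3.UNT3
import Pool.Agent.GT3.PAR3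
import Pool.Agent.GT3.NRN3
import Pool.Agent.GT3.NRH
import Pool.Agent.GT2.Fin

/-!
# GT3: the arithmetic theorem for all finite fields (helper17, helper88)
-/

set_option autoImplicit false

open Polynomial

namespace Pool.Agent.GT3

open Pool.Agent.GT2

theorem h_SAM3 : S_SAM3 := t_SAM3 t_LOC3 t_INT3 t_SQF

theorem h_ELL3 : S_ELL3 := t_ELL3 t_LOC3 t_INT3

theorem h_ORT3 : S_ORT3 := t_ORT3 t_LOC3 h_CON t_ROT h_REF h_SAM3 h_ELL3 t_FUN

theorem h_SWA : S_SWA := t_SWA t_ROT t_SWP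

theorem h_RFX : S_RFX := t_RFX t_LOC3 h_SWA

theorem h_MXA : S_MXA := t_MXA t_LOC3 t_INT3

theorem h_MXU : S_MXU := t_MXU t_REA

theorem h_MXB : S_MXB := t_MXB t_ROT t_CHR h_SWA

theorem h_MIX : S_MIX := t_MIX t_LOC3 h_REF t_SWP h_MXA h_MXU h_MXB t_MXC

theorem h_PRT3 : S_PRT3 := t_PRT3 t_LOC3 t_INT3 h_ORT3 h_RFX t_CMB3 t_LFN h_MIX

theorem h_UNT3 : S_UNT3 := t_UNT3 t_REA

theorem h_PAR3 : S_PAR3 := t_PAR3 h_PRT3 h_UNT3 t_EXV

theorem h_NRN3 : S_NRN3 := t_NRN3 t_INT3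

/-- the criterion, for every prime power `q` -/
theorem crit {q : ℕ} (hq : IsPrimePow q) {S : Set ℤ[X]} (hS : GdP q S) :
    AlmostAll.Par q (AlmostAll.Adm q S) := crit' t_CNV h_PAR3 hq hS

/-- elliptic curves and the surfaces which are not ordinary with a dihedral Galois group: no reflex pairs -/
theorem nonord {q : ℕ} (hq : IsPrimePow q) :
    ∀ h ∈ AlmostAll.All 1 q ∪ NO q, ∀ h' ∈ AlmostAll.All 1 q ∪ NO q, ¬ RfP q h h' :=
  nonord' t_CNV h_NRN3 hq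

/-- the fields with 3, 7, 11, 27 elements: no reflex pairs -/
theorem small {q : ℕ} (hq : q = 3 ∨ q = 7 ∨ q = 11 ∨ q = 27) :
    ∀ h ∈ AlmostAll.All 1 q ∪ T2 q, ∀ h' ∈ AlmostAll.All 1 q ∪ T2 q, ¬ RfP q h h' :=
  small' t_CNV nr3 nr7 nr11 nr27 hq

/-- the fields with 5 and 13 elements -/
theorem ord {q : ℕ} (hq : q = 5 ∨ q = 13) :
    ∀ h ∈ AlmostAll.All 1 q ∪ OT q, ∀ h' ∈ AlmostAll.All 1 q ∪ OT q, ¬ RfP q h h' :=
  ord' t_CNV (fun A B A₁ B₁ h2 h3 h4 h5 => nro q hq A B A₁ B₁ h2 h3 h4 h5) hq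

/-- the fields with 2, 4, 8, 9, 16 elements -/
theorem ordS {q : ℕ} (hq : q = 2 ∨ q = 4 ∨ q = 8 ∨ q = 9 ∨ q = 16) :
    ∀ h ∈ AlmostAll.All 1 q ∪ OT q, ∀ h' ∈ AlmostAll.All 1 q ∪ OT q, ¬ RfP q h h' := by
  have hq1 : 1 ≤ q := by rcases hq with rfl | rfl | rfl | rfl | rfl <;> norm_num
  have key : ∀ h ∈ AlmostAll.All 1 q ∪ OT q, h.natDegree = 2 →
      Gn q (h.coeff 1) (h.coeff 0) → ¬ (q.minFac : ℤ) ∣ h.coeff 0 ∧
        W2 q (h.coeff 1) (h.coeff 0) := by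
    rintro h (h1 | h1) hd hG
    · exact absurd (h1.1.2.1.symm.trans hd) (by norm_num)
    · refine ⟨?_, (t_CNV q hq1 h h1.1.1).1⟩
      rcases h1.2 with h | h | h | h
      · exact h
      · exact absurd h hG.1
      · exact absurd h hG.2.1
      · exact absurd h hG.2.2.1
  rintro h hh h' hh' ⟨hd, hd', hR⟩
  have h1 := key h hh hd hR.1
  have h2 := key h' hh' hd' hR.2.1
  exact no16 q hq _ _ _ _ h1.1 h2.1 h1.2 h2.2 hR

theorem sub_no (q : ℕ) : AlmostAll.All 1 q ∪ NO q ⊆ AlmostAll.All 1 q ∪ T2 q := fun _ h =>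
  h.imp id fun h => h.1

theorem sub_ot (q : ℕ) : AlmostAll.All 1 q ∪ OT q ⊆ AlmostAll.All 1 q ∪ T2 q := fun _ h =>
  h.imp id fun h => h.1

/-- every finite field: all surfaces except the ordinary ones with a dihedral Galois group -/
theorem gdno {q : ℕ} (hq : IsPrimePow q) : GdP q (AlmostAll.All 1 q ∪ NO q) :=
  gd_of_no (sub_no q) (nonord hq)

/-- the fields with 3, 7, 11, 27 elements -/
theorem gdall4 {q : ℕ} (hq : q = 3 ∨ q = 7 ∨ q = 11 ∨ q = 27) :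
    GdP q (AlmostAll.All 1 q ∪ T2 q) := gd_of_no (fun _ h => h) (small hq)

/-- the prime powers up to sixteen -/
theorem pp16 {q : ℕ} (hq : IsPrimePow q) (h : q ≤ 16) : (q = 3 ∨ q = 7 ∨ q = 11 ∨ q = 27) ∨
    (q = 5 ∨ q = 13) ∨ (q = 2 ∨ q = 4 ∨ q = 8 ∨ q = 9 ∨ q = 16) := by
  have h1 := hq.one_lt
  have h6 : q ≠ 6 := fun e => by
    rw [e, isPrimePow_nat_iff] at hq
    obtain ⟨p, k, hp, hk, he⟩ := hq
    have h2 : 2 ∣ p ^ k := by rw [he]; norm_num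
    have h3 : 3 ∣ p ^ k := by rw [he]; norm_num
    have e2 := (Nat.prime_dvd_prime_iff_eq Nat.prime_two hp).1 (Nat.prime_two.dvd_of_dvd_pow h2)
    have e3 := (Nat.prime_dvd_prime_iff_eq Nat.prime_three hp).1
      (Nat.prime_three.dvd_of_dvd_pow h3)
    omega
  have h12 : q ≠ 12 := fun e => by
    rw [e, isPrimePow_nat_iff] at hq
    obtain ⟨p, k, hp, hk, he⟩ := hq
    have h2 : 2 ∣ p ^ k := by rw [he]; norm_num
    have h3 : 3 ∣ p ^ k := by rw [he]; norm_num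
    have e2 := (Nat.prime_dvd_prime_iff_eq Nat.prime_two hp).1 (Nat.prime_two.dvd_of_dvd_pow h2)
    have e3 := (Nat.prime_dvd_prime_iff_eq Nat.prime_three hp).1
      (Nat.prime_three.dvd_of_dvd_pow h3)
    omega
  have h10 : q ≠ 10 := fun e => by
    rw [e, isPrimePow_nat_iff] at hq
    obtain ⟨p, k, hp, hk, he⟩ := hq
    have h2 : 2 ∣ p ^ k := by rw [he]; norm_num
    have h5 : 5 ∣ p ^ k := by rw [he]; norm_num
    have e2 := (Nat.prime_dvd_prime_iff_eq Nat.prime_two hp).1 (Nat.prime_two.dvd_of_dvd_pow h2)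
    have e5 := (Nat.prime_dvd_prime_iff_eq Nat.prime_five hp).1
      (Nat.prime_five.dvd_of_dvd_pow h5)
    omega
  have h14 : q ≠ 14 := fun e => by
    rw [e, isPrimePow_nat_iff] at hq
    obtain ⟨p, k, hp, hk, he⟩ := hq
    have h2 : 2 ∣ p ^ k := by rw [he]; norm_num
    have h7 : 7 ∣ p ^ k := by rw [he]; norm_num
    have e2 := (Nat.prime_dvd_prime_iff_eq Nat.prime_two hp).1 (Nat.prime_two.dvd_of_dvd_pow h2)
    have e7 := (Nat.prime_dvd_prime_iff_eq (by norm_num : Nat.Prime 7) hp).1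
      ((by norm_num : Nat.Prime 7).dvd_of_dvd_pow h7)
    omega
  have h15 : q ≠ 15 := fun e => by
    rw [e, isPrimePow_nat_iff] at hq
    obtain ⟨p, k, hp, hk, he⟩ := hq
    have h3 : 3 ∣ p ^ k := by rw [he]; norm_num
    have h5 : 5 ∣ p ^ k := by rw [he]; norm_num
    have e3 := (Nat.prime_dvd_prime_iff_eq Nat.prime_three hp).1
      (Nat.prime_three.dvd_of_dvd_pow h3)
    have e5 := (Nat.prime_dvd_prime_iff_eq Nat.prime_five hp).1
      (Nat.prime_five.dvd_of_dvd_pow h5)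
    omega
  omega

/-- every field with at most sixteen elements: all surfaces except those of `p`-rank one with a
dihedral Galois group -/
theorem gd16 {q : ℕ} (hq : IsPrimePow q) (h : q ≤ 16) : GdP q (AlmostAll.All 1 q ∪ OT q) := by
  rcases pp16 hq h with h1 | h1 | h1
  · exact gd_of_no (sub_ot q) fun f hf g hg => small h1 f (sub_ot q hf) g (sub_ot q hg)
  · exact gd_of_no (sub_ot q) (ord h1)
  · exact gd_of_no (sub_ot q) (ordS h1)

end Pool.Agent.GT3
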