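import Pool.Agent.GT3.St

/-!
# GT3: the link to the sets of real Weil polynomials (helper17)
-/

set_option autoImplicit false

open Polynomial

namespace Pool.Agent.GT3

open Pool.Agent.GT2

noncomputable section

/-- the real Weil polynomials of the isogeny classes of abelian surfaces -/
def T2 (q : ℕ) : Set ℤ[X] := {h | h ∈ AlmostAll.RW 2 q ∧ (¬ (q.minFac : ℤ) ∣ h.coeff 0 ∨
  O1 q.minFac q (h.coeff 1) (h.coeff 0) ∨ O2 q (h.coeff 1) (h.coeff 0))}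

/-- reflex pairs of polynomials -/
def RfP (q : ℕ) (h h' : ℤ[X]) : Prop := h.natDegree = 2 ∧ h'.natDegree = 2 ∧
  Rf q (h.coeff 1) (h.coeff 0) (h'.coeff 1) (h'.coeff 0)

/-- good sets of polynomials -/
structure GdP (q : ℕ) (S : Set ℤ[X]) : Prop where
  sub : S ⊆ AlmostAll.All 1 q ∪ T2 q
  mx : q % 4 ≠ 3 → ∀ h ∈ S, ∀ h' ∈ S, (q.minFac : ℤ) ∣ h.coeff 0 ∨ (q.minFac : ℤ) ∣ h'.coeff 0 →
    ¬ RfP q h h'
  tp : ∀ h ∈ S, ∀ h' ∈ S, ∀ h'' ∈ S, RfP q h h' → RfP q h h'' →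
    h''.coeff 0 = h'.coeff 0 ∧ (h''.coeff 1 = h'.coeff 1 ∨ h''.coeff 1 = - h'.coeff 1)

/-- the pairs of a set of polynomials -/
def Pr (p : ℕ) (S : Set ℤ[X]) (A B : ℤ) : Prop :=
  (∃ h ∈ S, h.natDegree = 2 ∧ A = h.coeff 1 ∧ B = h.coeff 0) ∨
    ∃ h ∈ S, h.natDegree = 1 ∧ A = 2 * h.coeff 0 ∧ B = h.coeff 0 ^ 2

theorem aeval_one {h : ℤ[X]} (hm : h.Monic) (hd : h.natDegree = 1) (z : ℂ) :
    aeval z h = z + (h.coeff 0 : ℂ) := by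
  conv_lhs => rw [hm.eq_X_add_C hd]
  simp

theorem rw_one {p : ℕ} {h : ℤ[X]} (hh : h ∈ AlmostAll.RW 1 p) : h.coeff 0 ^ 2 ≤ 4 * (p : ℤ) := by
  obtain ⟨hm, hd, hr⟩ := hh
  have h1 := hr (-(h.coeff 0 : ℂ)) (by rw [aeval_one hm hd]; ring)
  have h2 : |(h.coeff 0 : ℝ)| ≤ 2 * Real.sqrt p := by
    have := h1.2
    simpa using this
  have h3 : (h.coeff 0 : ℝ) ^ 2 ≤ 4 * (p : ℝ) := by
    have h4 : |(h.coeff 0 : ℝ)| ^ 2 ≤ (2 * Real.sqrt p) ^ 2 :=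
      pow_le_pow_left₀ (abs_nonneg _) h2 2
    rw [sq_abs, mul_pow, Real.sq_sqrt (Nat.cast_nonneg p)] at h4
    linarith
  exact_mod_cast h3

theorem pq_of {q : ℕ} (hq : IsPrimePow q) : Pq q.minFac q := by
  refine ⟨Nat.minFac_prime hq.one_lt.ne', q.factorization q.minFac, ?_,
    hq.minFac_pow_factorization_eq.symm⟩
  by_contra h
  have h1 : q.factorization q.minFac = 0 := by omega
  have h2 := hq.minFac_pow_factorization_eq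
  rw [h1, pow_zero] at h2
  exact hq.one_lt.ne h2

theorem dd_sq (c : ℤ) : IsSquare (DD (2 * c) (c ^ 2)) := by
  refine ⟨0, ?_⟩
  unfold DD
  ring

theorem not_gn {q : ℕ} {c : ℤ} : ¬ Gn q (2 * c) (c ^ 2) := fun h => h.1 (dd_sq c)

theorem pr_tr (hC : S_CNV) {q : ℕ} (hq : IsPrimePow q) {S : Set ℤ[X]}
    (hS : S ⊆ AlmostAll.All 1 q ∪ T2 q) {A B : ℤ} (h : Pr q S A B) : Tr q.minFac q A B := by
  have hp := Nat.minFac_prime hq.one_lt.ne'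
  have hpZ : Prime (q.minFac : ℤ) := Nat.prime_iff_prime_int.1 hp
  rcases h with ⟨h, hh, hd, rfl, rfl⟩ | ⟨h, hh, hd, rfl, rfl⟩
  · rcases hS hh with h1 | h1
    · exact absurd (h1.1.2.1.symm.trans hd) (by norm_num)
    · exact ⟨(hC q hq.one_lt.le h h1.1).1, h1.2⟩
  · rcases hS hh with h1 | h1
    · have h2 := rw_one h1.1
      refine ⟨⟨?_, ?_, ?_, ?_⟩, ?_⟩
      · unfold DD
        nlinarith
      · unfold DP
        nlinarith [sq_nonneg (h.coeff 0 ^ 2 - 4 * (q : ℤ))]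
      · positivity
      · nlinarith
      · rcases h1.2 with h3 | h3
        · exact Or.inl fun h4 => h3 (hpZ.dvd_of_dvd_pow h4)
        · refine Or.inr (Or.inr ⟨?_, h3⟩)
          rw [mul_pow]
          exact Dvd.dvd.mul_left h3 _
    · exact absurd (h1.1.2.1.symm.trans hd) (by norm_num)

theorem adm_adS (hC : S_CNV) {q : ℕ} (hq : 1 ≤ q) {S : Set ℤ[X]}
    (hS : S ⊆ AlmostAll.All 1 q ∪ T2 q) {z : ℂ}
    (hz : AlmostAll.Adm q S z) : AdS q (Pr q S) z := by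
  obtain ⟨N, hN, h1 | ⟨h, hh, r, hr0, hr, hzr⟩⟩ := hz
  · exact ⟨N, hN, Or.inl h1⟩
  · refine ⟨N, hN, Or.inr ?_⟩
    rcases hS hh with h2 | h2
    · refine ⟨2 * h.coeff 0, h.coeff 0 ^ 2, Or.inr ⟨h, hh, h2.1.2.1, rfl, rfl⟩, r, ⟨hr0, ?_⟩, hzr⟩
      rw [aeval_one h2.1.1 h2.1.2.1] at hr
      push_cast
      have h3 : r + (q : ℂ) / r = -(h.coeff 0 : ℂ) := by linear_combination hr
      rw [h3]
      ring
    · exact ⟨h.coeff 1, h.coeff 0, Or.inl ⟨h, hh, h2.1.2.1, rfl, rfl⟩, r,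
        (hC q hq h h2.1).2 r hr0 hr, hzr⟩

theorem par_mono {p : ℕ} {P Q : ℂ → Prop} (h : ∀ z, P z → Q z) (hQ : AlmostAll.Par p Q) :
    AlmostAll.Par p P := fun z l hz hl => hQ z l (h z hz) fun y hy => h y (hl y hy)

theorem pr_gd (hC : S_CNV) {q : ℕ} (hq : IsPrimePow q) {S : Set ℤ[X]} (hS : GdP q S) :
    Gd q.minFac q (Pr q S) := by
  refine ⟨fun A B h => pr_tr hC hq hS.sub h, ?_, ?_⟩
  · rintro h4 A B A₁ B₁ (⟨h, hh, hd, rfl, rfl⟩ | ⟨h, hh, hd, rfl, rfl⟩) h1 hp hR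
    · rcases h1 with ⟨h', hh', hd', rfl, rfl⟩ | ⟨h', hh', hd', rfl, rfl⟩
      · exact hS.mx h4 h hh h' hh' hp ⟨hd, hd', hR⟩
      · exact not_gn hR.2.1
    · exact not_gn hR.1
  · rintro A B A₁ B₁ A₂ B₂ (⟨h, hh, hd, rfl, rfl⟩ | ⟨h, hh, hd, rfl, rfl⟩) h1 h2 hR hR'
    · rcases h1 with ⟨h', hh', hd', rfl, rfl⟩ | ⟨h', hh', hd', rfl, rfl⟩
      · rcases h2 with ⟨h'', hh'', hd'', rfl, rfl⟩ | ⟨h'', hh'', hd'', rfl, rfl⟩
        · exact hS.tp h hh h' hh' h'' hh'' ⟨hd, hd', hR⟩ ⟨hd, hd'', hR'⟩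
        · exact absurd hR'.2.1 not_gn
      · exact absurd hR.2.1 not_gn
    · exact absurd hR.1 not_gn

/-- the criterion -/
theorem crit' (hC : S_CNV) (hP : S_PAR3) {q : ℕ} (hq : IsPrimePow q) {S : Set ℤ[X]}
    (hS : GdP q S) : AlmostAll.Par q (AlmostAll.Adm q S) :=
  par_mono (fun _ hz => adm_adS hC hq.one_lt.le hS.sub hz)
    (hP q.minFac q (pq_of hq) (Pr q S) (pr_gd hC hq hS))

/-- no reflex pairs: good -/
theorem gd_of_no {q : ℕ} {S : Set ℤ[X]} (hS : S ⊆ AlmostAll.All 1 q ∪ T2 q)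
    (h : ∀ h ∈ S, ∀ h' ∈ S, ¬ RfP q h h') : GdP q S :=
  ⟨hS, fun _ h1 hh1 h2 hh2 _ => h h1 hh1 h2 hh2, fun h1 hh1 h2 hh2 _ _ hR => absurd hR (h h1 hh1 h2 hh2)⟩

theorem mem_two {q : ℕ} {h : ℤ[X]} (hh : h ∈ AlmostAll.All 1 q ∪ T2 q) (hd : h.natDegree = 2) :
    h ∈ T2 q := by
  rcases hh with h1 | h1
  · exact absurd (h1.1.2.1.symm.trans hd) (by norm_num)
  · exact h1

/-- the surfaces which are not ordinary with a dihedral Galois group -/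
def NO (q : ℕ) : Set ℤ[X] := {h | h ∈ T2 q ∧ ((q.minFac : ℤ) ∣ h.coeff 0 ∨
  IsSquare (DD (h.coeff 1) (h.coeff 0)) ∨ IsSquare (DP q (h.coeff 1) (h.coeff 0)) ∨
  IsSquare (DD (h.coeff 1) (h.coeff 0) * DP q (h.coeff 1) (h.coeff 0)))}

theorem tr_two (hC : S_CNV) {q : ℕ} (hq : 1 ≤ q) {h : ℤ[X]} (hh : h ∈ T2 q) :
    Tr q.minFac q (h.coeff 1) (h.coeff 0) := ⟨(hC q hq h hh.1).1, hh.2⟩

theorem nonord' (hC : S_CNV) (hN : S_NRN3) {q : ℕ} (hq : IsPrimePow q) :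
    ∀ h ∈ AlmostAll.All 1 q ∪ NO q, ∀ h' ∈ AlmostAll.All 1 q ∪ NO q, ¬ RfP q h h' := by
  have key : ∀ h ∈ AlmostAll.All 1 q ∪ NO q, h.natDegree = 2 → h ∈ NO q := by
    rintro h (h1 | h1) hd
    · exact absurd (h1.1.2.1.symm.trans hd) (by norm_num)
    · exact h1
  rintro h hh h' hh' ⟨hd, hd', hR⟩
  have h1 := key h hh hd
  have h2 := key h' hh' hd'
  have k : ∀ g : ℤ[X], g ∈ NO q → Gn q (g.coeff 1) (g.coeff 0) → (q.minFac : ℤ) ∣ g.coeff 0 ∨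
      IsSquare (DD (g.coeff 1) (g.coeff 0)) ∨ IsSquare (DP q (g.coeff 1) (g.coeff 0)) := by
    rintro g ⟨_, h | h | h | h⟩ hG
    · exact Or.inl h
    · exact Or.inr (Or.inl h)
    · exact Or.inr (Or.inr h)
    · exact absurd h hG.2.2.1
  exact hN q.minFac q (pq_of hq) _ _ _ _ (tr_two hC hq.one_lt.le h1.1)
    (tr_two hC hq.one_lt.le h2.1) (k h h1 hR.1) (k h' h2 hR.2.1) hR

theorem rf_reflex {q : ℕ} {A B A₁ B₁ : ℤ} (h : Rf q A B A₁ B₁) : Reflex q A B A₁ B₁ := by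
  have k : ∀ A B : ℤ, Gn q A B → Gen q A B := fun A B h => ⟨h.1, h.2.1, h.2.2.1, fun h' =>
    h.2.2.2 ⟨Dvd.dvd.trans h'.1 (Dvd.intro A (by ring)), h'.2⟩⟩
  exact ⟨k _ _ h.1, k _ _ h.2.1, h.2.2⟩

theorem small' (hC : S_CNV) (h3 : S_NR3) (h7 : S_NR7) (h11 : S_NR11) (h27 : S_NR27) {q : ℕ}
    (hq : q = 3 ∨ q = 7 ∨ q = 11 ∨ q = 27) : ∀ h ∈ AlmostAll.All 1 q ∪ T2 q,
    ∀ h' ∈ AlmostAll.All 1 q ∪ T2 q, ¬ RfP q h h' := by
  rintro h hh h' hh' ⟨hd, hd', hR⟩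
  have h1 := mem_two hh hd
  have h2 := mem_two hh' hd'
  rcases hq with rfl | rfl | rfl | rfl
  · exact h3 _ _ _ _ (hC 3 (by norm_num) h h1.1).1 (hC 3 (by norm_num) h' h2.1).1 (rf_reflex hR)
  · exact h7 _ _ _ _ (hC 7 (by norm_num) h h1.1).1 (hC 7 (by norm_num) h' h2.1).1 (rf_reflex hR)
  · exact h11 _ _ _ _ (hC 11 (by norm_num) h h1.1).1 (hC 11 (by norm_num) h' h2.1).1
      (rf_reflex hR)
  · have hm : Nat.minFac 27 = 3 := by norm_num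
    have k : ∀ g : ℤ[X], g ∈ T2 27 → Gn 27 (g.coeff 1) (g.coeff 0) →
        (¬ (3 : ℤ) ∣ g.coeff 0 ∨ (27 : ℤ) ∣ g.coeff 0 ^ 2) := by
      rintro g ⟨_, h | h | h⟩ hG
      · rw [hm] at h
        exact Or.inl h
      · exact Or.inr h.2.2.1
      · exact absurd h hG.2.2.2
    exact h27 _ _ _ _ (hC 27 (by norm_num) h h1.1).1 (hC 27 (by norm_num) h' h2.1).1
      (k h h1 hR.1) (k h' h2 hR.2.1) hR

/-- the surfaces which are ordinary or not of dihedral type -/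
def OT (q : ℕ) : Set ℤ[X] := {h | h ∈ T2 q ∧ (¬ (q.minFac : ℤ) ∣ h.coeff 0 ∨
  IsSquare (DD (h.coeff 1) (h.coeff 0)) ∨ IsSquare (DP q (h.coeff 1) (h.coeff 0)) ∨
  IsSquare (DD (h.coeff 1) (h.coeff 0) * DP q (h.coeff 1) (h.coeff 0)))}

theorem ord' (hC : S_CNV) {q : ℕ}
    (hN : ∀ A B A₁ B₁ : ℤ, ¬ (q : ℤ) ∣ B → ¬ (q : ℤ) ∣ B₁ → W2 q A B → W2 q A₁ B₁ →
      ¬ Reflex q A B A₁ B₁) (hq : q = 5 ∨ q = 13) :
    ∀ h ∈ AlmostAll.All 1 q ∪ OT q, ∀ h' ∈ AlmostAll.All 1 q ∪ OT q, ¬ RfP q h h' := by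
  have hq1 : 1 ≤ q := by rcases hq with rfl | rfl <;> norm_num
  have hm : q.minFac = q := by rcases hq with rfl | rfl <;> norm_num
  have key : ∀ h ∈ AlmostAll.All 1 q ∪ OT q, h.natDegree = 2 →
      Gn q (h.coeff 1) (h.coeff 0) → ¬ (q : ℤ) ∣ h.coeff 0 ∧ W2 q (h.coeff 1) (h.coeff 0) := by
    rintro h (h1 | h1) hd hG
    · exact absurd (h1.1.2.1.symm.trans hd) (by norm_num)
    · refine ⟨?_, (hC q hq1 h h1.1.1).1⟩
      rcases h1.2 with h | h | h | h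
      · rwa [hm] at h
      · exact absurd h hG.1
      · exact absurd h hG.2.1
      · exact absurd h hG.2.2.1
  rintro h hh h' hh' ⟨hd, hd', hR⟩
  have h1 := key h hh hd hR.1
  have h2 := key h' hh' hd' hR.2.1
  exact hN _ _ _ _ h1.1 h2.1 h1.2 h2.2 (rf_reflex hR)

end

end Pool.Agent.GT3
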