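import Pool.Agent.GT3.St

/-!
# GT3: further finite checks (helper30)
-/

set_option autoImplicit false

namespace Pool.Agent.GT3

open Pool.Agent.GT2

/-- NO16: no ordinary/ordinary reflex pairs for the other prime powers up to 16. -/
def S_NO16 : Prop := ∀ q : ℕ, (q = 2 ∨ q = 4 ∨ q = 8 ∨ q = 9 ∨ q = 16) → ∀ A B A₁ B₁ : ℤ,
  ¬ (q.minFac : ℤ) ∣ B → ¬ (q.minFac : ℤ) ∣ B₁ → W2 q A B → W2 q A₁ B₁ → ¬ Rf q A B A₁ B₁

/-- NR43: for `q = 43` the reflex partners (with the value 0) of a member are twists of each other. -/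
def S_NR43 : Prop := ∀ A B A₁ B₁ A₂ B₂ : ℤ, W2 43 A B → W2 43 A₁ B₁ → W2 43 A₂ B₂ →
  Rf 43 A B A₁ B₁ → Rf 43 A B A₂ B₂ → B₂ = B₁ ∧ (A₂ = A₁ ∨ A₂ = - A₁)

end Pool.Agent.GT3
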