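import Pool.Agent.GT3.Lnk
import Pool.Agent.GT3.St2

/-!
# GT3: more fields (helper17)
-/

set_option autoImplicit false

open Polynomial

namespace Pool.Agent.GT3

open Pool.Agent.GT2

noncomputable section

theorem ord2' (hC : S_CNV) {q : ℕ} (hq : 1 ≤ q)
    (hN : ∀ A B A₁ B₁ : ℤ, ¬ (q.minFac : ℤ) ∣ B → ¬ (q.minFac : ℤ) ∣ B₁ → W2 q A B → W2 q A₁ B₁ →
      ¬ Rf q A B A₁ B₁) :
    ∀ h ∈ AlmostAll.All 1 q ∪ OT q, ∀ h' ∈ AlmostAll.All 1 q ∪ OT q, ¬ RfP q h h' := by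
  have key : ∀ h ∈ AlmostAll.All 1 q ∪ OT q, h.natDegree = 2 →
      Gn q (h.coeff 1) (h.coeff 0) → ¬ (q.minFac : ℤ) ∣ h.coeff 0 ∧
        W2 q (h.coeff 1) (h.coeff 0) := by
    rintro h (h1 | h1) hd hG
    · exact absurd (h1.1.2.1.symm.trans hd) (by norm_num)
    · refine ⟨?_, (hC q hq h h1.1.1).1⟩
      rcases h1.2 with h | h | h | h
      · exact h
      · exact absurd h hG.1
      · exact absurd h hG.2.1
      · exact absurd h hG.2.2.1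
  rintro h hh h' hh' ⟨hd, hd', hR⟩
  have h1 := key h hh hd hR.1
  have h2 := key h' hh' hd' hR.2.1
  exact hN _ _ _ _ h1.1 h2.1 h1.2 h2.2 hR

theorem ot_sub {q : ℕ} : AlmostAll.All 1 q ∪ OT q ⊆ AlmostAll.All 1 q ∪ T2 q :=
  Set.union_subset_union_right _ fun _ h => h.1

/-- all prime powers up to 16 -/
theorem ord16' (hC : S_CNV) (h3 : S_NR3) (h7 : S_NR7) (h11 : S_NR11) (h27 : S_NR27)
    (hO : ∀ q : ℕ, (q = 5 ∨ q = 13) → ∀ A B A₁ B₁ : ℤ, ¬ (q : ℤ) ∣ B → ¬ (q : ℤ) ∣ B₁ →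
      W2 q A B → W2 q A₁ B₁ → ¬ Reflex q A B A₁ B₁)
    (hO2 : S_NO16) {q : ℕ} (hq : IsPrimePow q) (h16 : q ≤ 16) :
    ∀ h ∈ AlmostAll.All 1 q ∪ OT q, ∀ h' ∈ AlmostAll.All 1 q ∪ OT q, ¬ RfP q h h' := by
  have k1 : ∀ q : ℕ, (q = 3 ∨ q = 7 ∨ q = 11 ∨ q = 27) →
      ∀ h ∈ AlmostAll.All 1 q ∪ OT q, ∀ h' ∈ AlmostAll.All 1 q ∪ OT q, ¬ RfP q h h' :=
    fun q hq h hh h' hh' => small' hC h3 h7 h11 h27 hq h (ot_sub hh) h' (ot_sub hh')
  have k2 : ∀ q : ℕ, (q = 5 ∨ q = 13) →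
      ∀ h ∈ AlmostAll.All 1 q ∪ OT q, ∀ h' ∈ AlmostAll.All 1 q ∪ OT q, ¬ RfP q h h' :=
    fun q hq => ord' hC (fun A B A₁ B₁ a b c d => hO q hq A B A₁ B₁ a b c d) hq
  have k3 : ∀ q : ℕ, (q = 2 ∨ q = 4 ∨ q = 8 ∨ q = 9 ∨ q = 16) →
      ∀ h ∈ AlmostAll.All 1 q ∪ OT q, ∀ h' ∈ AlmostAll.All 1 q ∪ OT q, ¬ RfP q h h' :=
    fun q hq => ord2' hC (by omega) fun A B A₁ B₁ a b c d => hO2 q hq A B A₁ B₁ a b c d
  have hn : ∀ p r : ℕ, p.Prime → r.Prime → p ≠ r → p ∣ q → r ∣ q → False := by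
    intro p r hp hr hpr h1 h2
    obtain ⟨s, k, hs, hk, rfl⟩ := hq
    have hs' := hs.nat_prime
    exact hpr (((Nat.prime_dvd_prime_iff_eq hp hs').1 (hp.dvd_of_dvd_pow h1)).trans
      ((Nat.prime_dvd_prime_iff_eq hr hs').1 (hr.dvd_of_dvd_pow h2)).symm)
  interval_cases q
  · exact absurd hq (by exact not_isPrimePow_zero)
  · exact absurd hq (by exact not_isPrimePow_one)
  · exact k3 2 (by norm_num)
  · exact k1 3 (by norm_num)
  · exact k3 4 (by norm_num)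
  · exact k2 5 (by norm_num)
  · exact (hn 2 3 Nat.prime_two Nat.prime_three (by norm_num) (by norm_num) (by norm_num)).elim
  · exact k1 7 (by norm_num)
  · exact k3 8 (by norm_num)
  · exact k3 9 (by norm_num)
  · exact (hn 2 5 Nat.prime_two Nat.prime_five (by norm_num) (by norm_num) (by norm_num)).elim
  · exact k1 11 (by norm_num)
  · exact (hn 2 3 Nat.prime_two Nat.prime_three (by norm_num) (by norm_num) (by norm_num)).elim
  · exact k2 13 (by norm_num)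
  · exact (hn 2 7 Nat.prime_two (by norm_num) (by norm_num) (by norm_num) (by norm_num)).elim
  · exact (hn 3 5 Nat.prime_three Nat.prime_five (by norm_num) (by norm_num) (by norm_num)).elim
  · exact k3 16 (by norm_num)

/-- the field with 43 elements -/
theorem gd43' (hC : S_CNV) (h43 : S_NR43) : GdP 43 (AlmostAll.All 1 43 ∪ T2 43) := by
  refine ⟨fun _ h => h, fun h => absurd (by norm_num) h, ?_⟩
  rintro h hh h' hh' h'' hh'' ⟨hd, hd', hR⟩ ⟨_, hd'', hR'⟩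
  have w : ∀ g ∈ AlmostAll.All 1 43 ∪ T2 43, g.natDegree = 2 → W2 43 (g.coeff 1) (g.coeff 0) :=
    fun g hg hdg => (hC 43 (by norm_num) g (mem_two hg hdg).1).1
  exact h43 _ _ _ _ _ _ (w h hh hd) (w h' hh' hd') (w h'' hh'' hd'') hR hR'

end

end Pool.Agent.GT3
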