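import Pool.Agent.GT3.St2
import Pool.Agent.GT2.Enum

/-!
# GT3: no reflex pairs of ordinary surfaces over the fields with 2, 4, 8, 9 and 16 elements

`T2`, `T4`, `T8`, `T9`, `T16` are the lists of all real Weil polynomials `x ^ 2 + a x + b`, `a ≥ 0`, with `d`
and `d D` not squares. For two of them with `b` prime to `q` the numbers `d D'` and `D d'` are not both
squares. (After `GT2/NRO.lean` of helper30.)
-/

set_option autoImplicit false

namespace Pool.Agent.GT3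

open Pool.Agent.GT2

namespace NO16Aux

open Pool.Agent.GT2.Enum

/-- the real Weil polynomials with `a ≥ 0`, `d` and `d D` not squares, `q = 2` -/
def T2 : List (ℤ × ℤ) :=
  [(0, -7), (0, -6), (0, -5), (0, -3), (0, -2), (1, -5), (1, -4), (1, -3), (1, -1), (2, -2), (2,
  -1), (3, 1)]

/-- the others, with a square root of `d` or `d D`, `q = 2` -/
def W2 : List (ℤ × ℤ × ℤ) :=
  [(0, -8, 0), (0, -4, 4), (0, -1, 2), (0, 0, 0), (1, -2, 3), (1, 0, 1), (2, 0, 2), (2, 1, 0), (3,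
  2, 1), (4, 4, 0)]

/-- the real Weil polynomials with `a ≥ 0`, `d` and `d D` not squares, `q = 4` -/
def T4 : List (ℤ × ℤ) :=
  [(0, -15), (0, -14), (0, -13), (0, -12), (0, -11), (0, -10), (0, -8), (0, -7), (0, -6), (0, -5),
  (0, -3), (0, -2), (1, -11), (1, -10), (1, -9), (1, -8), (1, -7), (1, -5), (1, -4), (1, -3), (1,
  -1), (2, -7), (2, -6), (2, -5), (2, -2), (2, -1), (3, -3), (3, -2), (3, -1), (3, 1), (4, 1), (4,
  2), (5, 5)]

/-- the others, with a square root of `d` or `d D`, `q = 4` -/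
def W4 : List (ℤ × ℤ × ℤ) :=
  [(0, -16, 8), (0, -9, 6), (0, -4, 4), (0, -1, 2), (0, 0, 0), (1, -12, 7), (1, -6, 5), (1, -2,
  3), (1, 0, 1), (2, -8, 6), (2, -4, 40), (2, -3, 4), (2, 0, 2), (2, 1, 0), (3, -4, 5), (3, 0, 3),
  (3, 2, 1), (4, 0, 4), (4, 3, 2), (4, 4, 0), (5, 4, 3), (5, 6, 1), (6, 8, 2), (6, 9, 0), (7, 12,
  1), (8, 16, 0)]

/-- the real Weil polynomials with `a ≥ 0`, `d` and `d D` not squares, `q = 8` -/
def T8 : List (ℤ × ℤ) :=
  [(0, -31), (0, -30), (0, -29), (0, -28), (0, -27), (0, -26), (0, -24), (0, -23), (0, -22), (0,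
  -21), (0, -20), (0, -19), (0, -18), (0, -17), (0, -15), (0, -14), (0, -13), (0, -12), (0, -11),
  (0, -10), (0, -8), (0, -7), (0, -6), (0, -5), (0, -3), (0, -2), (1, -26), (1, -25), (1, -24),
  (1, -23), (1, -22), (1, -21), (1, -19), (1, -18), (1, -17), (1, -16), (1, -15), (1, -14), (1,
  -13), (1, -11), (1, -10), (1, -9), (1, -8), (1, -7), (1, -5), (1, -4), (1, -3), (1, -1), (2,
  -20), (2, -19), (2, -18), (2, -17), (2, -16), (2, -14), (2, -13), (2, -12), (2, -11), (2, -10),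
  (2, -9), (2, -7), (2, -6), (2, -5), (2, -4), (2, -2), (2, -1), (3, -15), (3, -14), (3, -13), (3,
  -12), (3, -11), (3, -9), (3, -8), (3, -7), (3, -6), (3, -5), (3, -3), (3, -1), (3, 1), (4, -9),
  (4, -8), (4, -7), (4, -6), (4, -4), (4, -3), (4, -2), (4, -1), (4, 1), (4, 2), (5, -3), (5, -2),
  (5, -1), (5, 1), (5, 2), (5, 3), (5, 5), (6, 2), (6, 3), (6, 4), (6, 6), (6, 7), (7, 8), (7, 9),
  (7, 11), (8, 14), (9, 19)]

/-- the others, with a square root of `d` or `d D`, `q = 8` -/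
def W8 : List (ℤ × ℤ × ℤ) :=
  [(0, -32, 0), (0, -25, 10), (0, -16, 8), (0, -9, 6), (0, -4, 4), (0, -1, 2), (0, 0, 0), (1, -20,
  9), (1, -12, 7), (1, -6, 5), (1, -2, 3), (1, 0, 1), (2, -15, 8), (2, -8, 6), (2, -3, 4), (2, 0,
  2), (2, 1, 0), (3, -10, 7), (3, -4, 5), (3, -2, 102), (3, 0, 3), (3, 2, 1), (4, -5, 6), (4, 0,
  4), (4, 3, 2), (4, 4, 0), (5, 0, 5), (5, 4, 3), (5, 6, 1), (6, 5, 4), (6, 8, 2), (6, 9, 0), (7,
  10, 3), (7, 12, 1), (8, 15, 2), (8, 16, 0), (9, 20, 1), (10, 25, 0)]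

/-- the real Weil polynomials with `a ≥ 0`, `d` and `d D` not squares, `q = 9` -/
def T9 : List (ℤ × ℤ) :=
  [(0, -35), (0, -34), (0, -33), (0, -32), (0, -31), (0, -30), (0, -29), (0, -28), (0, -27), (0,
  -26), (0, -24), (0, -23), (0, -22), (0, -21), (0, -20), (0, -19), (0, -18), (0, -17), (0, -15),
  (0, -14), (0, -13), (0, -12), (0, -11), (0, -10), (0, -8), (0, -7), (0, -6), (0, -5), (0, -3),
  (0, -2), (1, -28), (1, -27), (1, -26), (1, -25), (1, -24), (1, -23), (1, -22), (1, -21), (1,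
  -19), (1, -18), (1, -17), (1, -16), (1, -15), (1, -14), (1, -13), (1, -11), (1, -10), (1, -9),
  (1, -8), (1, -7), (1, -5), (1, -4), (1, -1), (2, -23), (2, -22), (2, -21), (2, -20), (2, -19),
  (2, -18), (2, -17), (2, -16), (2, -14), (2, -13), (2, -12), (2, -11), (2, -10), (2, -9), (2,
  -7), (2, -6), (2, -5), (2, -4), (2, -2), (2, -1), (3, -17), (3, -16), (3, -15), (3, -14), (3,
  -13), (3, -12), (3, -11), (3, -8), (3, -7), (3, -6), (3, -5), (3, -3), (3, -2), (3, -1), (3, 1),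
  (4, -11), (4, -10), (4, -9), (4, -8), (4, -7), (4, -6), (4, -4), (4, -3), (4, -2), (4, -1), (4,
  1), (4, 2), (5, -5), (5, -4), (5, -3), (5, -2), (5, -1), (5, 1), (5, 2), (5, 3), (5, 5), (6, 1),
  (6, 2), (6, 3), (6, 4), (6, 6), (6, 7), (7, 7), (7, 8), (7, 9), (7, 11), (8, 13), (8, 14), (9,
  19)]

/-- the others, with a square root of `d` or `d D`, `q = 9` -/
def W9 : List (ℤ × ℤ × ℤ) :=
  [(0, -36, 12), (0, -25, 10), (0, -16, 8), (0, -9, 6), (0, -4, 4), (0, -1, 2), (0, 0, 0), (1,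
  -30, 11), (1, -29, 39), (1, -20, 9), (1, -12, 7), (1, -6, 5), (1, -3, 117), (1, -2, 3), (1, 0,
  1), (2, -24, 10), (2, -15, 8), (2, -8, 6), (2, -3, 4), (2, 0, 2), (2, 1, 0), (3, -18, 9), (3,
  -10, 7), (3, -9, 135), (3, -4, 5), (3, 0, 3), (3, 2, 1), (4, -12, 8), (4, -5, 6), (4, 0, 4), (4,
  3, 2), (4, 4, 0), (5, -6, 7), (5, 0, 5), (5, 4, 3), (5, 6, 1), (6, 0, 6), (6, 5, 4), (6, 8, 2),
  (6, 9, 0), (7, 6, 5), (7, 10, 3), (7, 12, 1), (8, 12, 4), (8, 15, 2), (8, 16, 0), (9, 18, 3),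
  (9, 20, 1), (10, 24, 2), (10, 25, 0), (11, 30, 1), (12, 36, 0)]

/-- the real Weil polynomials with `a ≥ 0`, `d` and `d D` not squares, `q = 16` -/
def T16 : List (ℤ × ℤ) :=
  [(0, -63), (0, -62), (0, -61), (0, -60), (0, -59), (0, -58), (0, -57), (0, -56), (0, -55), (0,
  -54), (0, -53), (0, -52), (0, -51), (0, -50), (0, -48), (0, -47), (0, -46), (0, -45), (0, -44),
  (0, -43), (0, -42), (0, -41), (0, -40), (0, -39), (0, -38), (0, -37), (0, -35), (0, -34), (0,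
  -33), (0, -32), (0, -31), (0, -30), (0, -29), (0, -28), (0, -27), (0, -26), (0, -24), (0, -23),
  (0, -22), (0, -21), (0, -20), (0, -19), (0, -18), (0, -17), (0, -15), (0, -14), (0, -13), (0,
  -12), (0, -11), (0, -10), (0, -8), (0, -7), (0, -6), (0, -5), (0, -3), (0, -2), (1, -55), (1,
  -54), (1, -53), (1, -52), (1, -51), (1, -50), (1, -49), (1, -48), (1, -47), (1, -46), (1, -45),
  (1, -44), (1, -43), (1, -41), (1, -40), (1, -39), (1, -37), (1, -36), (1, -35), (1, -34), (1,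
  -33), (1, -32), (1, -31), (1, -29), (1, -28), (1, -27), (1, -26), (1, -25), (1, -24), (1, -23),
  (1, -22), (1, -21), (1, -19), (1, -18), (1, -17), (1, -16), (1, -15), (1, -14), (1, -13), (1,
  -11), (1, -10), (1, -9), (1, -8), (1, -7), (1, -5), (1, -4), (1, -3), (1, -1), (2, -47), (2,
  -46), (2, -45), (2, -44), (2, -43), (2, -42), (2, -41), (2, -40), (2, -39), (2, -38), (2, -37),
  (2, -36), (2, -34), (2, -33), (2, -32), (2, -31), (2, -30), (2, -29), (2, -28), (2, -27), (2,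
  -26), (2, -25), (2, -23), (2, -22), (2, -21), (2, -20), (2, -19), (2, -18), (2, -17), (2, -16),
  (2, -14), (2, -13), (2, -12), (2, -11), (2, -10), (2, -9), (2, -7), (2, -6), (2, -5), (2, -4),
  (2, -2), (2, -1), (3, -39), (3, -38), (3, -37), (3, -36), (3, -35), (3, -34), (3, -33), (3,
  -32), (3, -31), (3, -30), (3, -29), (3, -27), (3, -26), (3, -25), (3, -24), (3, -23), (3, -22),
  (3, -21), (3, -20), (3, -19), (3, -17), (3, -16), (3, -15), (3, -14), (3, -13), (3, -12), (3,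
  -11), (3, -9), (3, -8), (3, -7), (3, -6), (3, -5), (3, -3), (3, -2), (3, -1), (3, 1), (4, -31),
  (4, -30), (4, -29), (4, -28), (4, -27), (4, -26), (4, -25), (4, -24), (4, -23), (4, -22), (4,
  -20), (4, -19), (4, -18), (4, -17), (4, -15), (4, -14), (4, -13), (4, -11), (4, -10), (4, -9),
  (4, -8), (4, -7), (4, -6), (4, -4), (4, -3), (4, -2), (4, -1), (4, 1), (4, 2), (5, -23), (5,
  -22), (5, -21), (5, -20), (5, -19), (5, -18), (5, -17), (5, -16), (5, -15), (5, -13), (5, -12),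
  (5, -11), (5, -10), (5, -9), (5, -8), (5, -7), (5, -5), (5, -4), (5, -3), (5, -2), (5, -1), (5,
  1), (5, 2), (5, 3), (5, 5), (6, -15), (6, -14), (6, -13), (6, -12), (6, -11), (6, -10), (6, -9),
  (6, -8), (6, -6), (6, -5), (6, -4), (6, -3), (6, -2), (6, -1), (6, 1), (6, 2), (6, 3), (6, 4),
  (6, 6), (6, 7), (7, -7), (7, -6), (7, -5), (7, -4), (7, -3), (7, -2), (7, -1), (7, 1), (7, 2),
  (7, 3), (7, 4), (7, 5), (7, 7), (7, 8), (7, 9), (7, 11), (8, 1), (8, 2), (8, 3), (8, 4), (8, 5),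
  (8, 6), (8, 8), (8, 9), (8, 10), (8, 11), (8, 13), (8, 14), (9, 9), (9, 10), (9, 11), (9, 12),
  (9, 13), (9, 15), (9, 16), (9, 17), (9, 19), (10, 17), (10, 18), (10, 19), (10, 20), (10, 22),
  (10, 23), (11, 25), (11, 26), (11, 27), (11, 29), (12, 33), (12, 34), (13, 41)]

/-- the others, with a square root of `d` or `d D`, `q = 16` -/
def W16 : List (ℤ × ℤ × ℤ) :=
  [(0, -64, 16), (0, -49, 14), (0, -36, 12), (0, -25, 10), (0, -16, 8), (0, -9, 6), (0, -4, 4),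
  (0, -1, 2), (0, 0, 0), (1, -56, 15), (1, -42, 13), (1, -38, 306), (1, -30, 11), (1, -20, 9), (1,
  -12, 7), (1, -6, 5), (1, -2, 3), (1, 0, 1), (2, -48, 14), (2, -35, 12), (2, -24, 10), (2, -15,
  8), (2, -8, 6), (2, -3, 4), (2, 0, 2), (2, 1, 0), (3, -40, 13), (3, -28, 11), (3, -18, 9), (3,
  -10, 7), (3, -4, 5), (3, 0, 3), (3, 2, 1), (4, -32, 12), (4, -21, 10), (4, -16, 320), (4, -12,
  8), (4, -5, 6), (4, 0, 4), (4, 3, 2), (4, 4, 0), (5, -24, 11), (5, -14, 9), (5, -6, 7), (5, 0,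
  5), (5, 4, 3), (5, 6, 1), (6, -16, 10), (6, -7, 8), (6, 0, 6), (6, 5, 4), (6, 8, 2), (6, 9, 0),
  (7, -8, 9), (7, 0, 7), (7, 6, 5), (7, 10, 3), (7, 12, 1), (8, 0, 8), (8, 7, 6), (8, 12, 4), (8,
  15, 2), (8, 16, 0), (9, 8, 7), (9, 14, 5), (9, 18, 3), (9, 20, 1), (10, 16, 6), (10, 21, 4),
  (10, 24, 2), (10, 25, 0), (11, 24, 5), (11, 28, 3), (11, 30, 1), (12, 32, 4), (12, 35, 2), (12,
  36, 0), (13, 40, 3), (13, 42, 1), (14, 48, 2), (14, 49, 0), (15, 56, 1), (16, 64, 0)]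

/-- the ones with `b` prime to `p` -/
def ord (p : ℤ) (T : List (ℤ × ℤ)) : List (ℤ × ℤ) := T.filter fun s => !decide (s.2 % p = 0)

theorem mem_ord {q : ℤ} {T : List (ℤ × ℤ)} {a b : ℤ} (h : (a, b) ∈ T) (hb : ¬ q ∣ b) :
    (a, b) ∈ ord q T := by
  unfold ord
  rw [List.mem_filter]
  refine ⟨h, ?_⟩
  rw [Bool.not_eq_true', decide_eq_false_iff_not]
  exact fun h1 => hb (Int.dvd_of_emod_eq_zero h1)

theorem complete2 : complete 2 6 17 T2 W2 = true := by decide +kernel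

theorem complete4 : complete 4 9 33 T4 W4 = true := by decide +kernel

theorem complete8 : complete 8 12 65 T8 W8 = true := by decide +kernel

theorem complete9 : complete 9 13 73 T9 W9 = true := by decide +kernel

theorem complete16 : complete 16 17 129 T16 W16 = true := by decide +kernel

theorem noPair2 : noPair 2 (ord 2 T2) = true := by decide +kernel

theorem noPair4 : noPair 4 (ord 2 T4) = true := by decide +kernel

theorem noPair8 : noPair 8 (ord 2 T8) = true := by decide +kernel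

theorem noPair9 : noPair 9 (ord 3 T9) = true := by decide +kernel

theorem noPair16 : noPair 16 (ord 2 T16) = true := by decide +kernel

theorem core (q p : ℤ) (N M : ℕ) (T : List (ℤ × ℤ)) (W : List (ℤ × ℤ × ℤ))
    (hc : complete q N M T W = true) (hp : noPair q (ord p T) = true)
    (hN : 16 * q < (N : ℤ) * N) (hM : 8 * q < M) (a b a' b' : ℤ) (hb : ¬ p ∣ b) (hb' : ¬ p ∣ b')
    (h1 : a ^ 2 ≤ 16 * q) (h2 : 4 * b ≤ a ^ 2) (h3 : 0 ≤ b + 4 * q)
    (h4 : 4 * q * a ^ 2 ≤ (b + 4 * q) ^ 2) (hd : ¬ IsSquare (a ^ 2 - 4 * b))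
    (hdD : ¬ IsSquare ((a ^ 2 - 4 * b) * ((b + 4 * q) ^ 2 - 4 * q * a ^ 2)))
    (h1' : a' ^ 2 ≤ 16 * q) (h2' : 4 * b' ≤ a' ^ 2) (h3' : 0 ≤ b' + 4 * q)
    (h4' : 4 * q * a' ^ 2 ≤ (b' + 4 * q) ^ 2) (hd' : ¬ IsSquare (a' ^ 2 - 4 * b'))
    (hdD' : ¬ IsSquare ((a' ^ 2 - 4 * b') * ((b' + 4 * q) ^ 2 - 4 * q * a' ^ 2))) (n m : ℤ)
    (hn : n ^ 2 = (a ^ 2 - 4 * b) * ((b' + 4 * q) ^ 2 - 4 * q * a' ^ 2))
    (hm : m ^ 2 = ((b + 4 * q) ^ 2 - 4 * q * a ^ 2) * (a' ^ 2 - 4 * b')) : False := by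
  have m1 : (|a|, b) ∈ ord p T := mem_ord (mem_of q N M T W hc hN hM |a| b (abs_nonneg a)
    (by rwa [sq_abs]) (by rwa [sq_abs]) h3 (by rwa [sq_abs]) (by rwa [sq_abs])
    (by rwa [sq_abs])) hb
  have m2 : (|a'|, b') ∈ ord p T := mem_ord (mem_of q N M T W hc hN hM |a'| b' (abs_nonneg a')
    (by rwa [sq_abs]) (by rwa [sq_abs]) h3' (by rwa [sq_abs]) (by rwa [sq_abs])
    (by rwa [sq_abs])) hb'
  unfold noPair at hp
  rw [List.all_eq_true] at hp
  have h5 := hp _ m1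
  rw [List.all_eq_true] at h5
  have h6 := h5 _ m2
  rw [Bool.or_eq_true] at h6
  have e1 : |a| * |a| = a ^ 2 := by rw [abs_mul_abs_self, sq]
  have e2 : |a'| * |a'| = a' ^ 2 := by rw [abs_mul_abs_self, sq]
  rcases h6 with h6 | h6
  · refine nr_spec _ h6 ⟨n, ?_⟩
    unfold dis nor
    rw [e1, e2, ← sq (b' + 4 * q), ← hn, sq]
  · refine nr_spec _ h6 ⟨m, ?_⟩
    unfold dis nor
    rw [e1, e2, ← sq (b + 4 * q), ← hm, sq]

end NO16Aux

/-- no reflex pairs of ordinary surfaces over the fields with 2, 4, 8, 9 and 16 elements -/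
theorem t_NO16 : S_NO16 := by
  intro q hq A B A₁ B₁ hB hB₁ h h₁
  rintro ⟨⟨g1, _, g2, _⟩, ⟨k1, _, k2, _⟩, n, m, hn, hm, _⟩
  have d := h.d
  have dp := h.dp
  have d' := h₁.d
  have dp' := h₁.dp
  have hs := h.s
  have hs' := h₁.s
  have ha := h.a
  have ha' := h₁.a
  unfold DD at d d' g1 k1 hn hm g2 k2
  unfold DP at dp dp' g2 k2 hn hm
  rcases hq with rfl | rfl | rfl | rfl | rfl
  · have e : Nat.minFac 2 = 2 := by norm_num
    rw [e] at hB hB₁
    exact NO16Aux.core 2 2 6 17 NO16Aux.T2 NO16Aux.W2 NO16Aux.complete2 NO16Aux.noPair2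
      (by norm_num) (by norm_num) A B A₁ B₁ (by exact_mod_cast hB) (by exact_mod_cast hB₁)
      (by exact_mod_cast ha) (by linarith) (by exact_mod_cast hs) (by push_cast at dp; linarith) g1
      (by exact_mod_cast g2) (by exact_mod_cast ha') (by linarith) (by exact_mod_cast hs')
      (by push_cast at dp'; linarith) k1 (by exact_mod_cast k2) n m (by exact_mod_cast hn)
      (by exact_mod_cast hm)
  · have e : Nat.minFac 4 = 2 := by norm_num
    rw [e] at hB hB₁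
    exact NO16Aux.core 4 2 9 33 NO16Aux.T4 NO16Aux.W4 NO16Aux.complete4 NO16Aux.noPair4
      (by norm_num) (by norm_num) A B A₁ B₁ (by exact_mod_cast hB) (by exact_mod_cast hB₁)
      (by exact_mod_cast ha) (by linarith) (by exact_mod_cast hs) (by push_cast at dp; linarith) g1
      (by exact_mod_cast g2) (by exact_mod_cast ha') (by linarith) (by exact_mod_cast hs')
      (by push_cast at dp'; linarith) k1 (by exact_mod_cast k2) n m (by exact_mod_cast hn)
      (by exact_mod_cast hm)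
  · have e : Nat.minFac 8 = 2 := by norm_num
    rw [e] at hB hB₁
    exact NO16Aux.core 8 2 12 65 NO16Aux.T8 NO16Aux.W8 NO16Aux.complete8 NO16Aux.noPair8
      (by norm_num) (by norm_num) A B A₁ B₁ (by exact_mod_cast hB) (by exact_mod_cast hB₁)
      (by exact_mod_cast ha) (by linarith) (by exact_mod_cast hs) (by push_cast at dp; linarith) g1
      (by exact_mod_cast g2) (by exact_mod_cast ha') (by linarith) (by exact_mod_cast hs')
      (by push_cast at dp'; linarith) k1 (by exact_mod_cast k2) n m (by exact_mod_cast hn)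
      (by exact_mod_cast hm)
  · have e : Nat.minFac 9 = 3 := by norm_num
    rw [e] at hB hB₁
    exact NO16Aux.core 9 3 13 73 NO16Aux.T9 NO16Aux.W9 NO16Aux.complete9 NO16Aux.noPair9
      (by norm_num) (by norm_num) A B A₁ B₁ (by exact_mod_cast hB) (by exact_mod_cast hB₁)
      (by exact_mod_cast ha) (by linarith) (by exact_mod_cast hs) (by push_cast at dp; linarith) g1
      (by exact_mod_cast g2) (by exact_mod_cast ha') (by linarith) (by exact_mod_cast hs')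
      (by push_cast at dp'; linarith) k1 (by exact_mod_cast k2) n m (by exact_mod_cast hn)
      (by exact_mod_cast hm)
  · have e : Nat.minFac 16 = 2 := by norm_num
    rw [e] at hB hB₁
    exact NO16Aux.core 16 2 17 129 NO16Aux.T16 NO16Aux.W16 NO16Aux.complete16 NO16Aux.noPair16
      (by norm_num) (by norm_num) A B A₁ B₁ (by exact_mod_cast hB) (by exact_mod_cast hB₁)
      (by exact_mod_cast ha) (by linarith) (by exact_mod_cast hs) (by push_cast at dp; linarith) g1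
      (by exact_mod_cast g2) (by exact_mod_cast ha') (by linarith) (by exact_mod_cast hs')
      (by push_cast at dp'; linarith) k1 (by exact_mod_cast k2) n m (by exact_mod_cast hn)
      (by exact_mod_cast hm)

end Pool.Agent.GT3
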