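import Pool.Agent.GT3.St
import Pool.Agent.GT2.Enum3

/-!
# GT3: no reflex pairs over the field with 27 elements (helper30)

The real Weil polynomials `x ^ 2 + a x + b`, `a ≥ 0`, with `3 ∤ b` or `27 ∣ b ^ 2` and with `d` and `d D` not
squares are listed, with the sets of the primes `p ≤ 59` (as bits of a number) for which `d` or `D` is a
nonzero square, or not a square, modulo `p`. For two of them, `d D'` and `D d'` are not both squares, except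
for eight pairs, for which the third number of `Rf` is never a square.
-/

set_option autoImplicit false

namespace Pool.Agent.GT3

open Pool.Agent.GT2

namespace NR27Aux

open Pool.Agent.GT2.Enum

/-- a polynomial with its data -/
structure Ent where
  a : ℤ
  b : ℤ
  pd : ℕ
  nd : ℕ
  pD : ℕ
  nD : ℕ

/-- the primes -/
def ps : List ℕ := [3, 5, 7, 11, 13, 17, 19, 23, 29, 31, 37, 41, 43, 47, 53, 59]

/-- the bits of `P` are primes for which `x` is a nonzero square, the bits of `N` those for which `x`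
is not a square -/
def okm : List ℕ → ℤ → ℕ → ℕ → Bool
  | [], _, P, N => Nat.beq P 0 && Nat.beq N 0
  | p :: L, x, P, N =>
    (Nat.beq (P % 2) 0 || Nat.beq ((x % (p : ℤ)).toNat ^ (p / 2) % p) 1) &&
      (Nat.beq (N % 2) 0 || Nat.beq ((x % (p : ℤ)).toNat ^ (p / 2) % p) (p - 1)) &&
      okm L x (P / 2) (N / 2)

theorem pow_cast (p : ℕ) [hp : Fact p.Prime] (x : ℤ) (c : ℕ)
    (h : Nat.beq ((x % (p : ℤ)).toNat ^ (p / 2) % p) c = true) :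
    (x : ZMod p) ^ (p / 2) = (c : ZMod p) := by
  have h1 := Nat.eq_of_beq_eq_true h
  have h2 : (((x % (p : ℤ)).toNat : ℕ) : ZMod p) = (x : ZMod p) := by
    have h3 : (((x % (p : ℤ)).toNat : ℕ) : ℤ) = x % (p : ℤ) :=
      Int.toNat_of_nonneg (Int.emod_nonneg _ (by exact_mod_cast hp.out.ne_zero))
    have h4 : ((((x % (p : ℤ)).toNat : ℕ) : ℤ) : ZMod p) = ((x % (p : ℤ) : ℤ) : ZMod p) := by
      rw [h3]
    rw [ZMod.intCast_mod] at h4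
    rw [← h4]
    push_cast
    rfl
  rw [← h2, ← h1]
  push_cast
  rw [ZMod.natCast_mod]
  push_cast
  rfl

theorem not_sq (p : ℕ) [hp : Fact p.Prime] (h2 : p ≠ 2) (x y : ℤ)
    (hx : (x : ZMod p) ^ (p / 2) = 1) (hy : (y : ZMod p) ^ (p / 2) = -1) :
    ¬ IsSquare (x * y) := by
  rintro ⟨z, hz⟩
  have h1 : (x : ZMod p) * (y : ZMod p) = (z : ZMod p) * (z : ZMod p) := by
    have h0 : ((x * y : ℤ) : ZMod p) = ((z * z : ℤ) : ZMod p) := by rw [hz]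
    push_cast at h0
    exact h0
  have h3 : ((z : ZMod p) * (z : ZMod p)) ^ (p / 2) = -1 := by
    rw [← h1, mul_pow, hx, hy, one_mul]
  have hodd : p % 2 = 1 := (hp.out.eq_two_or_odd).resolve_left h2
  have h4 : 0 < p / 2 := Nat.div_pos hp.out.two_le two_pos
  by_cases hz0 : (z : ZMod p) = 0
  · rw [hz0, mul_zero, zero_pow h4.ne'] at h3
    have h5 : (1 : ZMod p) = 0 := by
      have := congrArg (fun t => -t) h3
      simpa using this.symm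
    exact one_ne_zero h5
  · have h5 : (z : ZMod p) ^ (p - 1) = 1 := ZMod.pow_card_sub_one_eq_one hz0
    rw [← sq, ← pow_mul] at h3
    have h6 : 2 * (p / 2) = p - 1 := by omega
    rw [h6, h5] at h3
    have h7 : (2 : ZMod p) = 0 := by
      have : (1 : ZMod p) + 1 = 0 := by nth_rewrite 2 [h3]; ring
      rw [← this]
      norm_num
    have h8 : ((2 : ℕ) : ZMod p) = 0 := by exact_mod_cast h7
    rw [ZMod.natCast_eq_zero_iff] at h8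
    exact h2 ((Nat.prime_dvd_prime_iff_eq hp.out Nat.prime_two).1 h8)

theorem land_cases (P N : ℕ) (h : Nat.land P N ≠ 0) :
    (P % 2 ≠ 0 ∧ N % 2 ≠ 0) ∨ Nat.land (P / 2) (N / 2) ≠ 0 := by
  by_contra hc
  push Not at hc
  obtain ⟨h1, h2⟩ := hc
  apply h
  have e1 : (P &&& N) / 2 = P / 2 &&& N / 2 := Nat.and_div_two
  have e2 : (P &&& N) % 2 = (P % 2) &&& (N % 2) := Nat.and_mod_two_pow (n := 1)
  have e3 : (P / 2 &&& N / 2) = 0 := h2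
  have e4 : (P % 2) &&& (N % 2) = 0 := by
    rcases Nat.mod_two_eq_zero_or_one P with hP | hP
    · rw [hP, Nat.zero_and]
    · rw [h1 (by omega), Nat.and_zero]
  change P &&& N = 0
  omega

theorem okm_spec : ∀ (L : List ℕ), (∀ p ∈ L, p.Prime ∧ p ≠ 2) → ∀ (x y : ℤ) (P N P' N' : ℕ),
    okm L x P N = true → okm L y P' N' = true → Nat.land P N' ≠ 0 → ¬ IsSquare (x * y) := by
  intro L
  induction L with
  | nil =>
    intro _ x y P N P' N' h1 h2 h3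
    exfalso
    unfold okm at h1
    rw [Bool.and_eq_true] at h1
    rw [Nat.eq_of_beq_eq_true h1.1] at h3
    exact h3 (Nat.zero_and N')
  | cons p L ih =>
    intro hL x y P N P' N' h1 h2 h3
    unfold okm at h1 h2
    rw [Bool.and_eq_true, Bool.and_eq_true, Bool.or_eq_true, Bool.or_eq_true] at h1 h2
    obtain ⟨⟨a1, _⟩, a3⟩ := h1
    obtain ⟨⟨_, b2⟩, b3⟩ := h2
    rcases land_cases P N' h3 with ⟨h4, h5⟩ | h4
    · obtain ⟨hp, hp2⟩ := hL p List.mem_cons_self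
      haveI : Fact p.Prime := ⟨hp⟩
      have a4 := a1.resolve_left fun h => h4 (Nat.eq_of_beq_eq_true h)
      have b4 := b2.resolve_left fun h => h5 (Nat.eq_of_beq_eq_true h)
      refine not_sq p hp2 x y ?_ ?_
      · have := pow_cast p x 1 a4
        rwa [Nat.cast_one] at this
      · have := pow_cast p y (p - 1) b4
        rw [Nat.cast_sub hp.one_le, ZMod.natCast_self, Nat.cast_one, zero_sub] at this
        exact this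
    · exact ih (fun p hp => hL p (List.mem_cons_of_mem _ hp)) x y _ _ _ _ a3 b3 h4

/-- the data of an entry are correct -/
def oke (q : ℤ) (e : Ent) : Bool :=
  okm ps (dis e.a e.b) e.pd e.nd && okm ps (nor q e.a e.b) e.pD e.nD

/-- the products are not both squares -/
def chk (s t : Ent) : Bool :=
  !(Nat.beq (Nat.add (Nat.add (Nat.land s.pd t.nD) (Nat.land s.nd t.pD))
    (Nat.add (Nat.land s.pD t.nd) (Nat.land s.nD t.pd))) 0)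

theorem ps_prime : ∀ p ∈ ps, p.Prime ∧ p ≠ 2 := by
  unfold ps
  intro p hp
  simp only [List.mem_cons, List.not_mem_nil, or_false] at hp
  rcases hp with rfl | rfl | rfl | rfl | rfl | rfl | rfl | rfl | rfl | rfl | rfl | rfl | rfl | rfl |
    rfl | rfl <;> exact ⟨by norm_num, by norm_num⟩

theorem chk_spec (q : ℤ) (s t : Ent) (hs : oke q s = true) (ht : oke q t = true)
    (h : chk s t = true) :
    ¬ (IsSquare (dis s.a s.b * nor q t.a t.b) ∧ IsSquare (nor q s.a s.b * dis t.a t.b)) := by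
  unfold oke at hs ht
  rw [Bool.and_eq_true] at hs ht
  rintro ⟨h1, h2⟩
  have e1 : Nat.land s.pd t.nD = 0 := by
    by_contra hc
    exact okm_spec ps ps_prime _ _ _ _ _ _ hs.1 ht.2 hc h1
  have e2 : Nat.land s.nd t.pD = 0 := by
    by_contra hc
    have hc' : Nat.land t.pD s.nd ≠ 0 := by
      have : t.pD &&& s.nd = s.nd &&& t.pD := Nat.and_comm _ _
      change t.pD &&& s.nd ≠ 0
      rw [this]
      exact hc
    exact okm_spec ps ps_prime _ _ _ _ _ _ ht.2 hs.1 hc' (by rwa [mul_comm])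
  have e3 : Nat.land s.pD t.nd = 0 := by
    by_contra hc
    exact okm_spec ps ps_prime _ _ _ _ _ _ hs.2 ht.1 hc h2
  have e4 : Nat.land s.nD t.pd = 0 := by
    by_contra hc
    have hc' : Nat.land t.pd s.nD ≠ 0 := by
      have : t.pd &&& s.nD = s.nD &&& t.pd := Nat.and_comm _ _
      change t.pd &&& s.nD ≠ 0
      rw [this]
      exact hc
    exact okm_spec ps ps_prime _ _ _ _ _ _ ht.1 hs.2 hc' (by rwa [mul_comm])
  unfold chk at h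
  rw [e1, e2, e3, e4] at h
  exact absurd h (by decide)

/-- the polynomials which are left out -/
def skip (b : ℤ) : Bool := decide (b % 3 = 0) && !decide ((b * b) % 27 = 0)

/-- all real Weil polynomials with `a ≥ 0` are in one of the lists -/
def comp (q : ℤ) (n m : ℕ) (R : List (List Ent)) (W : List (ℤ × ℤ × ℤ)) : Bool :=
  (List.range n).all fun a => (List.range m).all fun c =>
    !(wei q a ((c : ℤ) - 4 * q)) || skip ((c : ℤ) - 4 * q) ||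
      (R.getD a []).any (fun e => decide (e.a = a) && decide (e.b = (c : ℤ) - 4 * q)) ||
      W.any fun w => decide (w.1 = a) && decide (w.2.1 = (c : ℤ) - 4 * q) &&
        (decide (w.2.2 * w.2.2 = dis w.1 w.2.1) ||
          decide (w.2.2 * w.2.2 = dis w.1 w.2.1 * nor q w.1 w.2.1))

/-- the data are correct -/
def data (q : ℤ) (R : List (List Ent)) : Bool := R.all fun r => r.all fun e => oke q e

/-- no reflex pairs -/
def noR (q : ℤ) (R : List (List Ent)) (E : List ((ℤ × ℤ) × (ℤ × ℤ) × ℤ × ℤ)) : Bool :=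
  R.all fun r => r.all fun s => R.all fun r' => r'.all fun t =>
    chk s t || E.any (okE q (s.a, s.b) (t.a, t.b))

/-- the polynomials, `q = 27` -/
def R27 : List (List Ent) :=
  [[⟨0, -107, 57108, 8427, 65535, 0⟩, ⟨0, -106, 8295, 40856, 65535, 0⟩, ⟨0, -104, 34026, 31493, 65535,
  0⟩, ⟨0, -103, 15161, 50374, 65533, 0⟩, ⟨0, -101, 14066, 51469, 65531, 0⟩, ⟨0, -99, 21574, 43952,
  65534, 0⟩, ⟨0, -98, 10912, 54619, 65533, 0⟩, ⟨0, -97, 29193, 36342, 65527, 0⟩, ⟨0, -95, 63124,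
  2345, 65519, 0⟩, ⟨0, -94, 33715, 23628, 65531, 0⟩, ⟨0, -92, 6492, 58915, 65535, 0⟩, ⟨0, -91,
  18699, 46816, 65503, 0⟩, ⟨0, -90, 24080, 41452, 65534, 0⟩, ⟨0, -89, 24618, 40917, 65471, 0⟩, ⟨0,
  -88, 33045, 32482, 65533, 0⟩, ⟨0, -86, 36142, 25297, 65527, 0⟩, ⟨0, -85, 33989, 31512, 65407, 0⟩,
  ⟨0, -83, 15712, 49823, 65533, 0⟩, ⟨0, -82, 17369, 46118, 65519, 0⟩, ⟨0, -80, 35656, 29877, 65531,
  0⟩, ⟨0, -79, 45079, 20456, 65279, 0⟩, ⟨0, -77, 19696, 45827, 65023, 0⟩, ⟨0, -76, 33315, 32156,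
  65535, 0⟩, ⟨0, -74, 47446, 17065, 65503, 0⟩, ⟨0, -73, 3265, 62270, 65529, 0⟩, ⟨0, -72, 10916,
  54618, 65534, 0⟩, ⟨0, -71, 42894, 22641, 64511, 0⟩, ⟨0, -70, 18089, 47440, 65471, 0⟩, ⟨0, -68,
  61520, 3983, 65533, 0⟩, ⟨0, -67, 5933, 59602, 63487, 0⟩, ⟨0, -65, 9476, 56041, 61439, 0⟩, ⟨0, -63,
  59200, 6330, 65532, 0⟩, ⟨0, -62, 52688, 12335, 65407, 0⟩, ⟨0, -61, 10323, 55212, 57343, 0⟩, ⟨0,
  -59, 31658, 1109, 65531, 0⟩, ⟨0, -58, 5325, 59954, 65533, 0⟩, ⟨0, -56, 12826, 52705, 65519, 0⟩,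
  ⟨0, -55, 8433, 57092, 49151, 0⟩, ⟨0, -54, 29122, 36412, 65534, 0⟩, ⟨0, -53, 46396, 2755, 65525,
  0⟩, ⟨0, -52, 20897, 44622, 65531, 0⟩, ⟨0, -50, 10916, 54617, 65279, 0⟩, ⟨0, -47, 22248, 35095,
  65535, 0⟩, ⟨0, -46, 52231, 13176, 65023, 0⟩, ⟨0, -45, 35656, 29876, 65530, 0⟩, ⟨0, -44, 21574,
  43953, 65535, 0⟩, ⟨0, -43, 18549, 42890, 65517, 0⟩, ⟨0, -41, 38530, 24957, 65535, 0⟩, ⟨0, -40,
  24081, 41452, 65503, 0⟩, ⟨0, -38, 22328, 43143, 65529, 0⟩, ⟨0, -37, 26637, 37874, 65535, 0⟩, ⟨0,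
  -35, 37872, 27657, 65535, 0⟩, ⟨0, -34, 9483, 56020, 64511, 0⟩, ⟨0, -32, 10916, 54619, 65471, 0⟩,
  ⟨0, -31, 6283, 58740, 65523, 0⟩, ⟨0, -29, 49302, 15977, 65535, 0⟩, ⟨0, -28, 59201, 6330, 65533,
  0⟩, ⟨0, -27, 42136, 23398, 65534, 0⟩, ⟨0, -26, 34026, 31493, 63487, 0⟩, ⟨0, -23, 6492, 58915,
  65501, 0⟩, ⟨0, -22, 33045, 32482, 61439, 0⟩, ⟨0, -20, 35656, 29877, 65527, 0⟩, ⟨0, -19, 33315,
  32156, 65535, 0⟩, ⟨0, -18, 10916, 54618, 65532, 0⟩, ⟨0, -17, 61520, 3983, 65515, 0⟩, ⟨0, -14,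
  12826, 52705, 57343, 0⟩, ⟨0, -13, 20897, 44622, 65469, 0⟩, ⟨0, -11, 21574, 43953, 65535, 0⟩, ⟨0,
  -10, 24081, 41452, 65531, 0⟩, ⟨0, -8, 10916, 54619, 65533, 0⟩, ⟨0, -7, 59201, 6330, 65535, 0⟩, ⟨0,
  -5, 35656, 29877, 65535, 0⟩, ⟨0, -2, 10916, 54619, 49151, 0⟩],
  [⟨1, -97, 34942, 30593, 20897, 44622⟩, ⟨1, -95, 51154, 14380, 10323, 55212⟩, ⟨1, -94, 28360, 36903,
  33045, 32482⟩, ⟨1, -92, 38530, 24956, 26637, 37874⟩, ⟨1, -91, 30836, 34697, 38171, 27364⟩, ⟨1,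
  -89, 45960, 19538, 45669, 19730⟩, ⟨1, -88, 14824, 50711, 3265, 62270⟩, ⟨1, -86, 13836, 51568,
  33715, 23628⟩, ⟨1, -85, 45362, 19653, 559, 64976⟩, ⟨1, -83, 26636, 37874, 56657, 678⟩, ⟨1, -82,
  20050, 37289, 29397, 36138⟩, ⟨1, -81, 20897, 44620, 16954, 48452⟩, ⟨1, -80, 33906, 31628, 65519,
  0⟩, ⟨1, -79, 54924, 10611, 61025, 4510⟩, ⟨1, -77, 24670, 40864, 47809, 17726⟩, ⟨1, -76, 23780,
  41753, 21611, 43924⟩, ⟨1, -74, 3872, 61654, 49033, 16502⟩, ⟨1, -73, 54816, 10719, 28309, 37226⟩,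
  ⟨1, -71, 44464, 21004, 56391, 9128⟩, ⟨1, -70, 54054, 11481, 17627, 47908⟩, ⟨1, -68, 4712, 60802,
  36661, 28874⟩, ⟨1, -67, 31898, 33637, 20897, 44614⟩, ⟨1, -65, 49302, 15976, 13211, 52324⟩, ⟨1,
  -64, 33720, 31815, 8549, 56986⟩, ⟨1, -63, 45669, 19730, 64744, 790⟩, ⟨1, -62, 26118, 39416, 27937,
  37598⟩, ⟨1, -61, 35656, 29873, 35271, 30256⟩, ⟨1, -59, 60272, 5262, 46253, 19282⟩, ⟨1, -58, 2004,
  63531, 25161, 40230⟩, ⟨1, -55, 24078, 41409, 39731, 24780⟩, ⟨1, -54, 49, 64970, 57228, 8290⟩, ⟨1,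
  -53, 64744, 790, 45057, 20478⟩, ⟨1, -52, 10642, 54821, 49277, 16258⟩, ⟨1, -50, 19530, 46004, 4839,
  59664⟩, ⟨1, -49, 64964, 571, 8961, 56574⟩, ⟨1, -47, 48162, 17368, 22717, 42818⟩, ⟨1, -46, 6328,
  58181, 40739, 24796⟩, ⟨1, -45, 38171, 27364, 41318, 24192⟩, ⟨1, -44, 8396, 24370, 49873, 15662⟩,
  ⟨1, -43, 16272, 49263, 59165, 6242⟩, ⟨1, -41, 31636, 33888, 37451, 28068⟩, ⟨1, -40, 354, 65049,
  28807, 36728⟩, ⟨1, -38, 61520, 3982, 3045, 62490⟩, ⟨1, -37, 26470, 39065, 54793, 10742⟩, ⟨1, -36,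
  46113, 19164, 3470, 53872⟩, ⟨1, -35, 3470, 53872, 42275, 23132⟩, ⟨1, -34, 33900, 31635, 22193,
  43334⟩, ⟨1, -32, 786, 60652, 48457, 17062⟩, ⟨1, -31, 35656, 29877, 23767, 41768⟩, ⟨1, -29, 20896,
  44622, 17461, 48074⟩, ⟨1, -28, 18972, 46563, 20897, 44614⟩, ⟨1, -27, 4871, 60664, 60032, 5502⟩,
  ⟨1, -26, 51344, 14184, 25951, 39584⟩, ⟨1, -25, 14066, 51469, 3435, 62100⟩, ⟨1, -23, 16876, 48146,
  16961, 48566⟩, ⟨1, -22, 24618, 40917, 15685, 49850⟩, ⟨1, -19, 19696, 45827, 35533, 29986⟩, ⟨1,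
  -18, 3265, 62270, 57904, 6606⟩, ⟨1, -17, 16954, 48452, 26549, 38978⟩, ⟨1, -16, 9476, 56041, 14643,
  50892⟩, ⟨1, -14, 55556, 9914, 19785, 45750⟩, ⟨1, -13, 46396, 2755, 31473, 33038⟩, ⟨1, -11, 35656,
  29876, 12963, 52572⟩, ⟨1, -10, 38530, 24957, 31503, 34032⟩, ⟨1, -9, 26637, 37874, 50432, 15102⟩,
  ⟨1, -8, 3872, 61654, 189, 65346⟩, ⟨1, -7, 49302, 15977, 37697, 27838⟩, ⟨1, -5, 48162, 17368,
  23703, 41832⟩, ⟨1, -4, 61520, 3983, 37369, 28166⟩, ⟨1, -1, 35656, 29877, 26855, 38672⟩],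
  [⟨2, -86, 39664, 25614, 20897, 44622⟩, ⟨2, -85, 36142, 25297, 29193, 36342⟩, ⟨2, -83, 48162, 17368,
  37509, 28026⟩, ⟨2, -82, 15712, 49823, 10323, 55212⟩, ⟨2, -81, 17369, 46118, 3872, 61654⟩, ⟨2, -79,
  35656, 29877, 18595, 46940⟩, ⟨2, -77, 57228, 8290, 65407, 0⟩, ⟨2, -76, 19696, 45827, 26637,
  37874⟩, ⟨2, -74, 42136, 23396, 38171, 27364⟩, ⟨2, -73, 47446, 17065, 34317, 31202⟩, ⟨2, -72, 3265,
  62270, 29122, 36412⟩, ⟨2, -71, 10916, 54618, 18289, 47246⟩, ⟨2, -70, 42894, 22641, 45669, 19730⟩,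
  ⟨2, -68, 16954, 48452, 3265, 62270⟩, ⟨2, -67, 61520, 3983, 9779, 55756⟩, ⟨2, -65, 55922, 9604,
  48457, 17062⟩, ⟨2, -64, 9476, 56041, 33715, 23628⟩, ⟨2, -62, 59200, 6330, 559, 64976⟩, ⟨2, -61,
  52688, 12335, 54961, 10574⟩, ⟨2, -59, 53292, 12240, 43527, 22000⟩, ⟨2, -58, 31658, 1109, 56657,
  678⟩, ⟨2, -56, 55556, 9914, 29397, 36138⟩, ⟨2, -55, 12826, 52705, 44429, 21106⟩, ⟨2, -54, 8433,
  57092, 16954, 48452⟩, ⟨2, -53, 29122, 36412, 32353, 33182⟩, ⟨2, -52, 46396, 2755, 65519, 0⟩, ⟨2,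
  -50, 43798, 21704, 61025, 4510⟩, ⟨2, -49, 10916, 54617, 16839, 48696⟩, ⟨2, -47, 42136, 23398,
  7203, 58180⟩, ⟨2, -46, 22248, 35095, 47809, 17726⟩, ⟨2, -45, 52231, 13176, 12724, 52810⟩, ⟨2, -44,
  35656, 29876, 21611, 43924⟩, ⟨2, -43, 21574, 43953, 39225, 26310⟩, ⟨2, -41, 27000, 38530, 55453,
  10082⟩, ⟨2, -40, 38530, 24957, 49033, 16502⟩, ⟨2, -38, 2758, 62760, 28309, 37226⟩, ⟨2, -37, 22328,
  43143, 42211, 23316⟩, ⟨2, -36, 26637, 37874, 3872, 61654⟩, ⟨2, -34, 37872, 27657, 56391, 9128⟩,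
  ⟨2, -32, 3872, 61654, 17627, 47908⟩, ⟨2, -31, 10916, 54619, 22341, 43066⟩, ⟨2, -29, 1396, 64136,
  45451, 19060⟩, ⟨2, -28, 49302, 15977, 36661, 28874⟩, ⟨2, -27, 59201, 6330, 6246, 59288⟩, ⟨2, -26,
  42136, 23398, 20897, 44614⟩, ⟨2, -25, 34026, 31493, 59985, 5542⟩, ⟨2, -23, 29122, 36412, 25473,
  40062⟩, ⟨2, -22, 6492, 58915, 13211, 52324⟩, ⟨2, -20, 48162, 17368, 8549, 56986⟩, ⟨2, -19, 35656,
  29877, 25403, 40132⟩, ⟨2, -18, 33315, 32156, 64744, 790⟩, ⟨2, -17, 10916, 54618, 6295, 51048⟩, ⟨2,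
  -16, 61520, 3983, 27937, 37598⟩, ⟨2, -14, 53292, 12240, 35271, 30256⟩, ⟨2, -13, 12826, 52705,
  21861, 43658⟩, ⟨2, -11, 42136, 23398, 35689, 21654⟩, ⟨2, -10, 21574, 43953, 46253, 19282⟩, ⟨2, -9,
  24081, 41452, 15026, 50508⟩, ⟨2, -7, 10916, 54619, 18191, 47344⟩, ⟨2, -5, 29122, 36412, 59905,
  5630⟩, ⟨2, -4, 35656, 29877, 20499, 12260⟩, ⟨2, -2, 42136, 23398, 39731, 24780⟩, ⟨2, -1, 10916,
  54619, 21601, 43806⟩],
  [⟨3, -76, 345, 65190, 20897, 44622⟩, ⟨3, -74, 23780, 41753, 52231, 13176⟩, ⟨3, -73, 16587, 44848,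
  45669, 19730⟩, ⟨3, -72, 3872, 61654, 65534, 0⟩, ⟨3, -71, 54816, 10719, 14281, 51254⟩, ⟨3, -68,
  54054, 11481, 9849, 55686⟩, ⟨3, -67, 43477, 22058, 45391, 20144⟩, ⟨3, -65, 31898, 33637, 57221,
  8314⟩, ⟨3, -64, 33161, 15988, 59651, 5884⟩, ⟨3, -63, 49302, 15976, 20896, 44622⟩, ⟨3, -62, 33720,
  31815, 12099, 53412⟩, ⟨3, -61, 45669, 19730, 34473, 31062⟩, ⟨3, -59, 35656, 29873, 4343, 61192⟩,
  ⟨3, -58, 59651, 5884, 63269, 2266⟩, ⟨3, -56, 2004, 63531, 52281, 13254⟩, ⟨3, -55, 21611, 43924,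
  14897, 50630⟩, ⟨3, -53, 24078, 41409, 9205, 56330⟩, ⟨3, -52, 49, 64970, 31431, 34104⟩, ⟨3, -50,
  10642, 54821, 25161, 40230⟩, ⟨3, -49, 57909, 5576, 15563, 49956⟩, ⟨3, -47, 64964, 571, 56707,
  8828⟩, ⟨3, -46, 37509, 28026, 19261, 46274⟩, ⟨3, -45, 48162, 17368, 26636, 37874⟩, ⟨3, -44, 6328,
  58181, 3127, 62400⟩, ⟨3, -43, 38171, 27364, 1361, 64174⟩, ⟨3, -41, 16272, 49263, 35361, 30174⟩,
  ⟨3, -38, 354, 65049, 31149, 34386⟩, ⟨3, -37, 9849, 55686, 44807, 20712⟩, ⟨3, -36, 61520, 3982,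
  20896, 44622⟩, ⟨3, -35, 26470, 39065, 21833, 43702⟩, ⟨3, -34, 46113, 19164, 51051, 14484⟩, ⟨3,
  -32, 33900, 31635, 36935, 28600⟩, ⟨3, -31, 39577, 25890, 52949, 12586⟩, ⟨3, -29, 35656, 29877,
  6643, 58884⟩, ⟨3, -27, 20896, 44622, 16954, 48452⟩, ⟨3, -26, 18972, 46563, 57473, 8062⟩, ⟨3, -25,
  4871, 60664, 42405, 23130⟩, ⟨3, -23, 14066, 51469, 26637, 37858⟩, ⟨3, -22, 29193, 36342, 29219,
  36308⟩, ⟨3, -20, 24618, 40917, 46609, 18926⟩, ⟨3, -19, 33989, 31512, 52899, 12636⟩, ⟨3, -17,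
  19696, 45827, 8639, 56896⟩, ⟨3, -16, 3265, 62270, 4189, 61346⟩, ⟨3, -14, 9476, 56041, 39251,
  26284⟩, ⟨3, -13, 10323, 55212, 41417, 24118⟩, ⟨3, -11, 46396, 2755, 32325, 418⟩, ⟨3, -9, 35656,
  29876, 4870, 60664⟩, ⟨3, -8, 38530, 24957, 48033, 16478⟩, ⟨3, -7, 26637, 37874, 60851, 4676⟩, ⟨3,
  -5, 49302, 15977, 59769, 5638⟩, ⟨3, -2, 61520, 3983, 41199, 24336⟩, ⟨3, -1, 20897, 44622, 16537,
  48998⟩, ⟨3, 1, 35656, 29877, 49923, 15612⟩],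
  [⟨4, -65, 16954, 48452, 65527, 0⟩, ⟨4, -64, 61520, 3983, 20897, 44622⟩, ⟨4, -63, 5933, 59602, 3872,
  61654⟩, ⟨4, -62, 55922, 9604, 29193, 36342⟩, ⟨4, -61, 9476, 56041, 49731, 14764⟩, ⟨4, -59, 59200,
  6330, 17813, 47722⟩, ⟨4, -58, 52688, 12335, 37509, 28026⟩, ⟨4, -56, 53292, 12240, 10323, 55212⟩,
  ⟨4, -55, 31658, 1109, 36939, 20276⟩, ⟨4, -54, 5325, 59954, 3872, 61654⟩, ⟨4, -53, 55556, 9914,
  24789, 40746⟩, ⟨4, -52, 12826, 52705, 33045, 32482⟩, ⟨4, -50, 29122, 36412, 18595, 46940⟩, ⟨4,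
  -49, 46396, 2755, 26985, 38550⟩, ⟨4, -47, 43798, 21704, 39537, 25998⟩, ⟨4, -46, 10916, 54617,
  65407, 0⟩, ⟨4, -44, 42136, 23398, 26637, 37874⟩, ⟨4, -43, 22248, 35095, 59569, 5958⟩, ⟨4, -41,
  35656, 29876, 5059, 60468⟩, ⟨4, -40, 21574, 43953, 38171, 27364⟩, ⟨4, -38, 27000, 38530, 34317,
  31202⟩, ⟨4, -37, 38530, 24957, 35301, 30234⟩, ⟨4, -36, 24081, 41452, 29122, 36412⟩, ⟨4, -35, 2758,
  62760, 1931, 63588⟩, ⟨4, -34, 22328, 43143, 18289, 47246⟩, ⟨4, -31, 37872, 27657, 41767, 23768⟩,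
  ⟨4, -29, 3872, 61654, 46633, 18902⟩, ⟨4, -28, 10916, 54619, 3265, 62270⟩, ⟨4, -27, 6283, 58740,
  23256, 42278⟩, ⟨4, -26, 1396, 64136, 9779, 55756⟩, ⟨4, -25, 49302, 15977, 39303, 26216⟩, ⟨4, -23,
  42136, 23398, 22341, 43066⟩, ⟨4, -22, 34026, 31493, 48457, 17062⟩, ⟨4, -20, 29122, 36412, 33715,
  23628⟩, ⟨4, -19, 6492, 58915, 47489, 18038⟩, ⟨4, -18, 33045, 32482, 8396, 24370⟩, ⟨4, -17, 48162,
  17368, 38261, 27274⟩, ⟨4, -16, 35656, 29877, 559, 64976⟩, ⟨4, -14, 10916, 54618, 54961, 10574⟩,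
  ⟨4, -13, 61520, 3983, 26873, 38662⟩, ⟨4, -11, 53292, 12240, 16719, 48816⟩, ⟨4, -10, 12826, 52705,
  43527, 22000⟩, ⟨4, -9, 20897, 44622, 60516, 4874⟩, ⟨4, -8, 42136, 23398, 56657, 678⟩, ⟨4, -7,
  21574, 43953, 50073, 14438⟩, ⟨4, -4, 10916, 54619, 29397, 36138⟩, ⟨4, -2, 29122, 36412, 44429,
  21106⟩, ⟨4, -1, 35656, 29877, 36627, 28908⟩, ⟨4, 1, 42136, 23398, 41569, 23942⟩, ⟨4, 2, 10916,
  54619, 32353, 33182⟩],
  [⟨5, -56, 26118, 39416, 65535, 0⟩, ⟨5, -55, 35656, 29873, 4871, 60664⟩, ⟨5, -54, 59651, 5884,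
  29122, 36412⟩, ⟨5, -53, 60272, 5262, 20897, 44620⟩, ⟨5, -52, 2004, 63531, 4871, 60664⟩, ⟨5, -49,
  24078, 41409, 3127, 62400⟩, ⟨5, -47, 64744, 790, 10667, 54868⟩, ⟨5, -46, 10642, 54821, 12099,
  53412⟩, ⟨5, -45, 57909, 5576, 3470, 53872⟩, ⟨5, -44, 19530, 46004, 4067, 61468⟩, ⟨5, -43, 64964,
  571, 10321, 55212⟩, ⟨5, -41, 48162, 17368, 57767, 7768⟩, ⟨5, -40, 6328, 58181, 49731, 14764⟩, ⟨5,
  -38, 8396, 24370, 33045, 32480⟩, ⟨5, -37, 16272, 49263, 20187, 45348⟩, ⟨5, -35, 31636, 33888,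
  6743, 58784⟩, ⟨5, -34, 354, 65049, 46223, 19312⟩, ⟨5, -32, 61520, 3982, 14947, 50588⟩, ⟨5, -31,
  26470, 39065, 24231, 41304⟩, ⟨5, -29, 3470, 53872, 63043, 2492⟩, ⟨5, -28, 33900, 31635, 26637,
  37872⟩, ⟨5, -27, 39577, 25890, 41318, 24192⟩, ⟨5, -26, 786, 60652, 55051, 10484⟩, ⟨5, -25, 35656,
  29877, 9179, 23588⟩, ⟨5, -23, 20896, 44622, 38169, 27364⟩, ⟨5, -22, 18972, 46563, 38067, 27468⟩,
  ⟨5, -20, 51344, 14184, 56391, 9128⟩, ⟨5, -19, 14066, 51469, 42275, 23132⟩, ⟨5, -18, 29193, 36342,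
  29120, 36412⟩, ⟨5, -17, 16876, 48146, 51999, 13536⟩, ⟨5, -16, 24618, 40917, 49507, 16020⟩, ⟨5,
  -13, 19696, 45827, 45669, 19728⟩, ⟨5, -11, 16954, 48452, 5267, 60268⟩, ⟨5, -10, 9476, 56041,
  47351, 18184⟩, ⟨5, -9, 10323, 55212, 65298, 236⟩, ⟨5, -8, 55556, 9914, 3265, 62268⟩, ⟨5, -7,
  46396, 2755, 27815, 37704⟩, ⟨5, -5, 35656, 29876, 40547, 24980⟩, ⟨5, -4, 38530, 24957, 27419,
  38116⟩, ⟨5, -2, 3872, 61654, 3299, 62228⟩, ⟨5, -1, 49302, 15977, 60363, 5156⟩, ⟨5, 1, 48162,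
  17368, 41719, 23816⟩, ⟨5, 2, 61520, 3983, 33713, 23628⟩, ⟨5, 5, 35656, 29877, 17291, 48244⟩],
  [⟨6, -45, 29122, 36412, 65534, 0⟩, ⟨6, -44, 46396, 2755, 20897, 44622⟩, ⟨6, -43, 20897, 44622,
  15381, 50154⟩, ⟨6, -41, 10916, 54617, 9363, 56172⟩, ⟨6, -38, 22248, 35095, 45669, 19730⟩, ⟨6, -37,
  52231, 13176, 31129, 34406⟩, ⟨6, -36, 35656, 29876, 65534, 0⟩, ⟨6, -35, 21574, 43953, 49507,
  16020⟩, ⟨6, -34, 18549, 42890, 14281, 51254⟩, ⟨6, -32, 38530, 24957, 12017, 20750⟩, ⟨6, -31,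
  24081, 41452, 34855, 30664⟩, ⟨6, -29, 22328, 43143, 15173, 50346⟩, ⟨6, -28, 26637, 37874, 9849,
  55686⟩, ⟨6, -26, 37872, 27657, 45391, 20144⟩, ⟨6, -25, 9483, 56020, 36395, 29140⟩, ⟨6, -23, 10916,
  54619, 3737, 53606⟩, ⟨6, -22, 6283, 58740, 57221, 8314⟩, ⟨6, -20, 49302, 15977, 59651, 5884⟩, ⟨6,
  -19, 59201, 6330, 33013, 31498⟩, ⟨6, -18, 42136, 23398, 20896, 44622⟩, ⟨6, -17, 34026, 31493,
  50269, 15138⟩, ⟨6, -14, 6492, 58915, 34473, 31062⟩, ⟨6, -13, 33045, 32482, 57793, 7734⟩, ⟨6, -11,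
  35656, 29877, 20723, 44812⟩, ⟨6, -10, 33315, 32156, 4343, 61192⟩, ⟨6, -9, 10916, 54618, 3264,
  62270⟩, ⟨6, -8, 61520, 3983, 63269, 2266⟩, ⟨6, -5, 12826, 52705, 21255, 36064⟩, ⟨6, -4, 20897,
  44622, 52281, 13254⟩, ⟨6, -2, 21574, 43953, 14897, 50630⟩, ⟨6, -1, 24081, 41452, 37423, 28112⟩,
  ⟨6, 1, 10916, 54619, 64641, 894⟩, ⟨6, 2, 59201, 6330, 9205, 56330⟩, ⟨6, 4, 35656, 29877, 31431,
  34104⟩, ⟨6, 7, 10916, 54619, 53561, 11974⟩],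
  [⟨7, -35, 48162, 17368, 26637, 37874⟩, ⟨7, -34, 6328, 58181, 52231, 13176⟩, ⟨7, -32, 8396, 24370,
  65527, 0⟩, ⟨7, -31, 16272, 49263, 20897, 44618⟩, ⟨7, -29, 31636, 33888, 41615, 23904⟩, ⟨7, -28,
  354, 65049, 43477, 22058⟩, ⟨7, -27, 9849, 55686, 3470, 53872⟩, ⟨7, -26, 61520, 3982, 54501,
  11034⟩, ⟨7, -25, 26470, 39065, 55909, 9626⟩, ⟨7, -23, 3470, 53872, 62613, 2922⟩, ⟨7, -22, 33900,
  31635, 28975, 36560⟩, ⟨7, -20, 786, 60652, 15717, 49818⟩, ⟨7, -19, 35656, 29877, 6743, 58784⟩, ⟨7,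
  -17, 20896, 44622, 10323, 55208⟩, ⟨7, -16, 18972, 46563, 34317, 31202⟩, ⟨7, -14, 51344, 14184,
  52135, 13400⟩, ⟨7, -13, 14066, 51469, 40013, 25522⟩, ⟨7, -11, 16876, 48146, 59165, 6242⟩, ⟨7, -10,
  24618, 40917, 33041, 32482⟩, ⟨7, -9, 33989, 31512, 51942, 13592⟩, ⟨7, -7, 19696, 45827, 42095,
  23440⟩, ⟨7, -5, 16954, 48452, 59117, 6402⟩, ⟨7, -4, 9476, 56041, 9399, 56136⟩, ⟨7, -2, 55556,
  9914, 6495, 59040⟩, ⟨7, -1, 46396, 2755, 50117, 7226⟩, ⟨7, 1, 35656, 29876, 29959, 35568⟩, ⟨7, 2,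
  38530, 24957, 23413, 40970⟩, ⟨7, 4, 3872, 61654, 26633, 37874⟩, ⟨7, 5, 49302, 15977, 30085,
  35450⟩, ⟨7, 7, 48162, 17368, 64277, 1258⟩, ⟨7, 8, 61520, 3983, 34855, 30664⟩, ⟨7, 9, 20897, 44622,
  35260, 30274⟩, ⟨7, 11, 35656, 29877, 38171, 27360⟩],
  [⟨8, -23, 2758, 62760, 345, 65190⟩, ⟨8, -22, 22328, 43143, 65527, 0⟩, ⟨8, -19, 37872, 27657, 3335,
  62200⟩, ⟨8, -18, 9483, 56020, 3872, 61654⟩, ⟨8, -17, 3872, 61654, 64511, 0⟩, ⟨8, -16, 10916,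
  54619, 29193, 36342⟩, ⟨8, -14, 1396, 64136, 49731, 14764⟩, ⟨8, -13, 49302, 15977, 55113, 10422⟩,
  ⟨8, -11, 42136, 23398, 59569, 5958⟩, ⟨8, -10, 34026, 31493, 17813, 47722⟩, ⟨8, -8, 29122, 36412,
  37509, 28026⟩, ⟨8, -7, 6492, 58915, 7203, 58180⟩, ⟨8, -5, 48162, 17368, 18029, 47506⟩, ⟨8, -4,
  35656, 29877, 10323, 55212⟩, ⟨8, -2, 10916, 54618, 36939, 20276⟩, ⟨8, -1, 61520, 3983, 41389,
  24130⟩, ⟨8, 1, 53292, 12240, 32403, 33132⟩, ⟨8, 2, 12826, 52705, 24789, 40746⟩, ⟨8, 4, 42136,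
  23398, 33045, 32482⟩, ⟨8, 5, 21574, 43953, 38249, 27286⟩, ⟨8, 8, 10916, 54619, 18595, 46940⟩, ⟨8,
  9, 59201, 6330, 58140, 7394⟩, ⟨8, 10, 29122, 36412, 26985, 38550⟩, ⟨8, 11, 35656, 29877, 40327,
  25200⟩, ⟨8, 13, 42136, 23398, 28295, 4472⟩, ⟨8, 14, 10916, 54619, 39537, 25998⟩],
  [⟨9, -14, 33900, 31635, 33045, 32482⟩, ⟨9, -13, 39577, 25890, 43477, 22058⟩, ⟨9, -11, 35656, 29877,
  64299, 1236⟩, ⟨9, -8, 18972, 46563, 345, 65190⟩, ⟨9, -7, 4871, 60664, 3325, 62210⟩, ⟨9, -5, 14066,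
  51469, 28451, 37084⟩, ⟨9, -4, 29193, 36342, 56657, 678⟩, ⟨9, -2, 24618, 40917, 1921, 63614⟩, ⟨9,
  -1, 33989, 31512, 39731, 24780⟩, ⟨9, 1, 19696, 45827, 18253, 47266⟩, ⟨9, 2, 3265, 62270, 55809,
  9726⟩, ⟨9, 4, 9476, 56041, 41615, 23904⟩, ⟨9, 5, 10323, 55212, 50227, 15308⟩, ⟨9, 7, 46396, 2755,
  26629, 37874⟩, ⟨9, 9, 35656, 29876, 10322, 55212⟩, ⟨9, 10, 38530, 24957, 15523, 50012⟩, ⟨9, 11,
  26637, 37874, 32461, 33074⟩, ⟨9, 13, 49302, 15977, 25873, 39662⟩, ⟨9, 16, 61520, 3983, 46049,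
  19486⟩, ⟨9, 19, 35656, 29877, 10323, 55204⟩],
  [⟨10, -4, 49302, 15977, 65535, 0⟩, ⟨10, -2, 42136, 23398, 4871, 60664⟩, ⟨10, -1, 34026, 31493,
  20499, 12260⟩, ⟨10, 1, 29122, 36412, 36939, 20276⟩, ⟨10, 2, 6492, 58915, 20897, 44620⟩, ⟨10, 4,
  48162, 17368, 4871, 60664⟩, ⟨10, 5, 35656, 29877, 43527, 22000⟩, ⟨10, 7, 10916, 54618, 29193,
  36340⟩, ⟨10, 8, 61520, 3983, 59451, 6084⟩, ⟨10, 10, 53292, 12240, 3127, 62400⟩, ⟨10, 11, 12826,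
  52705, 43207, 22328⟩, ⟨10, 13, 42136, 23398, 30499, 34908⟩, ⟨10, 14, 21574, 43953, 10667, 54868⟩,
  ⟨10, 17, 10916, 54619, 37509, 28024⟩, ⟨10, 18, 59201, 6330, 3470, 53872⟩, ⟨10, 19, 29122, 36412,
  65535, 0⟩, ⟨10, 20, 35656, 29877, 4067, 61468⟩, ⟨10, 22, 42136, 23398, 10321, 55212⟩, ⟨10, 23,
  10916, 54619, 62619, 2916⟩],
  [⟨11, 7, 16876, 48146, 9849, 55686⟩, ⟨11, 8, 24618, 40917, 29193, 36342⟩, ⟨11, 9, 33989, 31512,
  16954, 48452⟩, ⟨11, 11, 19696, 45827, 9117, 56418⟩, ⟨11, 13, 16954, 48452, 20897, 44614⟩, ⟨11, 14,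
  9476, 56041, 38491, 27044⟩, ⟨11, 16, 55556, 9914, 49897, 15638⟩, ⟨11, 17, 46396, 2755, 50653,
  14882⟩, ⟨11, 19, 35656, 29876, 26031, 39504⟩, ⟨11, 20, 38530, 24957, 35003, 30532⟩, ⟨11, 22, 3872,
  61654, 26393, 39142⟩, ⟨11, 23, 49302, 15977, 41769, 23766⟩, ⟨11, 25, 48162, 17368, 50767, 14768⟩,
  ⟨11, 26, 61520, 3983, 3565, 53762⟩, ⟨11, 27, 20897, 44622, 31000, 34534⟩, ⟨11, 29, 35656, 29877,
  15947, 49588⟩],
  [⟨12, 17, 33315, 32156, 3265, 62270⟩, ⟨12, 18, 10916, 54618, 65534, 0⟩, ⟨12, 19, 61520, 3983,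
  49897, 15638⟩, ⟨12, 22, 12826, 52705, 15381, 50154⟩, ⟨12, 23, 20897, 44622, 35355, 30180⟩, ⟨12,
  25, 21574, 43953, 19789, 45746⟩, ⟨12, 26, 24081, 41452, 9363, 56172⟩, ⟨12, 28, 10916, 54619,
  52231, 13176⟩, ⟨12, 29, 59201, 6330, 28781, 36754⟩, ⟨12, 31, 35656, 29877, 25427, 40108⟩, ⟨12, 34,
  10916, 54619, 31129, 34406⟩],
  [⟨13, 28, 55556, 9914, 10323, 55212⟩, ⟨13, 29, 46396, 2755, 56657, 678⟩, ⟨13, 31, 35656, 29876,
  50547, 14988⟩, ⟨13, 32, 38530, 24957, 15381, 50154⟩, ⟨13, 34, 3872, 61654, 25789, 39746⟩, ⟨13, 35,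
  49302, 15977, 20897, 44622⟩, ⟨13, 37, 48162, 17368, 21181, 3394⟩, ⟨13, 38, 61520, 3983, 29811,
  35724⟩, ⟨13, 41, 35656, 29877, 13783, 51744⟩],
  [⟨14, 38, 21574, 43953, 26637, 37874⟩, ⟨14, 41, 10916, 54619, 7781, 57754⟩, ⟨14, 43, 29122, 36412,
  16685, 48722⟩, ⟨14, 44, 35656, 29877, 65527, 0⟩, ⟨14, 46, 42136, 23398, 20897, 44618⟩, ⟨14, 47,
  10916, 54619, 41589, 23946⟩],
  [⟨15, 49, 49302, 15977, 4067, 61468⟩, ⟨15, 52, 61520, 3983, 20897, 44620⟩, ⟨15, 53, 20897, 44622,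
  34399, 31136⟩, ⟨15, 55, 35656, 29877, 50479, 15056⟩],
  [⟨16, 59, 35656, 29877, 59651, 5884⟩, ⟨16, 61, 42136, 23398, 38609, 26918⟩, ⟨16, 62, 10916, 54619,
  345, 65190⟩],
  [⟨17, 71, 35656, 29877, 35003, 30532⟩]]

/-- the others, with a square root of `d` or `d D` -/
def W27 : List (ℤ × ℤ × ℤ) :=
  [(0, -108, 0), (0, -100, 20), (0, -81, 18), (0, -64, 16), (0, -49, 14), (0, -36, 12), (0, -25,
  10), (0, -16, 8), (0, -9, 6), (0, -4, 4), (0, -1, 2), (0, 0, 0), (1, -90, 19), (1, -72, 17), (1,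
  -56, 15), (1, -20, 9), (1, -2, 3), (1, 0, 1), (2, -80, 18), (2, -63, 16), (2, -35, 12), (2, -8,
  6), (2, 0, 2), (2, 1, 0), (3, -70, 17), (3, -54, 15), (3, -40, 13), (3, -28, 11), (3, -18, 9), (3,
  -10, 7), (3, -4, 5), (3, 0, 3), (3, 2, 1), (4, -45, 14), (4, -32, 12), (4, -5, 6), (4, 0, 4), (4,
  4, 0), (5, -50, 15), (5, -36, 13), (5, -14, 9), (5, 0, 5), (5, 4, 3), (6, -40, 14), (6, -27, 12),
  (6, -16, 10), (6, -7, 8), (6, 0, 6), (6, 5, 4), (6, 8, 2), (6, 9, 0), (7, -18, 11), (7, -8, 9),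
  (7, 0, 7), (7, 10, 3), (8, -20, 12), (8, -9, 10), (8, 0, 8), (8, 7, 6), (8, 16, 0), (9, -10, 11),
  (9, -9, 351), (9, 0, 9), (9, 8, 7), (9, 14, 5), (9, 17, 299), (9, 18, 3), (9, 20, 1), (10, 0, 10),
  (10, 9, 8), (10, 16, 6), (10, 25, 0), (11, 10, 9), (11, 18, 7), (11, 28, 3), (12, 20, 8), (12, 27,
  6), (12, 32, 4), (12, 35, 2), (12, 36, 0), (13, 36, 5), (13, 40, 3), (14, 40, 6), (14, 45, 4),
  (14, 49, 0), (15, 50, 5), (15, 54, 3), (15, 56, 1), (16, 63, 2), (16, 64, 0), (17, 70, 3), (17,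
  72, 1), (18, 80, 2), (18, 81, 0), (19, 90, 1), (20, 100, 0)]

/-- the pairs with `d D'` and `D d'` squares, with the square roots -/
def E27 : List ((ℤ × ℤ) × (ℤ × ℤ) × ℤ × ℤ) :=
  [((1, -81), (11, 13), 715, 207), ((2, -36), (7, 4), 1036, 396), ((3, -27), (11, 13), 429, 621),
  ((4, -18), (5, -38), 440, 1062), ((5, -38), (4, -18), 1062, 440), ((7, 4), (2, -36), 396, 1036),
  ((11, 13), (1, -81), 207, 715), ((11, 13), (3, -27), 621, 429)]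

theorem comp27 : comp 27 21 217 R27 W27 = true := by decide +kernel

theorem data27 : data 27 R27 = true := by decide +kernel

theorem noR27 : noR 27 R27 E27 = true := by decide +kernel

theorem mem_rows (q : ℤ) (n m : ℕ) (R : List (List Ent)) (W : List (ℤ × ℤ × ℤ))
    (hc : comp q n m R W = true) (hn : 16 * q < (n : ℤ) * n) (hm : 8 * q < m) (a b : ℤ)
    (ha : 0 ≤ a) (h1 : a ^ 2 ≤ 16 * q) (h2 : 4 * b ≤ a ^ 2) (h3 : 0 ≤ b + 4 * q)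
    (h4 : 4 * q * a ^ 2 ≤ (b + 4 * q) ^ 2) (hs : skip b = false)
    (hd : ¬ IsSquare (a ^ 2 - 4 * b))
    (hdD : ¬ IsSquare ((a ^ 2 - 4 * b) * ((b + 4 * q) ^ 2 - 4 * q * a ^ 2))) :
    ∃ r ∈ R, ∃ e ∈ r, e.a = a ∧ e.b = b := by
  have han : a < n := by
    by_contra h
    push Not at h
    nlinarith
  have hbm : b + 4 * q < m := by nlinarith
  unfold comp at hc
  rw [List.all_eq_true] at hc
  have h5 := hc a.toNat (by rw [List.mem_range]; omega)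
  rw [List.all_eq_true] at h5
  have h6 := h5 (b + 4 * q).toNat (by rw [List.mem_range]; omega)
  have e1 : (a.toNat : ℤ) = a := Int.toNat_of_nonneg ha
  have e2 : ((b + 4 * q).toNat : ℤ) = b + 4 * q := Int.toNat_of_nonneg h3
  rw [e1, e2] at h6
  have e3 : b + 4 * q - 4 * q = b := by ring
  rw [e3, hs] at h6
  simp only [Bool.or_eq_true, Bool.not_eq_true', Bool.eq_false_iff,
    List.any_eq_true, Bool.and_eq_true, decide_eq_true_eq, Bool.false_eq_true, or_false] at h6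
  rcases h6 with (h6 | ⟨e, he, h7, h8⟩) | ⟨w, _, ⟨h7, h8⟩, h9⟩
  · exfalso
    apply h6
    unfold wei
    simp only [Bool.and_eq_true, decide_eq_true_eq]
    refine ⟨⟨⟨?_, ?_⟩, h3⟩, ?_⟩ <;> nlinarith
  · by_cases hl : a.toNat < R.length
    · rw [List.getD_eq_getElem _ _ hl] at he
      exact ⟨_, List.getElem_mem hl, e, he, h7, h8⟩
    · rw [List.getD_eq_default _ _ (by omega)] at he
      exact absurd he List.not_mem_nil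
  · exfalso
    rw [h7, h8] at h9
    unfold dis nor at h9
    rcases h9 with h9 | h9
    · exact hd ⟨w.2.2, by rw [h9]; ring⟩
    · exact hdD ⟨w.2.2, by rw [h9]; ring⟩

theorem coreR (q : ℤ) (N M : ℕ) (R : List (List Ent)) (W : List (ℤ × ℤ × ℤ))
    (E : List ((ℤ × ℤ) × (ℤ × ℤ) × ℤ × ℤ))
    (hc : comp q N M R W = true) (hda : data q R = true) (hp : noR q R E = true)
    (hN : 16 * q < (N : ℤ) * N)
    (hM : 8 * q < M) (a b a' b' : ℤ) (hsk : skip b = false) (hsk' : skip b' = false)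
    (h1 : a ^ 2 ≤ 16 * q) (h2 : 4 * b ≤ a ^ 2) (h3 : 0 ≤ b + 4 * q)
    (h4 : 4 * q * a ^ 2 ≤ (b + 4 * q) ^ 2) (hd : ¬ IsSquare (a ^ 2 - 4 * b))
    (hdD : ¬ IsSquare ((a ^ 2 - 4 * b) * ((b + 4 * q) ^ 2 - 4 * q * a ^ 2)))
    (h1' : a' ^ 2 ≤ 16 * q) (h2' : 4 * b' ≤ a' ^ 2) (h3' : 0 ≤ b' + 4 * q)
    (h4' : 4 * q * a' ^ 2 ≤ (b' + 4 * q) ^ 2) (hd' : ¬ IsSquare (a' ^ 2 - 4 * b'))
    (hdD' : ¬ IsSquare ((a' ^ 2 - 4 * b') * ((b' + 4 * q) ^ 2 - 4 * q * a' ^ 2)))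
    (n m : ℤ) (hn : n ^ 2 = (a ^ 2 - 4 * b) * ((b' + 4 * q) ^ 2 - 4 * q * a' ^ 2))
    (hm : m ^ 2 = ((b + 4 * q) ^ 2 - 4 * q * a ^ 2) * (a' ^ 2 - 4 * b'))
    (hs : IsSquare ((a ^ 2 - 2 * b - 8 * q) * (a' ^ 2 - 2 * b' - 8 * q) +
      2 * a * n + 2 * a' * m)) : False := by
  obtain ⟨r, hr, x, hx, xa, xb⟩ := mem_rows q N M R W hc hN hM |a| b (abs_nonneg a)
    (by rwa [sq_abs]) (by rwa [sq_abs]) h3 (by rwa [sq_abs]) hsk (by rwa [sq_abs])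
    (by rwa [sq_abs])
  obtain ⟨r', hr', y, hy, ya, yb⟩ := mem_rows q N M R W hc hN hM |a'| b' (abs_nonneg a')
    (by rwa [sq_abs]) (by rwa [sq_abs]) h3' (by rwa [sq_abs]) hsk' (by rwa [sq_abs])
    (by rwa [sq_abs])
  have e1 : |a| * |a| = a ^ 2 := by rw [abs_mul_abs_self, sq]
  have e2 : |a'| * |a'| = a' ^ 2 := by rw [abs_mul_abs_self, sq]
  unfold data at hda
  rw [List.all_eq_true] at hda
  have ox := hda r hr
  have oy := hda r' hr'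
  rw [List.all_eq_true] at ox oy
  have ox := ox x hx
  have oy := oy y hy
  unfold noR at hp
  rw [List.all_eq_true] at hp
  have h5 := hp r hr
  rw [List.all_eq_true] at h5
  have h6 := h5 x hx
  rw [List.all_eq_true] at h6
  have h7 := h6 r' hr'
  rw [List.all_eq_true] at h7
  have h8 := h7 y hy
  rw [Bool.or_eq_true] at h8
  rcases h8 with h8 | h8
  · refine chk_spec q x y ox oy h8 ⟨⟨n, ?_⟩, ⟨m, ?_⟩⟩
    · rw [xa, xb, ya, yb]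
      unfold dis nor
      rw [e1, e2, ← sq (b' + 4 * q), ← hn, sq]
    · rw [xa, xb, ya, yb]
      unfold dis nor
      rw [e1, e2, ← sq (b + 4 * q), ← hm, sq]
  · rw [List.any_eq_true] at h8
    obtain ⟨e, _, he⟩ := h8
    rw [xa, xb, ya, yb] at he
    unfold okE at he
    simp only [Bool.and_eq_true, decide_eq_true_eq] at he
    obtain ⟨⟨⟨⟨⟨⟨⟨_, _⟩, k1⟩, k2⟩, r1⟩, r2⟩, r3⟩, r4⟩ := he
    unfold dis nor at k1 k2
    rw [e1, e2, ← sq (b' + 4 * q), ← hn, ← sq] at k1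
    rw [e1, e2, ← sq (b + 4 * q), ← hm, ← sq] at k2
    unfold tra at r1 r2 r3 r4
    rw [e1, e2] at r1 r2 r3 r4
    obtain ⟨n', hn', hn2⟩ := abs_cases a n
    obtain ⟨m', hm', hm2⟩ := abs_cases a' m
    have hs' : IsSquare ((a ^ 2 - 2 * b - 8 * q) * (a' ^ 2 - 2 * b' - 8 * q) +
        2 * |a| * n' + 2 * |a'| * m') := by
      have : (a ^ 2 - 2 * b - 8 * q) * (a' ^ 2 - 2 * b' - 8 * q) + 2 * |a| * n' + 2 * |a'| * m' =
          (a ^ 2 - 2 * b - 8 * q) * (a' ^ 2 - 2 * b' - 8 * q) + 2 * a * n + 2 * a' * m := by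
        have t1 : 2 * |a| * n' = 2 * a * n := by rw [mul_assoc, ← hn2, mul_assoc]
        have t2 : 2 * |a'| * m' = 2 * a' * m := by rw [mul_assoc, ← hm2, mul_assoc]
        rw [t1, t2]
      rw [this]
      exact hs
    have hn3 : n' = e.2.2.1 ∨ n' = -e.2.2.1 := by
      rcases sq_eq_sq_iff_eq_or_eq_neg.mp k1 with h | h <;> rcases hn' with h' | h' <;>
        simp [h, h']
    have hm3 : m' = e.2.2.2 ∨ m' = -e.2.2.2 := by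
      rcases sq_eq_sq_iff_eq_or_eq_neg.mp k2 with h | h <;> rcases hm' with h' | h' <;>
        simp [h, h']
    rcases hn3 with h | h <;> rcases hm3 with h' | h' <;> rw [h, h'] at hs'
    · exact nr_spec _ r1 hs'
    · refine nr_spec _ r2 ?_
      convert hs' using 1
      ring
    · refine nr_spec _ r3 ?_
      convert hs' using 1
      ring
    · refine nr_spec _ r4 ?_
      convert hs' using 1
      ring

theorem skip_eq (b : ℤ) (h : ¬ (3 : ℤ) ∣ b ∨ (27 : ℤ) ∣ b ^ 2) : skip b = false := by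
  unfold skip
  rw [Bool.and_eq_false_iff, decide_eq_false_iff_not, Bool.not_eq_false', decide_eq_true_eq]
  rcases h with h | h
  · exact Or.inl fun h' => h (Int.dvd_of_emod_eq_zero h')
  · right
    rw [← sq]
    exact Int.emod_eq_zero_of_dvd h

end NR27Aux

theorem t_NR27 : S_NR27 := by
  intro A B A₁ B₁ h h₁ hB hB₁
  rintro ⟨⟨g1, _, g2, _⟩, ⟨k1, _, k2, _⟩, n, m, hn, hm, hs⟩
  have d := h.d
  have dp := h.dp
  have s := h.s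
  have a := h.a
  have d' := h₁.d
  have dp' := h₁.dp
  have s' := h₁.s
  have a' := h₁.a
  unfold DD at d d' g1 k1 hn hm g2 k2
  unfold DP at dp dp' g2 k2 hn hm
  push_cast at *
  exact NR27Aux.coreR 27 21 217 NR27Aux.R27 NR27Aux.W27 NR27Aux.E27 NR27Aux.comp27
    NR27Aux.data27 NR27Aux.noR27 (by norm_num) (by norm_num) A B A₁ B₁ (NR27Aux.skip_eq B hB)
    (NR27Aux.skip_eq B₁ hB₁) a (by linarith) s (by linarith) g1 g2 a' (by linarith)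
    s' (by linarith) k1 k2 n m hn hm hs

end Pool.Agent.GT3
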