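import Pool.Agent.GT2.St

/-!
# GT3: Frobenius eigenvalues of abelian surfaces over all finite fields, statements (architect helper17)

THEOREM. Let `q = p ^ n` be a prime power and `S` a set of isogeny classes of abelian surfaces over the field with
`q` elements (`Tr`), without reflex pairs with a member of `p`-rank one, and without triples (`Gd`). Then the set of the
eigenvalues of Frobenius (up to roots of unity) has the partner property `AlmostAll.Par`.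

This is GT2 for all `q` instead of an odd prime `p`, with a finer criterion. Everything in `GT2/Base.lean` and the
modules `GT2.CON, ROT, SWP, CHR, SQF, REF, FUN, LFN, REA, EXV` are for all `q` and are used as they are.
Many modules are a copy of the module of the same name of GT2 with few changes (see the doc strings of
`GT2/St.lean` too).

Each statement `S_XXX` is a module: `theorem t_XXX : S_XXX` (or `M_XXX : S_YYY → ... → S_XXX`) in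
`Pool/Agent/GT3/XXX.lean`, import `Pool.Agent.GT3.St` (other GT2 modules may be imported), auxiliary lemmas in namespace
`Pool.Agent.GT3.XXXAux`.
-/

set_option autoImplicit false

open Polynomial

namespace Pool.Agent.GT3

open Pool.Agent.GT2

noncomputable section

/-- `q` is a power of the prime `p` -/
structure Pq (p q : ℕ) : Prop where
  pr : p.Prime
  pw : ∃ n : ℕ, 1 ≤ n ∧ q = p ^ n

/-- `N` is the square of a `p`-adic integer -/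
def PS (p : ℕ) (N : ℤ) : Prop := ∀ k : ℕ, ∃ x : ℤ, (p : ℤ) ^ k ∣ x ^ 2 - N

/-- `p`-rank one -/
def O1 (p q : ℕ) (A B : ℤ) : Prop :=
  (p : ℤ) ∣ B ∧ ¬ (p : ℤ) ∣ A ∧ (q : ℤ) ∣ B ^ 2 ∧ (DP q A B = 0 ∨ ¬ PS p (DP q A B))

/-- supersingular -/
def O2 (q : ℕ) (A B : ℤ) : Prop := (q : ℤ) ∣ A ^ 2 ∧ (q : ℤ) ∣ B

/-- `x² + A x + B` is the real Weil polynomial of an isogeny class of abelian surfaces -/
structure Tr (p q : ℕ) (A B : ℤ) : Prop where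
  w : W2 q A B
  t : ¬ (p : ℤ) ∣ B ∨ O1 p q A B ∨ O2 q A B

/-- the Galois group is dihedral of order eight, and the eigenvalues are not supersingular -/
def Gn (q : ℕ) (A B : ℤ) : Prop :=
  ¬ IsSquare (DD A B) ∧ ¬ IsSquare (DP q A B) ∧ ¬ IsSquare (DD A B * DP q A B) ∧ ¬ O2 q A B

/-- reflex pairs: the quartic CM field of the second surface is the reflex field of the first one -/
def Rf (q : ℕ) (A B A₁ B₁ : ℤ) : Prop :=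
  Gn q A B ∧ Gn q A₁ B₁ ∧ ∃ n m : ℤ, n ^ 2 = DD A B * DP q A₁ B₁ ∧
    m ^ 2 = DP q A B * DD A₁ B₁ ∧
    IsSquare ((A ^ 2 - 2 * B - 8 * q) * (A₁ ^ 2 - 2 * B₁ - 8 * q) + 2 * A * n + 2 * A₁ * m)

/-- good sets: no reflex pairs with a member which is not ordinary (nothing is assumed if `q` is `3` modulo `4`), and all
reflex partners of a member are twists of each other -/
structure Gd (p q : ℕ) (S : ℤ → ℤ → Prop) : Prop where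
  tr : ∀ A B, S A B → Tr p q A B
  mx : q % 4 ≠ 3 → ∀ A B A₁ B₁, S A B → S A₁ B₁ → (p : ℤ) ∣ B ∨ (p : ℤ) ∣ B₁ → ¬ Rf q A B A₁ B₁
  tp : ∀ A B A₁ B₁ A₂ B₂, S A B → S A₁ B₁ → S A₂ B₂ → Rf q A B A₁ B₁ → Rf q A B A₂ B₂ →
    B₂ = B₁ ∧ (A₂ = A₁ ∨ A₂ = - A₁)

/-- the standing hypotheses on `v` -/
structure Vq (L : Type) [Field L] (p q : ℕ) (v : AbsoluteValue L ℝ) : Prop where
  pq : Pq p q
  na : IsNonarchimedean v
  lt : v (p : L) < 1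

/-! ### arithmetic -/

/-- LOC3 (130 lines), the slopes; compare `GT2.S_LOC`. PROOF. `v n ≤ 1` for integers `n`, `v n = 1` if `p ∤ n` (Bezout), `v n ≤ v q` if `q ∣ n`, `0 < v q < 1`.
Let `t = a + q/a`, `t' = -A - t`, so `t t' = B`; `v t ≤ 1`, `v t' ≤ 1`. `a² - t a + q = 0`, also for `ā = q / a`;
so `v a ≤ 1`, `v ā ≤ 1`, `v a · v ā = v q`. If `v t = 1` then `max (v a) (v ā) = 1`: if `v a = 1` the slope is `1`; if `v ā = 1` then `v a = v q`, the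
slope is `-1`. (1) `p ∤ B`: `v t · v t' = 1`, so `v t = 1`. (2) `p ∣ B`, `p ∤ A`, `q ∣ B²`: if `v t < 1` then `v t' = 1` (`t + t' = -A`, `v A = 1`), so
`(v t)² = (v B)² ≤ v q`. If `v a ^ 2 > v q` then `v a ^ 2 ≤ max (v t · v a) (v q)` gives `v a ≤ v t`, `v a ^ 2 ≤ v t ^ 2 ≤ v q`, a
contradiction; the same for `ā`; as `v a ^ 2 · v ā ^ 2 = v q ^ 2` we get `v a ^ 2 = v q`, slope `0`. (3) `O2`: `(v A)² ≤ v q`, `v B ≤ v q`,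
`v t ^ 2 ≤ max (v A · v t) (v B)`, so `v t ^ 2 ≤ v q`, and the same argument: slope `0`. (4) `v ā = v q / v a`. -/
def S_LOC3 : Prop := ∀ (L : Type) [Field L] [CharZero L] (v : AbsoluteValue L ℝ) (p q : ℕ),
  Vq L p q v → ∀ (A B : ℤ) (a : L), Rt q A B a →
  (¬ (p : ℤ) ∣ B → F q v a = 1 ∨ F q v a = -1) ∧
  (¬ (p : ℤ) ∣ A → (p : ℤ) ∣ B → (q : ℤ) ∣ B ^ 2 →
    (v (a + (q : L) / a) = 1 ∧ (F q v a = 1 ∨ F q v a = -1)) ∨
    (v (a + (q : L) / a) < 1 ∧ F q v a = 0)) ∧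
  (O2 q A B → F q v a = 0) ∧ F q v ((q : L) / a) = - F q v a

/-- INT3 (120 lines), integers. PROOF. (1) `(B + 4 q)² = 4 q A²`, so `A ∣ B + 4 q`, `B + 4 q = m A`, `m² = 4 q`, `B = m A - m²`, `DD A B = (A - 2 m)²`.
(2) A square is a `p`-adic square. (3), (4): CLAIM: if `M` is prime to `p` and a `p`-adic square and `M * N` is the square of an integer `z` then `N` is a `p`-adic square: let
`p ^ k ∣ x² - M`, `x` is prime to `p` (`k ≥ 1`), `x y ≡ 1` modulo `p ^ k`, `(z y)² = M N y² ≡ N`. `M = DP q A B ≡ B²` modulo `p` if `p ≠ 2`, `≡ 1` modulo `8` if `p = 2`, `p ∤ B`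
(`q` is even, `4 q A²` and `8 B q` are divisible by `8`); `M = DD A B ≡ A²` modulo `p`, and `≡ 1` modulo `8` if `p = 2`, `p ∤ A`, `p ∣ B`. Hensel: such an `M` is a `p`-adic square (induction on
`k`, or `hensels_lemma` for `ℤ_[p]` and approximation of `p`-adic integers by integers `PadicInt.appr`). -/
def S_INT3 : Prop := ∀ (p q : ℕ), Pq p q → ∀ A B A₁ B₁ : ℤ,
  (A ≠ 0 → DP q A B = 0 → IsSquare (DD A B)) ∧
  (¬ PS p (DP q A₁ B₁) → ¬ IsSquare (DP q A₁ B₁) ∧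
    (¬ (p : ℤ) ∣ B → ¬ IsSquare (DP q A B * DP q A₁ B₁)) ∧
    (¬ (p : ℤ) ∣ A → (p : ℤ) ∣ B → ¬ IsSquare (DD A B * DP q A₁ B₁)))

/-- ODD (80 lines). PROOF. `q = p ^ n`, `n` odd (otherwise `q` is a square), `n = 2 k + 1`. `q ∣ B²` gives `p ^ (k + 1) ∣ B`. If `p ≠ 2`: `p ^ (n + 1) ∣ (B + 4 q)²`, and
`p ^ n ∣ 4 q A²` but `p ^ (n + 1)` does not; so `DP` is `p ^ n` times a number prime to `p`, `n` odd: `x² ≡ DP` modulo `p ^ (n + 1)` is impossible. If `p = 2`: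
`B = 2 ^ (k + 1) b`, `DP = 2 ^ (n + 1) ((b + 2 ^ (k + 2))² - 2 A²)`, `A` odd; if `b` is even the bracket is `2` modulo `4`, if `b` is odd it is `7` modulo `8`; take `x² ≡ DP` modulo `2 ^ (n + 4)`. -/
def S_ODD : Prop := ∀ (p q : ℕ), Pq p q → ¬ IsSquare q → ∀ A B : ℤ,
  ¬ (p : ℤ) ∣ A → (p : ℤ) ∣ B → (q : ℤ) ∣ B ^ 2 → ¬ PS p (DP q A B)

/-! ### slopes -/

/-- SAM3 (130 lines): the same as `GT2.SAM`, use `LOC3` and `INT3`. The types: `p ∤ B`, `p ∤ B₁`: as there. `O1`, `O1` (`p ∣ B`, `p ∤ A`, the same for `A₁`, `B₁`): as there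
(`t + t' = -A` has `v = 1` and `t t' = B` has `v < 1`). `p ∤ B`, `O1 p q A₁ B₁`: `DP q A₁ B₁ ≠ 0` (`INT3` (1), `DD A₁ B₁` is not a square), so it is not a `p`-adic square, and `SQF` contradicts
`INT3` (3). `O2`: all products are zero. -/
def S_SAM3 : Prop := ∀ (L : Type) [Field L] [NumberField L] [IsGalois ℚ L]
  (v : AbsoluteValue L ℝ) (p q : ℕ), Vq L p q v → ∀ (A B A₁ B₁ : ℤ) (a a₁ : L),
  Tr p q A B → Tr p q A₁ B₁ →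
  Rt q A B a → Rt q A₁ B₁ a₁ → ¬ IsSquare (DD A B) → ¬ IsSquare (DD A₁ B₁) →
  (∃ c : L ≃ₐ[ℚ] L, c a = (q : L) / a ∧ c a₁ = (q : L) / a₁) →
  (∀ τ : L ≃ₐ[ℚ] L, τ a = a → τ a₁ = a₁) →
  (∀ σ : L ≃ₐ[ℚ] L, F q v (σ a) = F q v (σ a₁)) ∨
    (∀ σ : L ≃ₐ[ℚ] L, F q v (σ a) = - F q v (σ a₁)) ∨
    ∑ σ : L ≃ₐ[ℚ] L, F q v (σ a) * F q v (σ a₁) = 0

def M_SAM3 : Prop := S_LOC3 → S_INT3 → S_SQF → S_SAM3

/-- ELL3 (120 lines): the same as `GT2.ELL`. `O2`: `F = 0`. If `DD` is not a square and `DP` is a square then `p ∤ B`, or `O2` (`O1`: `DP = 0` is impossible by `INT3` (1) with `A ≠ 0`, and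
if `DP` is not a `p`-adic square it is not a square). -/
def S_ELL3 : Prop := ∀ (L : Type) [Field L] [NumberField L] [IsGalois ℚ L]
  (v : AbsoluteValue L ℝ) (p q : ℕ), Vq L p q v → ∀ (A B : ℤ) (a : L), Tr p q A B →
  Rt q A B a → IsSquare (DD A B) ∨ IsSquare (DP q A B) →
  (∀ τ : L ≃ₐ[ℚ] L, (∀ σ : L ≃ₐ[ℚ] L, F q v (σ (τ a)) = F q v (σ a)) ∨
    (∀ σ : L ≃ₐ[ℚ] L, F q v (σ (τ a)) = - F q v (σ a))) ∧
  ((∀ σ : L ≃ₐ[ℚ] L, F q v (σ a) = 1 ∨ F q v (σ a) = -1) ∨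
    ∀ σ : L ≃ₐ[ℚ] L, F q v (σ a) = 0)

def M_ELL3 : Prop := S_LOC3 → S_INT3 → S_ELL3

/-- the Galois theoretic configuration of a reflex pair (the hypotheses of `GT2.S_REF`) -/
structure Cf {L : Type} [Field L] [NumberField L] (q : ℕ) (A B A₁ B₁ : ℤ) (a a₁ : L) : Prop where
  ra : Rt q A B a
  ra₁ : Rt q A₁ B₁ a₁
  d : ¬ IsSquare (DD A B)
  dp : ¬ IsSquare (DP q A B)
  d₁ : ¬ IsSquare (DD A₁ B₁)
  dp₁ : ¬ IsSquare (DP q A₁ B₁)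
  c : ∃ c : L ≃ₐ[ℚ] L, ∀ z : L, Rt q A B z ∨ Rt q A₁ B₁ z → c z = (q : L) / z
  n₁ : ∀ τ : L ≃ₐ[ℚ] L, τ a = a → τ a₁ ≠ (q : L) / a₁
  n : ∀ τ : L ≃ₐ[ℚ] L, τ a₁ = a₁ → τ a ≠ (q : L) / a
  e₁ : ∃ τ : L ≃ₐ[ℚ] L, τ a = a ∧ τ a₁ ≠ a₁
  e : ∃ τ : L ≃ₐ[ℚ] L, τ a₁ = a₁ ∧ τ a ≠ a

/-- ORT3 (150 lines): the same as `GT2.ORT`, with the fourth possibility. PROOF. As there (`F = 0` for `O2`); in the last case all hypotheses of `S_REF` are fulfilled, this is `Cf`, and `S_REF` gives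
`Rf` (`Gn`: neither is `O2`, otherwise the function is zero and the sum is zero). -/
def S_ORT3 : Prop := ∀ (L : Type) [Field L] [NumberField L] [IsGalois ℚ L]
  (v : AbsoluteValue L ℝ) (p q : ℕ), Vq L p q v → ∀ (A B A₁ B₁ : ℤ) (a a₁ : L),
  Tr p q A B → Tr p q A₁ B₁ → Rt q A B a → Rt q A₁ B₁ a₁ →
  (∀ σ : L ≃ₐ[ℚ] L, F q v (σ a) = F q v (σ a₁)) ∨
    (∀ σ : L ≃ₐ[ℚ] L, F q v (σ a) = - F q v (σ a₁)) ∨
    ∑ σ : L ≃ₐ[ℚ] L, F q v (σ a) * F q v (σ a₁) = 0 ∨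
    (Rf q A B A₁ B₁ ∧ Cf q A B A₁ B₁ a a₁)

def M_ORT3 : Prop := S_LOC3 → S_CON → S_ROT → S_REF → S_SAM3 → S_ELL3 → S_FUN → S_ORT3

/-! ### reflex pairs -/

/-- four functions with the inner products of a reflex pair of ordinary surfaces -/
structure Blk {Γ : Type} [Fintype Γ] (y y' z z' : Γ → ℝ) : Prop where
  pos : 0 < ∑ σ, y σ * y σ
  nr1 : ∑ σ, y' σ * y' σ = ∑ σ, y σ * y σ
  nr2 : ∑ σ, z σ * z σ = ∑ σ, y σ * y σ
  nr3 : ∑ σ, z' σ * z' σ = ∑ σ, y σ * y σ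
  or1 : ∑ σ, y σ * y' σ = 0
  or2 : ∑ σ, z σ * z' σ = 0
  in1 : ∑ σ, y σ * z' σ = ∑ σ, y σ * z σ
  in2 : ∑ σ, y' σ * z σ = ∑ σ, y σ * z σ
  in3 : ∑ σ, y' σ * z' σ = - ∑ σ, y σ * z σ
  le : |2 * ∑ σ, y σ * z σ| ≤ ∑ σ, y σ * y σ

/-- SWA (100 lines), the action of the stabiliser of `a` on `b`. HERE `x` and `b` are from `SWP` for `(a, a₁)` and `(a₁, a)`. PROOF. `N` = the `τ` which fix `a` and `b`. Suppose `τ` fixes
`a`, `τ a₁ = x` and `τ b = b` (by `Rt.two`, as `τ` fixes `a`: `τ b ∈ {b, b̄}`). Let `ρ` with `ρ (ρ a₁) = ā₁` (`ROT`), so `ρ a₁ = x` or `x̄` (it is not `a₁`, `ā₁`). `ρ⁻¹` and `ρ` permute `a, ā, b, b̄`, so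
`τ' = ρ * τ * ρ⁻¹` fixes `a` and `b` too. `τ` exchanges `a₁` and `x` (and `ā₁` and `x̄`). If `ρ a₁ = x` then `ρ x = ā₁`, `ρ⁻¹ a₁ = x̄`, `τ x̄ = ā₁`, `ρ ā₁ = x̄`: `τ' a₁ = x̄`. If `ρ a₁ = x̄`:
`ρ x̄ = ā₁`, `ρ⁻¹ a₁ = x`, `τ x = a₁`, `ρ a₁ = x̄`: `τ' a₁ = x̄` as well. But `τ'` fixes `a`, so `τ' a₁ ∈ {a₁, x}`, and `x̄ ≠ a₁`, `x̄ ≠ x` (`x̄ = x` would give `x² = q`, `DP = 0`). -/
def S_SWA : Prop := ∀ (L : Type) [Field L] [NumberField L] [IsGalois ℚ L] (q : ℕ) (_ : 1 ≤ q)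
  (A B A₁ B₁ : ℤ) (a a₁ : L), Cf q A B A₁ B₁ a a₁ → ∃ b x : L,
  Rt q A B b ∧ Rt q A₁ B₁ x ∧ b + (q : L) / b = - A - (a + q / a) ∧
  x + (q : L) / x = - A₁ - (a₁ + q / a₁) ∧
  (∀ w : L, Rt q A B w → w = a ∨ w = q / a ∨ w = b ∨ w = q / b) ∧
  (∀ w : L, Rt q A₁ B₁ w → w = a₁ ∨ w = q / a₁ ∨ w = x ∨ w = q / x) ∧
  (∀ τ : L ≃ₐ[ℚ] L, τ a = a → (τ a₁ = a₁ ∧ τ x = x) ∨ (τ a₁ = x ∧ τ x = a₁)) ∧
  (∀ τ : L ≃ₐ[ℚ] L, τ a₁ = a₁ → (τ a = a ∧ τ b = b) ∨ (τ a = b ∧ τ b = a)) ∧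
  (∃ τ : L ≃ₐ[ℚ] L, τ a = a ∧ τ a₁ = x ∧ τ x = a₁ ∧ τ b = q / b) ∧
  (∃ τ : L ≃ₐ[ℚ] L, τ a₁ = a₁ ∧ τ a = b ∧ τ b = a ∧ τ x = q / x)

def M_SWA : Prop := S_ROT → S_SWP → S_SWA

/-- RFX (130 lines), the inner products. PROOF. `b`, `x` from `SWA`, `τ`, `τ'` its last two lines. `f_y σ = F (σ y)`; all values at roots are `± 1` (`LOC3` (1)), so `⟨f_y, f_y⟩` is the order of the group.
`⟨f, g⟩` does not change if both are composed with `σ ↦ σ * τ` (`Equiv.mulRight`); `f_y (σ * τ) = F (σ (τ y))`, `f_ȳ = - f_y`. With `τ`: `⟨f_a, f_b⟩ = - ⟨f_a, f_b⟩ = 0`; `⟨f_a, f_{a₁}⟩ = ⟨f_a, f_x⟩`;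
`⟨f_b, f_x⟩ = ⟨-f_b, f_{a₁}⟩`. With `τ'`: `⟨f_{a₁}, f_x⟩ = 0`, `⟨f_a, f_{a₁}⟩ = ⟨f_b, f_{a₁}⟩`. `le`: `2 ⟨f_a, f_{a₁}⟩ = ⟨f_a, f_{a₁} + f_x⟩`, so
`|2 ⟨f_a, f_{a₁}⟩| ≤ ∑ |f_{a₁} + f_x| = ∑ (1 + f_{a₁} f_x)` (values `± 1`) `= ` the order of the group. -/
def S_RFX : Prop := ∀ (L : Type) [Field L] [NumberField L] [IsGalois ℚ L]
  (v : AbsoluteValue L ℝ) (p q : ℕ), Vq L p q v → ∀ (A B A₁ B₁ : ℤ) (a a₁ : L),
  Cf q A B A₁ B₁ a a₁ → ¬ (p : ℤ) ∣ B → ¬ (p : ℤ) ∣ B₁ → ∃ b x : L,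
  Rt q A B b ∧ Rt q A₁ B₁ x ∧
  (∀ w : L, Rt q A B w → w = a ∨ w = q / a ∨ w = b ∨ w = q / b) ∧
  (∀ w : L, Rt q A₁ B₁ w → w = a₁ ∨ w = q / a₁ ∨ w = x ∨ w = q / x) ∧
  Blk (fun σ : L ≃ₐ[ℚ] L => F q v (σ a)) (fun σ => F q v (σ b)) (fun σ => F q v (σ a₁))
    (fun σ => F q v (σ x))

def M_RFX : Prop := S_LOC3 → S_SWA → S_RFX

/-- CMB3 (150 lines), partners. PROOF. CLAIM: every `y ≠ 0` in the list `x :: l` occurs as often as `-y`. First alternative: the product of the sum with `y` is `(#y - #(-y)) ⟨y, y⟩`. Second alternative: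
`T` = the sum of the `w` which are one of the eight functions, `T = c₁ y + c₂ y' + c₃ z + c₄ z'` with `c₁ = #y - #(-y)` etc. (the eight functions are different: `y'` is orthogonal to `y`, and
`⟨y, z⟩ ≠ ± ⟨y, y⟩` by `le`); the other `w` are orthogonal to `T`, so `⟨T, T⟩ = ⟨T, sum⟩ = 0`, and
`⟨T, T⟩ = N (c₁² + c₂² + c₃² + c₄²) + 2 g (c₁ c₃ + c₁ c₄ + c₂ c₃ - c₂ c₄)`, `|2 g| ≤ N`, and `c₁² + c₂² + c₃² + c₄² ± (c₁ (c₃ + c₄) + c₂ (c₃ - c₄)) = (c₁ ± (c₃ + c₄)/2)² +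
(c₂ ± (c₃ - c₄)/2)² + (c₃² + c₄²)/2`; so all `c` are `0`. (It is convenient to prove: the inner product of the sum with a function `u` is `∑ w, ⟨w, u⟩`, and `⟨w, T⟩` for `w` in the list.) Hence the number of nonzero elements of `x :: l` is even
(`Finset.sum_involution` in `ZMod 2` for `f ↦ -f`), so the number of zeros is even. If `x = 0` there is another zero, in `l`. If `x ≠ 0`, `-x` occurs, `-x ≠ x`. -/
def S_CMB3 : Prop := ∀ (Γ : Type) [Fintype Γ] (l : List (Γ → ℝ)) (x : Γ → ℝ),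
  (∀ y ∈ x :: l, (∀ w ∈ x :: l, w = y ∨ w = - y ∨ ∑ σ, w σ * y σ = 0) ∨
    ∃ y' z z' : Γ → ℝ, Blk y y' z z' ∧ ∀ w ∈ x :: l,
      (w = y ∨ w = - y ∨ w = y' ∨ w = - y' ∨ w = z ∨ w = - z ∨ w = z' ∨ w = - z') ∨
      (∑ σ, w σ * y σ = 0 ∧ ∑ σ, w σ * y' σ = 0 ∧ ∑ σ, w σ * z σ = 0 ∧ ∑ σ, w σ * z' σ = 0)) →
  (x :: l).sum = 0 → Odd l.length → ∃ y ∈ l, y = - x

/-! ### mixed pairs for `q ≡ 3` modulo `4` -/

/-- MXA (180 lines), congruences. `p` is odd. PROOF. `b`, `x` from `SWA` (the given `x` is that one). Write `f σ = F (σ a) = ± 1`, `h σ = F (σ a₁) + F (σ x) = ± 1` (`LOC3`; exactly one of `v (σ t₁)`, `v (σ t₁')`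
is `1`, as `t₁ + t₁' = -A₁`, `t₁ t₁' = B₁`). `≡` is modulo the elements with `v < 1` of the ring `v ≤ 1`.
If `v t = 1`: `a - ā ≡ F a * t` (`F a = 1` iff `v a = 1`, then `v ā < 1`, `a ≡ t`; `F a = -1` iff `v a = v q`). So `σ a - σ ā ≡ f σ * σ t` for all `σ`. For `w₀ = a₁ + x - ā₁ - x̄`: `σ w₀ ≡ - h σ * A₁`: if `F (σ x) = 0` then
`v (σ x) < 1`, `v (σ x̄) < 1`, and `σ t₁ ≡ -A₁`; the same if `F (σ a₁) = 0`. Let `y₀ = (a - ā) w₀`; `σ y₀ ≡ - f σ * h σ * σ t * A₁`. As in the proof of `REF`: `y₀` is fixed by the stabiliser of `r = 2 t + A` (`H` fixes `y₀`,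
`c` fixes `y₀`). Let `σ r = -r`. `(y₀ - σ y₀)² = M` is fixed by all `τ` and integral, so `M` is an integer, and `(y₀ - σ y₀) r` is fixed by all, so `M * DD A B` is a square; `DD * DP₁` is a square (hypothesis)
and `DP₁` is divisible by an odd power of `p` exactly (`q = p ^ n`, `n` odd as `q % 4 = 3`; see `ODD`), so `DD` too, so `p ∣ DD` and `p ∣ M` (or `M = 0`). So `v r < 1`, `v (y₀ - σ y₀) < 1`, `y₀ ≡ σ y₀`, and
`σ t - t = - r`, so `σ t ≡ t`. As `v t = v A₁ = 1`: `f σ * h σ ≡ f 1 * h 1`, so equal (`v 2 = 1`). For `σ r = r`: `σ a ∈ {a, ā}`, `f σ * h σ = f 1 * h 1` directly (`h` is invariant under `H` and changes sign with `c`; write `σ = τ` or `c * τ'` with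
`τ` fixing `a`: `h (τ)` uses `τ a₁`, `τ x`, and `c` acts on the values by `F z̄ = - F z`). Hence `f * h` is constant, `± 1`. -/
def S_MXA : Prop := ∀ (L : Type) [Field L] [NumberField L] [IsGalois ℚ L]
  (v : AbsoluteValue L ℝ) (p q : ℕ), Vq L p q v → q % 4 = 3 → ∀ (A B A₁ B₁ : ℤ) (a a₁ x : L),
  Cf q A B A₁ B₁ a a₁ → ¬ (p : ℤ) ∣ B → O1 p q A₁ B₁ → IsSquare (DD A B * DP q A₁ B₁) →
  Rt q A₁ B₁ x → x + (q : L) / x = - A₁ - (a₁ + q / a₁) →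
  (∀ τ : L ≃ₐ[ℚ] L, τ a = a → (τ a₁ = a₁ ∧ τ x = x) ∨ (τ a₁ = x ∧ τ x = a₁)) →
  (∀ σ : L ≃ₐ[ℚ] L, F q v (σ a₁) + F q v (σ x) = F q v (σ a)) ∨
    (∀ σ : L ≃ₐ[ℚ] L, F q v (σ a₁) + F q v (σ x) = - F q v (σ a))

def M_MXA : Prop := S_LOC3 → S_INT3 → S_MXA

/-- MXU (80 lines), three numbers. PROOF. `GT2.UNTAux.uni` (in `GT2/UNT.lean`) for the list `[i a₁, i x, i (q / a)]` in `Qb` (`wn_root` there); for `σ : Qb ≃ₐ[ℚ] Qb` there is `τ : L ≃ₐ[ℚ] L` with `σ (i y) = i (τ y)` (`L` is normal), so the sum of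
the slopes is `0` by hypothesis. So `(a₁ x ā) ^ N = (ā₁ x̄ a) ^ N`, and the product of the two sides without powers is `q ^ 3`. -/
def S_MXU : Prop := ∀ (L : Type) [Field L] [NumberField L] [IsGalois ℚ L] (i : L →+* Qb)
  (v : AbsoluteValue Qb ℝ) (p q : ℕ), Pq p q → IsNonarchimedean v → v (p : Qb) < 1 →
  ∀ (A B A₁ B₁ : ℤ) (a a₁ x : L), W2 q A B → W2 q A₁ B₁ → Rt q A B a → Rt q A₁ B₁ a₁ → Rt q A₁ B₁ x →
  (∀ σ : L ≃ₐ[ℚ] L, F q v (i (σ a₁)) + F q v (i (σ x)) = F q v (i (σ a))) →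
  ∃ N : ℕ, 1 ≤ N ∧ ((a₁ * x) ^ 2) ^ N = ((q : L) * a ^ 2) ^ N

def M_MXU : Prop := S_REA → S_MXU

/-- MXB (130 lines), `y = a₁ x / a` is a square root of `± q`. PROOF. `u = y² / q`, `u ^ N = 1`. Automorphisms commute on roots of unity (`σ u = u ^ k`, `τ u = u ^ l`; e.g. `IsPrimitiveRoot`, powers), so the `σ` which fix `u` are a normal
subgroup, it contains `H` = the stabiliser of `a` (`H` fixes `a₁ x`). With `τ'` from `SWA` (`τ' a = b`, `τ' b = a`) and `τ` (`τ a = a`, `τ b = b̄`): `τ'' = τ' * τ * τ'⁻¹` maps `a` to `ā` (`τ'⁻¹ a = b`, `τ b = b̄`, `τ' b̄ = ā`) and fixes `u`. `c⁻¹ * τ''` fixes `a`, so `u`;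
so `c u = u`. But `c y = q / y`, `c u = u⁻¹`. So `u = ± 1`, `y² = ± q`. `CHR` (its `ρ` from `ROT`) with `N = ± q` (not a square: `q % 4 = 3`): `DD A B * (± q)` is a square; `DD A B > 0`, so the sign is `+`. -/
def S_MXB : Prop := ∀ (L : Type) [Field L] [NumberField L] [IsGalois ℚ L] (q : ℕ), q % 4 = 3 →
  ∀ (A B A₁ B₁ : ℤ) (a a₁ x : L) (N : ℕ), 0 ≤ DD A B → Cf q A B A₁ B₁ a a₁ →
  Rt q A₁ B₁ x → x + (q : L) / x = - A₁ - (a₁ + q / a₁) →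
  (∀ τ : L ≃ₐ[ℚ] L, τ a = a → (τ a₁ = a₁ ∧ τ x = x) ∨ (τ a₁ = x ∧ τ x = a₁)) → 1 ≤ N →
  ((a₁ * x) ^ 2) ^ N = ((q : L) * a ^ 2) ^ N → IsSquare ((q : ℤ) * DD A B)

def M_MXB : Prop := S_ROT → S_CHR → S_SWA → S_MXB

/-- MXC (70 lines), integers. PROOF. `q DP₁ DD²` is a square, so `q DP₁` is a square. `q = p ^ n`, `n = 2 k + 1` is odd and `p ≡ 3` modulo `4`. `p ^ (k + 1) ∣ B₁`, so `DP₁ = q e`, `e ≡ -4 A₁²` modulo `p`, `q² e` is a square, so `e = s²`,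
`s² ≡ -(2 A₁)²`, `p ∤ 2 A₁`, a contradiction (`ZMod.mod_four_ne_three_of_sq_eq_neg_sq'` or `ZMod.exists_sq_eq_neg_one_iff`). -/
def S_MXC : Prop := ∀ (p q : ℕ), Pq p q → q % 4 = 3 → ∀ A B A₁ B₁ : ℤ, O1 p q A₁ B₁ →
  DD A B ≠ 0 → IsSquare (DD A B * DP q A₁ B₁) → ¬ IsSquare ((q : ℤ) * DD A B)

/-- MIX (100 lines): no mixed pairs. PROOF. `x` from `SWP`; `DD A B * DP q A₁ B₁` is a square (`REF`); `MXA` for `v.comp i` (`Vq L p q (v.comp i.injective)`). In the first case `MXU` and `MXB`; in the second case replace `a` by `ā = q / a`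
(`Cf q A B A₁ B₁ (q / a) a₁`: an automorphism fixes `a` iff it fixes `ā`; `F (σ ā) = - F (σ a)`). `MXC` gives the contradiction (`0 ≤ DD A B` from `W2`). -/
def S_MIX : Prop := ∀ (L : Type) [Field L] [NumberField L] [IsGalois ℚ L] (i : L →+* Qb)
  (v : AbsoluteValue Qb ℝ) (p q : ℕ), Pq p q → IsNonarchimedean v → v (p : Qb) < 1 → q % 4 = 3 →
  ∀ (A B A₁ B₁ : ℤ) (a a₁ : L), Tr p q A B → Tr p q A₁ B₁ → Cf q A B A₁ B₁ a a₁ →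
  ¬ (p : ℤ) ∣ B → ¬ O1 p q A₁ B₁

def M_MIX : Prop := S_LOC3 → S_REF → S_SWP → S_MXA → S_MXU → S_MXB → S_MXC → S_MIX

/-! ### algebraic numbers -/

/-- PRT3 (220 lines), partners in `Qb`; compare `GT2.PRT`. PROOF. `L` from `LFN` for the elements of `x :: l`, `v` restricted to `L`; `g_y τ = F (τ y)`; `∑ g_y = 0` as in `GT2.PRT`. Apply `CMB3` to the functions `g_y`. Let `y = a` in the list, for
`A, B`. If `g_w = ± g_a` or `⟨g_w, g_a⟩ = 0` for all `w`: first alternative. Otherwise there is `a₁` in the list (for `A₁, B₁`) with none of these; `ORT3` for `(a, a₁)` and `(a₁, a)` gives `Rf q A B A₁ B₁`, `Rf q A₁ B₁ A B` and both `Cf`.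
Both are ordinary: not `O2` (`Gn`); if `q % 4 ≠ 3` by `mx`; if `q % 4 = 3`: (ordinary, `O1`) and (`O1`, ordinary) are impossible by `MIX` (for the two orders), and (`O1`, `O1`) by `INT3` (4) (`DP q A₁ B₁` is not zero, it is not a square, so not a
`p`-adic square; `DD A B * DP q A₁ B₁` is the square `n²`). `RFX` gives `b`, `x'` and the block `g_a, g_b, g_{a₁}, g_{x'}`. Let `w` be in the list, for `A₂, B₂`; apply `ORT3` to `(u, w)` for `u ∈ {a, b, a₁, x'}`. If `Rf q A B A₂ B₂` then by `tp`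
`(A₂, B₂) = (± A₁, B₁)`, so `w` or `-w` is a root for `A₁, B₁` (`Rt q A₂ B₂ w → Rt q (-A₂) B₂ (-w)`), so it is one of `a₁, ā₁, x', x̄'` and `g_w = ± g_{a₁}` or `± g_{x'}` (`F (-z) = F z`, `F z̄ = - F z`, `LOC3` (4)). In the same way if `Rf q A₁ B₁ A₂ B₂` (with `Rf q A₁ B₁ A B`) `g_w` is
`± g_a` or `± g_b`. Otherwise for each of the four `u` the function `g_w` is `± g_u` or orthogonal to it: if one is `±` we are done, otherwise all four are orthogonal. -/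
def S_PRT3 : Prop := ∀ (v : AbsoluteValue Qb ℝ) (p q : ℕ), Pq p q →
  IsNonarchimedean v → v (p : Qb) < 1 → ∀ S : ℤ → ℤ → Prop, Gd p q S →
  ∀ (x : Qb) (l : List Qb), (∀ y ∈ x :: l, ∃ A B, S A B ∧ Rt q A B y) →
  (∀ σ : Qb ≃ₐ[ℚ] Qb, ((x :: l).map fun y => F q v (σ y)).sum = 0) → Odd l.length →
  ∃ y ∈ l, ∀ σ : Qb ≃ₐ[ℚ] Qb, F q v (σ y) = - F q v (σ x)

def M_PRT3 : Prop := S_LOC3 → S_INT3 → S_ORT3 → S_RFX → S_CMB3 → S_LFN → S_MIX → S_PRT3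

/-- UNT3 (40 lines): `GT2.UNT` for `q = p ^ n`; use `GT2.UNTAux.uni2` and `wn_root` (in `GT2/UNT.lean`). -/
def S_UNT3 : Prop := ∀ (v : AbsoluteValue Qb ℝ) (p q : ℕ), Pq p q →
  IsNonarchimedean v → v (p : Qb) < 1 → ∀ (A B A₁ B₁ : ℤ), W2 q A B →
  W2 q A₁ B₁ → ∀ x y : Qb, Rt q A B x → Rt q A₁ B₁ y →
  (∀ σ : Qb ≃ₐ[ℚ] Qb, F q v (σ y) = - F q v (σ x)) →
  ∃ N : ℕ, 1 ≤ N ∧ (x * y) ^ N = (q : Qb) ^ N

def M_UNT3 : Prop := S_REA → S_UNT3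

/-- PAR3 (150 lines): as `GT2.PAR`, for `q`; `S' = S` or `(A, B) = (0, -4 q)` (`Tr`: `O2`; `Rf` fails as `DP = 0`). -/
def S_PAR3 : Prop := ∀ (p q : ℕ), Pq p q → ∀ S : ℤ → ℤ → Prop, Gd p q S →
  AlmostAll.Par q (AdS q S)

def M_PAR3 : Prop := S_PRT3 → S_UNT3 → S_EXV → S_PAR3

/-- NR27 (100 lines): a finite check as for `11` (`helper30`). -/
def S_NR27 : Prop := ∀ A B A₁ B₁ : ℤ, W2 27 A B → W2 27 A₁ B₁ → (¬ (3 : ℤ) ∣ B ∨ (27 : ℤ) ∣ B ^ 2) →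
  (¬ (3 : ℤ) ∣ B₁ ∨ (27 : ℤ) ∣ B₁ ^ 2) → ¬ Rf 27 A B A₁ B₁

/-- NRN3 (40 lines): the surfaces which are not both ordinary and absolutely simple. PROOF. In a reflex pair both satisfy `Gn`, so both are `O1`, `DP q A₁ B₁ ≠ 0` is not a `p`-adic square, and `INT3` (4) contradicts `n² = DD A B * DP q A₁ B₁`. -/
def S_NRN3 : Prop := ∀ (p q : ℕ), Pq p q → ∀ A B A₁ B₁ : ℤ, Tr p q A B → Tr p q A₁ B₁ →
  ((p : ℤ) ∣ B ∨ IsSquare (DD A B) ∨ IsSquare (DP q A B)) →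
  ((p : ℤ) ∣ B₁ ∨ IsSquare (DD A₁ B₁) ∨ IsSquare (DP q A₁ B₁)) → ¬ Rf q A B A₁ B₁

def M_NRN3 : Prop := S_INT3 → S_NRN3

end

end Pool.Agent.GT3
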