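import Pool.Agent.GT3.St
import Pool.Agent.TJ4.UNI4
import Pool.Agent.TJ4.SLP
import Pool.Agent.TJ4.LOC

/-!
# GT3: opposite slopes determine a number up to roots of unity (helper67)

As `TJ4/UNI4.lean`, for the Weil numbers of abelian surfaces.
-/

set_option autoImplicit false

open Polynomial IntermediateField

namespace Pool.Agent.GT3

open Pool.Agent.GT2

namespace UNTAux

open Pool.Agent.TJ3 Pool.Agent.TJ4

noncomputable section

/-- `a` and `q / a` are algebraic integers of the same absolute values -/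
structure Wn (q : ℕ) (a : Qb) : Prop where
  ne : a ≠ 0
  int : IsIntegral ℤ a
  int' : IsIntegral ℤ ((q : Qb) / a)
  norm : ∀ ι : Qb →+* ℂ, ‖ι a‖ = ‖ι ((q : Qb) / a)‖

theorem Wn.bar {q : ℕ} (hq : q ≠ 0) {a : Qb} (h : Wn q a) : Wn q ((q : Qb) / a) := by
  have hq' : (q : Qb) ≠ 0 := by exact_mod_cast hq
  have e : (q : Qb) / ((q : Qb) / a) = a := by
    have := h.ne
    field_simp
  exact ⟨div_ne_zero hq' h.ne, h.int', by rw [e]; exact h.int, fun ι => by rw [e, h.norm ι]⟩

lemma prod_int (l : List Qb) (hl : ∀ a ∈ l, IsIntegral ℤ a) : IsIntegral ℤ l.prod := by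
  induction l with
  | nil => exact isIntegral_one
  | cons a l ih =>
    rw [List.prod_cons]
    exact (hl a List.mem_cons_self).mul (ih fun b hb => hl b (List.mem_cons_of_mem _ hb))

lemma prod_mul {q : ℕ} (l : List Qb) (hl : ∀ a ∈ l, a ≠ 0) :
    l.prod * (l.map fun a => (q : Qb) / a).prod = (q : Qb) ^ l.length := by
  induction l with
  | nil => simp
  | cons a l ih =>
    have ha : a ≠ 0 := hl a List.mem_cons_self
    have h1 := ih fun b hb => hl b (List.mem_cons_of_mem _ hb)
    rw [List.prod_cons, List.map_cons, List.prod_cons, List.length_cons, pow_succ', ← h1]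
    field_simp

lemma norm_prod {q : ℕ} (ι : Qb →+* ℂ) (l : List Qb) (hl : ∀ a ∈ l, Wn q a) :
    ‖ι l.prod‖ = ‖ι (l.map fun a => (q : Qb) / a).prod‖ := by
  induction l with
  | nil => simp
  | cons a l ih =>
    have h1 := ih fun b hb => hl b (List.mem_cons_of_mem _ hb)
    rw [List.prod_cons, List.map_cons, List.prod_cons, map_mul, map_mul, norm_mul, norm_mul, h1,
      (hl a List.mem_cons_self).norm ι]

/-- a relation of the slope vectors gives a multiplicative relation -/
theorem uni (hSLP : Pool.Agent.TJ4.S_SLP) (hLOC : Pool.Agent.TJ4.S_LOC) (q : ℕ) (v : AbsoluteValue Qb ℝ) (hq : IsPrimePow q)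
    (hv : Ab q v) (l : List Qb) (hl : ∀ a ∈ l, Wn q a)
    (hsum : ∀ σ : Qb ≃ₐ[ℚ] Qb, (l.map fun a => slp q v a σ).sum = 0) :
    ∃ N : ℕ, 1 ≤ N ∧ l.prod ^ N = ((l.map fun a => (q : Qb) / a).prod) ^ N := by
  obtain ⟨hq0, hq1, hint, hbar, P, hP, hpP, hPmem, _⟩ := hSLP q v hq hv
  have hqne : (q : Qb) ≠ 0 := by
    intro h
    rw [h, map_zero] at hq0
    exact lt_irrefl _ hq0
  have hlog : Real.log (v (q : Qb)) ≠ 0 := (Real.log_neg hq0 hq1).ne
  have hl0 : ∀ a ∈ l, a ≠ 0 := fun a ha => (hl a ha).ne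
  have hl' : ∀ a ∈ l.map (fun a => (q : Qb) / a), Wn q a := by
    intro a ha
    obtain ⟨b, hb, rfl⟩ := List.mem_map.1 ha
    exact (hl b hb).bar (by rintro rfl; exact hqne (by simp))
  have hl0' : ∀ a ∈ l.map (fun a => (q : Qb) / a), a ≠ 0 := fun a ha => (hl' a ha).ne
  have hX : IsIntegral ℤ l.prod := prod_int l fun a ha => (hl a ha).int
  have hY : IsIntegral ℤ (l.map fun a => (q : Qb) / a).prod :=
    prod_int _ fun a ha => (hl' a ha).int
  have hmul := prod_mul (q := q) l hl0
  have hX0 := (VAL4_aux.log_prod v 1 l hl0).1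
  have hY0 := (VAL4_aux.log_prod v 1 _ hl0').1
  set Y := (l.map fun a => (q : Qb) / a).prod with hYdef
  set u : Qb := l.prod / Y with hu
  have hYu : Y * u = l.prod := by
    rw [hu]
    field_simp
  -- absolute values
  have hvσ : ∀ σ : Qb ≃ₐ[ℚ] Qb, v (σ u) = 1 := by
    intro σ
    have h1 := VAL4_aux.sum_slp q v σ l hl0
    have h2 := VAL4_aux.sum_slp q v σ _ hl0'
    have h3 : ((l.map (fun a => (q : Qb) / a)).map fun a => slp q v a σ).sum =
        - (l.map fun a => slp q v a σ).sum := by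
      clear h1 h2 hX hY hmul hX0 hYu hu hsum hl hl' hl0'
      clear u
      clear hY0 hYdef
      clear Y
      induction l with
      | nil => simp
      | cons a l ih =>
        rw [List.map_cons, List.map_cons, List.map_cons, List.sum_cons, List.sum_cons,
          ih (fun b hb => hl0 b (List.mem_cons_of_mem _ hb)), hbar a (hl0 a List.mem_cons_self) σ]
        ring
    rw [hsum σ] at h1 h3
    rw [h3, List.length_map, ← hYdef] at h2
    have h4 : Real.log (v (σ l.prod)) / Real.log (v (q : Qb)) =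
        Real.log (v (σ Y)) / Real.log (v (q : Qb)) := by linarith
    have h5 : Real.log (v (σ l.prod)) = Real.log (v (σ Y)) := by
      have h6 := congrArg (fun x => x * Real.log (v (q : Qb))) h4
      simpa [div_mul_cancel₀ _ hlog] using h6
    have h7 : 0 < v (σ l.prod) := v.pos_iff.2 (by rw [Ne, map_eq_zero]; exact hX0)
    have h8 : 0 < v (σ Y) := v.pos_iff.2 (by rw [Ne, map_eq_zero]; exact hY0)
    have h9 : v (σ l.prod) = v (σ Y) := Real.log_injOn_pos h7 h8 h5
    rw [hu, map_div₀, map_div₀ v, h9, div_self h8.ne']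
  -- `u` is integral
  have huint : IsIntegral ℤ u := by
    have h1 : UNI4_aux.I u = ⊤ := by
      by_contra hne
      obtain ⟨M, hM, hIM⟩ := Ideal.exists_le_maximal _ hne
      have hMp := hM.isPrime
      have hpM : ((q.minFac : ℕ) : Zb) ∈ M := by
        have h2 : (⟨Y, hY⟩ : Zb) ∈ M := hIM ((UNI4_aux.mem_I u _).2 ⟨⟨l.prod, hX⟩, hYu⟩)
        have h3 : (q : Zb) ^ l.length ∈ M := by
          have h4 : (q : Zb) ^ l.length = (⟨l.prod, hX⟩ : Zb) * ⟨Y, hY⟩ := by
            apply Subtype.ext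
            rw [SubmonoidClass.coe_pow, MulMemClass.coe_mul]
            show _ = l.prod * Y
            rw [hmul]
            simp
          rw [h4]
          exact M.mul_mem_left _ h2
        have h4 : (q : Zb) ∈ M := hMp.mem_of_pow_mem _ h3
        have h5 : ((q.minFac : ℕ) : Zb) ^ (q.factorization q.minFac) ∈ M := by
          rw [← Nat.cast_pow, hq.minFac_pow_factorization_eq]
          exact h4
        exact hMp.mem_of_pow_mem _ h5
      obtain ⟨τ, hτ⟩ := t_TRN q.minFac P M (Nat.minFac_prime hq.one_lt.ne') hP hMp hpP hpM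
      obtain ⟨s, t, hs, hst⟩ := hLOC v hv.na (τ⁻¹ u) (hvσ τ⁻¹).le
      have hsP : s ∉ P := by
        rw [hPmem, hs]
        exact lt_irrefl _
      have hsint : IsIntegral ℤ (τ (s : Qb)) := s.2.map τ
      have htint : IsIntegral ℤ (τ (t : Qb)) := t.2.map τ
      have hsM : (⟨τ (s : Qb), hsint⟩ : Zb) ∉ M := fun h => hsP ((hτ s _ rfl).2 h)
      apply hsM
      apply hIM
      rw [UNI4_aux.mem_I]
      refine ⟨⟨τ (t : Qb), htint⟩, ?_⟩
      show τ (s : Qb) * u = τ (t : Qb)
      rw [← hst, map_mul]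
      congr 1
      exact (AlgEquiv.apply_symm_apply τ u).symm
    have h2 : (1 : Zb) ∈ UNI4_aux.I u := by
      rw [h1]
      trivial
    obtain ⟨t, ht⟩ := (UNI4_aux.mem_I u 1).1 h2
    rw [OneMemClass.coe_one, one_mul] at ht
    rw [ht]
    exact t.2
  obtain ⟨N, hN, huN⟩ := t_KRO u huint (by
    intro ι
    have h1 := norm_prod ι l hl
    rw [← hYdef] at h1
    rw [hu, map_div₀, norm_div, h1, div_self]
    rw [Ne, norm_eq_zero, map_eq_zero]
    exact hY0)
  refine ⟨N, hN, ?_⟩
  rw [← hYu, mul_pow, huN, mul_one]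

/-- opposite slope vectors: partners -/
theorem uni2 (q : ℕ) (v : AbsoluteValue Qb ℝ) (hq : IsPrimePow q) (hv : Ab q v) (a b : Qb)
    (ha : Wn q a) (hb : Wn q b) (h : ∀ σ : Qb ≃ₐ[ℚ] Qb, slp q v b σ = - slp q v a σ) :
    ∃ M : ℕ, 1 ≤ M ∧ (a * b) ^ M = (q : Qb) ^ M := by
  obtain ⟨N, hN, h1⟩ := uni t_SLP t_LOC q v hq hv [a, b]
    (by
      intro x hx
      rcases List.mem_cons.1 hx with rfl | hx
      · exact ha
      · rw [List.mem_singleton.1 hx]
        exact hb)
    (by
      intro σ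
      simp [h σ])
  refine ⟨2 * N, by omega, ?_⟩
  simp only [List.prod_cons, List.prod_nil, List.map_cons, List.map_nil, mul_one] at h1
  have ha0 := ha.ne
  have hb0 := hb.ne
  have h2 : (a * b) * ((q : Qb) / a * ((q : Qb) / b)) = (q : Qb) ^ 2 := by
    field_simp
  calc (a * b) ^ (2 * N) = (a * b) ^ N * (a * b) ^ N := by ring
    _ = (a * b) ^ N * ((q : Qb) / a * ((q : Qb) / b)) ^ N := by rw [← h1]
    _ = ((a * b) * ((q : Qb) / a * ((q : Qb) / b))) ^ N := (mul_pow _ _ _).symm
    _ = (q : Qb) ^ (2 * N) := by rw [h2, ← pow_mul]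

/-- the absolute values of the roots -/
theorem norm_root (hREA : S_REA) {q : ℕ} (hq : 1 ≤ q) {A B : ℤ} (hW : W2 q A B) {a : Qb}
    (ha : Rt q A B a) (ι : Qb →+* ℂ) : ‖ι a‖ ^ 2 = (q : ℝ) := by
  have hz0 : ι a ≠ 0 := (map_ne_zero_iff ι ι.injective).2 ha.1
  have hβ : ι (a + (q : Qb) / a) = ι a + (q : ℂ) / ι a := by
    rw [map_add, map_div₀, map_natCast]
  have hroot : (ι (a + (q : Qb) / a)) ^ 2 + A * ι (a + (q : Qb) / a) + B = 0 := by
    have h1 := congrArg ι ha.2
    rw [map_add, map_add, map_pow, map_mul, map_intCast, map_intCast, map_zero] at h1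
    exact h1
  obtain ⟨him, hre⟩ := hREA q hq A B hW _ hroot
  set z : ℂ := ι a
  set β : ℂ := ι (a + (q : Qb) / a) with hβd
  have hquad : z ^ 2 - β * z + (q : ℂ) = 0 := by
    rw [hβ]
    field_simp
    ring
  have hr : z.re ^ 2 - z.im ^ 2 - β.re * z.re + (q : ℝ) = 0 := by
    have := congrArg Complex.re hquad
    simp [pow_two, him] at this
    linear_combination this
  have hi : 2 * z.re * z.im - β.re * z.im = 0 := by
    have := congrArg Complex.im hquad
    simp [pow_two, him] at this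
    linear_combination this
  have h3 := Pool.Agent.TJ2.EMB_real z.re z.im β.re q hre hr hi
  rw [Complex.sq_norm, Complex.normSq_apply]
  linear_combination h3

theorem wn_root (hREA : S_REA) {q : ℕ} (hq : 1 ≤ q) {A B : ℤ} (hW : W2 q A B) {a : Qb}
    (ha : Rt q A B a) : Wn q a := by
  have hq' : (q : Qb) ≠ 0 := qne hq
  have hint : ∀ b : Qb, Rt q A B b → IsIntegral ℤ b := by
    intro b hb
    have hb0 := hb.1
    have h1 : IsIntegral ℤ (b + (q : Qb) / b) := by
      refine ⟨X ^ 2 + (C A * X + C B), ?_, ?_⟩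
      · refine monic_X_pow_add (n := 2) ?_
        refine lt_of_le_of_lt (degree_linear_le) ?_
        norm_num
      · rw [eval₂_add, eval₂_add, eval₂_pow, eval₂_mul, eval₂_X, eval₂_C, eval₂_C]
        have := hb.2
        simp only [algebraMap_int_eq, eq_intCast]
        linear_combination this
    -- `b` is integral over the ring generated by `b + q / b`
    have h2 : b ^ 2 = (b + (q : Qb) / b) * b - (q : Qb) := by
      field_simp
      ring
    let R := integralClosure ℤ Qb
    have h3 : IsIntegral R b := by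
      refine ⟨X ^ 2 + (C (-⟨b + (q : Qb) / b, h1⟩ : R) * X + C (q : R)), ?_, ?_⟩
      · refine monic_X_pow_add (n := 2) ?_
        refine lt_of_le_of_lt (degree_linear_le) ?_
        norm_num
      · rw [eval₂_add, eval₂_add, eval₂_pow, eval₂_mul, eval₂_X, eval₂_C, eval₂_C, map_neg,
          map_natCast]
        have h4 : algebraMap R Qb ⟨b + (q : Qb) / b, h1⟩ = b + (q : Qb) / b := rfl
        rw [h4]
        linear_combination h2
    exact isIntegral_trans b h3
  have hn : ∀ ι : Qb →+* ℂ, ‖ι a‖ = ‖ι ((q : Qb) / a)‖ := by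
    intro ι
    have h1 := norm_root hREA hq hW ha ι
    have h2 := norm_root hREA hq hW (ha.bar hq) ι
    have h3 := h1.trans h2.symm
    exact (pow_left_inj₀ (norm_nonneg _) (norm_nonneg _) two_ne_zero).1 h3
  exact ⟨ha.1, hint a ha, hint _ (ha.bar hq), hn⟩

end

end UNTAux

end Pool.Agent.GT3
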